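import Pool.Agent.helper1.LI.Defs

/-!
[LI-Sep] `Dp h0` is separable of degree `2 g + 1`.
-/

set_option autoImplicit false

namespace LIF

open Polynomial

theorem good_natDegree {p g : ℕ} [Fact p.Prime] {h0 : (ZMod p)[X]} (h : Good p g h0) :
    (Dp h0).natDegree = 2 * g + 1 := by
  have h1 : (1 - X : (ZMod p)[X]) ≠ 0 := by
    intro h'
    have := congrArg (fun q => q.coeff 1) h'
    simp [coeff_one, coeff_X] at this
  have hd : (1 - X : (ZMod p)[X]).natDegree = 1 := by
    rw [show (1 - X : (ZMod p)[X]) = -(X - C 1) by simp, natDegree_neg, natDegree_X_sub_C]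
  unfold Dp
  rw [natDegree_mul h1 h.mon.ne_zero, hd, h.deg]
  ring

theorem good_separable {p g : ℕ} [Fact p.Prime] {h0 : (ZMod p)[X]} (h : Good p g h0) :
    (Dp h0).Separable := by
  have hx : Irreducible (X - C 1 : (ZMod p)[X]) := irreducible_X_sub_C 1
  have e : Dp h0 = -((X - C 1) * h0) := by
    unfold Dp
    rw [C_1]; ring
  have hco : IsCoprime (X - C 1 : (ZMod p)[X]) h0 := by
    rw [hx.coprime_iff_not_dvd]
    intro hd
    have := (hx.dvd_irreducible_iff_associated h.irr).mp hd
    have hdeg := natDegree_eq_of_degree_eq (degree_eq_degree_of_associated this)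
    rw [natDegree_X_sub_C, h.deg] at hdeg
    omega
  have hs : ((X - C 1) * h0 : (ZMod p)[X]).Separable :=
    Separable.mul (separable_X_sub_C) (PerfectField.separable_of_irreducible h.irr) hco
  rw [e]
  have : (-((X - C 1) * h0) : (ZMod p)[X]) = C (-1) * ((X - C 1) * h0) := by simp
  rw [this]
  exact (hs.unit_mul (isUnit_C.mpr (isUnit_one.neg)))

end LIF
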