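import Mathlib

/-!
[LI-Val] A valuation above `p` on a field of characteristic zero (imports Mathlib only).

* `exists_val`: apply `Ideal.image_subset_nonunits_valuationSubring`
  (`Mathlib/RingTheory/Valuation/LocalSubring.lean`) to the subring `A0 = ℤ` of `E`
  (`(Int.castRingHom E).range` or `⊥`) and the ideal generated by `p`, which is not the unit ideal
  since `1 = p a`, `a ∈ ℤ` is impossible in characteristic `0`.
  `x ∈ nonunits` iff `valuation x < 1` (`ValuationSubring.valuation_lt_one_iff`/`mem_nonunits_iff`).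
* `val_int_le`: integers lie in every valuation subring.
* `val_le_one`: an element integral over `ℤ` lies in every valuation subring (integrally closed:
  `ValuationSubring` has `IsIntegrallyClosed`; or directly: if `v x > 1` then in
  `x^n = - ∑_{i<n} c_i x^i` the left side has strictly larger valuation than every term on the
  right).
* `val_int_dvd`: if `p ∣ c` then `v c ≤ v p`.
* `val_int_unit`: if `p ∤ c` then `v c = 1` (`a c + b p = 1`, so `v c ≥ 1`: otherwise
  `v(a c + b p) < 1`).
-/

set_option autoImplicit false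

namespace LIF

variable {E : Type*} [Field E]

theorem exists_val [CharZero E] (p : ℕ) [Fact p.Prime] :
    ∃ A : ValuationSubring E, A.valuation (p : E) < 1 := by
  let A0 : Subring E := (Int.castRingHom E).range
  let π : A0 := ⟨(p : E), ⟨(p : ℤ), by simp⟩⟩
  have hne : Ideal.span {π} ≠ ⊤ := by
    intro h
    rw [Ideal.span_singleton_eq_top] at h
    obtain ⟨⟨b, ⟨n, hn⟩⟩, hb⟩ := h.exists_right_inv
    have h1 : (p : E) * b = 1 := congrArg Subtype.val hb
    rw [← hn] at h1
    have h2 : (((p : ℤ) * n : ℤ) : E) = ((1 : ℤ) : E) := by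
      push_cast
      simpa using h1
    have h3 : (p : ℤ) * n = 1 := by exact_mod_cast h2
    have h4 : (p : ℤ) ∣ 1 := ⟨n, h3.symm⟩
    have h5 : p ∣ 1 := by exact_mod_cast h4
    exact (Fact.out : p.Prime).one_lt.ne' (Nat.dvd_one.1 h5)
  obtain ⟨B, _, hB2⟩ := Ideal.image_subset_nonunits_valuationSubring (A := A0) (Ideal.span {π}) hne
  exact ⟨B, (ValuationSubring.mem_nonunits_iff B).1 (hB2 ⟨π, Ideal.subset_span rfl, rfl⟩)⟩

theorem val_int_le (A : ValuationSubring E) (c : ℤ) : A.valuation (c : E) ≤ 1 :=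
  (A.valuation_le_one_iff _).2 (intCast_mem A c)

theorem val_le_one (A : ValuationSubring E) {x : E} (hx : IsIntegral ℤ x) :
    A.valuation x ≤ 1 := by
  have h1 : IsIntegral A x := hx.tower_top
  obtain ⟨y, hy⟩ := (IsIntegrallyClosed.isIntegral_iff (R := A) (K := E)).1 h1
  rw [← hy]
  exact A.valuation_le_one y

theorem val_int_dvd (A : ValuationSubring E) {p : ℕ} {c : ℤ} (h : (p : ℤ) ∣ c) :
    A.valuation (c : E) ≤ A.valuation (p : E) := by
  obtain ⟨d, rfl⟩ := h
  rw [Int.cast_mul, map_mul, Int.cast_natCast]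
  exact mul_le_of_le_one_right' (val_int_le A d)

theorem val_int_unit (A : ValuationSubring E) {p : ℕ} [Fact p.Prime]
    (hp : A.valuation (p : E) < 1) {c : ℤ} (h : ¬ (p : ℤ) ∣ c) : A.valuation (c : E) = 1 := by
  refine le_antisymm (val_int_le A c) ?_
  by_contra hlt
  rw [not_le] at hlt
  have hpr : Prime (p : ℤ) := Nat.prime_iff_prime_int.1 Fact.out
  have hco : IsCoprime (p : ℤ) c := (Prime.coprime_iff_not_dvd hpr).2 h
  obtain ⟨u, w, huw⟩ := hco
  have h1 : ((u : E) * (p : E) + (w : E) * (c : E)) = 1 := by exact_mod_cast congrArg (Int.cast : ℤ → E) huw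
  have h2 : A.valuation ((u : E) * (p : E)) < 1 := by
    rw [map_mul]
    exact lt_of_le_of_lt (mul_le_of_le_one_left' (val_int_le A u)) hp
  have h3 : A.valuation ((w : E) * (c : E)) < 1 := by
    rw [map_mul]
    exact lt_of_le_of_lt (mul_le_of_le_one_left' (val_int_le A w)) hlt
  have h4 := lt_of_le_of_lt (A.valuation.map_add _ _) (max_lt h2 h3)
  rw [h1, map_one] at h4
  exact lt_irrefl _ h4

end LIF
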