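import Pool.Agent.helper1.LI.Defs

/-!
[LI-Km] Elementary facts on the finite sets `Km p m ⊂ AlgebraicClosure (ZMod p)` and on the
polynomials `Mp m x`.

Write `K = AlgebraicClosure (ZMod p)`, `x ∈ K`, `e = natDegree (minpoly (ZMod p) x) ≥ 1`.
* `mem_Km`: `X ^ (p ^ m) - X ≠ 0` for `m ≥ 1` (degree `p^m > 1`), roots.
* `card_Km`: `X ^ (p ^ m) - X` is separable (`galois_poly_separable`) and splits, so it has
  `p ^ m` distinct roots.
* `minpoly_map`: `minpoly x` mapped to `K` is `∏_{i < e} (X - x^(p^i))`: the field `F_p(x)` has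
  `p^e` elements, so `x^(p^e) = x`, and `x, x^p, ..., x^(p^(e-1))` are pairwise distinct roots of
  `minpoly x` (Frobenius; if `x^(p^i) = x^(p^j)`, `i < j < e`, then `x^(p^(j-i)) = x` by
  injectivity of Frobenius, so `F_p(x)` is contained in the set of roots of `X^(p^(j-i)) - X`,
  which has at most `p^(j-i) < p^e` elements).  A monic polynomial of degree `e` with `e` distinct
  roots is the product.
* `mem_Km_iff_dvd`: `x ∈ Km p m ↔ e ∣ m` (`m ≥ 1`): if `e ∣ m` iterate `x^(p^e) = x`; conversely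
  if `x^(p^m) = x`, divide `m = a e + b`, `b < e`, then `x^(p^b) = x`, so `b = 0`.
* `Mp_map`: for `x ∈ Km p m`: `Mp m x = (minpoly x)^(m/e)` and the product over `i < m` of
  `X - x^(p^i)` is `(m/e)` times the period (`Finset.prod_range` with `x^(p^(i+e)) = x^(p^i)`).
* `Mp_monic`, `Mp_natDegree`: `(m/e) * e = m`.
-/

set_option autoImplicit false

namespace LIF

open Polynomial

variable {p : ℕ} [Fact p.Prime]

/-- the iterated Frobenius as a homomorphism of algebras -/
noncomputable def Km_phi (i : ℕ) :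
    AlgebraicClosure (ZMod p) →ₐ[ZMod p] AlgebraicClosure (ZMod p) :=
  { iterateFrobenius (AlgebraicClosure (ZMod p)) p i with
    commutes' := fun r => RingHom.congr_fun (Subsingleton.elim
      ((iterateFrobenius (AlgebraicClosure (ZMod p)) p i).comp (algebraMap (ZMod p) _))
      (algebraMap (ZMod p) _)) r }

theorem Km_phi_apply (i : ℕ) (x : AlgebraicClosure (ZMod p)) : Km_phi i x = x ^ (p ^ i) :=
  iterateFrobenius_def p i x

theorem Km_int (x : AlgebraicClosure (ZMod p)) : IsIntegral (ZMod p) x :=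
  Algebra.IsIntegral.isIntegral x

theorem Km_deg_pos (x : AlgebraicClosure (ZMod p)) : 1 ≤ (minpoly (ZMod p) x).natDegree :=
  minpoly.natDegree_pos (Km_int x)

theorem mem_Km {m : ℕ} (hm : 1 ≤ m) {x : AlgebraicClosure (ZMod p)} :
    x ∈ Km p m ↔ x ^ (p ^ m) = x := by
  classical
  have h0 : (X ^ (p ^ m) - X : (AlgebraicClosure (ZMod p))[X]) ≠ 0 :=
    FiniteField.X_pow_card_pow_sub_X_ne_zero _ (by omega) (Fact.out : p.Prime).one_lt
  unfold Km
  rw [Multiset.mem_toFinset, mem_roots h0, IsRoot.def, eval_sub, eval_pow, eval_X, sub_eq_zero]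

theorem card_Km {m : ℕ} (hm : 1 ≤ m) : (Km p m).card = p ^ m := by
  classical
  have hsep : (X ^ (p ^ m) - X : (AlgebraicClosure (ZMod p))[X]).Separable :=
    galois_poly_separable p (p ^ m) (dvd_pow_self p (by omega))
  have hnd := nodup_roots hsep
  have hc := splits_iff_card_roots.1
    (IsAlgClosed.splits (X ^ (p ^ m) - X : (AlgebraicClosure (ZMod p))[X]))
  unfold Km
  rw [Multiset.toFinset_card_of_nodup hnd, hc]
  exact FiniteField.X_pow_card_pow_sub_X_natDegree_eq _ (by omega) (Fact.out : p.Prime).one_lt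

/-- the field generated by an element of degree e has p^e elements -/
theorem Km_card_adjoin (x : AlgebraicClosure (ZMod p)) :
    Nat.card (IntermediateField.adjoin (ZMod p) {x}) =
      p ^ (minpoly (ZMod p) x).natDegree := by
  have := IntermediateField.adjoin.finiteDimensional (Km_int x)
  rw [Module.natCard_eq_pow_finrank (K := ZMod p), IntermediateField.adjoin.finrank (Km_int x),
    Nat.card_zmod]

theorem Km_pow_deg (x : AlgebraicClosure (ZMod p)) :
    x ^ (p ^ (minpoly (ZMod p) x).natDegree) = x := by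
  have := IntermediateField.adjoin.finiteDimensional (Km_int x)
  have : Finite (IntermediateField.adjoin (ZMod p) {x}) := Module.finite_of_finite (ZMod p)
  have : Fintype (IntermediateField.adjoin (ZMod p) {x}) := Fintype.ofFinite _
  have h1 := FiniteField.pow_card
    (⟨x, IntermediateField.mem_adjoin_simple_self (ZMod p) x⟩ :
      IntermediateField.adjoin (ZMod p) {x})
  rw [← Nat.card_eq_fintype_card, Km_card_adjoin x] at h1
  have h2 := congrArg Subtype.val h1
  simpa using h2

theorem Km_iter {x : AlgebraicClosure (ZMod p)} {d : ℕ} (h : x ^ (p ^ d) = x) (q : ℕ) :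
    x ^ (p ^ (d * q)) = x := by
  induction q with
  | zero => simp
  | succ q ih => rw [Nat.mul_succ, pow_add, pow_mul, ih, h]

theorem Km_fix_adjoin {x : AlgebraicClosure (ZMod p)} {d : ℕ} (h : x ^ (p ^ d) = x)
    {y : AlgebraicClosure (ZMod p)} (hy : y ∈ IntermediateField.adjoin (ZMod p) {x}) :
    y ^ (p ^ d) = y := by
  rw [← Km_phi_apply]
  refine IntermediateField.adjoin_induction (ZMod p) (s := {x}) (p := fun y _ => Km_phi d y = y)
    ?_ ?_ ?_ ?_ ?_ hy
  · intro z hz
    rw [Set.mem_singleton_iff] at hz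
    rw [hz, Km_phi_apply, h]
  · intro r
    exact AlgHom.commutes _ r
  · intro a b _ _ ha hb
    rw [map_add, ha, hb]
  · intro a _ ha
    rw [map_inv₀, ha]
  · intro a b _ _ ha hb
    rw [map_mul, ha, hb]

theorem Km_deg_le {x : AlgebraicClosure (ZMod p)} {d : ℕ} (hd : 1 ≤ d) (h : x ^ (p ^ d) = x) :
    (minpoly (ZMod p) x).natDegree ≤ d := by
  have h1 : Nat.card (IntermediateField.adjoin (ZMod p) {x}) ≤ Nat.card (Km p d) := by
    apply Nat.card_le_card_of_injective
      (fun y : IntermediateField.adjoin (ZMod p) {x} =>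
        (⟨y.1, (mem_Km hd).2 (Km_fix_adjoin h y.2)⟩ : Km p d))
    intro a b hab
    have h2 := (Subtype.mk.injEq _ _ _ _).mp hab
    exact Subtype.ext h2
  rw [Km_card_adjoin, Nat.card_eq_fintype_card, Fintype.card_coe, card_Km hd] at h1
  exact (Nat.pow_le_pow_iff_right (Fact.out : p.Prime).one_lt).1 h1

theorem Km_inj {x y : AlgebraicClosure (ZMod p)} {i : ℕ} (h : x ^ (p ^ i) = y ^ (p ^ i)) :
    x = y := by
  rw [← Km_phi_apply, ← Km_phi_apply] at h
  exact (Km_phi i).toRingHom.injective h

theorem Km_ne {x : AlgebraicClosure (ZMod p)} {i j : ℕ} (hij : i < j)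
    (hj : j < (minpoly (ZMod p) x).natDegree) : x ^ (p ^ i) ≠ x ^ (p ^ j) := by
  intro h
  have h1 : x ^ (p ^ (j - i)) = x := by
    apply Km_inj (i := i)
    rw [← pow_mul, ← pow_add, Nat.sub_add_cancel hij.le]
    exact h.symm
  have h2 := Km_deg_le (by omega) h1
  omega

theorem minpoly_map (x : AlgebraicClosure (ZMod p)) :
    (minpoly (ZMod p) x).map (algebraMap (ZMod p) (AlgebraicClosure (ZMod p))) =
      ∏ i ∈ Finset.range (minpoly (ZMod p) x).natDegree, (X - C (x ^ (p ^ i))) := by
  have hmon : ((minpoly (ZMod p) x).map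
      (algebraMap (ZMod p) (AlgebraicClosure (ZMod p)))).Monic :=
    (minpoly.monic (Km_int x)).map _
  have hmon2 : (∏ i ∈ Finset.range (minpoly (ZMod p) x).natDegree,
      (X - C (x ^ (p ^ i)))).Monic := monic_prod_of_monic _ _ (fun i _ => monic_X_sub_C _)
  apply eq_of_monic_of_dvd_of_natDegree_le hmon2 hmon
  · apply Finset.prod_dvd_of_coprime
    · intro i hi j hj hij
      apply isCoprime_X_sub_C_of_isUnit_sub
      rw [isUnit_iff_ne_zero, sub_ne_zero]
      rw [Finset.coe_range, Set.mem_Iio] at hi hj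
      rcases lt_or_gt_of_ne hij with h | h
      · exact Km_ne h hj
      · exact (Km_ne h hi).symm
    · intro i _
      rw [dvd_iff_isRoot, IsRoot.def, eval_map_algebraMap, ← Km_phi_apply,
        aeval_algHom_apply, minpoly.aeval, map_zero]
  · rw [natDegree_map, natDegree_prod_of_monic _ _ (fun i _ => monic_X_sub_C _),
      Finset.sum_congr rfl (fun i _ => natDegree_X_sub_C (x ^ (p ^ i)))]
    simp

theorem mem_Km_iff_dvd {m : ℕ} (hm : 1 ≤ m) {x : AlgebraicClosure (ZMod p)} :
    x ∈ Km p m ↔ (minpoly (ZMod p) x).natDegree ∣ m := by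
  rw [mem_Km hm]
  constructor
  · intro h
    by_contra hnd
    have hpos := Km_deg_pos x
    have hlt : m % (minpoly (ZMod p) x).natDegree < (minpoly (ZMod p) x).natDegree :=
      Nat.mod_lt _ hpos
    have hb : 1 ≤ m % (minpoly (ZMod p) x).natDegree := by
      rcases Nat.eq_zero_or_pos (m % (minpoly (ZMod p) x).natDegree) with h0 | h0
      · exact absurd (Nat.dvd_of_mod_eq_zero h0) hnd
      · exact h0
    have h1 : x ^ (p ^ (m % (minpoly (ZMod p) x).natDegree)) = x := by
      have h2 := Nat.div_add_mod m (minpoly (ZMod p) x).natDegree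
      have h3 : x ^ (p ^ ((minpoly (ZMod p) x).natDegree *
          (m / (minpoly (ZMod p) x).natDegree) + m % (minpoly (ZMod p) x).natDegree)) = x := by
        rw [h2]
        exact h
      rwa [pow_add, pow_mul, Km_iter (Km_pow_deg x)] at h3
    have h4 := Km_deg_le hb h1
    omega
  · rintro ⟨q, hq⟩
    rw [hq]
    exact Km_iter (Km_pow_deg x) q

theorem Km_prod {x : AlgebraicClosure (ZMod p)} {e : ℕ} (h : x ^ (p ^ e) = x) (q : ℕ) :
    (∏ i ∈ Finset.range e, (X - C (x ^ (p ^ i)))) ^ q =
      ∏ i ∈ Finset.range (e * q), (X - C (x ^ (p ^ i))) := by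
  induction q with
  | zero => simp
  | succ q ih =>
    rw [pow_succ, ih, Nat.mul_succ, Finset.prod_range_add]
    congr 1
    apply Finset.prod_congr rfl
    intro i _
    rw [pow_add p (e * q) i, pow_mul, Km_iter h]

theorem Mp_map {m : ℕ} (hm : 1 ≤ m) {x : AlgebraicClosure (ZMod p)} (hx : x ∈ Km p m) :
    (Mp m x).map (algebraMap (ZMod p) (AlgebraicClosure (ZMod p))) =
      ∏ i ∈ Finset.range m, (X - C (x ^ (p ^ i))) := by
  have hd := (mem_Km_iff_dvd hm).1 hx
  unfold Mp
  rw [Polynomial.map_pow, minpoly_map, Km_prod (Km_pow_deg x), Nat.mul_div_cancel' hd]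

theorem Mp_monic (m : ℕ) (x : AlgebraicClosure (ZMod p)) : (Mp m x).Monic :=
  (minpoly.monic (Km_int x)).pow _

theorem Mp_natDegree {m : ℕ} (hm : 1 ≤ m) {x : AlgebraicClosure (ZMod p)} (hx : x ∈ Km p m) :
    (Mp m x).natDegree = m := by
  have hd := (mem_Km_iff_dvd hm).1 hx
  unfold Mp
  rw [natDegree_pow, Nat.div_mul_cancel hd]

end LIF
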