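import Pool.Agent.helper1.LI.Defs

/-!
[LI-Mon] Elementary facts on the finite sets `Mon p d` (monic polynomials of degree `d`) and
`Low p d` (polynomials of degree `< d`) over `ZMod p`.

Proofs.  `mem_Mon`, `mem_Low`: unfold; a polynomial of degree `< d` is the sum of its monomials
(`Polynomial.as_sum_range_C_mul_X_pow'`, or `Polynomial.ext` with `finset_sum_coeff`).
`card_*`: the maps `c ↦ ...` are injective (compare coefficients), `Finset.card_image_of_injective`,
`Fintype.card_fun`, `ZMod.card`.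
`sum_Mon_eq`: `r ↦ X ^ d + r` is a bijection `Low p d → Mon p d`.
`sum_Low_succ`: `Low p (d + 1)` is the disjoint union of `Low p d` and of the sets `c • Mon p d`,
`c` a unit (leading coefficient); bijection from `Σ c, Mon p d`.
`sum_Mon_root`: `h(1) = 0` iff `X - 1 ∣ h`; `h = (X - 1) h'` with `h'` monic of degree `d`
(`Polynomial.dvd_iff_isRoot`).
`sum_Mon_ch`: for `d ≥ 1` the value `h(1)` is equidistributed on `Mon p d`: add the constant `c`:
`h ↦ h + C c` permutes `Mon p d`, so `p * ∑_h φ(h(1)) = ∑_h ∑_c φ(h(1) + c) = p ^ d ∑_c φ(c)`;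
as the sum `∑_c φ(c)` is zero the claim follows (work in ℤ and cancel `p`).
-/

set_option autoImplicit false

namespace LIF

open Polynomial

variable {p : ℕ} [Fact p.Prime]

theorem Mon_coeff {d : ℕ} (c : Fin d → ZMod p) (n : ℕ) :
    (∑ i : Fin d, C (c i) * X ^ (i : ℕ) : (ZMod p)[X]).coeff n =
      if h : n < d then c ⟨n, h⟩ else 0 := by
  rw [finsetSum_coeff]
  simp only [coeff_C_mul_X_pow]
  split_ifs with h
  · rw [Finset.sum_eq_single (⟨n, h⟩ : Fin d)]
    · simp
    · intro b _ hb
      rw [if_neg]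
      rintro rfl
      exact hb rfl
    · intro hb
      exact absurd (Finset.mem_univ _) hb
  · refine Finset.sum_eq_zero (fun i _ => ?_)
    rw [if_neg]
    intro h1
    exact h (h1 ▸ i.2)

theorem Mon_inj {d : ℕ} :
    Function.Injective (fun c : Fin d → ZMod p => (∑ i : Fin d, C (c i) * X ^ (i : ℕ) : (ZMod p)[X])) := by
  intro c c' h
  funext i
  have h1 := congrArg (fun q : (ZMod p)[X] => q.coeff (i : ℕ)) h
  simp only [Mon_coeff, i.2, dif_pos] at h1
  exact h1

theorem mem_Mon {d : ℕ} {h : (ZMod p)[X]} : h ∈ Mon p d ↔ h.Monic ∧ h.natDegree = d := by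
  classical
  unfold Mon
  simp only [Finset.mem_image, Finset.mem_univ, true_and]
  constructor
  · rintro ⟨c, rfl⟩
    have hdeg := degree_sum_fin_lt c
    refine ⟨monic_X_pow_add hdeg, ?_⟩
    rw [natDegree_add_eq_left_of_degree_lt (by rw [degree_X_pow]; exact hdeg), natDegree_X_pow]
  · rintro ⟨hm, hd⟩
    refine ⟨fun i => h.coeff i, ?_⟩
    have h1 := hm.as_sum
    rw [hd] at h1
    rw [Fin.sum_univ_eq_sum_range (fun i => C (h.coeff i) * X ^ i) d]
    exact h1.symm

theorem mem_Low {d : ℕ} {h : (ZMod p)[X]} : h ∈ Low p d ↔ h.degree < d := by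
  classical
  unfold Low
  simp only [Finset.mem_image, Finset.mem_univ, true_and]
  constructor
  · rintro ⟨c, rfl⟩
    exact degree_sum_fin_lt c
  · intro hd
    refine ⟨fun i => h.coeff i, ?_⟩
    ext n
    rw [Mon_coeff]
    split_ifs with hn
    · rfl
    · refine (coeff_eq_zero_of_degree_lt (lt_of_lt_of_le hd ?_)).symm
      exact_mod_cast not_lt.mp hn

theorem card_Mon (d : ℕ) : (Mon p d).card = p ^ d := by
  classical
  unfold Mon
  rw [Finset.card_image_of_injective, Finset.card_univ, Fintype.card_fun, ZMod.card,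
    Fintype.card_fin]
  intro c c' h
  exact Mon_inj (add_left_cancel h)

theorem card_Low (d : ℕ) : (Low p d).card = p ^ d := by
  classical
  unfold Low
  rw [Finset.card_image_of_injective, Finset.card_univ, Fintype.card_fun, ZMod.card,
    Fintype.card_fin]
  exact Mon_inj

theorem sum_Mon_eq {M : Type*} [AddCommMonoid M] (φ : (ZMod p)[X] → M) (d : ℕ) :
    ∑ h ∈ Mon p d, φ h = ∑ r ∈ Low p d, φ (X ^ d + r) := by
  classical
  unfold Mon Low
  rw [Finset.sum_image (fun c _ c' _ h => Mon_inj (add_left_cancel h)),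
    Finset.sum_image (fun c _ c' _ h => Mon_inj h)]

theorem sum_Low_succ {M : Type*} [AddCommMonoid M] (φ : (ZMod p)[X] → M) (d : ℕ) :
    ∑ r ∈ Low p (d + 1), φ r =
      ∑ r ∈ Low p d, φ r + ∑ c : (ZMod p)ˣ, ∑ h ∈ Mon p d, φ (C (c : ZMod p) * h) := by
  classical
  have hsplit := Finset.sum_filter_add_sum_filter_not (Low p (d + 1))
    (fun r : (ZMod p)[X] => r.coeff d = 0) φ
  rw [← hsplit]
  congr 1
  · refine Finset.sum_congr ?_ (fun _ _ => rfl)
    ext r
    rw [Finset.mem_filter, mem_Low, mem_Low]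
    constructor
    · rintro ⟨h1, h2⟩
      rw [degree_lt_iff_coeff_zero] at h1 ⊢
      intro n hn
      rcases Nat.lt_or_ge d n with h3 | h3
      · exact h1 n h3
      · have : n = d := by omega
        rw [this]; exact h2
    · intro h1
      refine ⟨lt_trans h1 (by exact_mod_cast Nat.lt_succ_self d), ?_⟩
      exact coeff_eq_zero_of_degree_lt h1
  · rw [← Finset.sum_product']
    symm
    refine Finset.sum_bij (fun x _ => C ((x.1 : (ZMod p)ˣ) : ZMod p) * x.2) ?_ ?_ ?_ ?_
    · rintro ⟨c, h⟩ hx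
      have hh := (Finset.mem_product.mp hx).2
      rw [mem_Mon] at hh
      simp only at hh
      rw [Finset.mem_filter, mem_Low]
      have hcoeff : (C (c : ZMod p) * h).coeff d = c := by
        rw [coeff_C_mul]
        have h1 : h.coeff d = 1 := by
          have := hh.1.coeff_natDegree
          rwa [hh.2] at this
        rw [h1, mul_one]
      refine ⟨?_, ?_⟩
      · rw [degree_lt_iff_coeff_zero]
        intro n hn
        have hh2 : h.natDegree = d := hh.2
        change (C (c : ZMod p) * h).coeff n = 0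
        rw [coeff_C_mul, coeff_eq_zero_of_natDegree_lt (by rw [hh2]; omega), mul_zero]
      · change ¬ (C (c : ZMod p) * h).coeff d = 0
        rw [hcoeff]
        exact c.ne_zero
    · rintro ⟨c, h⟩ hx ⟨c', h'⟩ hx' heq
      have hh := (Finset.mem_product.mp hx).2
      have hh' := (Finset.mem_product.mp hx').2
      rw [mem_Mon] at hh hh'
      simp only at hh hh' heq
      have h1 : h.coeff d = 1 := by
        have := hh.1.coeff_natDegree
        rwa [hh.2] at this
      have h1' : h'.coeff d = 1 := by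
        have := hh'.1.coeff_natDegree
        rwa [hh'.2] at this
      have h2 := congrArg (fun q : (ZMod p)[X] => q.coeff d) heq
      simp only [coeff_C_mul, h1, h1', mul_one] at h2
      have hc : c = c' := Units.ext h2
      subst hc
      have h3 : (C (c : ZMod p) : (ZMod p)[X]) ≠ 0 := by
        rw [Ne, C_eq_zero]
        exact c.ne_zero
      rw [mul_left_cancel₀ h3 heq]
    · intro r hr
      rw [Finset.mem_filter, mem_Low] at hr
      obtain ⟨hr1, hr2⟩ := hr
      have hr2' : r.coeff d ≠ 0 := hr2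
      have hnd : r.natDegree = d := by
        refine le_antisymm ?_ (le_natDegree_of_ne_zero hr2')
        rw [natDegree_le_iff_coeff_eq_zero]
        intro n hn
        rw [degree_lt_iff_coeff_zero] at hr1
        exact hr1 n hn
      have hlc : r.leadingCoeff = r.coeff d := by rw [leadingCoeff, hnd]
      refine ⟨(Units.mk0 (r.coeff d) hr2', C (r.coeff d)⁻¹ * r), ?_, ?_⟩
      · rw [Finset.mem_product, mem_Mon]
        refine ⟨Finset.mem_univ _, ?_, ?_⟩
        · refine monic_C_mul_of_mul_leadingCoeff_eq_one ?_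
          rw [hlc, inv_mul_cancel₀ hr2']
        · change (C (r.coeff d)⁻¹ * r).natDegree = d
          rw [natDegree_C_mul (inv_ne_zero hr2'), hnd]
      · change C (r.coeff d) * (C (r.coeff d)⁻¹ * r) = r
        rw [← mul_assoc, ← C_mul, mul_inv_cancel₀ hr2', C_1, one_mul]
    · intro x _
      rfl

theorem sum_Mon_root {M : Type*} [AddCommMonoid M] (φ : (ZMod p)[X] → M) (d : ℕ) :
    ∑ h ∈ (Mon p (d + 1)).filter (fun h => h.eval 1 = 0), φ h =
      ∑ h ∈ Mon p d, φ ((X - 1) * h) := by
  symm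
  have hX : (X - 1 : (ZMod p)[X]) = X - C 1 := by rw [C_1]
  have hXm : (X - 1 : (ZMod p)[X]).Monic := by rw [hX]; exact monic_X_sub_C 1
  have hXd : (X - 1 : (ZMod p)[X]).natDegree = 1 := by rw [hX]; exact natDegree_X_sub_C 1
  refine Finset.sum_bij (fun h _ => (X - 1) * h) ?_ ?_ ?_ ?_
  · intro h hh
    rw [mem_Mon] at hh
    rw [Finset.mem_filter, mem_Mon]
    refine ⟨⟨hXm.mul hh.1, ?_⟩, by simp⟩
    rw [hXm.natDegree_mul hh.1, hXd, hh.2, add_comm]
  · intro h _ h' _ heq
    exact mul_left_cancel₀ hXm.ne_zero heq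
  · intro h hh
    rw [Finset.mem_filter, mem_Mon] at hh
    obtain ⟨⟨hm, hd⟩, hr⟩ := hh
    have hdvd : (X - 1 : (ZMod p)[X]) ∣ h := by
      rw [hX]
      exact dvd_iff_isRoot.mpr hr
    obtain ⟨h', rfl⟩ := hdvd
    have hm' : h'.Monic := hXm.of_mul_monic_left hm
    refine ⟨h', ?_, rfl⟩
    rw [mem_Mon]
    refine ⟨hm', ?_⟩
    rw [hXm.natDegree_mul hm', hXd] at hd
    omega
  · intro h _
    rfl

theorem sum_Mon_ch {φ : ZMod p → ℤ} (hφ : ∑ c, φ c = 0) {d : ℕ} (hd : 1 ≤ d) :
    ∑ h ∈ Mon p d, φ (h.eval 1) = 0 := by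
  have hshift : ∀ (c : ZMod p) (h : (ZMod p)[X]), h ∈ Mon p d → h + C c ∈ Mon p d := by
    intro c h hh
    rw [mem_Mon] at hh ⊢
    obtain ⟨hm, hdg⟩ := hh
    have hlt : (C c : (ZMod p)[X]).degree < h.degree := by
      rw [degree_eq_natDegree hm.ne_zero, hdg]
      refine lt_of_le_of_lt degree_C_le ?_
      exact_mod_cast hd
    exact ⟨hm.add_of_left hlt, by rw [natDegree_add_eq_left_of_degree_lt hlt, hdg]⟩
  have h1 : ∀ c : ZMod p, ∑ h ∈ Mon p d, φ (h.eval 1 + c) = ∑ h ∈ Mon p d, φ (h.eval 1) := by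
    intro c
    refine Finset.sum_nbij' (fun h => h + C c) (fun h => h - C c) ?_ ?_ ?_ ?_ ?_
    · exact fun h hh => hshift c h hh
    · intro h hh
      have := hshift (-c) h hh
      rwa [C_neg, ← sub_eq_add_neg] at this
    · intro h _; simp
    · intro h _; simp
    · intro h _; simp
  have h2 : ∑ c : ZMod p, ∑ h ∈ Mon p d, φ (h.eval 1 + c) = 0 := by
    rw [Finset.sum_comm]
    refine Finset.sum_eq_zero (fun h _ => ?_)
    rw [← hφ]
    exact Fintype.sum_equiv (Equiv.addLeft (h.eval 1)) _ _ (fun c => rfl)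
  rw [Finset.sum_congr rfl (fun c _ => h1 c), Finset.sum_const, Finset.card_univ, ZMod.card,
    nsmul_eq_mul] at h2
  rcases mul_eq_zero.mp h2 with h3 | h3
  · exfalso
    have hp := (Fact.out : p.Prime).ne_zero
    exact hp (by exact_mod_cast h3)
  · exact h3

end LIF
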