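import Pool.Agent.helper1.LI.Km

/-!
[LI-ChiMp] For `x ∈ Km p m`: `chi D (Mp m x)`, as an element of the algebraic closure, is
`D(x) ^ ((p^m - 1)/2)` (import the stub `Km`).

Proof.  `Res(Mp m x, D)`, mapped to `K = AlgebraicClosure (ZMod p)`, is
`∏_{i < m} D(x^(p^i))` (`Polynomial.resultant_map_map`, `natDegree_map`, and
`Polynomial.resultant_eq_prod_eval` for the monic split polynomial `(Mp m x).map _`, `Mp_map`;
`Polynomial.roots_prod_X_sub_C` / `roots_multiset_prod_X_sub_C`).
As `D` has coefficients in `ZMod p`, `D(x^(p^i)) = D(x)^(p^i)` (`Polynomial.expand_card`/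
`frobenius`; e.g. `map_frobenius`, `ZMod.expand_card`, or `aeval_algHom_apply` with the Frobenius
algebra endomorphism `frobeniusAlgHom (ZMod p) K`), so `Res = D(x)^(1 + p + ... + p^(m-1))`.
`quadraticChar (ZMod p) a = a ^ (p / 2)` in `ZMod p` (`quadraticChar_eq_pow_of_char_ne_two'`) for
`p ≠ 2`, hence in `K`: `chi = (D(x)^(1 + ... + p^(m-1)))^((p-1)/2) = D(x)^((p^m-1)/2)`
(`Nat.geomSum_eq`: `(p - 1) * ∑_{i<m} p^i = p^m - 1`).

`res_roots` is the general formula for monic `h` (same proof), used elsewhere.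
-/

set_option autoImplicit false

namespace LIF

open Polynomial

variable {p : ℕ} [Fact p.Prime]

theorem res_roots (D : (ZMod p)[X]) {h : (ZMod p)[X]} (hh : h.Monic) :
    algebraMap (ZMod p) (AlgebraicClosure (ZMod p)) (resultant h D) =
      ((h.map (algebraMap (ZMod p) (AlgebraicClosure (ZMod p)))).roots.map
        (fun x => aeval x D)).prod := by
  set K := AlgebraicClosure (ZMod p)
  set φ := algebraMap (ZMod p) K
  have hmon : (h.map φ).Monic := hh.map φ
  have hdeg : (h.map φ).natDegree = h.natDegree := natDegree_map φ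
  have hD : (D.map φ).natDegree = D.natDegree := natDegree_map φ
  rw [← resultant_map_map, ← hdeg, ← hD,
    resultant_eq_prod_eval (h.map φ) (D.map φ) _ le_rfl (IsAlgClosed.splits _),
    hmon.leadingCoeff, one_pow, one_mul]
  congr 1
  refine Multiset.map_congr rfl (fun x _ => ?_)
  exact eval_map_algebraMap D x

theorem chi_res (p2 : p ≠ 2) (D h : (ZMod p)[X]) :
    ((chi D h : ℤ) : ZMod p) = (resultant h D) ^ ((p - 1) / 2) := by
  have hp : p.Prime := Fact.out
  have hc : ringChar (ZMod p) ≠ 2 := by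
    rw [ZMod.ringChar_zmod_n]
    exact p2
  have h2 : p % 2 = 1 := hp.eq_two_or_odd.resolve_left p2
  unfold chi
  rw [quadraticChar_eq_pow_of_char_ne_two' hc, ZMod.card]
  congr 1
  omega

theorem chi_Mp (p2 : p ≠ 2) (D : (ZMod p)[X]) {m : ℕ} (hm : 1 ≤ m)
    {x : AlgebraicClosure (ZMod p)} (hx : x ∈ Km p m) :
    ((chi D (Mp m x) : ℤ) : AlgebraicClosure (ZMod p)) = (aeval x D) ^ ((p ^ m - 1) / 2) := by
  have hp : p.Prime := Fact.out
  have h2 : p % 2 = 1 := hp.eq_two_or_odd.resolve_left p2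
  have h1 : ((chi D (Mp m x) : ℤ) : AlgebraicClosure (ZMod p)) =
      algebraMap (ZMod p) (AlgebraicClosure (ZMod p)) ((chi D (Mp m x) : ℤ) : ZMod p) := by
    rw [map_intCast]
  have hroots : ((Mp m x).map (algebraMap (ZMod p) (AlgebraicClosure (ZMod p)))).roots =
      (Multiset.range m).map (fun i => x ^ (p ^ i)) := by
    rw [Mp_map hm hx]
    have := roots_multiset_prod_X_sub_C ((Multiset.range m).map (fun i => x ^ (p ^ i)))
    rw [Multiset.map_map] at this
    exact this
  have hfrob : ∀ i : ℕ, aeval (x ^ (p ^ i)) D = (aeval x D) ^ (p ^ i) := by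
    intro i
    have hexp : expand (ZMod p) (p ^ i) D = D ^ (p ^ i) := by
      induction i with
      | zero => simp
      | succ i ih =>
        rw [pow_succ, expand_mul, ZMod.expand_card, map_pow, ih, ← pow_mul]
    have := congrArg (aeval x) hexp
    rw [expand_aeval, map_pow] at this
    exact this
  rw [h1, chi_res p2, map_pow, res_roots D (Mp_monic m x), hroots, Multiset.map_map]
  have hprod : (Multiset.map ((fun x => aeval x D) ∘ fun i => x ^ (p ^ i))
      (Multiset.range m)).prod = (aeval x D) ^ (∑ i ∈ Finset.range m, p ^ i) := by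
    rw [← Finset.prod_pow_eq_pow_sum]
    show (Multiset.map _ (Finset.range m).val).prod = _
    refine congrArg Multiset.prod (Multiset.map_congr rfl (fun i _ => ?_))
    exact hfrob i
  rw [hprod, ← pow_mul]
  congr 1
  have hgeom : (∑ i ∈ Finset.range m, p ^ i) * (p - 1) = p ^ m - 1 := by
    rw [Nat.geomSum_eq hp.two_le, Nat.div_mul_cancel (Nat.sub_one_dvd_pow_sub_one p m)]
  obtain ⟨t, ht⟩ : ∃ t, p - 1 = 2 * t := ⟨(p - 1) / 2, by omega⟩
  rw [ht] at hgeom ⊢
  rw [← hgeom, Nat.mul_div_cancel_left _ (by norm_num : 0 < 2),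
    show (∑ i ∈ Finset.range m, p ^ i) * (2 * t) = 2 * ((∑ i ∈ Finset.range m, p ^ i) * t) by ring,
    Nat.mul_div_cancel_left _ (by norm_num : 0 < 2)]

end LIF
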