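import Mathlib

/-!
[LI-Ang] From roots to angles (imports Mathlib only).

`f ∈ ℤ[X]` monic of degree `2 g`, `g ≥ 2`, irreducible over `ℚ`, all complex roots of modulus
`√p`.  Then there are angles `0 < θ_0 < ... < θ_{g-1} < π` with
`f = ∏_i (X - √p e^{iθ_i}) (X - p/(√p e^{iθ_i}))` in `ℂ[X]`.

Proof.  The roots are distinct (`Irreducible.separable`, char 0), the set `R` of roots is closed
under conjugation (real coefficients) and contains no real number: a real root `x` satisfies
`x = ±√p`, `x^2 = p`, so the irreducible `f` (= minimal polynomial of `x` over `ℚ`) would divide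
`X^2 - p`, degree `2 g ≥ 4 > 2`.  Let `R+` be the roots with positive imaginary part; conjugation
is a bijection `R+ → R-`, so `card R+ = g`.  For `x ∈ R+`, `θ = arg x ∈ (0, π)`,
`x = √p e^{iθ}` (`Complex.norm_mul_exp_arg_mul_I`), different `x` have different `θ`; sort the
angles (`Finset.orderEmbOfFin`).  `conj x = ‖x‖^2/x = p/x`.
`f = ∏_{x ∈ R} (X - x) = ∏_{x ∈ R+} (X - x)(X - conj x)`.
-/

set_option autoImplicit false

namespace LIF

open Polynomial

private theorem Ang_conj_root {f : ℤ[X]} {x : ℂ} (h : (f.map (Int.castRingHom ℂ)).IsRoot x) :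
    (f.map (Int.castRingHom ℂ)).IsRoot ((starRingEnd ℂ) x) := by
  have h1 : (f.map (Int.castRingHom ℂ)).eval x = 0 := h
  rw [eval_map] at h1
  change (f.map (Int.castRingHom ℂ)).eval ((starRingEnd ℂ) x) = 0
  rw [eval_map]
  have h2 := hom_eval₂ f (Int.castRingHom ℂ) (starRingEnd ℂ) x
  rw [h1, map_zero] at h2
  rw [h2]
  congr 1
  exact (RingHom.ext_int _ _)

private theorem Ang_no_real {p : ℕ} [Fact p.Prime] {g : ℕ} (g2 : 2 ≤ g) {f : ℤ[X]}
    (hm : f.Monic) (hd : f.natDegree = 2 * g)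
    (hirr : Irreducible (f.map (Int.castRingHom ℚ))) {x : ℂ}
    (hx : (f.map (Int.castRingHom ℂ)).IsRoot x) (hn : ‖x‖ = Real.sqrt p) : x.im ≠ 0 := by
  intro h0
  have hmap : (f.map (Int.castRingHom ℚ)).map (algebraMap ℚ ℂ) = f.map (Int.castRingHom ℂ) := by
    rw [map_map]
    congr 1
  have hroot : aeval x (f.map (Int.castRingHom ℚ)) = 0 := by
    rw [aeval_def, ← eval_map, hmap]
    exact hx
  have hmin := minpoly.eq_of_irreducible_of_monic hirr hroot (hm.map _)
  have hxr : x = (x.re : ℂ) := by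
    apply Complex.ext
    · simp
    · simpa using h0
  have hsq : x ^ 2 = (p : ℂ) := by
    have h1 : ‖x‖ ^ 2 = (p : ℝ) := by
      rw [hn, Real.sq_sqrt (Nat.cast_nonneg p)]
    rw [hxr, Complex.norm_real, Real.norm_eq_abs, sq_abs] at h1
    rw [hxr, ← Complex.ofReal_pow, h1]
    simp
  have hroot2 : aeval x (X ^ 2 - C (p : ℚ)) = 0 := by
    rw [map_sub, map_pow, aeval_X, aeval_C, hsq]
    simp
  have hdvd := minpoly.dvd ℚ x hroot2
  rw [← hmin] at hdvd
  have hne : (X ^ 2 - C (p : ℚ) : ℚ[X]) ≠ 0 := X_pow_sub_C_ne_zero (by norm_num) _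
  have hdeg := natDegree_le_of_dvd hdvd hne
  rw [natDegree_X_pow_sub_C, hm.natDegree_map, hd] at hdeg
  omega

theorem angles {p : ℕ} [Fact p.Prime] {g : ℕ} (g2 : 2 ≤ g) {f : ℤ[X]} (hm : f.Monic)
    (hd : f.natDegree = 2 * g) (hirr : Irreducible (f.map (Int.castRingHom ℚ)))
    (hr : ∀ x ∈ (f.map (Int.castRingHom ℂ)).roots, ‖x‖ = Real.sqrt p) :
    ∃ θ : Fin g → ℝ, StrictMono θ ∧ (∀ i, 0 < θ i ∧ θ i < Real.pi) ∧
      f.map (Int.castRingHom ℂ) =
        ∏ i, ((X - C ((Real.sqrt p : ℂ) * Complex.exp (θ i * Complex.I))) *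
          (X - C ((p : ℂ) / ((Real.sqrt p : ℂ) * Complex.exp (θ i * Complex.I))))) := by
  classical
  have hmap : (f.map (Int.castRingHom ℚ)).map (algebraMap ℚ ℂ) = f.map (Int.castRingHom ℂ) := by
    rw [map_map]
    congr 1
  have hFm : (f.map (Int.castRingHom ℂ)).Monic := hm.map _
  have hFd : (f.map (Int.castRingHom ℂ)).natDegree = 2 * g := by
    rw [hm.natDegree_map, hd]
  have hsep : (f.map (Int.castRingHom ℂ)).Separable := by
    rw [← hmap]
    exact hirr.separable.map
  have hnd : (f.map (Int.castRingHom ℂ)).roots.Nodup := nodup_roots hsep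
  have hspl : (f.map (Int.castRingHom ℂ)).Splits := IsAlgClosed.splits _
  have hprodm := hspl.eq_prod_roots_of_monic hFm
  have hcard : (f.map (Int.castRingHom ℂ)).roots.card = 2 * g := by
    rw [← hspl.natDegree_eq_card_roots, hFd]
  generalize hFdef : f.map (Int.castRingHom ℂ) = F at *
  obtain ⟨R, hR⟩ : ∃ R : Finset ℂ, R = F.roots.toFinset := ⟨_, rfl⟩
  have hRval : R.val = F.roots := by
    rw [hR, Multiset.toFinset_val, hnd.dedup]
  have hprod : F = ∏ x ∈ R, (X - C x) := by
    rw [hprodm]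
    change (F.roots.map fun a => X - C a).prod = (R.val.map fun x => X - C x).prod
    rw [hRval]
  have hRcard : R.card = 2 * g := by
    rw [← hcard, ← hRval]
    rfl
  have hRmem : ∀ x, x ∈ R ↔ F.IsRoot x := by
    intro x
    rw [hR, Multiset.mem_toFinset, mem_roots hFm.ne_zero]
  have hRn : ∀ x ∈ R, ‖x‖ = Real.sqrt p := by
    intro x hx
    exact hr x (by rw [mem_roots hFm.ne_zero]; exact (hRmem x).1 hx)
  have hRc : ∀ x ∈ R, (starRingEnd ℂ) x ∈ R := by
    intro x hx
    rw [hRmem, ← hFdef] at *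
    exact Ang_conj_root hx
  have hRi : ∀ x ∈ R, x.im ≠ 0 := by
    intro x hx
    have h1 := (hRmem x).1 hx
    rw [← hFdef] at h1
    exact Ang_no_real g2 hm hd hirr h1 (hRn x hx)
  obtain ⟨P, hP⟩ : ∃ P : Finset ℂ, P = R.filter (fun x => 0 < x.im) := ⟨_, rfl⟩
  have hPm : ∀ x, x ∈ P ↔ x ∈ R ∧ 0 < x.im := by
    intro x
    rw [hP, Finset.mem_filter]
  have hneg : R.filter (fun x => ¬ 0 < x.im) = P.image (starRingEnd ℂ) := by
    ext x
    rw [Finset.mem_filter, Finset.mem_image]
    constructor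
    · rintro ⟨h1, h2⟩
      refine ⟨(starRingEnd ℂ) x, ?_, Complex.conj_conj x⟩
      rw [hPm]
      refine ⟨hRc x h1, ?_⟩
      rw [Complex.conj_im]
      have := hRi x h1
      rcases lt_or_gt_of_ne this with h3 | h3
      · linarith
      · exact absurd h3 h2
    · rintro ⟨y, h1, rfl⟩
      rw [hPm] at h1
      refine ⟨hRc y h1.1, ?_⟩
      rw [Complex.conj_im]
      linarith [h1.2]
  have hinjc : Function.Injective (starRingEnd ℂ) := by
    intro a b hab
    have := congrArg (starRingEnd ℂ) hab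
    rwa [Complex.conj_conj, Complex.conj_conj] at this
  have hPcard : P.card = g := by
    have h1 := Finset.card_filter_add_card_filter_not (s := R) (fun x : ℂ => 0 < x.im)
    rw [hneg, Finset.card_image_of_injective _ hinjc, ← hP, hRcard] at h1
    omega
  have hprod2 : F = ∏ x ∈ P, ((X - C x) * (X - C ((starRingEnd ℂ) x))) := by
    rw [hprod, ← Finset.prod_filter_mul_prod_filter_not R (fun x : ℂ => 0 < x.im), hneg,
      Finset.prod_image (fun a _ b _ hab => hinjc hab), ← hP, Finset.prod_mul_distrib]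
  have hpol : ∀ x ∈ P, (Real.sqrt p : ℂ) * Complex.exp ((Complex.arg x : ℝ) * Complex.I) = x := by
    intro x hx
    rw [← hRn x ((hPm x).1 hx).1]
    exact Complex.norm_mul_exp_arg_mul_I x
  have hinja : ∀ x ∈ P, ∀ y ∈ P, Complex.arg x = Complex.arg y → x = y := by
    intro x hx y hy hxy
    rw [← hpol x hx, ← hpol y hy, hxy]
  have hTcard : (P.image Complex.arg).card = g := by
    rw [Finset.card_image_of_injOn, hPcard]
    intro x hx y hy hxy
    exact hinja x hx y hy hxy
  have hpconj : ∀ x ∈ P, (p : ℂ) / x = (starRingEnd ℂ) x := by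
    intro x hx
    have hx0 : x ≠ 0 := by
      rintro rfl
      have := ((hPm 0).1 hx).2
      simp at this
    rw [div_eq_iff hx0, mul_comm, Complex.mul_conj, Complex.normSq_eq_norm_sq,
      hRn x ((hPm x).1 hx).1, Real.sq_sqrt (Nat.cast_nonneg p)]
    simp
  refine ⟨(P.image Complex.arg).orderEmbOfFin hTcard, OrderEmbedding.strictMono _, ?_, ?_⟩
  · intro i
    have h1 := Finset.orderEmbOfFin_mem (P.image Complex.arg) hTcard i
    obtain ⟨x, hx, hxi⟩ := Finset.mem_image.1 h1
    rw [← hxi]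
    have h2 := ((hPm x).1 hx).2
    constructor
    · refine lt_of_le_of_ne (Complex.arg_nonneg_iff.2 h2.le) ?_
      intro h3
      exact h2.ne' (Complex.arg_eq_zero_iff.1 h3.symm).2
    · refine lt_of_le_of_ne (Complex.arg_le_pi x) ?_
      intro h3
      exact h2.ne' (Complex.arg_eq_pi_iff.1 h3).2
  · have h1 : ∏ i, ((X - C ((Real.sqrt p : ℂ) *
          Complex.exp (((P.image Complex.arg).orderEmbOfFin hTcard i : ℝ) * Complex.I))) *
          (X - C ((p : ℂ) / ((Real.sqrt p : ℂ) *
            Complex.exp (((P.image Complex.arg).orderEmbOfFin hTcard i : ℝ) * Complex.I))))) =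
        ∏ t ∈ Finset.univ.image ((P.image Complex.arg).orderEmbOfFin hTcard),
          ((X - C ((Real.sqrt p : ℂ) * Complex.exp ((t : ℝ) * Complex.I))) *
          (X - C ((p : ℂ) / ((Real.sqrt p : ℂ) * Complex.exp ((t : ℝ) * Complex.I))))) := by
      rw [Finset.prod_image]
      intro a _ b _ hab
      exact ((P.image Complex.arg).orderEmbOfFin hTcard).injective hab
    rw [h1, Finset.image_orderEmbOfFin_univ, Finset.prod_image hinja, hprod2]
    refine Finset.prod_congr rfl ?_
    intro x hx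
    rw [hpol x hx, hpconj x hx]

end LIF
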