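import Mathlib

/-!
[LI-AngB] Power sums of the roots in terms of the angles, and linear independence
(imports Mathlib only).

* `angles_sum`: `f = ∏_i (X - α_i)(X - p/α_i)`, `α_i = √p e^{iθ_i}`, `p/α_i = √p e^{-iθ_i}`; the
  roots of `f` are all these numbers (`Polynomial.roots_prod`, `roots_mul`, `roots_X_sub_C`;
  the factors are nonzero), and `α^m + (p/α)^m = (√p)^m (e^{imθ} + e^{-imθ}) = 2 (√p)^m cos(m θ)`.
* `angles_li`: suppose `c_0 π + ∑ c_i θ_i = 0` with rational `c` (`Fintype.linearIndependent_iff`,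
  `Fin.sum_univ_succ`).  Multiply by a common denominator: integers `n_0 π + ∑ n_i θ_i = 0`.
  Since `α_i^2/p = e^{2iθ_i}`, `∏ (α_i^2/p)^{n_i} = e^{2i ∑ n_i θ_i} = e^{-2 i n_0 π} = 1`, so
  `n = 0` by hypothesis, and then `n_0 π = 0`, `n_0 = 0`.
-/

set_option autoImplicit false

namespace LIF

open Polynomial

private lemma AngB_sqrt {p : ℕ} [Fact p.Prime] : (Real.sqrt p : ℂ) ≠ 0 ∧
    (Real.sqrt p : ℂ) ^ 2 = (p : ℂ) := by
  have hp : (0 : ℝ) < p := by exact_mod_cast (Fact.out : p.Prime).pos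
  constructor
  · exact_mod_cast (Real.sqrt_pos.2 hp).ne'
  · rw [← Complex.ofReal_pow, Real.sq_sqrt hp.le]
    simp

private lemma AngB_conj {p : ℕ} [Fact p.Prime] (t : ℝ) :
    (p : ℂ) / ((Real.sqrt p : ℂ) * Complex.exp (t * Complex.I)) =
      (Real.sqrt p : ℂ) * Complex.exp (-(t * Complex.I)) := by
  obtain ⟨h1, h2⟩ := AngB_sqrt (p := p)
  rw [div_eq_iff (mul_ne_zero h1 (Complex.exp_ne_zero _)), ← h2]
  have h3 : Complex.exp (-(t * Complex.I)) * Complex.exp (t * Complex.I) = 1 := by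
    rw [← Complex.exp_add, neg_add_cancel, Complex.exp_zero]
  linear_combination (-(Real.sqrt p : ℂ) ^ 2) * h3

private lemma AngB_pow {p : ℕ} [Fact p.Prime] (t : ℝ) (m : ℕ) :
    ((Real.sqrt p : ℂ) * Complex.exp (t * Complex.I)) ^ m +
      ((p : ℂ) / ((Real.sqrt p : ℂ) * Complex.exp (t * Complex.I))) ^ m =
      ((2 * (Real.sqrt p) ^ m * Real.cos (m * t) : ℝ) : ℂ) := by
  rw [AngB_conj, mul_pow, mul_pow, ← Complex.exp_nat_mul, ← Complex.exp_nat_mul]
  push_cast
  rw [Complex.cos]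
  have e1 : (m : ℂ) * ((t : ℂ) * Complex.I) = (m : ℂ) * t * Complex.I := by ring
  have e2 : (m : ℂ) * (-((t : ℂ) * Complex.I)) = -((m : ℂ) * t) * Complex.I := by ring
  rw [e1, e2]
  ring

/-- the power sums of the roots in terms of the angles -/
theorem angles_sum {p : ℕ} [Fact p.Prime] {g : ℕ} {f : ℤ[X]} (θ : Fin g → ℝ)
    (hf : f.map (Int.castRingHom ℂ) =
        ∏ i, ((X - C ((Real.sqrt p : ℂ) * Complex.exp (θ i * Complex.I))) *
          (X - C ((p : ℂ) / ((Real.sqrt p : ℂ) * Complex.exp (θ i * Complex.I)))))) (m : ℕ) :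
    (((f.map (Int.castRingHom ℂ)).roots.map (fun x => x ^ m)).sum) =
      ((∑ i, 2 * (Real.sqrt p) ^ m * Real.cos (m * θ i) : ℝ) : ℂ) := by
  have hne : (∏ i, ((X - C ((Real.sqrt p : ℂ) * Complex.exp (θ i * Complex.I))) *
          (X - C ((p : ℂ) / ((Real.sqrt p : ℂ) * Complex.exp (θ i * Complex.I)))))) ≠ 0 :=
    Finset.prod_ne_zero_iff.2 fun i _ => mul_ne_zero (X_sub_C_ne_zero _) (X_sub_C_ne_zero _)
  rw [hf, roots_prod _ _ hne, Multiset.map_bind, Multiset.sum_bind, Complex.ofReal_sum]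
  refine congrArg Multiset.sum (Multiset.map_congr rfl fun i _ => ?_)
  rw [roots_mul (mul_ne_zero (X_sub_C_ne_zero _) (X_sub_C_ne_zero _)), roots_X_sub_C,
    roots_X_sub_C, Multiset.map_add, Multiset.sum_add, Multiset.map_singleton,
    Multiset.map_singleton, Multiset.sum_singleton, Multiset.sum_singleton]
  exact AngB_pow (θ i) m

/-- multiplicative independence of `α_i^2 / p` gives linear independence of `π` and the angles -/
theorem angles_li {p : ℕ} [Fact p.Prime] {g : ℕ} (θ : Fin g → ℝ)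
    (h : ∀ n : Fin g → ℤ,
      ∏ i, (((Real.sqrt p : ℂ) * Complex.exp (θ i * Complex.I)) ^ 2 / (p : ℂ)) ^ n i = 1 →
        n = 0) :
    LinearIndependent ℚ (Fin.cons Real.pi θ : Fin (g + 1) → ℝ) := by
  rw [← LinearIndependent.iff_fractionRing (R := ℤ) (K := ℚ), Fintype.linearIndependent_iff]
  intro n hn
  rw [Fin.sum_univ_succ] at hn
  simp only [Fin.cons_zero, Fin.cons_succ, zsmul_eq_mul] at hn
  obtain ⟨h1, h2⟩ := AngB_sqrt (p := p)
  have hp0 : (p : ℂ) ≠ 0 := by
    rw [← h2]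
    exact pow_ne_zero _ h1
  have h3 := h (fun i => n i.succ) (by
    have e1 : ∀ i, (((Real.sqrt p : ℂ) * Complex.exp (θ i * Complex.I)) ^ 2 / (p : ℂ)) ^ n i.succ =
        Complex.exp ((n i.succ : ℂ) * (2 * (θ i * Complex.I))) := by
      intro i
      rw [mul_pow, h2, mul_div_cancel_left₀ _ hp0, ← Complex.exp_nat_mul, ← Complex.exp_int_mul]
      norm_num
    rw [Finset.prod_congr rfl fun i _ => e1 i, ← Complex.exp_sum]
    have e2 : ∑ i, (n i.succ : ℂ) * (2 * ((θ i : ℂ) * Complex.I)) =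
        ((-n 0 : ℤ) : ℂ) * (2 * Real.pi * Complex.I) := by
      have hn' : ((n 0 : ℂ) * (Real.pi : ℂ) + ∑ i : Fin g, (n i.succ : ℂ) * (θ i : ℂ)) = 0 := by
        exact_mod_cast congrArg (Complex.ofReal) hn
      have e3 : ∑ i, (n i.succ : ℂ) * (2 * ((θ i : ℂ) * Complex.I)) =
          (2 * Complex.I) * ∑ i : Fin g, (n i.succ : ℂ) * (θ i : ℂ) := by
        rw [Finset.mul_sum]
        exact Finset.sum_congr rfl fun i _ => by ring
      rw [e3]
      push_cast
      linear_combination (2 * Complex.I) * hn'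
    rw [e2, Complex.exp_int_mul_two_pi_mul_I])
  have h4 : ∀ i : Fin g, n i.succ = 0 := fun i => congrFun h3 i
  have h5 : n 0 = 0 := by
    simp only [h4, Int.cast_zero, zero_mul, Finset.sum_const_zero, add_zero] at hn
    rcases mul_eq_zero.1 hn with h6 | h6
    · exact_mod_cast h6
    · exact absurd h6 Real.pi_ne_zero
  intro i
  refine Fin.cases h5 h4 i

end LIF
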