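import Mathlib

/-!
[LI-Comb] Parity descent (imports Mathlib only).

`g` even, `n : Fin g → ℤ`.  `T` a set of sign vectors `s : Fin g → ℤ` with values in `{-1,0,1}`,
each with exactly one zero, every position occurring as a zero, and `∑ n_i s_i = 0` for all
`s ∈ T`.  Then `n = 0`.

Proof.  (1) All `n_j` are even: for `j` take `s ∈ T` with `s_j = 0`; modulo `2`,
`0 = ∑_{i ≠ j} n_i` (`s_i = ±1` is odd for `i ≠ j`).  So `n_j ≡ N := ∑_i n_i (mod 2)` for every
`j`; summing over `j`: `N ≡ g N ≡ 0 (mod 2)` since `g` is even.  So every `n_j` is even.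
(2) Descent: if `n ≠ 0`, choose such an `n` with `∑ |n_i|` minimal (strong induction on
`∑ (n i).natAbs`); `n = 2 n'` and `n'` satisfies the same hypotheses, `∑ |n'_i| < ∑ |n_i|`,
so `n' = 0`, `n = 0`.
-/

set_option autoImplicit false

namespace LIF

/-- `comb`, step (1): every entry is even. -/
theorem Comb_even {g : ℕ} (hg : Even g) (n : Fin g → ℤ) (T : Set (Fin g → ℤ))
    (h1 : ∀ s ∈ T, ∀ i, s i = -1 ∨ s i = 0 ∨ s i = 1)
    (h2 : ∀ s ∈ T, ∀ i j, s i = 0 → s j = 0 → i = j)
    (h3 : ∀ j, ∃ s ∈ T, s j = 0)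
    (h4 : ∀ s ∈ T, ∑ i, n i * s i = 0) : ∀ j, (2 : ℤ) ∣ n j := by
  have hN : ∀ j, (2 : ℤ) ∣ (∑ i, n i) - n j := by
    intro j
    obtain ⟨s, hs, hj⟩ := h3 j
    have h5 : (∑ i, n i) - n j = ∑ i, (n i * (1 - s i) - if i = j then n i else 0) := by
      rw [Finset.sum_sub_distrib, Finset.sum_ite_eq' Finset.univ j n]
      simp only [Finset.mem_univ, if_true, mul_sub, mul_one, Finset.sum_sub_distrib, h4 s hs,
        sub_zero]
    rw [h5]
    refine Finset.dvd_sum fun i _ => ?_
    by_cases hij : i = j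
    · subst hij
      rw [if_pos rfl, hj]
      simp
    · rw [if_neg hij]
      rcases h1 s hs i with h | h | h
      · rw [h]
        exact ⟨n i, by ring⟩
      · exact absurd (h2 s hs i j h hj) hij
      · rw [h]
        simp
  have hS : (2 : ℤ) ∣ ∑ i, n i := by
    have h6 : (2 : ℤ) ∣ ∑ j : Fin g, ((∑ i, n i) - n j) := Finset.dvd_sum fun j _ => hN j
    rw [Finset.sum_sub_distrib, Finset.sum_const, Finset.card_univ, Fintype.card_fin,
      nsmul_eq_mul] at h6
    have h7 : (2 : ℤ) ∣ (g : ℤ) * ∑ i, n i := by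
      obtain ⟨k, hk⟩ := hg
      exact Dvd.dvd.mul_right ⟨(k : ℤ), by rw [hk]; push_cast; ring⟩ _
    have h8 := dvd_sub h7 h6
    rwa [sub_sub_cancel] at h8
  intro j
  have h9 := dvd_sub hS (hN j)
  rwa [sub_sub_cancel] at h9

theorem comb {g : ℕ} (hg : Even g) (n : Fin g → ℤ) (T : Set (Fin g → ℤ))
    (h1 : ∀ s ∈ T, ∀ i, s i = -1 ∨ s i = 0 ∨ s i = 1)
    (h2 : ∀ s ∈ T, ∀ i j, s i = 0 → s j = 0 → i = j)
    (h3 : ∀ j, ∃ s ∈ T, s j = 0)
    (h4 : ∀ s ∈ T, ∑ i, n i * s i = 0) : n = 0 := by
  have key : ∀ (m : ℕ) (n : Fin g → ℤ), ∑ i, (n i).natAbs ≤ m →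
      (∀ s ∈ T, ∑ i, n i * s i = 0) → n = 0 := by
    intro m
    induction m with
    | zero =>
      intro n hm _
      funext i
      have h5 : (n i).natAbs ≤ ∑ i, (n i).natAbs :=
        Finset.single_le_sum (f := fun i => (n i).natAbs) (fun _ _ => Nat.zero_le _)
          (Finset.mem_univ i)
      exact Int.natAbs_eq_zero.mp (by omega)
    | succ m ih =>
      intro n hm h4
      have hev := Comb_even hg n T h1 h2 h3 h4
      choose n' hn' using hev
      by_cases hz : ∀ i, n' i = 0
      · funext i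
        rw [hn' i, hz i]
        rfl
      · push Not at hz
        obtain ⟨i₀, hi₀⟩ := hz
        have hsum : ∑ i, (n i).natAbs = 2 * ∑ i, (n' i).natAbs := by
          rw [Finset.mul_sum]
          refine Finset.sum_congr rfl fun i _ => ?_
          rw [hn' i, Int.natAbs_mul]
          rfl
        have hpos : 0 < ∑ i, (n' i).natAbs :=
          lt_of_lt_of_le (Int.natAbs_pos.mpr hi₀)
            (Finset.single_le_sum (f := fun i => (n' i).natAbs) (fun _ _ => Nat.zero_le _)
              (Finset.mem_univ i₀))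
        have h6 : n' = 0 := by
          refine ih n' (by omega) fun s hs => ?_
          have h7 := h4 s hs
          have h8 : ∑ i, n i * s i = 2 * ∑ i, n' i * s i := by
            rw [Finset.mul_sum]
            refine Finset.sum_congr rfl fun i _ => ?_
            rw [hn' i]
            ring
          rw [h8] at h7
          omega
        exact absurd (congrFun h6 i₀) hi₀
  exact key _ n le_rfl h4

end LIF
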