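import Pool.Agent.helper1.LI.Val

/-!
[LI-Pair] Newton polygon, second step: the remaining pair has slope 1/2 (import the stub `Val`).
(proofs: helper51)

Situation.  `α : Fin g → E` with `f = ∏_i (X - α_i)(X - p/α_i)` in `E[X]`, `f ∈ ℤ[X]`, `v p < 1`,
`α_i ≠ 0`; for every `i ≠ i0` one of `α_i`, `p/α_i` is a unit (`v = 1`), while
`v(α_{i0}) < 1` and `v(p/α_{i0}) < 1`; `p ∣ f_g`.  Then `v(α_{i0})^2 = v p`.

Proof.  Put `β = α_{i0}`, `β' = p/β`.  For `i ≠ i0` let `u_i` be the unit of the pair and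
`w_i = p/u_i` the other one, `v(w_i) = v p`.  `U = ∏_{i≠i0} (X - u_i)` (degree `g-1`, coefficients
`v ≤ 1`, `v(U_0) = 1`), `G = (X - β)(X - β') ∏_{i≠i0}(X - w_i)` of degree `g + 1`,
`G = X^(g+1) - e_1 X^g + e_2 X^(g-1) - ...`, `e_j` = elementary symmetric functions of
`β, β', w_i`.  `e_1 = β + β' + ∑ w_i`, and for `j ≥ 2` every product of `j` of these elements has
`v ≤ v p` (it contains some `w_i`, or it is `β β' = p`), so `v(e_j) ≤ v p`.
The coefficient of `X^g` in `f = U G` is `U_0 G_g + ∑_{i ≥ 1} U_i G_{g-i}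
= - U_0 e_1 + (v ≤ v p)`, and `v(f_g) ≤ v p`; so `v(e_1) ≤ v p`, so `v(β + β') ≤ v p`.
Suppose `v β ≠ v β'`, say `M = max`, `v(β+β') = M`, so `M ≤ v p`; but
`M^2 ≥ v β v β' = v p ≥ M`, so `M ≥ 1`, contradiction to `M < 1`.  (If `M > 0`:
`M * M ≥ M` gives `M ≥ 1`.)  Hence `v β = v β'` and `v(β)^2 = v β v β' = v p`.

(Instead of symmetric functions one can work modulo the fractional ideal
`I = {x : v x ≤ v p}` of `A`: with `P = (X-β)(X-β') ≡ X^2 - (β+β') X`, `X - w_i ≡ X` modulo
polynomials with coefficients in `I`, so `G ≡ X^(g+1) - (β+β') X^g`, `f = U G ≡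
U * (X^(g+1) - (β+β')X^g)`, whose coefficient at `X^g` is `- U_0 (β+β')`.)
-/

set_option autoImplicit false

namespace LIF

open Polynomial

theorem Pair_mul {E : Type*} [Field E] (A : ValuationSubring E) {γ : A.ValueGroup} {P Q : E[X]}
    (hP : ∀ n, A.valuation (P.coeff n) ≤ 1) (hQ : ∀ n, A.valuation (Q.coeff n) ≤ γ) (n : ℕ) :
    A.valuation ((P * Q).coeff n) ≤ γ := by
  rw [coeff_mul]
  refine Valuation.map_sum_le _ fun x _ => ?_
  rw [map_mul]
  calc A.valuation (P.coeff x.1) * A.valuation (Q.coeff x.2) ≤ 1 * γ :=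
        mul_le_mul' (hP x.1) (hQ x.2)
    _ = γ := one_mul γ

theorem Pair_X {E : Type*} [Field E] (A : ValuationSubring E) (n : ℕ) :
    A.valuation ((X : E[X]).coeff n) ≤ 1 := by
  rw [coeff_X]
  split_ifs
  · rw [map_one]
  · rw [map_zero]
    exact zero_le

theorem Pair_C {E : Type*} [Field E] (A : ValuationSubring E) {γ : A.ValueGroup} {a : E}
    (ha : A.valuation a ≤ γ) (n : ℕ) : A.valuation ((C a : E[X]).coeff n) ≤ γ := by
  rw [coeff_C]
  split_ifs
  · exact ha
  · rw [map_zero]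
    exact zero_le

theorem Pair_lin {E : Type*} [Field E] (A : ValuationSubring E) {a : E}
    (ha : A.valuation a ≤ 1) (n : ℕ) : A.valuation ((X - C a : E[X]).coeff n) ≤ 1 := by
  rw [coeff_sub]
  exact Valuation.map_sub_le _ (Pair_X A n) (Pair_C A ha n)

theorem Pair_prod {E : Type*} [Field E] (A : ValuationSubring E) {γ : A.ValueGroup} (hγ : γ ≤ 1)
    {ι : Type*} (w : ι → E) (S : Finset ι) (hw : ∀ i ∈ S, A.valuation (w i) ≤ γ) :
    (∀ n, A.valuation ((∏ i ∈ S, (X - C (w i))).coeff n) ≤ 1) ∧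
      ∀ n, A.valuation ((∏ i ∈ S, (X - C (w i)) - X ^ S.card).coeff n) ≤ γ := by
  classical
  induction S using Finset.induction_on with
  | empty =>
    constructor
    · intro n
      rw [Finset.prod_empty, ← C_1]
      exact Pair_C A (by rw [map_one]) n
    · intro n
      rw [Finset.prod_empty, Finset.card_empty, pow_zero, sub_self, coeff_zero, map_zero]
      exact zero_le
  | insert a S ha ih =>
    obtain ⟨h1, h2⟩ := ih fun i hi => hw i (Finset.mem_insert_of_mem hi)
    have hwa := hw a (Finset.mem_insert_self a S)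
    rw [Finset.prod_insert ha, Finset.card_insert_of_notMem ha]
    constructor
    · exact Pair_mul A (Pair_lin A (hwa.trans hγ)) h1
    · intro n
      have h3 : (X - C (w a)) * ∏ i ∈ S, (X - C (w i)) - X ^ (S.card + 1) =
          X * (∏ i ∈ S, (X - C (w i)) - X ^ S.card) - (∏ i ∈ S, (X - C (w i))) * C (w a) := by
        ring
      rw [h3, coeff_sub]
      exact Valuation.map_sub_le _ (Pair_mul A (Pair_X A) h2 n) (Pair_mul A h1 (Pair_C A hwa) n)

theorem Pair_coeff_zero {E : Type*} [Field E] (A : ValuationSubring E)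
    {ι : Type*} (u : ι → E) (S : Finset ι) (hu : ∀ i ∈ S, A.valuation (u i) = 1) :
    A.valuation ((∏ i ∈ S, (X - C (u i))).coeff 0) = 1 := by
  rw [coeff_zero_prod, map_prod]
  refine Finset.prod_eq_one fun i hi => ?_
  rw [coeff_sub, coeff_X_zero, coeff_C_zero, zero_sub, Valuation.map_neg, hu i hi]

theorem pair_val {E : Type*} [Field E] (A : ValuationSubring E) {p : ℕ} [Fact p.Prime]
    (hp : A.valuation (p : E) < 1) (hp0 : (p : E) ≠ 0) {g : ℕ} {f : ℤ[X]} (α : Fin g → E)
    (h0 : ∀ i, α i ≠ 0)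
    (hs : f.map (Int.castRingHom E) = ∏ i, ((X - C (α i)) * (X - C ((p : E) / α i))))
    (hg : (p : ℤ) ∣ f.coeff g) (i0 : Fin g)
    (hu : ∀ i, i ≠ i0 → A.valuation (α i) = 1 ∨ A.valuation ((p : E) / α i) = 1)
    (hb : A.valuation (α i0) < 1) (hb' : A.valuation ((p : E) / α i0) < 1) :
    A.valuation (α i0) ^ 2 = A.valuation (p : E) := by
  classical
  -- the unit of every pair
  have hex : ∀ i, ∃ u : E, i ≠ i0 → A.valuation u = 1 ∧ u ≠ 0 ∧
      (X - C (α i)) * (X - C ((p : E) / α i)) = (X - C u) * (X - C ((p : E) / u)) := by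
    intro i
    by_cases hi : i = i0
    · exact ⟨0, fun h => absurd hi h⟩
    · rcases hu i hi with h | h
      · exact ⟨α i, fun _ => ⟨h, h0 i, rfl⟩⟩
      · refine ⟨(p : E) / α i, fun _ => ⟨h, div_ne_zero hp0 (h0 i), ?_⟩⟩
        rw [div_div_cancel₀ hp0, mul_comm]
  choose u hu' using hex
  set S : Finset (Fin g) := Finset.univ.erase i0 with hS
  have hSi : ∀ i ∈ S, i ≠ i0 := fun i hi => Finset.ne_of_mem_erase hi
  have hcard : S.card + 1 = g := by
    rw [hS, Finset.card_erase_add_one (Finset.mem_univ i0), Finset.card_univ, Fintype.card_fin]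
  set U : E[X] := ∏ i ∈ S, (X - C (u i)) with hU
  set W : E[X] := ∏ i ∈ S, (X - C ((p : E) / u i)) with hW
  set β := α i0 with hβ
  set β' := (p : E) / α i0 with hβ'
  have hββ : β * β' = (p : E) := mul_div_cancel₀ _ (h0 i0)
  have hf : f.map (Int.castRingHom E) = ((X - C β) * (X - C β')) * (U * W) := by
    rw [hs, ← Finset.mul_prod_erase Finset.univ _ (Finset.mem_univ i0), ← hS, hU, hW,
      ← Finset.prod_mul_distrib]
    congr 1
    exact Finset.prod_congr rfl fun i hi => (hu' i (hSi i hi)).2.2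
  have hUP := Pair_prod A le_rfl u S fun i hi => ((hu' i (hSi i hi)).1).le
  have hWP := Pair_prod A hp.le (fun i => (p : E) / u i) S fun i hi => by
    rw [map_div₀, (hu' i (hSi i hi)).1, div_one]
  have hU0 := Pair_coeff_zero A u S fun i hi => (hu' i (hSi i hi)).1
  rw [← hU] at hUP hU0
  have hWP1 : ∀ n, A.valuation (W.coeff n) ≤ 1 := hWP.1
  have hWP2 : ∀ n, A.valuation ((W - X ^ S.card).coeff n) ≤ A.valuation (p : E) := hWP.2
  -- the congruence
  have hkey : f.map (Int.castRingHom E) - X ^ g * (U * (X - C (β + β'))) =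
      ((X - C β) * (X - C β')) * (U * (W - X ^ S.card)) + (U * X ^ S.card) * C (p : E) := by
    rw [hf, ← hββ, C_mul, C_add]
    nth_rewrite 1 [← hcard]
    ring
  have hP : ∀ n, A.valuation (((X - C β) * (X - C β')).coeff n) ≤ 1 :=
    Pair_mul A (Pair_lin A hb.le) (Pair_lin A hb'.le)
  have hXk : ∀ k n, A.valuation ((X ^ k : E[X]).coeff n) ≤ 1 := by
    intro k n
    rw [coeff_X_pow]
    split_ifs
    · rw [map_one]
    · rw [map_zero]
      exact zero_le
  have h1 : A.valuation ((((X - C β) * (X - C β')) * (U * (W - X ^ S.card)) +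
      (U * X ^ S.card) * C (p : E)).coeff g) ≤ A.valuation (p : E) := by
    rw [coeff_add]
    refine Valuation.map_add_le _ ?_ ?_
    · exact Pair_mul A hP (Pair_mul A hUP.1 hWP2) g
    · exact Pair_mul A (Pair_mul A hUP.1 (hXk _)) (Pair_C A le_rfl) g
  have h2 : (X ^ g * (U * (X - C (β + β')))).coeff g = -(U.coeff 0 * (β + β')) := by
    have h3 := coeff_X_pow_mul (U * (X - C (β + β'))) g 0
    rw [zero_add] at h3
    rw [h3, mul_coeff_zero, coeff_sub, coeff_X_zero, coeff_C_zero, zero_sub, mul_neg]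
  have h3 : A.valuation ((f.map (Int.castRingHom E)).coeff g) ≤ A.valuation (p : E) := by
    rw [coeff_map]
    exact val_int_dvd A hg
  have h4 : A.valuation (β + β') ≤ A.valuation (p : E) := by
    have h5 : U.coeff 0 * (β + β') = (f.map (Int.castRingHom E) -
        X ^ g * (U * (X - C (β + β')))).coeff g - (f.map (Int.castRingHom E)).coeff g := by
      rw [coeff_sub, h2]
      ring
    have h6 : A.valuation (U.coeff 0 * (β + β')) ≤ A.valuation (p : E) := by
      rw [h5]
      refine Valuation.map_sub_le _ ?_ h3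
      rw [hkey]
      exact h1
    rwa [map_mul, hU0, one_mul] at h6
  have hvp : A.valuation β * A.valuation β' = A.valuation (p : E) := by
    rw [← map_mul, hββ]
  have hβ0 : A.valuation β ≠ 0 := (Valuation.ne_zero_iff _).2 (h0 i0)
  have hβ'0 : A.valuation β' ≠ 0 := (Valuation.ne_zero_iff _).2 (div_ne_zero hp0 (h0 i0))
  have hlt1 : A.valuation (p : E) < A.valuation β' := by
    rw [← hvp]
    calc A.valuation β * A.valuation β' < 1 * A.valuation β' :=
          mul_lt_mul_of_pos_right hb (zero_lt_iff.2 hβ'0)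
      _ = A.valuation β' := one_mul _
  have hlt2 : A.valuation (p : E) < A.valuation β := by
    rw [← hvp]
    calc A.valuation β * A.valuation β' < A.valuation β * 1 :=
          mul_lt_mul_of_pos_left hb' (zero_lt_iff.2 hβ0)
      _ = A.valuation β := mul_one _
  rcases lt_trichotomy (A.valuation β) (A.valuation β') with h | h | h
  · rw [add_comm, Valuation.map_add_eq_of_lt_left _ h] at h4
    exact absurd h4 (not_le.2 hlt1)
  · rw [← hvp, ← h, sq]
  · rw [add_comm, Valuation.map_add_eq_of_lt_right _ h] at h4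
    exact absurd h4 (not_le.2 hlt2)

end LIF
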