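import Pool.Agent.helper1.LI.Units
import Pool.Agent.helper1.LI.Pair
import Pool.Agent.helper1.LI.Comb

/-!
[LI-Gal] No multiplicative relations (import the stubs `Val`, `Units`, `Pair`, `Comb`).

`f ∈ ℤ[X]` monic, irreducible over `ℚ`, degree `2 g`, `g` even, `g ≥ 1`, `p ∣ f_j` for `j ≤ g`,
`p ∤ f_(g+1)`, with complex roots `α_i, p/α_i` (`i : Fin g`).  If
`∏_i (α_i^2/p)^{n_i} = 1` (`n_i ∈ ℤ`) then all `n_i = 0`.

Proof.  The `2 g` roots are distinct (`f` irreducible over `ℚ`, so separable) and nonzero.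
Let `E = AlgebraicClosure ℚ` and an embedding `E → ℂ` (`IsAlgClosed.lift`), or
`E = algebraicClosure ℚ ℂ` (an intermediate field, algebraically closed, normal over `ℚ`).
The `α_i` come from `a_i ∈ E`, `f = ∏ (X - a_i)(X - p/a_i)` in `E[X]` and
`∏ (a_i^2/p)^{n_i} = 1` in `E` (injectivity of `E → ℂ`).
Let `v` be a valuation of `E` as in `exists_val`, `v p < 1`.
For `σ ∈ Gal(E/ℚ) = (E ≃ₐ[ℚ] E)` put `α^σ_i = σ(a_i)`; `p/α^σ_i = σ(p/a_i)` and again
`f = ∏ (X - α^σ_i)(X - p/α^σ_i)` (apply `σ`).  All these elements are integral over `ℤ`, so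
`v ≤ 1` (`val_le_one`), and `v(α) v(p/α) = v p < 1`, so at most one of `α^σ_i`, `p/α^σ_i` is a
unit.  By `units_card` exactly `g - 1` of the `2 g` elements are units, so exactly one index
`i = i(σ)` has no unit; by `pair_val`, `v(α^σ_{i(σ)})^2 = v p`.
Define `s^σ_i = -1` if `v(α^σ_i) = 1`; `+1` if `v(p/α^σ_i) = 1` (then `v(α^σ_i) = v p`);
`0` if `i = i(σ)`.  In all cases `v((α^σ_i)^2 / p) = (v p)^{s^σ_i}` (zpow).
Applying `σ` and `v` to the relation: `1 = ∏ (v p)^{s^σ_i n_i} = (v p)^{∑ n_i s^σ_i}`; as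
`0 < v p < 1` in a linearly ordered group with zero, `∑ n_i s^σ_i = 0`.
Transitivity: for every `j` there is `σ` with `i(σ) = j`: take `σ = 1` and its index `i1 = i(1)`;
`a_{i1}` and `a_j` are roots of the irreducible `f`, so some `σ` has `σ(a_j) = a_{i1}`
(`isConjRoot_iff_exists_algEquiv`, `minpoly` of both is `f`); then `α^σ_j = a_{i1}` is not a unit
and neither is `p/a_{i1}`, so `i(σ) = j`.
Now `comb` with `T = {s^σ}` gives `n = 0`.
-/

set_option autoImplicit false

namespace LIF

open Polynomial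

open scoped Classical in
theorem gal_sign {E : Type*} [Field E] (A : ValuationSubring E) {p : ℕ} [Fact p.Prime]
    (hp : A.valuation (p : E) < 1) (hp0 : (p : E) ≠ 0) {g : ℕ} (g1 : 1 ≤ g) {f : ℤ[X]}
    (hm : f.Monic)
    (hlow : ∀ j ≤ g, (p : ℤ) ∣ f.coeff j) (hmid : ¬ (p : ℤ) ∣ f.coeff (g + 1))
    (a : Fin g → E) (h0 : ∀ i, a i ≠ 0)
    (hs : f.map (Int.castRingHom E) = ∏ i, ((X - C (a i)) * (X - C ((p : E) / a i)))) :
    ∃ (s : Fin g → ℤ) (i0 : Fin g), (∀ i, s i = -1 ∨ s i = 0 ∨ s i = 1) ∧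
      (∀ i, s i = 0 ↔ i = i0) ∧
      (∀ i, A.valuation (a i ^ 2 / (p : E)) = A.valuation (p : E) ^ s i) ∧
      (A.valuation (a i0) < 1 ∧ A.valuation ((p : E) / a i0) < 1) ∧
      (∀ i, i ≠ i0 → A.valuation (a i) = 1 ∨ A.valuation ((p : E) / a i) = 1) := by
  have hvp0 : A.valuation (p : E) ≠ 0 := by
    simpa using hp0
  have hroot1 : ∀ i, aeval (a i) f = 0 := by
    intro i
    have : (f.map (Int.castRingHom E)).eval (a i) = 0 := by
      rw [hs, eval_prod]
      refine Finset.prod_eq_zero (Finset.mem_univ i) ?_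
      simp
    simpa [eval_map, aeval_def] using this
  have hroot2 : ∀ i, aeval ((p : E) / a i) f = 0 := by
    intro i
    have : (f.map (Int.castRingHom E)).eval ((p : E) / a i) = 0 := by
      rw [hs, eval_prod]
      refine Finset.prod_eq_zero (Finset.mem_univ i) ?_
      simp
    simpa [eval_map, aeval_def] using this
  have hint1 : ∀ i, A.valuation (a i) ≤ 1 := fun i => val_le_one A ⟨f, hm, hroot1 i⟩
  have hint2 : ∀ i, A.valuation ((p : E) / a i) ≤ 1 := fun i => val_le_one A ⟨f, hm, hroot2 i⟩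
  have hmul : ∀ i, A.valuation (a i) * A.valuation ((p : E) / a i) = A.valuation (p : E) := by
    intro i
    rw [← map_mul, mul_div_cancel₀ _ (h0 i)]
  have hdisj : ∀ i, ¬ (A.valuation (a i) = 1 ∧ A.valuation ((p : E) / a i) = 1) := by
    rintro i ⟨h1, h2⟩
    have := hmul i
    rw [h1, h2, one_mul] at this
    exact absurd this.symm hp.ne
  set s : Multiset E := (Finset.univ.val.map a) + (Finset.univ.val.map fun i => (p : E) / a i)
    with hsdef
  have hcount := units_card A hp g1 (f := f) s (by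
      rw [hs, hsdef, Multiset.map_add, Multiset.prod_add, Finset.prod_mul_distrib]
      simp [Finset.prod, Function.comp_def])
    (by simp [hsdef, two_mul]) hlow hmid (by
      intro x hx
      rw [hsdef, Multiset.mem_add, Multiset.mem_map, Multiset.mem_map] at hx
      rcases hx with ⟨i, -, rfl⟩ | ⟨i, -, rfl⟩
      · exact hint1 i
      · exact hint2 i)
  rw [hsdef, Multiset.filter_add, Multiset.card_add, Multiset.filter_map, Multiset.filter_map,
    Multiset.card_map, Multiset.card_map] at hcount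
  have hU : (Finset.univ.filter fun i => A.valuation (a i) = 1 ∨
      A.valuation ((p : E) / a i) = 1).card = g - 1 := by
    rw [Finset.filter_or, Finset.card_union_of_disjoint]
    · rw [← hcount]
      rfl
    · rw [Finset.disjoint_filter]
      intro i _ h1 h2
      exact hdisj i ⟨h1, h2⟩
  have hN : (Finset.univ.filter fun i => ¬ (A.valuation (a i) = 1 ∨
      A.valuation ((p : E) / a i) = 1)).card = 1 := by
    have h := Finset.card_filter_add_card_filter_not (s := (Finset.univ : Finset (Fin g)))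
      (fun i => A.valuation (a i) = 1 ∨ A.valuation ((p : E) / a i) = 1)
    rw [Finset.card_univ, Fintype.card_fin, hU] at h
    omega
  obtain ⟨i0, hi0⟩ := Finset.card_eq_one.mp hN
  have hi0' : ∀ i, ¬ (A.valuation (a i) = 1 ∨ A.valuation ((p : E) / a i) = 1) ↔ i = i0 := by
    intro i
    have : i ∈ (Finset.univ.filter fun i => ¬ (A.valuation (a i) = 1 ∨
      A.valuation ((p : E) / a i) = 1)) ↔ i ∈ ({i0} : Finset (Fin g)) := by rw [hi0]
    simpa using this
  have hz : ¬ (A.valuation (a i0) = 1 ∨ A.valuation ((p : E) / a i0) = 1) := (hi0' i0).mpr rfl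
  push Not at hz
  have hb : A.valuation (a i0) < 1 := lt_of_le_of_ne (hint1 i0) hz.1
  have hb' : A.valuation ((p : E) / a i0) < 1 := lt_of_le_of_ne (hint2 i0) hz.2
  have hrest : ∀ i, i ≠ i0 → A.valuation (a i) = 1 ∨ A.valuation ((p : E) / a i) = 1 := by
    intro i hi
    by_contra hcon
    exact hi ((hi0' i).mp hcon)
  have hpair := pair_val A hp hp0 a h0 hs (hlow g le_rfl) i0 hrest hb hb'
  refine ⟨fun i => if A.valuation (a i) = 1 then -1 else
    if A.valuation ((p : E) / a i) = 1 then 1 else 0, i0, ?_, ?_, ?_, ⟨hb, hb'⟩, hrest⟩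
  · intro i
    dsimp only
    split_ifs <;> simp
  · intro i
    dsimp only
    rw [← hi0' i]
    by_cases h1 : A.valuation (a i) = 1
    · simp [h1]
    · by_cases h2 : A.valuation ((p : E) / a i) = 1
      · simp [h1, h2]
      · simp [h1, h2]
  · intro i
    dsimp only
    rw [map_div₀, map_pow]
    by_cases h1 : A.valuation (a i) = 1
    · simp [h1]
    · by_cases h2 : A.valuation ((p : E) / a i) = 1
      · have h3 := hmul i
        rw [h2, mul_one] at h3
        rw [if_neg h1, if_pos h2, h3, zpow_one, pow_two, mul_div_assoc, div_self hvp0, mul_one]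
      · rw [if_neg h1, if_neg h2]
        have : i = i0 := (hi0' i).mp (by push Not; exact ⟨h1, h2⟩)
        rw [this, hpair, div_self hvp0, zpow_zero]

theorem gal_core_aux {E : Type*} [Field E] [Algebra ℚ E] [IsAlgClosed E] [CharZero E]
    [Normal ℚ E] (ι : E →ₐ[ℚ] ℂ) {p : ℕ} [Fact p.Prime] {g : ℕ} (ge : Even g) (g1 : 1 ≤ g) {f : ℤ[X]}
    (hm : f.Monic) (hd : f.natDegree = 2 * g)
    (hirr : Irreducible (f.map (Int.castRingHom ℚ)))
    (hlow : ∀ j ≤ g, (p : ℤ) ∣ f.coeff j) (hmid : ¬ (p : ℤ) ∣ f.coeff (g + 1))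
    (α : Fin g → ℂ)
    (hα : f.map (Int.castRingHom ℂ) = ∏ i, ((X - C (α i)) * (X - C ((p : ℂ) / α i))))
    (n : Fin g → ℤ) (hn : ∏ i, (α i ^ 2 / (p : ℂ)) ^ n i = 1) : n = 0 := by
  classical
  have hιinj : Function.Injective ι := ι.toRingHom.injective
  have hmapι : (f.map (Int.castRingHom E)).map (ι : E →+* ℂ) = f.map (Int.castRingHom ℂ) := by
    rw [Polynomial.map_map]
    congr 1
    exact RingHom.ext_int _ _
  -- the roots in E
  have hsplit : (f.map (Int.castRingHom E)).Splits := IsAlgClosed.splits _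
  have hmE : (f.map (Int.castRingHom E)).Monic := hm.map _
  have hfE : f.map (Int.castRingHom E) =
      ((f.map (Int.castRingHom E)).roots.map fun x => X - C x).prod := by
    have h := hsplit.eq_prod_roots
    rw [hmE.leadingCoeff, C_1, one_mul] at h
    exact h
  have hex : ∀ i, ∃ a : E, ι a = α i := by
    intro i
    have h1 : (f.map (Int.castRingHom ℂ)).eval (α i) = 0 := by
      rw [hα, eval_prod]
      refine Finset.prod_eq_zero (Finset.mem_univ i) ?_
      simp
    rw [← hmapι, hfE, Polynomial.map_multiset_prod, eval_multiset_prod, Multiset.prod_eq_zero_iff,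
      Multiset.mem_map] at h1
    obtain ⟨q, hq, hq0⟩ := h1
    rw [Multiset.mem_map] at hq
    obtain ⟨q', hq', rfl⟩ := hq
    rw [Multiset.mem_map] at hq'
    obtain ⟨a, -, rfl⟩ := hq'
    refine ⟨a, ?_⟩
    simp only [Polynomial.map_sub, map_X, map_C, eval_sub, eval_X, eval_C] at hq0
    exact (sub_eq_zero.mp hq0).symm
  choose a ha using hex
  have hpE : (p : E) ≠ 0 := by
    have : p ≠ 0 := (Fact.out : p.Prime).ne_zero
    exact_mod_cast this
  have hsE : f.map (Int.castRingHom E) = ∏ i, ((X - C (a i)) * (X - C ((p : E) / a i))) := by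
    apply Polynomial.map_injective (ι : E →+* ℂ) hιinj
    rw [hmapι, hα, Polynomial.map_prod]
    refine Finset.prod_congr rfl fun i _ => ?_
    rw [Polynomial.map_mul, Polynomial.map_sub, Polynomial.map_sub, map_X, map_C, map_C]
    have h1 : (ι : E →+* ℂ) (a i) = α i := ha i
    have h2 : (ι : E →+* ℂ) ((p : E) / a i) = (p : ℂ) / α i := by
      rw [map_div₀, h1, map_natCast]
    rw [h1, h2]
  have hnE : ∏ i, (a i ^ 2 / (p : E)) ^ n i = 1 := by
    apply hιinj
    rw [map_prod, map_one, ← hn]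
    refine Finset.prod_congr rfl fun i _ => ?_
    rw [map_zpow₀, map_div₀, map_pow, ha, map_natCast]
  have ha0 : ∀ i, a i ≠ 0 := by
    intro i h
    have h1 : (f.map (Int.castRingHom E)).eval (a i) = 0 := by
      rw [hsE, eval_prod]
      refine Finset.prod_eq_zero (Finset.mem_univ i) ?_
      simp
    rw [h] at h1
    have h2 : (f.map (Int.castRingHom ℚ)).IsRoot 0 := by
      have h3 : ((f.map (Int.castRingHom ℚ)).eval 0 : ℚ) = ((f.coeff 0 : ℤ) : ℚ) := by
        rw [← coeff_zero_eq_eval_zero, coeff_map]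
        simp
      have h4 : ((f.map (Int.castRingHom E)).eval 0 : E) = ((f.coeff 0 : ℤ) : E) := by
        rw [← coeff_zero_eq_eval_zero, coeff_map]
        simp
      rw [h4] at h1
      have h5 : f.coeff 0 = 0 := by exact_mod_cast h1
      rw [IsRoot.def, h3, h5]
      simp
    have h3 := degree_eq_one_of_irreducible_of_root hirr h2
    have h4 : (f.map (Int.castRingHom ℚ)).natDegree = 1 := natDegree_eq_of_degree_eq_some h3
    rw [hm.natDegree_map, hd] at h4
    omega
  obtain ⟨A, hA⟩ := exists_val (E := E) p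
  -- for every automorphism
  have key : ∀ σ : E ≃ₐ[ℚ] E, ∃ (s : Fin g → ℤ) (i0 : Fin g), (∀ i, s i = -1 ∨ s i = 0 ∨ s i = 1) ∧
      (∀ i, s i = 0 ↔ i = i0) ∧
      (∀ i, A.valuation (σ (a i) ^ 2 / (p : E)) = A.valuation (p : E) ^ s i) ∧
      (A.valuation (σ (a i0)) < 1 ∧ A.valuation ((p : E) / σ (a i0)) < 1) ∧
      (∀ i, i ≠ i0 → A.valuation (σ (a i)) = 1 ∨ A.valuation ((p : E) / σ (a i)) = 1) := by
    intro σ
    refine gal_sign A hA hpE g1 hm hlow hmid (fun i => σ (a i)) (fun i => ?_) ?_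
    · simpa using ha0 i
    · have h1 : (f.map (Int.castRingHom E)).map (σ : E →+* E) = f.map (Int.castRingHom E) := by
        rw [Polynomial.map_map]
        congr 1
        exact RingHom.ext_int _ _
      rw [← h1, hsE, Polynomial.map_prod]
      refine Finset.prod_congr rfl fun i _ => ?_
      rw [Polynomial.map_mul, Polynomial.map_sub, Polynomial.map_sub, map_X, map_C, map_C]
      have h3 : (σ : E →+* E) ((p : E) / a i) = (p : E) / σ (a i) := by
        rw [map_div₀, map_natCast]
        rfl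
      rw [h3]
      rfl
  choose s i0 hs1 hs2 hs3 hs4 hs5 using key
  have hsum : ∀ σ : E ≃ₐ[ℚ] E, ∑ i, n i * s σ i = 0 := by
    intro σ
    have h1 : ∏ i, (σ (a i) ^ 2 / (p : E)) ^ n i = 1 := by
      have h := congrArg σ hnE
      rw [map_prod, map_one] at h
      rw [← h]
      refine Finset.prod_congr rfl fun i _ => ?_
      rw [map_zpow₀, map_div₀, map_pow, map_natCast]
    have h2 := congrArg A.valuation h1
    rw [map_prod, map_one] at h2
    have h3 : ∏ i, A.valuation ((σ (a i) ^ 2 / (p : E)) ^ n i) =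
        A.valuation (p : E) ^ (∑ i, n i * s σ i) := by
      have hv0 : A.valuation (p : E) ≠ 0 := by simpa using hpE
      have h4 : ∀ t : Finset (Fin g), ∏ i ∈ t, A.valuation ((σ (a i) ^ 2 / (p : E)) ^ n i) =
          A.valuation (p : E) ^ (∑ i ∈ t, n i * s σ i) := by
        intro t
        induction t using Finset.induction_on with
        | empty => simp
        | insert i t hi ih =>
          rw [Finset.prod_insert hi, Finset.sum_insert hi, ih, zpow_add₀ hv0, map_zpow₀, hs3 σ i,
            ← zpow_mul, mul_comm (s σ i)]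
      exact h4 _
    rw [h3, zpow_eq_one_iff_right₀ zero_le hA.ne] at h2
    exact h2
  refine comb ge n {t | ∃ σ, t = s σ} ?_ ?_ ?_ ?_
  · rintro _ ⟨σ, rfl⟩ i
    exact hs1 σ i
  · rintro _ ⟨σ, rfl⟩ i j hi hj
    rw [(hs2 σ i).mp hi, (hs2 σ j).mp hj]
  · intro j
    -- transitivity
    have hmin : ∀ i, minpoly ℚ (a i) = f.map (Int.castRingHom ℚ) := by
      intro i
      symm
      apply minpoly.eq_of_irreducible_of_monic hirr _ (hm.map _)
      have h1 : (f.map (Int.castRingHom E)).eval (a i) = 0 := by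
        rw [hsE, eval_prod]
        refine Finset.prod_eq_zero (Finset.mem_univ i) ?_
        simp
      have h2 : (f.map (Int.castRingHom ℚ)).map (algebraMap ℚ E) = f.map (Int.castRingHom E) := by
        rw [Polynomial.map_map]
        congr 1
        exact RingHom.ext_int _ _
      rw [aeval_def, ← eval_map, h2, h1]
    have hconj : IsConjRoot ℚ (a (i0 1)) (a j) := by
      rw [IsConjRoot, hmin, hmin]
    obtain ⟨σ, hσ⟩ := isConjRoot_iff_exists_algEquiv.mp hconj
    refine ⟨s σ, ⟨σ, rfl⟩, ?_⟩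
    rw [hs2]
    by_contra hne
    have h1 := hs5 σ j hne
    have h2 := hs4 1
    rw [hσ] at h1
    simp only [AlgEquiv.one_apply] at h2
    rcases h1 with h1 | h1
    · exact absurd h1 h2.1.ne
    · exact absurd h1 h2.2.ne
  · rintro _ ⟨σ, rfl⟩
    exact hsum σ


theorem gal_core {p : ℕ} [Fact p.Prime] {g : ℕ} (ge : Even g) (g1 : 1 ≤ g) {f : ℤ[X]}
    (hm : f.Monic) (hd : f.natDegree = 2 * g)
    (hirr : Irreducible (f.map (Int.castRingHom ℚ)))
    (hlow : ∀ j ≤ g, (p : ℤ) ∣ f.coeff j) (hmid : ¬ (p : ℤ) ∣ f.coeff (g + 1))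
    (α : Fin g → ℂ)
    (hα : f.map (Int.castRingHom ℂ) = ∏ i, ((X - C (α i)) * (X - C ((p : ℂ) / α i))))
    (n : Fin g → ℤ) (hn : ∏ i, (α i ^ 2 / (p : ℂ)) ^ n i = 1) : n = 0 := by
  letI : Algebra ℚ (AlgebraicClosure ℚ) := AlgebraicClosure.instAlgebra ℚ
  haveI : Algebra.IsAlgebraic ℚ (AlgebraicClosure ℚ) := AlgebraicClosure.isAlgebraic ℚ
  exact gal_core_aux (E := AlgebraicClosure ℚ) IsAlgClosed.lift ge g1 hm hd hirr hlow hmid α hα n hn

end LIF
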