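import Mathlib

/-!
[LI-MulNewt] Newton's identities for a multiset: if `f = ∏_{x ∈ s} (X - x)` and
`c_d = f.coeff (card s - d)` (`0` for `d > card s`), then
`d c_d = - ∑_{m=1}^d p_m c_{d-m}`, `p_m = ∑_{x ∈ s} x^m`, for ALL `d ≥ 1`.  (imports Mathlib.)

Proof by induction on the multiset.  `s = 0`: `f = 1`, `c_0 = 1`, `c_d = 0` for `d ≥ 1`.
`s = a ::ₘ s'`: `c_d = c'_d - a c'_{d-1}` (`d ≥ 1`), `c_0 = c'_0 = 1`, `p_m = p'_m + a^m`.
Put `c'_{-1} = 0`.  For `d ≥ 1`
`∑_{m=1}^d p_m c_{d-m} = ∑_{m=1}^d (p'_m + a^m)(c'_{d-m} - a c'_{d-m-1})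
 = ∑_m p'_m c'_{d-m} - a ∑_{m=1}^{d-1} p'_m c'_{d-1-m}
   + ∑_{m=1}^d a^m c'_{d-m} - ∑_{m=1}^{d} a^{m+1} c'_{d-m-1}
 = -d c'_d + a (d-1) c'_{d-1} + a c'_{d-1} = -d (c'_d - a c'_{d-1}) = -d c_d`
(telescoping of the last two sums; the induction hypothesis at `d` and, if `d ≥ 2`, at `d-1`).
It may be easier to prove the identity for the sequence defined by recursion, or in power series:
`C(u) = ∏ (1 - x u)`, `u C' = - C ∑_x ∑_{m ≥ 1} x^m u^m`.
Alternatively use `Multiset.esymm`, `Polynomial.coeff_...`/`Multiset.prod_X_sub_C_coeff` and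
`MvPolynomial.mul_esymm_eq_sum` (Mathlib's Newton identities).
-/

set_option autoImplicit false

namespace LIF

open Polynomial

/-- `c_d` -/
noncomputable def mc {R : Type*} [CommRing R] (s : Multiset R) (d : ℕ) : R :=
  if d ≤ s.card then ((s.map (fun x => X - C x)).prod).coeff (s.card - d) else 0

theorem MulNewt_zero {R : Type*} [CommRing R] [Nontrivial R] (s : Multiset R) : mc s 0 = 1 := by
  unfold mc
  rw [if_pos (Nat.zero_le _), Nat.sub_zero]
  have h1 : ((s.map (fun x => X - C x)).prod).Monic := monic_multisetProd_X_sub_C s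
  have h2 : ((s.map (fun x => X - C x)).prod).natDegree = s.card :=
    natDegree_multiset_prod_X_sub_C_eq_card s
  rw [← h2]
  exact h1

theorem MulNewt_cons {R : Type*} [CommRing R] [Nontrivial R] (a : R) (s : Multiset R) (d : ℕ) :
    mc (a ::ₘ s) (d + 1) = mc s (d + 1) - a * mc s d := by
  unfold mc
  rw [Multiset.card_cons, Multiset.map_cons, Multiset.prod_cons]
  by_cases h1 : d ≤ s.card
  · rw [if_pos (by omega), if_pos h1, show s.card + 1 - (d + 1) = s.card - d by omega, sub_mul,
      coeff_sub, coeff_C_mul]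
    congr 1
    by_cases h2 : d + 1 ≤ s.card
    · rw [if_pos h2, show s.card - d = s.card - (d + 1) + 1 by omega, coeff_X_mul]
    · rw [if_neg h2, show s.card - d = 0 by omega, coeff_X_mul_zero]
  · rw [if_neg (by omega), if_neg (by omega), if_neg h1]
    ring

theorem MulNewt_U {R : Type*} [CommRing R] [Nontrivial R] (a : R) (s : Multiset R) (q : ℕ → R)
    (d : ℕ) : ∑ m ∈ Finset.range (d + 1), q m * mc (a ::ₘ s) (d - m) =
      ∑ m ∈ Finset.range (d + 1), q m * mc s (d - m) -
        a * ∑ m ∈ Finset.range d, q m * mc s (d - 1 - m) := by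
  rw [Finset.sum_range_succ, Finset.sum_range_succ, Nat.sub_self, MulNewt_zero, MulNewt_zero,
    Finset.mul_sum, add_sub_right_comm, ← Finset.sum_sub_distrib]
  congr 1
  apply Finset.sum_congr rfl
  intro m hm
  have hm' : m < d := Finset.mem_range.1 hm
  obtain ⟨j, hj⟩ : ∃ j, d - m = j + 1 := ⟨d - m - 1, by omega⟩
  rw [hj, MulNewt_cons, show d - 1 - m = j by omega]
  ring

theorem MulNewt_geo {R : Type*} [CommRing R] (a : R) (s : Multiset R) (d : ℕ) :
    ∑ m ∈ Finset.range (d + 1), a ^ (m + 1) * mc s (d - m) =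
      a * mc s d + a * ∑ m ∈ Finset.range d, a ^ (m + 1) * mc s (d - 1 - m) := by
  rw [Finset.sum_range_succ', Finset.mul_sum, add_comm, Nat.sub_zero, zero_add, pow_one]
  congr 1
  apply Finset.sum_congr rfl
  intro m _
  rw [show d - (m + 1) = d - 1 - m by omega]
  ring

theorem MulNewt_main {R : Type*} [CommRing R] [Nontrivial R] (s : Multiset R) :
    ∀ d : ℕ, (d : R) * mc s d =
      - ∑ m ∈ Finset.range d, (s.map (fun x => x ^ (m + 1))).sum * mc s (d - 1 - m) := by
  induction s using Multiset.induction_on with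
  | empty =>
    intro d
    rcases d with _ | d
    · simp
    · simp [mc]
  | cons a s ih =>
    intro d
    rcases d with _ | d
    · simp
    · have h1 := MulNewt_U a s (fun m => (s.map (fun x => x ^ (m + 1))).sum) d
      have h2 := MulNewt_U a s (fun m => a ^ (m + 1)) d
      have h3 := MulNewt_geo a s d
      have h4 := ih d
      have h5 := ih (d + 1)
      rw [Nat.add_sub_cancel] at h5
      rw [Nat.add_sub_cancel, MulNewt_cons]
      have h6 : ∑ m ∈ Finset.range (d + 1), ((a ::ₘ s).map (fun x => x ^ (m + 1))).sum *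
          mc (a ::ₘ s) (d - m) =
          ∑ m ∈ Finset.range (d + 1), a ^ (m + 1) * mc (a ::ₘ s) (d - m) +
          ∑ m ∈ Finset.range (d + 1), (s.map (fun x => x ^ (m + 1))).sum *
            mc (a ::ₘ s) (d - m) := by
        rw [← Finset.sum_add_distrib]
        apply Finset.sum_congr rfl
        intro m _
        rw [Multiset.map_cons, Multiset.sum_cons]
        ring
      rw [h6]
      rw [h1, h2, h3]
      push_cast at h5 ⊢
      linear_combination h5 - a * h4

theorem mul_newton {R : Type*} [CommRing R] [Nontrivial R] (s : Multiset R) {d : ℕ}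
    (hd : 1 ≤ d) :
    (d : R) * mc s d = - ∑ m ∈ Finset.Icc 1 d, (s.map (fun x => x ^ m)).sum * mc s (d - m) := by
  rw [MulNewt_main s d]
  congr 1
  refine Finset.sum_nbij' (fun m => m + 1) (fun m => m - 1) ?_ ?_ ?_ ?_ ?_
  · intro m hm
    have := Finset.mem_range.1 hm
    rw [Finset.mem_Icc]
    omega
  · intro m hm
    have := Finset.mem_Icc.1 hm
    rw [Finset.mem_range]
    omega
  · intro m _
    simp
  · intro m hm
    have := Finset.mem_Icc.1 hm
    show m - 1 + 1 = m
    omega
  · intro m _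
    show _ = (s.map (fun x => x ^ (m + 1))).sum * mc s (d - (m + 1))
    rw [show d - (m + 1) = d - 1 - m by omega]

end LIF
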