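import Pool.Agent.helper1.LI.Defs
import Pool.Agent.helper1.LI.MulNewt

/-!
[LI-ChNewt] Newton's identities for the characteristic polynomial of an integer matrix
(import `Defs` and the stub `MulNewt`).

Proof (helper79).  The coefficients `Q_k` of the adjugate of `X - A` (as a polynomial with matrix
coefficients) satisfy `Q_{k-1} = A Q_k + c_k`, so `Q_{g-1-j} = ∑_{i ≤ j} e_i A^{j-i}`, and the trace
of the adjugate is the derivative of the characteristic polynomial.
-/

set_option autoImplicit false

namespace LIF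

open Polynomial

section ChNewt

variable {R : Type*} [CommRing R] {g : ℕ}

theorem chnewt_deriv_det (M : Matrix (Fin g) (Fin g) R[X]) :
    derivative M.det = ∑ i, (M.updateCol i (fun j => derivative (M j i))).det := by
  simp only [Matrix.det_apply']
  rw [derivative_sum, Finset.sum_comm]
  refine Finset.sum_congr rfl (fun σ _ => ?_)
  rw [derivative_mul, derivative_intCast, zero_mul, zero_add, derivative_prod_finset,
    Finset.mul_sum]
  refine Finset.sum_congr rfl (fun i _ => ?_)
  congr 1
  rw [← Finset.mul_prod_erase Finset.univ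
    (fun j => M.updateCol i (fun j => derivative (M j i)) (σ j) j) (Finset.mem_univ i),
    Matrix.updateCol_self, mul_comm]
  congr 1
  refine Finset.prod_congr rfl (fun j hj => ?_)
  rw [Matrix.updateCol_ne (Finset.ne_of_mem_erase hj)]

theorem chnewt_deriv_charpoly (A : Matrix (Fin g) (Fin g) R) :
    derivative A.charpoly = (Matrix.adjugate A.charmatrix).trace := by
  rw [Matrix.charpoly, chnewt_deriv_det, Matrix.trace]
  refine Finset.sum_congr rfl (fun i _ => ?_)
  have h1 : (Matrix.adjugate A.charmatrix) i i = (Matrix.adjugate A.charmatrix.transpose) i i := by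
    rw [← Matrix.adjugate_transpose]; rfl
  rw [Matrix.diag_apply, h1, Matrix.adjugate_apply, Matrix.updateRow_transpose,
    Matrix.det_transpose]
  congr 2
  funext j
  rw [Matrix.charmatrix_apply, derivative_sub, derivative_C, sub_zero]
  by_cases h : j = i
  · subst h; simp
  · simp [h, Matrix.diagonal_apply_ne]

/-- the coefficients of the adjugate of `X - A` -/
noncomputable def chnewtQ (A : Matrix (Fin g) (Fin g) R) : (Matrix (Fin g) (Fin g) R)[X] :=
  matPolyEquiv (Matrix.adjugate A.charmatrix)

theorem chnewt_mul (A : Matrix (Fin g) (Fin g) R) :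
    (X - C A) * chnewtQ A = A.charpoly.map (algebraMap R (Matrix (Fin g) (Fin g) R)) := by
  rw [chnewtQ, ← Matrix.matPolyEquiv_charmatrix, ← map_mul, Matrix.mul_adjugate,
    matPolyEquiv_smul_one]
  rfl

theorem chnewt_rec (A : Matrix (Fin g) (Fin g) R) (k : ℕ) :
    (chnewtQ A).coeff k = A * (chnewtQ A).coeff (k + 1) +
      A.charpoly.coeff (k + 1) • (1 : Matrix (Fin g) (Fin g) R) := by
  have h := congrArg (fun f => f.coeff (k + 1)) (chnewt_mul A)
  simp only [sub_mul, coeff_sub, coeff_X_mul, coeff_C_mul, coeff_map] at h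
  rw [sub_eq_iff_eq_add', Algebra.algebraMap_eq_smul_one] at h
  exact h

theorem chnewt_rec0 (A : Matrix (Fin g) (Fin g) R) :
    A * (chnewtQ A).coeff 0 + A.charpoly.coeff 0 • (1 : Matrix (Fin g) (Fin g) R) = 0 := by
  have h := congrArg (fun f => f.coeff 0) (chnewt_mul A)
  simp only [sub_mul, coeff_sub, coeff_X_mul_zero, coeff_C_mul, coeff_map] at h
  rw [Algebra.algebraMap_eq_smul_one] at h
  rw [← h]
  simp

theorem chnewt_natDegree [Nontrivial R] (A : Matrix (Fin g) (Fin g) R) :
    A.charpoly.natDegree = g := by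
  rw [Matrix.charpoly_natDegree_eq_dim, Fintype.card_fin]

theorem chnewt_high [Nontrivial R] (A : Matrix (Fin g) (Fin g) R) {k : ℕ} (hk : g ≤ k) :
    (chnewtQ A).coeff k = 0 := by
  have h : ∀ j : ℕ, (chnewtQ A).coeff k = A ^ j * (chnewtQ A).coeff (k + j) := by
    intro j
    induction j with
    | zero => simp
    | succ j ih =>
      rw [ih, chnewt_rec A (k + j), coeff_eq_zero_of_natDegree_lt (p := A.charpoly), zero_smul,
        add_zero, pow_succ, mul_assoc, add_assoc]
      rw [chnewt_natDegree]
      omega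
  rw [h ((chnewtQ A).natDegree + 1), coeff_eq_zero_of_natDegree_lt (by omega), mul_zero]

/-- `∑_{i ≤ j} e_i A^{j-i}` -/
noncomputable def chnewtS (A : Matrix (Fin g) (Fin g) R) (j : ℕ) : Matrix (Fin g) (Fin g) R :=
  ∑ i ∈ Finset.range (j + 1), eps A i • A ^ (j - i)

theorem chnewtS_succ (A : Matrix (Fin g) (Fin g) R) (j : ℕ) :
    chnewtS A (j + 1) = A * chnewtS A j + eps A (j + 1) • (1 : Matrix (Fin g) (Fin g) R) := by
  rw [chnewtS, Finset.sum_range_succ, chnewtS, Finset.mul_sum]
  congr 1
  · refine Finset.sum_congr rfl (fun i hi => ?_)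
    rw [Finset.mem_range] at hi
    rw [show j + 1 - i = (j - i) + 1 by omega, pow_succ', mul_smul_comm]
  · simp

theorem chnewtS_low [Nontrivial R] (A : Matrix (Fin g) (Fin g) R) :
    ∀ j : ℕ, j < g → (chnewtQ A).coeff (g - 1 - j) = chnewtS A j := by
  intro j
  induction j with
  | zero =>
    intro hj
    rw [chnewt_rec, chnewt_high A (by omega), mul_zero, zero_add]
    simp only [chnewtS, eps]
    simp [show g - 1 + 1 = g by omega]
  | succ j ih =>
    intro hj
    rw [chnewtS_succ, ← ih (by omega), chnewt_rec, show g - 1 - (j + 1) + 1 = g - 1 - j by omega]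
    congr 2
    rw [eps, if_pos (by omega), show g - (j + 1) = g - 1 - j by omega]

theorem chnewtS_g (A : Matrix (Fin g) (Fin g) R) [Nontrivial R] : chnewtS A g = 0 := by
  rcases Nat.eq_zero_or_pos g with hg | hg
  · subst hg
    exact Subsingleton.elim _ _
  · obtain ⟨g', rfl⟩ : ∃ g', g = g' + 1 := ⟨g - 1, by omega⟩
    rw [chnewtS_succ, ← chnewtS_low A g' (by omega), show g' + 1 - 1 - g' = 0 by omega,
      eps, if_pos le_rfl, Nat.sub_self, chnewt_rec0]

theorem chnewtS_high (A : Matrix (Fin g) (Fin g) R) [Nontrivial R] (k : ℕ) :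
    chnewtS A (g + k) = 0 := by
  induction k with
  | zero => exact chnewtS_g A
  | succ k ih =>
    rw [← add_assoc, chnewtS_succ, ih, mul_zero, eps, if_neg (by omega), zero_smul, add_zero]

theorem chnewt_trace (A : Matrix (Fin g) (Fin g) R) [Nontrivial R] (j : ℕ) :
    (chnewtS A j).trace = ((g : R) - j) * eps A j := by
  rcases lt_or_ge j g with hj | hj
  · rw [← chnewtS_low A j hj]
    have h := congrArg (fun f => f.coeff (g - 1 - j)) (chnewt_deriv_charpoly A)
    simp only [coeff_derivative, Matrix.trace, Matrix.diag_apply, finset_sum_coeff] at h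
    have h2 : ((chnewtQ A).coeff (g - 1 - j)).trace =
        ∑ i, ((Matrix.adjugate A.charmatrix) i i).coeff (g - 1 - j) := by
      rw [Matrix.trace]
      refine Finset.sum_congr rfl (fun i _ => ?_)
      rw [Matrix.diag_apply, chnewtQ, matPolyEquiv_coeff_apply]
    rw [h2, ← h, eps, if_pos hj.le, show g - 1 - j + 1 = g - j by omega, mul_comm]
    congr 1
    have : ((g - 1 - j : ℕ) : R) + 1 = ((g - j : ℕ) : R) := by
      rw [← Nat.cast_succ]
      congr 1
      omega
    rw [this, Nat.cast_sub hj.le]
  · obtain ⟨k, rfl⟩ : ∃ k, j = g + k := ⟨j - g, by omega⟩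
    rw [chnewtS_high, Matrix.trace_zero]
    rcases Nat.eq_zero_or_pos k with hk | hk
    · subst hk; simp
    · rw [eps, if_neg (by omega), mul_zero]

theorem chnewt_main (A : Matrix (Fin g) (Fin g) R) [Nontrivial R] (d : ℕ) :
    (d : R) * eps A d = - ∑ m ∈ Finset.Icc 1 d, (A ^ m).trace * eps A (d - m) := by
  have h := chnewt_trace A d
  rw [chnewtS, Finset.sum_range_succ, Matrix.trace_add, Nat.sub_self, pow_zero,
    Matrix.trace_smul, Matrix.trace_one, Fintype.card_fin, Matrix.trace_sum] at h
  have h2 : ∑ m ∈ Finset.Icc 1 d, (A ^ m).trace * eps A (d - m) =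
      ∑ i ∈ Finset.range d, (eps A i • A ^ (d - i)).trace := by
    refine Finset.sum_bij' (fun m _ => d - m) (fun i _ => d - i) ?_ ?_ ?_ ?_ ?_
    · intro m hm
      rw [Finset.mem_Icc] at hm
      rw [Finset.mem_range]; omega
    · intro i hi
      rw [Finset.mem_range] at hi
      rw [Finset.mem_Icc]; omega
    · intro m hm
      rw [Finset.mem_Icc] at hm
      omega
    · intro i hi
      rw [Finset.mem_range] at hi
      omega
    · intro m hm
      rw [Finset.mem_Icc] at hm
      rw [Matrix.trace_smul, smul_eq_mul, mul_comm, show d - (d - m) = m by omega]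
  rw [h2]
  rw [smul_eq_mul] at h
  linear_combination h

end ChNewt

theorem charpoly_newton {g : ℕ} (A : Matrix (Fin g) (Fin g) ℤ) {d : ℕ} (hd : 1 ≤ d) :
    (d : ℤ) * eps A d = - ∑ m ∈ Finset.Icc 1 d, (A ^ m).trace * eps A (d - m) :=
  chnewt_main A d

end LIF
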