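import Mathlib

/-!
[LI-Pser] The conclusion in power series: `s ≡ ε mod q` (imports Mathlib only).

Proof.  In `W⟦u⟧` (`W` a domain of characteristic `0`) let `θ = u d/du`
(`θ f` has coefficients `d f_d`; it is a derivation: `θ (f g) = θ f * g + f * θ g`; use
`PowerSeries.derivative` times `X`, or a direct coefficient computation).
Put `E = ∑ ε_d u^d`, `S = ∑ s_d u^d`, `T = ∑_{m ≥ 1} t_m u^m`.  The hypotheses say
`θ E = - E T` and `θ S = S * ∑_{m≥1} (q^m F0^m + (q^m - 1) t_m) u^m`.
Let `E1 = E(q u) = ∑ q^d ε_d u^d`, `T1 = ∑ q^m t_m u^m`; then `θ E1 = - E1 T1` (multiply the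
recursion by `q^d`).  Let `L = 1 - q F0 u`, `θ L = - q F0 u = - L * ∑_{m≥1} (q F0)^m u^m`.
For `G = S E1 L`:
`θ G = G (∑ (q^m F0^m + (q^m - 1) t_m) u^m - T1 - ∑ (q F0)^m u^m) = - G T`.
`G` and `E` satisfy the same recursion `d x_d = - ∑_{m=1}^d t_m x_{d-m}` with `x_0 = 1`, so
`G = E` (strong induction, `d ≠ 0` in `W`).  Now `E1 L = 1 + q B` for some power series `B`
(coefficients: `E1` has `q^d ε_d`), so `E = S (1 + q B)`, `S - E = - q S B`.
-/

set_option autoImplicit false

namespace LIF

open PowerSeries in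
/-- the derivation `u d/du` -/
noncomputable def Pser_D {W : Type*} [CommRing W] (f : W⟦X⟧) : W⟦X⟧ :=
  PowerSeries.mk fun n => (n : W) * coeff n f

open PowerSeries in
/-- the series `∑_{m ≥ 1} a_m u^m` -/
noncomputable def Pser_A {W : Type*} [CommRing W] (a : ℕ → W) : W⟦X⟧ :=
  PowerSeries.mk fun n => if n = 0 then 0 else a n

open PowerSeries in
theorem Pser_D_mul {W : Type*} [CommRing W] (f g : W⟦X⟧) :
    Pser_D (f * g) = Pser_D f * g + f * Pser_D g := by
  ext n
  unfold Pser_D
  rw [coeff_mk, map_add, coeff_mul, coeff_mul, coeff_mul, Finset.mul_sum,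
    ← Finset.sum_add_distrib]
  refine Finset.sum_congr rfl fun x hx => ?_
  rw [coeff_mk, coeff_mk, ← Finset.HasAntidiagonal.mem_antidiagonal.1 hx]
  push_cast
  ring

open PowerSeries in
theorem Pser_conv {W : Type*} [CommRing W] (a x : ℕ → W) (d : ℕ) :
    coeff d (Pser_A a * PowerSeries.mk x) = ∑ m ∈ Finset.Icc 1 d, a m * x (d - m) := by
  rw [coeff_mul, Finset.Nat.sum_antidiagonal_eq_sum_range_succ
    (fun i j => coeff i (Pser_A a) * coeff j (PowerSeries.mk x)) d]
  symm
  have hsub : Finset.Icc 1 d ⊆ Finset.range d.succ := by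
    intro m hm
    have := Finset.mem_Icc.1 hm
    rw [Finset.mem_range]
    omega
  rw [← Finset.sum_subset hsub]
  · refine Finset.sum_congr rfl fun m hm => ?_
    have := Finset.mem_Icc.1 hm
    unfold Pser_A
    rw [coeff_mk, coeff_mk, if_neg (by omega)]
  · intro m hm hm2
    have h0 : m = 0 := by
      by_contra h1
      apply hm2
      rw [Finset.mem_Icc]
      have := Finset.mem_range.1 hm
      omega
    unfold Pser_A
    rw [coeff_mk, if_pos h0, zero_mul]

open PowerSeries in
theorem Pser_ode {W : Type*} [CommRing W] (a x : ℕ → W)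
    (h : ∀ d : ℕ, 1 ≤ d → (d : W) * x d = ∑ m ∈ Finset.Icc 1 d, a m * x (d - m)) :
    Pser_D (PowerSeries.mk x) = Pser_A a * PowerSeries.mk x := by
  ext d
  rw [Pser_conv]
  unfold Pser_D
  rw [coeff_mk, coeff_mk]
  rcases Nat.eq_zero_or_pos d with h0 | h0
  · rw [h0]
    simp
  · exact h d h0

open PowerSeries in
theorem Pser_uniq {W : Type*} [CommRing W] [IsDomain W] [CharZero W] (a x y : ℕ → W)
    (hx : Pser_D (PowerSeries.mk x) = Pser_A a * PowerSeries.mk x)
    (hy : Pser_D (PowerSeries.mk y) = Pser_A a * PowerSeries.mk y) (h0 : x 0 = y 0) :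
    ∀ d, x d = y d := by
  intro d
  induction d using Nat.strong_induction_on with
  | _ d ih =>
    rcases Nat.eq_zero_or_pos d with hd | hd
    · rw [hd, h0]
    · have h1 := congrArg (coeff d) hx
      have h2 := congrArg (coeff d) hy
      rw [Pser_conv] at h1 h2
      unfold Pser_D at h1 h2
      rw [coeff_mk, coeff_mk] at h1 h2
      have h3 : (d : W) * x d = (d : W) * y d := by
        rw [h1, h2]
        refine Finset.sum_congr rfl fun m hm => ?_
        have := Finset.mem_Icc.1 hm
        rw [ih (d - m) (by omega)]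
      have h4 : (d : W) ≠ 0 := by
        rw [Nat.cast_ne_zero]
        omega
      exact mul_left_cancel₀ h4 h3

theorem pser {W : Type*} [CommRing W] [IsDomain W] [CharZero W] (q F0 : W) (s ε t : ℕ → W)
    (s0 : s 0 = 1) (e0 : ε 0 = 1)
    (he : ∀ d : ℕ, 1 ≤ d → (d : W) * ε d = - ∑ m ∈ Finset.Icc 1 d, t m * ε (d - m))
    (hs : ∀ d : ℕ, 1 ≤ d → (d : W) * s d =
      ∑ m ∈ Finset.Icc 1 d, (q ^ m * F0 ^ m + (q ^ m - 1) * t m) * s (d - m)) (d : ℕ) :
    q ∣ s d - ε d := by
  open PowerSeries in
  -- the series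
  have hE : Pser_D (PowerSeries.mk ε) = Pser_A (fun m => - t m) * PowerSeries.mk ε := by
    apply Pser_ode
    intro d hd
    rw [he d hd, ← Finset.sum_neg_distrib]
    refine Finset.sum_congr rfl fun m _ => ?_
    ring
  have hE1 : Pser_D (PowerSeries.mk fun d => q ^ d * ε d) =
      Pser_A (fun m => - (q ^ m * t m)) * PowerSeries.mk fun d => q ^ d * ε d := by
    apply Pser_ode
    intro d hd
    have h1 : (d : W) * (q ^ d * ε d) = q ^ d * ((d : W) * ε d) := by ring
    rw [h1, he d hd, ← Finset.sum_neg_distrib, Finset.mul_sum]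
    refine Finset.sum_congr rfl fun m hm => ?_
    have hm' := Finset.mem_Icc.1 hm
    have h2 : q ^ d = q ^ m * q ^ (d - m) := by
      rw [← pow_add]
      congr 1
      omega
    rw [h2]
    ring
  have hS : Pser_D (PowerSeries.mk s) =
      Pser_A (fun m => q ^ m * F0 ^ m + (q ^ m - 1) * t m) * PowerSeries.mk s :=
    Pser_ode _ _ hs
  obtain ⟨l, hl⟩ : ∃ l : ℕ → W, l = fun d => if d = 0 then 1 else if d = 1 then - (q * F0) else 0 :=
    ⟨_, rfl⟩
  have l0 : l 0 = 1 := by rw [hl]; simp
  have l1 : l 1 = - (q * F0) := by rw [hl]; simp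
  have l2 : ∀ d, 2 ≤ d → l d = 0 := by
    intro d hd
    rw [hl]
    simp only
    rw [if_neg (by omega), if_neg (by omega)]
  have hL : Pser_D (PowerSeries.mk l) =
      Pser_A (fun m => - (q * F0) ^ m) * PowerSeries.mk l := by
    apply Pser_ode
    intro d hd
    rcases Nat.lt_or_ge d 2 with h2 | h2
    · have hd1 : d = 1 := by omega
      rw [hd1, l1, Finset.Icc_self, Finset.sum_singleton, Nat.sub_self, l0]
      push_cast
      ring
    · obtain ⟨e, rfl⟩ : ∃ e, d = e + 2 := ⟨d - 2, by omega⟩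
      rw [l2 _ (by omega), mul_zero, Finset.sum_Icc_succ_top (by omega),
        Finset.sum_Icc_succ_top (by omega), Finset.sum_eq_zero]
      · rw [show e + 2 - (e + 1) = 1 by omega, show e + 1 + 1 = e + 2 from rfl, Nat.sub_self,
          l0, l1]
        ring
      · intro m hm
        have hm' := Finset.mem_Icc.1 hm
        rw [l2 _ (by omega), mul_zero]
  -- the product
  obtain ⟨G, hG⟩ : ∃ G : PowerSeries W, G = PowerSeries.mk s *
    ((PowerSeries.mk fun d => q ^ d * ε d) * PowerSeries.mk l) := ⟨_, rfl⟩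
  have hAA : Pser_A (fun m => q ^ m * F0 ^ m + (q ^ m - 1) * t m) +
      (Pser_A (fun m => - (q ^ m * t m)) + Pser_A (fun m => - (q * F0) ^ m)) =
      Pser_A (fun m => - t m) := by
    ext n
    rw [map_add, map_add]
    unfold Pser_A
    rw [PowerSeries.coeff_mk, PowerSeries.coeff_mk, PowerSeries.coeff_mk, PowerSeries.coeff_mk]
    by_cases h : n = 0
    · rw [if_pos h, if_pos h, if_pos h, if_pos h]
      ring
    · rw [if_neg h, if_neg h, if_neg h, if_neg h]
      simp only [mul_pow]
      ring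
  have hDG : Pser_D G = Pser_A (fun m => - t m) * G := by
    rw [hG, Pser_D_mul, Pser_D_mul, hS, hE1, hL, ← hAA]
    ring
  have hGmk : PowerSeries.mk (fun n => PowerSeries.coeff n G) = G := by
    ext n
    rw [PowerSeries.coeff_mk]
  have hcoef0 : ∀ f g : PowerSeries W, PowerSeries.coeff 0 (f * g) =
      PowerSeries.coeff 0 f * PowerSeries.coeff 0 g := by
    intro f g
    rw [PowerSeries.coeff_zero_eq_constantCoeff_apply, PowerSeries.coeff_zero_eq_constantCoeff_apply,
      PowerSeries.coeff_zero_eq_constantCoeff_apply, map_mul]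
  have hGE : ∀ d, PowerSeries.coeff d G = ε d := by
    apply Pser_uniq (fun m => - t m)
    · rw [hGmk]
      exact hDG
    · exact hE
    · rw [hG, hcoef0, hcoef0, PowerSeries.coeff_mk, PowerSeries.coeff_mk, PowerSeries.coeff_mk,
        s0, e0, l0]
      ring
  -- divisibility
  have hdiv : ∀ j, 1 ≤ j → q ∣ PowerSeries.coeff j
      ((PowerSeries.mk fun d => q ^ d * ε d) * PowerSeries.mk l) := by
    intro j _
    rw [PowerSeries.coeff_mul]
    refine Finset.dvd_sum fun x hx => ?_
    have hx' := Finset.HasAntidiagonal.mem_antidiagonal.1 hx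
    rw [PowerSeries.coeff_mk, PowerSeries.coeff_mk]
    rcases Nat.eq_zero_or_pos x.1 with h1 | h1
    · rcases Nat.lt_or_ge x.2 2 with h2 | h2
      · have h3 : x.2 = 1 := by omega
        rw [h3, l1]
        exact Dvd.dvd.mul_left ⟨-F0, by ring⟩ _
      · rw [l2 _ h2, mul_zero]
        exact dvd_zero _
    · exact Dvd.dvd.mul_right (Dvd.dvd.mul_right (dvd_pow_self q (by omega)) _) _
  have hfin : PowerSeries.coeff d G = s d + ∑ x ∈ (Finset.HasAntidiagonal.antidiagonal d).filter (fun x => x.2 ≠ 0),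
      s x.1 * PowerSeries.coeff x.2
        ((PowerSeries.mk fun d => q ^ d * ε d) * PowerSeries.mk l) := by
    rw [hG, PowerSeries.coeff_mul,
      ← Finset.sum_filter_add_sum_filter_not _ (fun x => x.2 = 0)]
    congr 1
    · have h1 : (Finset.HasAntidiagonal.antidiagonal d).filter (fun x => x.2 = 0) = {(d, 0)} := by
        ext x
        rw [Finset.mem_filter, Finset.HasAntidiagonal.mem_antidiagonal, Finset.mem_singleton]
        constructor
        · rintro ⟨h2, h3⟩
          exact Prod.ext (by simp only; omega) h3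
        · intro h2
          rw [h2]
          exact ⟨rfl, rfl⟩
      rw [h1, Finset.sum_singleton, PowerSeries.coeff_mk, hcoef0, PowerSeries.coeff_mk,
        PowerSeries.coeff_mk, e0, l0]
      ring
    · refine Finset.sum_congr rfl fun x _ => ?_
      rw [PowerSeries.coeff_mk]
  have hlast : q ∣ ε d - s d := by
    rw [← hGE d, hfin, add_sub_cancel_left]
    refine Finset.dvd_sum fun x hx => ?_
    have h1 := (Finset.mem_filter.1 hx).2
    exact Dvd.dvd.mul_left (hdiv x.2 (Nat.pos_of_ne_zero h1)) _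
  rw [← neg_sub, dvd_neg]
  exact hlast

end LIF
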