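import Pool.Agent.helper1.LI.Defs

/-!
[LI-HWp] Powers of the matrix `HWr p g F` over any commutative ring, for
`deg F < (p - 1) (g + 1)`.  (imports only `Defs`.)

`PI m = ∏_{t < m} F(X^(p^t))` (`Polynomial.expand R (p^t) F`), `PI 0 = 1`,
`PI (m + 1) = PI m * F(X^(p^m))`.
Write `F_k` for the coefficients, `F_k = 0` for `k < 0` or `k > deg F`.

* `natDegree_PI`: `natDegree (PI m) + (p^m - 1)/(p - 1) ≤ (p^m - 1) (g + 1)`; stated as
  `(p - 1) * natDegree (PI m) + (p^m - 1) ≤ (p - 1) * (p^m - 1) * (g + 1)` (sum of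
  `p^t * natDegree F` over `t < m`, `natDegree F + 1 ≤ (p-1)(g+1)`, geometric sum); in
  particular for `m ≥ 1`: `natDegree (PI m) < (p^m - 1) (g + 1)` (`natDegree_PI_lt`).
* `HWr_pow`: `(A^m)_{ij} = [X^(p^m (i+1) - (j+1))] PI m` (zero if the exponent is negative), for
  `i, j < g`.  Induction on `m`.  `m = 0`: the coefficient of `X^(i-j)` in `1`.
  Step: `(A^(m+1))_{ij} = ∑_{l < g} A_{il} (A^m)_{lj}
    = ∑_{l=1}^g F_{p(i+1) - l} [X^(p^m l - (j+1))] PI m`; on the other side
  `[X^(p^(m+1)(i+1) - (j+1))] (PI m * F(X^(p^m)))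
    = ∑_{k ≥ 0} F_k [X^(p^(m+1)(i+1) - (j+1) - p^m k)] PI m`, put `l = p(i+1) - k` (`k ≤ p(i+1)`;
  terms with negative exponent vanish, so `p^m l ≥ j + 1 ≥ 1`, thus `l ≥ 1`).  It remains to see
  that the terms with `l ≥ g + 1` vanish: then
  `p^m l - (j+1) ≥ p^m (g+1) - g > natDegree (PI m)`: for `m = 0` this is `1 > 0`, and for
  `m ≥ 1` use `natDegree_PI_lt`: `natDegree (PI m) < (p^m - 1)(g+1) = p^m(g+1) - g - 1`.
* `trace_HWr_pow`: diagonal entries, exponent `p^m (i+1) - (i+1) = (p^m - 1)(i+1)`.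
-/

set_option autoImplicit false

namespace LIF

open Polynomial

variable {R : Type*} [CommRing R]

/-- `∏_{t < m} F(X^(p^t))` -/
noncomputable def PI (p : ℕ) (F : R[X]) (m : ℕ) : R[X] :=
  ∏ t ∈ Finset.range m, expand R (p ^ t) F

theorem HWp_PI_succ (p : ℕ) (F : R[X]) (m : ℕ) :
    PI p F (m + 1) = PI p F m * expand R (p ^ m) F := by
  unfold PI
  rw [Finset.prod_range_succ]

theorem natDegree_PI {p g : ℕ} (hp : 2 ≤ p) {F : R[X]}
    (hF : F.natDegree < (p - 1) * (g + 1)) (m : ℕ) :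
    (p - 1) * (PI p F m).natDegree + (p ^ m - 1) ≤ (p - 1) * ((p ^ m - 1) * (g + 1)) := by
  induction m with
  | zero => simp [PI]
  | succ m ih =>
    have h1 : (PI p F (m + 1)).natDegree ≤ (PI p F m).natDegree + F.natDegree * p ^ m := by
      rw [HWp_PI_succ]
      refine natDegree_mul_le.trans ?_
      rw [natDegree_expand]
    obtain ⟨P, hP⟩ : ∃ P, p = P + 1 := ⟨p - 1, by omega⟩
    obtain ⟨Q, hQ⟩ : ∃ Q, p ^ m = Q + 1 :=
      ⟨p ^ m - 1, by
        have : 0 < p ^ m := Nat.pos_of_ne_zero (pow_ne_zero _ (by omega))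
        omega⟩
    have h2 : p ^ (m + 1) - 1 = P * Q + P + Q := by
      rw [pow_succ, hQ, hP]
      have : (Q + 1) * (P + 1) = P * Q + P + Q + 1 := by ring
      omega
    have hp1 : p - 1 = P := by omega
    rw [h2, hp1]
    rw [hQ] at h1 ih
    rw [hp1] at ih hF
    simp only [Nat.add_sub_cancel] at ih
    have h3 : P * (PI p F (m + 1)).natDegree ≤
        P * ((PI p F m).natDegree + F.natDegree * (Q + 1)) := Nat.mul_le_mul_left _ h1
    have h4 : (P * (Q + 1)) * (F.natDegree + 1) ≤ (P * (Q + 1)) * (P * (g + 1)) :=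
      Nat.mul_le_mul_left _ hF
    have h5 : P * ((P * Q + P + Q) * (g + 1)) =
        P * (Q * (g + 1)) + (P * (Q + 1)) * (P * (g + 1)) := by ring
    rw [h5]
    nlinarith [h3, h4, ih]

theorem natDegree_PI_lt {p g : ℕ} (hp : 2 ≤ p) {F : R[X]}
    (hF : F.natDegree < (p - 1) * (g + 1)) {m : ℕ} (hm : 1 ≤ m) :
    (PI p F m).natDegree < (p ^ m - 1) * (g + 1) := by
  have h1 := natDegree_PI hp hF m
  have h2 : p ^ 1 ≤ p ^ m := Nat.pow_le_pow_right (by omega) hm
  rw [pow_one] at h2
  have h3 : (p - 1) * (PI p F m).natDegree < (p - 1) * ((p ^ m - 1) * (g + 1)) := by omega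
  exact lt_of_mul_lt_mul_left h3 (Nat.zero_le _)

theorem HWp_deg {p g : ℕ} (hp : 2 ≤ p) {F : R[X]}
    (hF : F.natDegree < (p - 1) * (g + 1)) (m : ℕ) {l j : ℕ} (hl : g + 1 ≤ l) (hj : j + 1 ≤ g) :
    (PI p F m).natDegree < p ^ m * l - (j + 1) := by
  have h0 : 1 ≤ p ^ m := Nat.one_le_iff_ne_zero.2 (pow_ne_zero _ (by omega))
  have h1 : p ^ m * (g + 1) ≤ p ^ m * l := Nat.mul_le_mul_left _ hl
  rcases Nat.eq_zero_or_pos m with h | h
  · subst h
    simp only [PI, Finset.range_zero, Finset.prod_empty, natDegree_one, pow_zero, one_mul] at *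
    omega
  · have h2 := natDegree_PI_lt hp hF (m := m) h
    obtain ⟨Q, hQ⟩ : ∃ Q, p ^ m = Q + 1 := ⟨p ^ m - 1, by omega⟩
    rw [hQ] at h1 h2 ⊢
    simp only [Nat.add_sub_cancel] at h2
    have h3 : (Q + 1) * (g + 1) = Q * (g + 1) + (g + 1) := by ring
    omega

theorem HWr_pow {p g : ℕ} (hp : 2 ≤ p) {F : R[X]}
    (hF : F.natDegree < (p - 1) * (g + 1)) (m : ℕ) (i j : Fin g) :
    (HWr p g F ^ m) i j = if (j : ℕ) + 1 ≤ p ^ m * ((i : ℕ) + 1) then
      (PI p F m).coeff (p ^ m * ((i : ℕ) + 1) - ((j : ℕ) + 1)) else 0 := by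
  induction m generalizing i j with
  | zero =>
    simp only [pow_zero, one_mul, PI, Finset.range_zero, Finset.prod_empty, coeff_one,
      Matrix.one_apply, Fin.ext_iff]
    by_cases h : (i : ℕ) = j
    · rw [if_pos h, if_pos (by omega), if_pos (by omega)]
    · rw [if_neg h]
      split_ifs <;> first | rfl | omega
  | succ m ih =>
    have hq : 0 < p ^ m := Nat.pos_of_ne_zero (pow_ne_zero _ (by omega))
    rw [pow_succ', Matrix.mul_apply]
    simp only [ih]
    have hdeg := fun l hl => HWp_deg hp hF m (l := l) (j := j) hl (by omega)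
    rw [HWp_PI_succ]
    set q := p ^ m with hqd
    have hpq : p ^ (m + 1) = q * p := by rw [pow_succ]
    rw [hpq]
    by_cases hc : (j : ℕ) + 1 ≤ q * p * ((i : ℕ) + 1)
    · rw [if_pos hc, mul_comm (PI p F m), coeff_mul]
      have hs : ∀ l : Fin g, HWr p g F i l *
          (if (j : ℕ) + 1 ≤ q * ((l : ℕ) + 1) then
            (PI p F m).coeff (q * ((l : ℕ) + 1) - ((j : ℕ) + 1)) else 0) =
          if (l : ℕ) + 1 ≤ p * ((i : ℕ) + 1) ∧ (j : ℕ) + 1 ≤ q * ((l : ℕ) + 1) then
            F.coeff (p * ((i : ℕ) + 1) - ((l : ℕ) + 1)) *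
            (PI p F m).coeff (q * ((l : ℕ) + 1) - ((j : ℕ) + 1)) else 0 := by
        intro l
        unfold HWr
        by_cases h1 : (l : ℕ) + 1 ≤ p * ((i : ℕ) + 1)
        · by_cases h2 : (j : ℕ) + 1 ≤ q * ((l : ℕ) + 1)
          · simp only [h1, h2, and_self, if_true]
          · simp only [h2, and_false, if_false, mul_zero]
        · simp only [h1, false_and, if_false, zero_mul]
      rw [Finset.sum_congr rfl fun l _ => hs l, ← Finset.sum_filter]
      refine Finset.sum_of_injOn
        (fun l : Fin g => (q * (p * ((i : ℕ) + 1) - ((l : ℕ) + 1)),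
          q * ((l : ℕ) + 1) - ((j : ℕ) + 1))) ?_ ?_ ?_ ?_
      · intro l hl l' hl' h
        simp only [Finset.coe_filter, Finset.mem_univ, true_and, Set.mem_ofPred_eq] at hl hl'
        simp only [Prod.mk.injEq] at h
        have h1 := Nat.eq_of_mul_eq_mul_left hq h.1
        exact Fin.ext (by omega)
      · intro l hl
        simp only [Finset.coe_filter, Finset.mem_univ, true_and, Set.mem_ofPred_eq] at hl
        rw [Finset.mem_coe, Finset.HasAntidiagonal.mem_antidiagonal]
        show q * (p * ((i : ℕ) + 1) - ((l : ℕ) + 1)) + (q * ((l : ℕ) + 1) - ((j : ℕ) + 1)) =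
          q * p * ((i : ℕ) + 1) - ((j : ℕ) + 1)
        obtain ⟨k, hk⟩ := Nat.exists_eq_add_of_le hl.1
        have h1 : p * ((i : ℕ) + 1) - ((l : ℕ) + 1) = k := by omega
        have h2 : q * p * ((i : ℕ) + 1) = q * ((l : ℕ) + 1) + q * k := by
          rw [mul_assoc, hk, mul_add]
        have h3 := hl.2
        rw [h1, h2]
        omega
      · rintro ⟨a, b⟩ hab hn
        rw [Finset.HasAntidiagonal.mem_antidiagonal] at hab
        change a + b = _ at hab
        show (expand R q F).coeff a * (PI p F m).coeff b = 0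
        rw [coeff_expand hq]
        by_cases hd : q ∣ a
        · rw [if_pos hd]
          obtain ⟨k, rfl⟩ := hd
          rw [Nat.mul_div_cancel_left _ hq]
          by_contra hne
          have hb : b ≤ (PI p F m).natDegree :=
            le_natDegree_of_ne_zero (right_ne_zero_of_mul hne)
          have hkp : k < p * ((i : ℕ) + 1) := by
            by_contra hk
            have : q * (p * ((i : ℕ) + 1)) ≤ q * k := Nat.mul_le_mul_left _ (by omega)
            rw [← mul_assoc] at this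
            omega
          obtain ⟨l, hl⟩ := Nat.exists_eq_add_of_lt hkp
          have hlb : q * (l + 1) - (j + 1) = b ∧ (j : ℕ) + 1 ≤ q * (l + 1) := by
            have h1 : q * p * ((i : ℕ) + 1) = q * k + q * (l + 1) := by
              rw [mul_assoc, hl]; ring
            omega
          have hlg : l < g := by
            by_contra hlg
            have := hdeg (l + 1) (by omega)
            omega
          apply hn
          refine ⟨⟨l, hlg⟩, ?_, ?_⟩
          · simp only [Finset.coe_filter, Finset.mem_univ, true_and, Set.mem_ofPred_eq]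
            exact ⟨by omega, hlb.2⟩
          · simp only [Prod.mk.injEq]
            refine ⟨?_, hlb.1⟩
            congr 1
            omega
        · rw [if_neg hd, zero_mul]
      · intro l hl
        simp only
        rw [coeff_expand hq, if_pos (Dvd.intro _ rfl), Nat.mul_div_cancel_left _ hq]
    · rw [if_neg hc]
      refine Finset.sum_eq_zero fun l _ => ?_
      unfold HWr
      by_cases h1 : (l : ℕ) + 1 ≤ p * ((i : ℕ) + 1)
      · by_cases h2 : (j : ℕ) + 1 ≤ q * ((l : ℕ) + 1)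
        · exfalso
          apply hc
          have h3 : q * ((l : ℕ) + 1) ≤ q * (p * ((i : ℕ) + 1)) := Nat.mul_le_mul_left _ h1
          rw [← mul_assoc] at h3
          omega
        · rw [if_neg h2, mul_zero]
      · rw [if_neg h1, zero_mul]

theorem trace_HWr_pow {p g : ℕ} (hp : 2 ≤ p) {F : R[X]}
    (hF : F.natDegree < (p - 1) * (g + 1)) (m : ℕ) :
    (HWr p g F ^ m).trace =
      ∑ i ∈ Finset.range g, (PI p F m).coeff ((p ^ m - 1) * (i + 1)) := by
  rw [Finset.sum_range, Matrix.trace]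
  refine Finset.sum_congr rfl fun i _ => ?_
  have hq : 0 < p ^ m := Nat.pos_of_ne_zero (pow_ne_zero _ (by omega))
  have h1 : (i : ℕ) + 1 ≤ p ^ m * ((i : ℕ) + 1) := Nat.le_mul_of_pos_left _ hq
  rw [Matrix.diag_apply, HWr_pow hp hF, if_pos h1, Nat.sub_mul, one_mul]

end LIF
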