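import Pool.Agent.helper1.LI.Tei
import Pool.Agent.helper1.LI.HWp

/-!
[LI-Sig] The trace formula over the Witt vectors (import the stubs `Tei`, `HWp`):
`∑_{x ∈ Km p m} ∏_{t < m} F(τ(x)^(p^t)) = p^m F_0^m + (p^m - 1) tr(A^m)`, `A = HWr p g F`,
`F ∈ ℤ[X]`, `deg F < (p-1)(g+1)`.

Proof.  The product is `aeval (τ x) (PI p F m)` (`expand_aeval`), so the left side is
`∑_k (PI p F m)_k ∑_{x} τ(x)^k` (`aeval_eq_sum_range`).  By `sum_teichmuller` only `k = 0`
(coefficient `F_0^m`, value `p^m`) and the positive multiples `k = (p^m - 1) l` (value `p^m - 1`)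
contribute; since `natDegree (PI p F m) < (p^m - 1)(g+1)` only `l = 1, ..., g` occur, and
`∑_{l=1}^g (PI p F m)_{(p^m-1) l} = tr(A^m)` by `trace_HWr_pow`.
-/

set_option autoImplicit false

namespace LIF

open Polynomial

theorem Sig_coeff_zero {R : Type*} [CommRing R] {p : ℕ} (hp : 2 ≤ p) (F : R[X]) (m : ℕ) :
    (PI p F m).coeff 0 = F.coeff 0 ^ m := by
  unfold PI
  rw [coeff_zero_eq_eval_zero, eval_prod]
  have h : ∀ t ∈ Finset.range m, eval 0 (expand R (p ^ t) F) = F.coeff 0 := by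
    intro t _
    rw [expand_eval, zero_pow (pow_pos (by omega) t).ne', ← coeff_zero_eq_eval_zero]
  rw [Finset.prod_congr rfl h, Finset.prod_const, Finset.card_range]

theorem Sig_aeval {R S : Type*} [CommRing R] [CommRing S] [Algebra R S] (p : ℕ) (F : R[X]) (m : ℕ)
    (y : S) : ∏ t ∈ Finset.range m, aeval (y ^ (p ^ t)) F = aeval y (PI p F m) := by
  unfold PI
  rw [map_prod]
  refine Finset.prod_congr rfl fun t _ => ?_
  rw [expand_aeval]

theorem Sig_sum {M : Type*} [AddCommMonoid M] {Q g : ℕ} (hQ : 1 ≤ Q) {f : ℕ → M}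
    (hf : ∀ k, ¬ Q ∣ k → f k = 0) :
    ∑ k ∈ Finset.range (Q * (g + 1)), f k = ∑ l ∈ Finset.range (g + 1), f (Q * l) := by
  classical
  have hinj : Set.InjOn (fun l => Q * l) (Finset.range (g + 1) : Set ℕ) := by
    intro a _ b _ hab
    exact Nat.eq_of_mul_eq_mul_left hQ hab
  rw [← Finset.sum_image (f := f) hinj]
  symm
  apply Finset.sum_subset
  · intro k hk
    obtain ⟨l, hl, rfl⟩ := Finset.mem_image.1 hk
    rw [Finset.mem_range] at hl ⊢
    exact Nat.mul_lt_mul_of_pos_left hl hQ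
  · intro k hk hk'
    apply hf
    rintro ⟨l, rfl⟩
    apply hk'
    rw [Finset.mem_range] at hk
    exact Finset.mem_image.2 ⟨l, Finset.mem_range.2 (Nat.lt_of_mul_lt_mul_left hk), rfl⟩

theorem sigma_eq {p : ℕ} [Fact p.Prime] {g : ℕ} {F : ℤ[X]}
    (hF : F.natDegree < (p - 1) * (g + 1)) {m : ℕ} (hm : 1 ≤ m) :
    ∑ x ∈ Km p m, ∏ t ∈ Finset.range m, aeval ((WittVector.teichmuller p x) ^ (p ^ t)) F =
      ((p : WittVector p (AlgebraicClosure (ZMod p))) ^ m) *
          ((F.coeff 0 : ℤ) : WittVector p (AlgebraicClosure (ZMod p))) ^ m +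
        ((p : WittVector p (AlgebraicClosure (ZMod p))) ^ m - 1) *
          (((HWr p g F ^ m).trace : ℤ) : WittVector p (AlgebraicClosure (ZMod p))) := by
  have hp : 2 ≤ p := (Fact.out : p.Prime).two_le
  have hq : 1 ≤ p ^ m - 1 := by
    have h1 : p ^ 1 ≤ p ^ m := Nat.pow_le_pow_right (by omega) hm
    rw [pow_one] at h1
    omega
  have hN := natDegree_PI_lt hp hF hm
  have h1 : ∀ x ∈ Km p m, ∏ t ∈ Finset.range m,
      aeval ((WittVector.teichmuller p x) ^ (p ^ t)) F =
      ∑ k ∈ Finset.range ((p ^ m - 1) * (g + 1)),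
        (((PI p F m).coeff k : ℤ) : WittVector p (AlgebraicClosure (ZMod p))) *
          (WittVector.teichmuller p x) ^ k := by
    intro x _
    rw [Sig_aeval, aeval_eq_sum_range' hN]
    refine Finset.sum_congr rfl fun k _ => ?_
    rw [zsmul_eq_mul]
  rw [Finset.sum_congr rfl h1, Finset.sum_comm]
  have h2 : ∀ k ∈ Finset.range ((p ^ m - 1) * (g + 1)),
      ∑ x ∈ Km p m, (((PI p F m).coeff k : ℤ) : WittVector p (AlgebraicClosure (ZMod p))) *
          (WittVector.teichmuller p x) ^ k =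
      (((PI p F m).coeff k : ℤ) : WittVector p (AlgebraicClosure (ZMod p))) *
        (if k = 0 then ((p : WittVector p (AlgebraicClosure (ZMod p))) ^ m)
        else if (p ^ m - 1) ∣ k then
          ((p : WittVector p (AlgebraicClosure (ZMod p))) ^ m - 1) else 0) := by
    intro k _
    rw [← Finset.mul_sum, sum_teichmuller hm k]
  rw [Finset.sum_congr rfl h2, Sig_sum hq, Finset.sum_range_succ', add_comm]
  · congr 1
    · rw [mul_zero, if_pos rfl, Sig_coeff_zero hp]
      push_cast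
      ring
    · rw [trace_HWr_pow hp hF, Int.cast_sum, Finset.mul_sum]
      refine Finset.sum_congr rfl fun i _ => ?_
      have h3 : (p ^ m - 1) * (i + 1) ≠ 0 := Nat.mul_ne_zero (by omega) (by omega)
      rw [if_neg h3, if_pos (dvd_mul_right _ _), mul_comm]
  · intro k hk
    have h3 : k ≠ 0 := by
      rintro rfl
      exact hk (dvd_zero _)
    rw [if_neg h3, if_neg hk, mul_zero]

end LIF
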