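import Pool.Agent.helper1.LI.Defs

/-!
[LI-Sym] The symbols `chi`, `ch1`, `chh`, `chx`.  (proofs: helper51)

Mathlib: `Mathlib/RingTheory/Polynomial/Resultant/Basic.lean` has everything:
`Polynomial.resultant_mul_left/right`, `resultant_one_left`, `resultant_comm`,
`resultant_C_mul_right`, `resultant_X_sub_C_right`, `resultant_add_right_deg`,
`resultant_add_mul_right`, `resultant_C_right`, `resultant_eq_zero_iff`, `resultant_zero_right`.

Proofs.
* `chi_one`, `chi_mul`: `Res(1, D) = 1`, `Res(a b, D) = Res(a, D) Res(b, D)` for monic `a, b`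
  (`natDegree (a b) = natDegree a + natDegree b`), `quadraticChar` is multiplicative.
* `chi_eq`: `D = (1 - X) h0`, so `Res(h, D) = Res(h, 1 - X) Res(h, h0)`;
  `1 - X = C (-1) * (X - C 1)`, hence `Res(h, 1 - X) = (-1)^{deg h} (-1)^{deg h} h(1) = h(1)`;
  `Res(h, h0) = (-1)^{deg h * 2 g} Res(h0, h) = Res(h0, h)`.
* `chh_mul`: `Res(h0, a b) = Res(h0, a) Res(h0, b)` if `a b ≠ 0`; if `a = 0` or `b = 0` both sides
  are `0` (`resultant_zero_right`, `natDegree h0 = 2 g ≥ 2`).
* `chh_add_mul`: since `h0` is monic the resultant `Res(h0, a)` does not change if the degree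
  parameter of `a` is increased (`resultant_add_right_deg`), take a large common one and use
  `resultant_add_mul_right`.
* `chh_C`: `Res(h0, C c) = c ^ (2 g)` is a nonzero square.
* `chh_ne_zero_iff`: `resultant_eq_zero_iff` and: `h0` irreducible, so coprime iff not dividing
  (`Irreducible.coprime_iff_not_dvd`, or `Irreducible.dvd_or_isCoprime`..).
* `chh_X_sub_one`: `Res(h0, X - C 1) = (-1) ^ (2 g) h0(1)`, and `hg.nsq`.
* `chx` rules: combine.
-/

set_option autoImplicit false

namespace LIF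

open Polynomial

variable {p : ℕ} [Fact p.Prime] {g : ℕ} {h0 : (ZMod p)[X]}

theorem Sym_cases (c : ZMod p) : quadraticChar (ZMod p) c = 0 ∨ quadraticChar (ZMod p) c = 1 ∨
    quadraticChar (ZMod p) c = -1 := by
  by_cases hc : c = 0
  · left
    rw [hc]
    exact MulChar.map_zero _
  · right
    exact quadraticChar_dichotomy hc

theorem chi_one (D : (ZMod p)[X]) : chi D 1 = 1 := by
  have h : resultant (1 : (ZMod p)[X]) D = 1 := by
    rw [natDegree_one, resultant_zero_left_deg, coeff_one_zero, one_pow]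
  rw [chi, h, map_one]

theorem chi_mul (D : (ZMod p)[X]) {a b : (ZMod p)[X]} (ha : a.Monic) (hb : b.Monic) :
    chi D (a * b) = chi D a * chi D b := by
  rw [chi, chi, chi, ha.natDegree_mul hb, resultant_mul_left _ _ _ _ le_rfl, map_mul]

theorem ch1_mul (a b : (ZMod p)[X]) : ch1 (a * b) = ch1 a * ch1 b := by
  rw [ch1, ch1, ch1, eval_mul, map_mul]

theorem ch1_C (c : ZMod p) : ch1 (C c : (ZMod p)[X]) = quadraticChar (ZMod p) c := by
  rw [ch1, eval_C]

theorem ch1_ne_zero_iff (a : (ZMod p)[X]) : ch1 a ≠ 0 ↔ a.eval 1 ≠ 0 := by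
  rw [ch1, Ne, Ne, quadraticChar_eq_zero_iff]

theorem ch1_cases (a : (ZMod p)[X]) : ch1 a = 0 ∨ ch1 a = 1 ∨ ch1 a = -1 := Sym_cases _

theorem chh_cases (a : (ZMod p)[X]) : chh h0 a = 0 ∨ chh h0 a = 1 ∨ chh h0 a = -1 :=
  Sym_cases _

theorem Sym_one_sub : (1 - X : (ZMod p)[X]) = C (-1) * (X - C 1) := by
  rw [C_neg, C_1]
  ring

theorem Sym_natDegree_one_sub : (1 - X : (ZMod p)[X]).natDegree = 1 := by
  rw [Sym_one_sub, natDegree_C_mul (neg_ne_zero.2 one_ne_zero), natDegree_X_sub_C]

/-- the symbol of a monic polynomial is the product of the two characters -/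
theorem chi_eq (hg : Good p g h0) {h : (ZMod p)[X]} (hh : h.Monic) :
    chi (Dp h0) h = ch1 h * chh h0 h := by
  have hnd : (Dp h0).natDegree = (1 - X : (ZMod p)[X]).natDegree + h0.natDegree := by
    rw [Dp, natDegree_mul _ hg.mon.ne_zero]
    intro h1
    have h2 := Sym_natDegree_one_sub (p := p)
    rw [h1, natDegree_zero] at h2
    exact absurd h2 (by norm_num)
  have h1 : resultant h (1 - X) h.natDegree 1 = h.eval 1 := by
    rw [Sym_one_sub, resultant_C_mul_right, resultant_X_sub_C_right _ _ _ le_rfl, ← mul_assoc,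
      ← mul_pow, neg_one_mul, neg_neg, one_pow, one_mul]
  have h2 : resultant h h0 = resultant h0 h := by
    rw [resultant_comm, hg.deg, mul_comm h.natDegree, mul_assoc, pow_mul, neg_one_sq, one_pow,
      one_mul]
  have h3 : resultant h (Dp h0) = h.eval 1 * resultant h0 h := by
    rw [hnd, Dp, resultant_mul_right _ _ _ _ le_rfl, Sym_natDegree_one_sub, h1, h2]
  rw [chi, h3, map_mul]
  rfl

/-- `Res(h0, a)` does not depend on the degree parameter of `a` -/
theorem Sym_deg (hg : Good p g h0) {a : (ZMod p)[X]} {n : ℕ} (hn : a.natDegree ≤ n) :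
    resultant h0 a h0.natDegree n = resultant h0 a := by
  obtain ⟨k, rfl⟩ := Nat.exists_eq_add_of_le hn
  rw [resultant_add_right_deg _ _ _ _ k le_rfl, hg.mon.coeff_natDegree, one_pow, one_mul]

theorem Sym_chh_zero (hg : Good p g h0) : chh h0 0 = 0 := by
  have h1 : resultant h0 (0 : (ZMod p)[X]) = 0 := by
    rw [resultant_zero_right, hg.deg, zero_pow (by have := hg.g1; omega), zero_mul]
  rw [chh, h1]
  exact MulChar.map_zero _

theorem chh_mul (hg : Good p g h0) (a b : (ZMod p)[X]) :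
    chh h0 (a * b) = chh h0 a * chh h0 b := by
  by_cases ha : a = 0
  · rw [ha, zero_mul, Sym_chh_zero hg, zero_mul]
  by_cases hb : b = 0
  · rw [hb, mul_zero, Sym_chh_zero hg, mul_zero]
  rw [chh, chh, chh, natDegree_mul ha hb, resultant_mul_right _ _ _ _ le_rfl, map_mul]

theorem chh_add_mul (hg : Good p g h0) (a b : (ZMod p)[X]) :
    chh h0 (a + h0 * b) = chh h0 a := by
  have h1 : resultant h0 (a + h0 * b) = resultant h0 a := by
    rw [← Sym_deg hg (n := (a + h0 * b).natDegree + a.natDegree + (b.natDegree + h0.natDegree))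
      (by omega), resultant_add_mul_right _ _ _ _ _ (by omega) le_rfl, Sym_deg hg (by omega)]
  rw [chh, h1]
  rfl

theorem chh_C (hg : Good p g h0) {c : ZMod p} (hc : c ≠ 0) : chh h0 (C c) = 1 := by
  have h1 : resultant h0 (C c) = (c ^ g) ^ 2 := by
    rw [natDegree_C, resultant_C_zero_right, hg.deg, mul_comm 2 g, pow_mul]
  rw [chh, h1]
  exact quadraticChar_sq_one' (pow_ne_zero _ hc)

theorem chh_ne_zero_iff (hg : Good p g h0) (a : (ZMod p)[X]) : chh h0 a ≠ 0 ↔ ¬ h0 ∣ a := by
  rw [chh, Ne, quadraticChar_eq_zero_iff, resultant_eq_zero_iff, ← hg.irr.coprime_iff_not_dvd]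
  have := hg.irr.ne_zero
  tauto

theorem chh_X_sub_one (hg : Good p g h0) : chh h0 (X - 1) = -1 := by
  have h1 : resultant h0 (X - 1) = h0.eval 1 := by
    rw [← C_1, natDegree_X_sub_C, resultant_X_sub_C_right _ _ _ le_rfl, hg.deg, pow_mul,
      neg_one_sq, one_pow, one_mul]
  rw [chh, h1]
  exact hg.nsq

theorem chx_mul (hg : Good p g h0) (a b : (ZMod p)[X]) :
    chx h0 (a * b) = chx h0 a * chx h0 b := by
  rw [chx, chx, chx, ch1_mul, chh_mul hg]
  ring

theorem chx_add_mul (hg : Good p g h0) (a b : (ZMod p)[X]) :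
    chx h0 (a + fp h0 * b) = chx h0 a := by
  have h1 : a + fp h0 * b = a + h0 * ((X - 1) * b) := by
    rw [fp]
    ring
  have h2 : ch1 (a + fp h0 * b) = ch1 a := by
    rw [ch1, ch1, fp, eval_add, eval_mul, eval_mul, eval_sub, eval_X, eval_one, sub_self,
      zero_mul, zero_mul, add_zero]
  rw [chx, chx, h2, h1, chh_add_mul hg]

theorem chx_C_mul (hg : Good p g h0) {c : ZMod p} (hc : c ≠ 0) (a : (ZMod p)[X]) :
    chx h0 (C c * a) = quadraticChar (ZMod p) c * chx h0 a := by
  rw [chx_mul hg]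
  congr 1
  rw [chx, ch1_C, chh_C hg hc, mul_one]

theorem chx_eq_chi (hg : Good p g h0) {h : (ZMod p)[X]} (hh : h.Monic) :
    chx h0 h = chi (Dp h0) h := by
  rw [chi_eq hg hh, chx]

end LIF
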