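import Pool.Agent.helper1.LI.Newt
import Pool.Agent.helper1.LI.ChiMp
import Pool.Agent.helper1.LI.Sig
import Pool.Agent.helper1.LI.ChNewt
import Pool.Agent.helper1.LI.Pser
import Pool.Agent.helper1.LI.Sym

/-!
[LI-ModP] The Hasse-Witt congruence: `S_d ≡ coefficient of u^d in det(1 - u HW) (mod p)` for all
`d` (import the stubs `Newt`, `ChiMp`, `Sig`, `ChNewt`, `Pser`, `Sym`).

Proof.  `K = AlgebraicClosure (ZMod p)`, `W = WittVector p K`, `τ = teichmuller p`,
`π = WittVector.constantCoeff : W →+* K`, `π (τ x) = x`.  `D = Dp h0` has degree `2 g + 1`.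
Let `F0 := D ^ ((p-1)/2) ∈ (ZMod p)[X]`, degree `(2g+1)(p-1)/2 < (p-1)(g+1)`, and `F ∈ ℤ[X]` a
lift with the same degree bound (`Polynomial.lifts`/coefficientwise `ZMod.val`:
`F = ∑ C ((F0.coeff i).val : ℤ) X^i`), `F.map (Int.castRingHom (ZMod p)) = F0`.  Then
`(HWr p g F).map (Int.castRingHom (ZMod p)) = HW p g D`, so
`(eps (HWr p g F) d : ZMod p) = eps (HW p g D) d` (`Matrix.charpoly_map`).
For monic `h` put `c(h) = ((h.map _).roots.map (fun x => aeval (τ x) F)).prod ∈ W`
(roots in `K`); `c(a b) = c(a) c(b)` (`Polynomial.roots_mul`), `c 1 = 1`.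
(1) `π (c h) = ∏_x D(x)^((p-1)/2) = Res(h, D)^((p-1)/2) = chi D h` in `K` (`res_roots`,
`chi_res`, `p ≠ 2`).
(2) `c (Mp m x) = ∏_{t<m} aeval (τ (x^(p^t))) F`, `τ (x^(p^t)) = τ(x)^(p^t)` (`Mp_map`).
(3) Let `s_d = ∑_{h ∈ Mon p d} c h ∈ W`, `s_0 = 1`.  `newton_mult` and `sigma_eq` give
`d s_d = ∑_{m=1}^d (p^m F_0^m + (p^m - 1) tr(A^m)) s_{d-m}`, `A = HWr p g F`.
(4) `charpoly_newton` (cast to `W`) and `pser` (with `q = p`) give `p ∣ s_d - eps A d` in `W`.
(5) apply `π` (`π p = 0` as `K` has characteristic `p`): `∑_h π(c h) = π(eps A d)`, i.e.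
`(S_d : K) = (eps (HW p g D) d : K)`, and `ZMod p → K` is injective.
-/

set_option autoImplicit false

namespace LIF

open Polynomial

theorem ModP_lift {p : ℕ} [Fact p.Prime] (G : (ZMod p)[X]) :
    ∃ F : ℤ[X], F.map (Int.castRingHom (ZMod p)) = G ∧ F.natDegree = G.natDegree := by
  have hs : Function.Surjective (Int.castRingHom (ZMod p)) := ZMod.intCast_surjective
  have hl : G ∈ lifts (Int.castRingHom (ZMod p)) := by
    rw [mem_lifts]
    exact map_surjective _ hs G
  exact exists_natDegree_eq_of_mem_lifts hl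

theorem ModP_eps {R S : Type*} [CommRing R] [CommRing S] (f : R →+* S) {g : ℕ}
    (A : Matrix (Fin g) (Fin g) R) (d : ℕ) : eps (A.map f) d = f (eps A d) := by
  unfold eps
  split_ifs
  · rw [Matrix.charpoly_map, coeff_map]
  · rw [map_zero]

theorem ModP_eps_zero {R : Type*} [CommRing R] {g : ℕ}
    (A : Matrix (Fin g) (Fin g) R) : eps A 0 = 1 := by
  nontriviality R
  unfold eps
  rw [if_pos (Nat.zero_le g), Nat.sub_zero]
  have h1 : A.charpoly.natDegree = g := by
    rw [Matrix.charpoly_natDegree_eq_dim, Fintype.card_fin]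
  have h2 := A.charpoly_monic.coeff_natDegree
  rwa [h1] at h2

theorem ModP_HWr {p g : ℕ} [Fact p.Prime] {F : ℤ[X]} {D : (ZMod p)[X]}
    (hF : F.map (Int.castRingHom (ZMod p)) = D ^ ((p - 1) / 2)) :
    (HWr p g F).map (Int.castRingHom (ZMod p)) = HW p g D := by
  ext i j
  unfold HW HWr
  rw [Matrix.map_apply, ← hF]
  split_ifs
  · rw [coeff_map]
  · rw [map_zero]

theorem ModP_charZero (p : ℕ) [Fact p.Prime] :
    CharZero (WittVector p (AlgebraicClosure (ZMod p))) := by
  have hp : p.Prime := Fact.out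
  refine charZero_of_inj_zero (fun n hn => ?_)
  by_contra h0
  obtain ⟨a, m, hm, rfl⟩ := Nat.exists_eq_pow_mul_and_not_dvd h0 p hp.ne_one
  rw [Nat.cast_mul, Nat.cast_pow, mul_eq_zero] at hn
  rcases hn with hn | hn
  · exact pow_ne_zero a (WittVector.p_nonzero p (AlgebraicClosure (ZMod p))) hn
  · have := congrArg (WittVector.constantCoeff (p := p)
      (R := AlgebraicClosure (ZMod p))) hn
    rw [map_natCast, map_zero] at this
    exact hm ((CharP.cast_eq_zero_iff (AlgebraicClosure (ZMod p)) p m).1 this)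

/-- the multiplicative function on monic polynomials -/
noncomputable def ModPc (p : ℕ) [Fact p.Prime] (F : ℤ[X]) (h : (ZMod p)[X]) :
    WittVector p (AlgebraicClosure (ZMod p)) :=
  ((h.map (algebraMap (ZMod p) (AlgebraicClosure (ZMod p)))).roots.map
    (fun x => aeval (WittVector.teichmuller p x) F)).prod

theorem ModPc_mul {p : ℕ} [Fact p.Prime] (F : ℤ[X]) {a b : (ZMod p)[X]} (ha : a.Monic)
    (hb : b.Monic) : ModPc p F (a * b) = ModPc p F a * ModPc p F b := by
  unfold ModPc
  rw [Polynomial.map_mul, roots_mul (mul_ne_zero (ha.map _).ne_zero (hb.map _).ne_zero),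
    Multiset.map_add, Multiset.prod_add]

theorem ModPc_one {p : ℕ} [Fact p.Prime] (F : ℤ[X]) : ModPc p F 1 = 1 := by
  unfold ModPc
  simp

theorem ModPc_Mp {p : ℕ} [Fact p.Prime] (F : ℤ[X]) {m : ℕ} (hm : 1 ≤ m)
    {x : AlgebraicClosure (ZMod p)} (hx : x ∈ Km p m) :
    ModPc p F (Mp m x) =
      ∏ t ∈ Finset.range m, aeval ((WittVector.teichmuller p x) ^ (p ^ t)) F := by
  have hroots : ((Mp m x).map (algebraMap (ZMod p) (AlgebraicClosure (ZMod p)))).roots =
      (Multiset.range m).map (fun i => x ^ (p ^ i)) := by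
    rw [Mp_map hm hx]
    have := roots_multiset_prod_X_sub_C ((Multiset.range m).map (fun i => x ^ (p ^ i)))
    rw [Multiset.map_map] at this
    exact this
  unfold ModPc
  rw [hroots, Multiset.map_map]
  show (Multiset.map _ (Finset.range m).val).prod = (Multiset.map _ (Finset.range m).val).prod
  refine congrArg Multiset.prod (Multiset.map_congr rfl (fun i _ => ?_))
  show aeval (WittVector.teichmuller p (x ^ (p ^ i))) F = _
  rw [map_pow]

theorem ModPc_coeff {p : ℕ} [Fact p.Prime] (p2 : p ≠ 2) {F : ℤ[X]} {D : (ZMod p)[X]}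
    (hF : F.map (Int.castRingHom (ZMod p)) = D ^ ((p - 1) / 2)) {h : (ZMod p)[X]}
    (hh : h.Monic) :
    WittVector.constantCoeff (ModPc p F h) =
      algebraMap (ZMod p) (AlgebraicClosure (ZMod p)) ((chi D h : ℤ) : ZMod p) := by
  rw [chi_res p2, map_pow, res_roots D hh]
  unfold ModPc
  rw [map_multiset_prod, Multiset.map_map, ← Multiset.prod_map_pow]
  refine congrArg Multiset.prod (Multiset.map_congr rfl (fun x _ => ?_))
  show WittVector.constantCoeff (aeval (WittVector.teichmuller p x) F) = _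
  have h1 : (aeval x D) ^ ((p - 1) / 2) =
      aeval x (F.map (Int.castRingHom (ZMod p))) := by
    rw [hF, map_pow]
  rw [h1, aeval_def, aeval_def, hom_eval₂, eval₂_map]
  have h2 : WittVector.constantCoeff (WittVector.teichmuller p x) = x :=
    WittVector.teichmuller_coeff_zero p x
  rw [h2]
  congr 1
  exact RingHom.ext_int _ _

theorem Sd_mod {p : ℕ} [Fact p.Prime] {g : ℕ} {h0 : (ZMod p)[X]} (hg : Good p g h0) (d : ℕ) :
    ((Sd (Dp h0) d : ℤ) : ZMod p) = eps (HW p g (Dp h0)) d := by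
  have hp : p.Prime := Fact.out
  have hodd : p % 2 = 1 := hp.eq_two_or_odd.resolve_left hg.p2
  have hp1 := hp.two_le
  obtain ⟨F, hF, hFd⟩ := ModP_lift ((Dp h0) ^ ((p - 1) / 2))
  have hDd : (Dp h0).natDegree ≤ 2 * g + 1 := by
    unfold Dp
    refine natDegree_mul_le.trans ?_
    have h1 : ((1 : (ZMod p)[X]) - X).natDegree ≤ 1 := by
      refine (natDegree_sub_le _ _).trans ?_
      rw [natDegree_one, natDegree_X]
      simp
    have := hg.deg
    omega
  have hFlt : F.natDegree < (p - 1) * (g + 1) := by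
    obtain ⟨t, ht⟩ : ∃ t, p - 1 = 2 * t := ⟨(p - 1) / 2, by omega⟩
    have ht1 : 1 ≤ t := by omega
    have ht2 : (p - 1) / 2 = t := by omega
    have h1 : F.natDegree ≤ t * (2 * g + 1) := by
      rw [hFd, ht2]
      exact natDegree_pow_le.trans (Nat.mul_le_mul_left _ hDd)
    rw [ht]
    nlinarith
  have := ModP_charZero p
  set A := HWr p g F with hA
  have hk := pser (W := WittVector p (AlgebraicClosure (ZMod p))) (p : WittVector p (AlgebraicClosure (ZMod p)))
    ((F.coeff 0 : ℤ) : WittVector p (AlgebraicClosure (ZMod p))) (fun d => ∑ h ∈ Mon p d, ModPc p F h)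
    (fun d => ((eps A d : ℤ) : WittVector p (AlgebraicClosure (ZMod p))))
    (fun m => (((A ^ m).trace : ℤ) : WittVector p (AlgebraicClosure (ZMod p)))) ?_ ?_ ?_ ?_ d
  · obtain ⟨w, hw⟩ := hk
    have h1 := congrArg (WittVector.constantCoeff (p := p)
      (R := AlgebraicClosure (ZMod p))) hw
    rw [map_sub, map_mul, map_natCast, CharP.cast_eq_zero, zero_mul, sub_eq_zero, map_sum,
      map_intCast] at h1
    rw [Finset.sum_congr rfl (fun h hh => ModPc_coeff hg.p2 hF (mem_Mon.1 hh).1), ← map_sum] at h1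
    have h2 : ((eps A d : ℤ) : AlgebraicClosure (ZMod p)) =
        algebraMap (ZMod p) (AlgebraicClosure (ZMod p)) (eps (HW p g (Dp h0)) d) := by
      rw [← ModP_HWr hF, ModP_eps, eq_intCast, map_intCast]
    rw [h2] at h1
    have h3 := (algebraMap (ZMod p) (AlgebraicClosure (ZMod p))).injective h1
    rw [← h3]
    unfold Sd
    push_cast
    rfl
  · show ∑ h ∈ Mon p 0, ModPc p F h = 1
    have h1 : Mon p 0 = {1} := by
      ext h
      rw [mem_Mon, Finset.mem_singleton]
      constructor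
      · rintro ⟨h2, h3⟩
        exact (Polynomial.Monic.natDegree_eq_zero h2).1 h3
      · rintro rfl
        exact ⟨monic_one, natDegree_one⟩
    rw [h1, Finset.sum_singleton, ModPc_one]
  · show ((eps A 0 : ℤ) : WittVector p (AlgebraicClosure (ZMod p))) = 1
    rw [ModP_eps_zero, Int.cast_one]
  · intro d hd
    have h1 := congrArg (Int.cast (R := WittVector p (AlgebraicClosure (ZMod p))))
      (charpoly_newton A hd)
    push_cast at h1
    exact h1
  · intro d hd
    show (d : WittVector p (AlgebraicClosure (ZMod p))) * ∑ h ∈ Mon p d, ModPc p F h = _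
    rw [newton_mult (ModPc p F) (fun a b ha hb => ModPc_mul F ha hb) d]
    refine Finset.sum_congr rfl (fun m hm => ?_)
    have hm1 : 1 ≤ m := (Finset.mem_Icc.1 hm).1
    rw [← sigma_eq hFlt hm1]
    congr 1
    exact Finset.sum_congr rfl (fun x hx => ModPc_Mp F hm1 hx)

end LIF
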