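import Mathlib

/-!
[LI-PowSum] If the power sums of a finite multiset of complex numbers are `O(R^m)` then all
elements have modulus `≤ R` (imports Mathlib only).

Proof.  Suppose `ρ = max ‖x‖ > R > 0`.  Dividing by `ρ^m`: `‖∑ (x/ρ)^m‖ ≤ C (R/ρ)^m → 0`.
Choose a sequence `m_i → ∞` with `(x/ρ)^{m_i} → 1` for all `x ∈ s` with `‖x‖ = ρ` (recurrence in a
compact group: the sequence `m ↦ ((x/‖x‖)^m)_x` in the compact metrizable group of functions on
the finite support with values in the circle has a convergent subsequence `n_i`; passing to a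
subsequence `m_i = n_{k(i)} - n_i → ∞` and the quotients tend to `1`).  For the other `x`,
`(x/ρ)^{m_i} → 0`.  So the sum tends to the number (with multiplicity) of `x ∈ s` with
`‖x‖ = ρ`, which is `≥ 1`: contradiction.

Alternative: generating function: `∑_m p_m z^m = ∑_x 1/(1 - x z)` converges for `|z| < 1/R`, but
the rational function has a pole at `z = 1/x` (residues with the same sign do not cancel).
Alternative: `∑_{m<M} |p_m|^2 ρ^(-2m) ~ M ∑ (multiplicities)^2`.
-/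

set_option autoImplicit false

namespace LIF

theorem PowSum_geom {z : ℂ} (hz : ‖z‖ ≤ 1) (h1 : z ≠ 1) (M : ℕ) :
    ‖∑ m ∈ Finset.range M, z ^ m‖ ≤ 2 / ‖z - 1‖ := by
  have h0 : z - 1 ≠ 0 := sub_ne_zero.2 h1
  rw [geom_sum_eq h1, norm_div]
  apply div_le_div_of_nonneg_right _ (norm_nonneg _)
  calc ‖z ^ M - 1‖ ≤ ‖z ^ M‖ + ‖(1 : ℂ)‖ := norm_sub_le _ _
    _ ≤ 1 + 1 := by
        rw [norm_pow, norm_one]
        have := pow_le_one₀ (n := M) (norm_nonneg z) hz
        linarith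
    _ = 2 := by norm_num

theorem PowSum_aux {x0 : ℂ} (h0 : x0 ≠ 0) (s : Multiset ℂ) :
    (∀ x ∈ s, ‖x‖ ≤ ‖x0‖) → ∃ B : ℝ, ∀ M : ℕ,
      ‖(s.map (fun x => ∑ m ∈ Finset.range M, (x / x0) ^ m)).sum - (s.count x0 : ℂ) * M‖ ≤ B := by
  induction s using Multiset.induction_on with
  | empty =>
    intro _
    refine ⟨0, fun M => ?_⟩
    simp
  | cons a s ih =>
    intro h
    obtain ⟨B, hB⟩ := ih fun x hx => h x (Multiset.mem_cons_of_mem hx)
    by_cases ha : a = x0
    · refine ⟨B, fun M => ?_⟩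
      subst ha
      rw [Multiset.map_cons, Multiset.sum_cons, Multiset.count_cons_self, div_self h0]
      have h2 := hB M
      have h3 : ∑ m ∈ Finset.range M, (1 : ℂ) ^ m = M := by simp
      rw [h3]
      convert h2 using 2
      push_cast
      ring
    · refine ⟨2 / ‖a / x0 - 1‖ + B, fun M => ?_⟩
      rw [Multiset.map_cons, Multiset.sum_cons, Multiset.count_cons_of_ne (Ne.symm ha)]
      have h2 := hB M
      have h3 : ‖a / x0‖ ≤ 1 := by
        rw [norm_div]
        exact div_le_one_of_le₀ (h a (Multiset.mem_cons_self a s)) (norm_nonneg _)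
      have h4 : a / x0 ≠ 1 := by
        intro hc
        exact ha ((div_eq_one_iff_eq h0).1 hc)
      have h5 := PowSum_geom h3 h4 M
      rw [add_sub_assoc]
      exact (norm_add_le _ _).trans (add_le_add h5 h2)

theorem PowSum_swap (x0 : ℂ) (s : Multiset ℂ) (M : ℕ) :
    (s.map (fun x => ∑ m ∈ Finset.range M, (x / x0) ^ m)).sum =
      ∑ m ∈ Finset.range M, (s.map (fun x => x ^ m)).sum * (x0⁻¹) ^ m := by
  induction s using Multiset.induction_on with
  | empty => simp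
  | cons a s ih =>
    rw [Multiset.map_cons, Multiset.sum_cons, ih, ← Finset.sum_add_distrib]
    apply Finset.sum_congr rfl
    intro m _
    rw [Multiset.map_cons, Multiset.sum_cons, add_mul, div_eq_mul_inv, mul_pow]

theorem powsum_bound (s : Multiset ℂ) (C R : ℝ) (hR : 0 < R) (m0 : ℕ)
    (h : ∀ m, m0 ≤ m → ‖(s.map (fun x => x ^ m)).sum‖ ≤ C * R ^ m) :
    ∀ x ∈ s, ‖x‖ ≤ R := by
  intro x hx
  by_contra hxR
  rw [not_le] at hxR
  obtain ⟨x0, hx0, hmax⟩ := Finset.exists_max_image s.toFinset (fun x => ‖x‖)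
    ⟨x, Multiset.mem_toFinset.2 hx⟩
  have hx0s : x0 ∈ s := Multiset.mem_toFinset.1 hx0
  have hle : ∀ y ∈ s, ‖y‖ ≤ ‖x0‖ := fun y hy => hmax y (Multiset.mem_toFinset.2 hy)
  have hρ : R < ‖x0‖ := lt_of_lt_of_le hxR (hle x hx)
  have hρ0 : 0 < ‖x0‖ := hR.trans hρ
  have h0 : x0 ≠ 0 := norm_pos_iff.1 hρ0
  have hC : 0 ≤ C := by
    have h1 := (norm_nonneg _).trans (h m0 le_rfl)
    exact nonneg_of_mul_nonneg_left h1 (pow_pos hR m0)
  set D : ℝ := C + ∑ m ∈ Finset.range m0, ‖(s.map (fun x => x ^ m)).sum‖ / R ^ m with hD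
  have hsum0 : ∀ m ∈ Finset.range m0, 0 ≤ ‖(s.map (fun x => x ^ m)).sum‖ / R ^ m :=
    fun m _ => div_nonneg (norm_nonneg _) (pow_pos hR m).le
  have hD0 : 0 ≤ D := add_nonneg hC (Finset.sum_nonneg hsum0)
  have hDm : ∀ m, ‖(s.map (fun x => x ^ m)).sum‖ ≤ D * R ^ m := by
    intro m
    have hRm := pow_pos hR m
    by_cases hm : m0 ≤ m
    · refine (h m hm).trans (mul_le_mul_of_nonneg_right ?_ hRm.le)
      have := Finset.sum_nonneg hsum0
      linarith
    · have h2 := Finset.single_le_sum hsum0 (Finset.mem_range.2 (not_le.1 hm))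
      have h3 : ‖(s.map (fun x => x ^ m)).sum‖ / R ^ m ≤ D := by linarith
      rwa [div_le_iff₀ hRm] at h3
  obtain ⟨B, hB⟩ := PowSum_aux h0 s hle
  set q : ℝ := R / ‖x0‖ with hq
  have hq0 : 0 ≤ q := div_nonneg hR.le hρ0.le
  have hq1 : q < 1 := (div_lt_one hρ0).2 hρ
  have hS : ∀ M : ℕ, ‖(s.map (fun x => ∑ m ∈ Finset.range M, (x / x0) ^ m)).sum‖ ≤
      D * (1 - q)⁻¹ := by
    intro M
    rw [PowSum_swap]
    calc ‖∑ m ∈ Finset.range M, (s.map (fun x => x ^ m)).sum * (x0⁻¹) ^ m‖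
        ≤ ∑ m ∈ Finset.range M, ‖(s.map (fun x => x ^ m)).sum * (x0⁻¹) ^ m‖ :=
          norm_sum_le _ _
      _ ≤ ∑ m ∈ Finset.range M, D * q ^ m := by
          apply Finset.sum_le_sum
          intro m _
          rw [norm_mul, norm_pow, norm_inv]
          calc ‖(s.map (fun x => x ^ m)).sum‖ * ‖x0‖⁻¹ ^ m ≤ D * R ^ m * ‖x0‖⁻¹ ^ m :=
                mul_le_mul_of_nonneg_right (hDm m) (pow_nonneg (inv_nonneg.2 hρ0.le) m)
            _ = D * q ^ m := by rw [hq, div_eq_mul_inv, mul_pow, mul_assoc]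
      _ = D * ∑ m ∈ Finset.range M, q ^ m := by rw [Finset.mul_sum]
      _ ≤ D * (1 - q)⁻¹ := by
          apply mul_le_mul_of_nonneg_left _ hD0
          rw [← tsum_geometric_of_lt_one hq0 hq1]
          exact (summable_geometric_of_lt_one hq0 hq1).sum_le_tsum _
            (fun m _ => pow_nonneg hq0 m)
  have hcount : (1 : ℝ) ≤ s.count x0 := by
    have : 1 ≤ s.count x0 := Multiset.one_le_count_iff_mem.2 hx0s
    exact_mod_cast this
  obtain ⟨M, hM⟩ := exists_nat_gt (D * (1 - q)⁻¹ + B)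
  have h6 : (M : ℝ) ≤ ‖(s.count x0 : ℂ) * M‖ := by
    rw [norm_mul, Complex.norm_natCast, Complex.norm_natCast]
    have : (0 : ℝ) ≤ M := Nat.cast_nonneg M
    nlinarith
  have h7 : ‖(s.count x0 : ℂ) * M‖ ≤
      ‖(s.map (fun x => ∑ m ∈ Finset.range M, (x / x0) ^ m)).sum‖ + B := by
    have h8 := hB M
    have h9 := norm_sub_norm_le ((s.count x0 : ℂ) * M)
      (s.map (fun x => ∑ m ∈ Finset.range M, (x / x0) ^ m)).sum
    rw [norm_sub_rev] at h8
    linarith
  have h10 := hS M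
  linarith

end LIF
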