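import Pool.Agent.helper1.LI.StD
import Pool.Agent.helper1.LI.ChiMp

/-!
[LI-StE] `|a_{2m}| ≤ (6 n + 2) p^m` (import the stubs `Km`, `ChiMp`, `StD`).

Proof.  `q = p^(2m)`, `r = p^m`, `e = (q-1)/2`.  For `x ∈ Km p (2m)`, `c = D(x)` satisfies
`c^q = c`, so `c^e ∈ {0, 1, -1}` and by `chi_Mp` `chi D (Mp (2m) x)` is the corresponding integer.
With `N_c = #{x ∈ Km p (2m) : D(x)^e = c}`: `a_{2m} = N_1 - N_{-1}`, `N_1 + N_{-1} + N_0 = q`,
`N_0 = #{x : D(x) = 0} ≤ n` (`e ≥ 1`, `card_roots`).  By `st_bound`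
`2 N_{±1} ≤ q + (3n+2) r + 2n`.  So `a_{2m} = 2 N_1 - (q - N_0) ≤ (3n+2) r + 3n` and the same
for `- a_{2m}`; finally `3 n ≤ 3 n r`.
-/

set_option autoImplicit false

namespace LIF

open Polynomial

theorem StE_chi_values {p : ℕ} [Fact p.Prime] (D h : (ZMod p)[X]) :
    chi D h = 0 ∨ chi D h = 1 ∨ chi D h = -1 := by
  unfold chi
  exact quadraticChar_isQuadratic (ZMod p) _

theorem StE_two_ne {p : ℕ} [Fact p.Prime] (p2 : p ≠ 2) :
    (2 : AlgebraicClosure (ZMod p)) ≠ 0 := by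
  have hp : p.Prime := Fact.out
  intro h
  have h1 : ((2 : ℕ) : AlgebraicClosure (ZMod p)) = 0 := by exact_mod_cast h
  rw [CharP.cast_eq_zero_iff (AlgebraicClosure (ZMod p)) p] at h1
  have := Nat.le_of_dvd (by norm_num) h1
  have := hp.two_le
  omega

open scoped Classical in
theorem StE_zeros {p : ℕ} [Fact p.Prime] {D : (ZMod p)[X]} (hD : D ≠ 0) {m e : ℕ}
    (he : 1 ≤ e) :
    ((Km p m).filter (fun x => (aeval x D) ^ e = 0)).card ≤ D.natDegree := by
  have h1 : (Km p m).filter (fun x => (aeval x D) ^ e = 0) ⊆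
      (D.map (algebraMap (ZMod p) (AlgebraicClosure (ZMod p)))).roots.toFinset := by
    intro x hx
    rw [Finset.mem_filter] at hx
    rw [Multiset.mem_toFinset, mem_roots (by
      rw [Ne, Polynomial.map_eq_zero]; exact hD), IsRoot.def, eval_map_algebraMap]
    exact pow_eq_zero_iff (by omega) |>.1 hx.2
  calc _ ≤ _ := Finset.card_le_card h1
    _ ≤ _ := Multiset.toFinset_card_le _
    _ ≤ _ := card_roots' _
    _ = _ := natDegree_map _

theorem am_bound {p : ℕ} [Fact p.Prime] (p2 : p ≠ 2) {D : (ZMod p)[X]}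
    (hodd : Odd D.natDegree) (h0 : D.coeff 0 ≠ 0) {m : ℕ} (hm1 : 1 ≤ m)
    (hm : D.natDegree + 4 ≤ p ^ m) :
    |am D (2 * m)| ≤ (6 * (D.natDegree : ℤ) + 2) * (p : ℤ) ^ m := by
  classical
  have hp : p.Prime := Fact.out
  have hD : D ≠ 0 := by rintro rfl; simp at h0
  set K := AlgebraicClosure (ZMod p) with hK
  have h2 : (2 : K) ≠ 0 := StE_two_ne p2
  have hq : 9 ≤ p ^ (2 * m) := by
    have h3 : 3 ≤ p := by have := hp.two_le; omega
    calc 9 = 3 ^ 2 := by norm_num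
      _ ≤ p ^ 2 := Nat.pow_le_pow_left h3 2
      _ ≤ p ^ (2 * m) := Nat.pow_le_pow_right (by omega) (by omega)
  set e := (p ^ (2 * m) - 1) / 2 with he
  have he1 : 1 ≤ e := by omega
  have hc1 := st_bound p2 hodd h0 hm1 hm (1 : K)
  have hc2 := st_bound p2 hodd h0 hm1 hm (-1 : K)
  have hc0 := StE_zeros (p := p) hD (m := 2 * m) he1
  rw [← he] at hc1 hc2
  set N1 := ((Km p (2 * m)).filter (fun x => (aeval x D) ^ e = (1 : K))).card with hN1
  set N2 := ((Km p (2 * m)).filter (fun x => (aeval x D) ^ e = (-1 : K))).card with hN2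
  set N0 := ((Km p (2 * m)).filter (fun x => (aeval x D) ^ e = (0 : K))).card with hN0
  have hval : ∀ x ∈ Km p (2 * m), ((chi D (Mp (2 * m) x) : ℤ) : K) = (aeval x D) ^ e :=
    fun x hx => chi_Mp p2 D (by omega) hx
  have h1m : (1 : K) ≠ -1 := by
    intro h
    apply h2
    calc (2 : K) = 1 + 1 := by norm_num
      _ = 1 + -1 := by rw [← h]
      _ = 0 := by ring
  have hind : ∀ x ∈ Km p (2 * m),
      chi D (Mp (2 * m) x) = (if (aeval x D) ^ e = (1 : K) then 1 else 0) -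
        (if (aeval x D) ^ e = (-1 : K) then 1 else 0) ∧
      (1 : ℤ) = (if (aeval x D) ^ e = (1 : K) then 1 else 0) +
        (if (aeval x D) ^ e = (-1 : K) then 1 else 0) +
        (if (aeval x D) ^ e = (0 : K) then 1 else 0) := by
    intro x hx
    have hv := hval x hx
    rcases StE_chi_values D (Mp (2 * m) x) with h | h | h
    · rw [h, Int.cast_zero] at hv
      rw [h, ← hv]
      simp
    · rw [h, Int.cast_one] at hv
      rw [h, ← hv, if_pos rfl, if_neg h1m, if_neg one_ne_zero]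
      simp
    · rw [h, Int.cast_neg, Int.cast_one] at hv
      rw [h, ← hv, if_pos rfl, if_neg h1m.symm, if_neg (neg_ne_zero.2 one_ne_zero)]
      simp
  have ham : am D (2 * m) = (N1 : ℤ) - N2 := by
    unfold am
    rw [Finset.sum_congr rfl (fun x hx => (hind x hx).1), Finset.sum_sub_distrib,
      Finset.sum_boole, Finset.sum_boole]
  have hcard : ((p ^ (2 * m) : ℕ) : ℤ) = (N1 : ℤ) + N2 + N0 := by
    have h3 : ((Km p (2 * m)).card : ℤ) = ∑ x ∈ Km p (2 * m), (1 : ℤ) := by simp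
    rw [← card_Km (p := p) (m := 2 * m) (by omega), h3,
      Finset.sum_congr rfl (fun x hx => (hind x hx).2), Finset.sum_add_distrib,
      Finset.sum_add_distrib, Finset.sum_boole, Finset.sum_boole, Finset.sum_boole]
  have hc1' : (2 : ℤ) * N1 ≤ (p ^ (2 * m) : ℕ) + (3 * D.natDegree + 2) * (p : ℤ) ^ m +
      2 * D.natDegree := by exact_mod_cast hc1
  have hc2' : (2 : ℤ) * N2 ≤ (p ^ (2 * m) : ℕ) + (3 * D.natDegree + 2) * (p : ℤ) ^ m +
      2 * D.natDegree := by exact_mod_cast hc2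
  have hc0' : (N0 : ℤ) ≤ D.natDegree := by exact_mod_cast hc0
  have hr : (1 : ℤ) ≤ (p : ℤ) ^ m := by exact_mod_cast Nat.one_le_pow m p hp.pos
  have hnr : (D.natDegree : ℤ) ≤ D.natDegree * (p : ℤ) ^ m :=
    le_mul_of_one_le_right (by positivity) hr
  rw [ham, abs_le]
  constructor <;> nlinarith

end LIF
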