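import Pool.Agent.helper1.LI.Roots
import Pool.Agent.helper1.LI.StE
import Pool.Agent.helper1.LI.PowSum

/-!
[LI-RH] Riemann hypothesis: all complex roots of `Lp g (Dp h0)` have modulus `√p`
(import the stubs `Roots`, `StE`, `PowSum`, `Gauss2`).

Proof.  `D = Dp h0` has odd degree `2 g + 1` and `D(0) = h0(0) ≠ 0` (`h0` irreducible of degree
`≥ 2`).  By `am_bound`, `|a_{2m}| ≤ C p^m` for all large `m` (`p^m → ∞`), and
`a_{2m} = - ∑ (x^2)^m` (`am_eq_roots`); `powsum_bound` for the multiset of the squares `x^2`,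
`R = p`: `‖x‖^2 ≤ p`.  The product of all `2 g` roots is `± f(0) = ± S_{2g}` and
`S_{2g}^2 = p^{2g}` (`Sd_fe` with `d = 2g`, `S_0 = 1`), so `∏ ‖x‖ = p^g = ∏ √p`; if one `‖x‖`
were `< √p` the product would be smaller.
-/

set_option autoImplicit false

namespace LIF

open Polynomial

theorem RH_prod_le (r : ℝ) (hr : 0 ≤ r) (t : Multiset ℂ) (h : ∀ x ∈ t, ‖x‖ ≤ r) :
    0 ≤ (t.map (fun x => ‖x‖)).prod ∧ (t.map (fun x => ‖x‖)).prod ≤ r ^ (Multiset.card t) := by
  induction t using Multiset.induction_on with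
  | empty => simp
  | cons a t ih =>
    obtain ⟨h1, h2⟩ := ih fun x hx => h x (Multiset.mem_cons_of_mem hx)
    have h3 := h a (Multiset.mem_cons_self a t)
    rw [Multiset.map_cons, Multiset.prod_cons, Multiset.card_cons, pow_succ']
    exact ⟨mul_nonneg (norm_nonneg _) h1, mul_le_mul h3 h2 h1 hr⟩

theorem RH_norm_prod (t : Multiset ℂ) : ‖t.prod‖ = (t.map (fun x => ‖x‖)).prod := by
  induction t using Multiset.induction_on with
  | empty => simp
  | cons a t ih => rw [Multiset.prod_cons, norm_mul, ih, Multiset.map_cons, Multiset.prod_cons]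

theorem RH_deg {p : ℕ} [Fact p.Prime] {g : ℕ} {h0 : (ZMod p)[X]} (hg : Good p g h0) :
    (Dp h0).natDegree = 2 * g + 1 := by
  have h1 : (1 - X : (ZMod p)[X]).natDegree = 1 := Sym_natDegree_one_sub
  have h2 : (1 - X : (ZMod p)[X]) ≠ 0 := by
    intro h
    rw [h, natDegree_zero] at h1
    exact absurd h1 (by norm_num)
  rw [Dp, natDegree_mul h2 hg.mon.ne_zero, h1, hg.deg, add_comm]

theorem RH_coeff {p : ℕ} [Fact p.Prime] {g : ℕ} {h0 : (ZMod p)[X]} (hg : Good p g h0) :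
    (Dp h0).coeff 0 ≠ 0 := by
  rw [Dp, mul_coeff_zero, coeff_sub, coeff_one_zero, coeff_X_zero, sub_zero, one_mul]
  intro h
  rw [← X_dvd_iff] at h
  have h1 : Associated (X : (ZMod p)[X]) h0 := irreducible_X.associated_of_dvd hg.irr h
  have h2 := degree_eq_degree_of_associated h1
  have h3 : (X : (ZMod p)[X]).natDegree = h0.natDegree := natDegree_eq_of_degree_eq h2
  rw [natDegree_X, hg.deg] at h3
  omega

theorem rh {p : ℕ} [Fact p.Prime] {g : ℕ} {h0 : (ZMod p)[X]} (hg : Good p g h0) :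
    ∀ x ∈ ((Lp g (Dp h0)).map (Int.castRingHom ℂ)).roots, ‖x‖ = Real.sqrt p := by
  have hp1 : 2 ≤ p := (Fact.out : p.Prime).two_le
  have hp0 : (0 : ℝ) < p := by exact_mod_cast (by omega : 0 < p)
  obtain ⟨s, hs⟩ : ∃ s, s = ((Lp g (Dp h0)).map (Int.castRingHom ℂ)).roots := ⟨_, rfl⟩
  have hmon : ((Lp g (Dp h0)).map (Int.castRingHom ℂ)).Monic := (Lp_monic _).map _
  have hdeg : ((Lp g (Dp h0)).map (Int.castRingHom ℂ)).natDegree = 2 * g := by
    rw [(Lp_monic _).natDegree_map, Lp_natDegree]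
  have hcard : Multiset.card s = 2 * g := by
    rw [hs, ← hdeg]
    exact (IsAlgClosed.splits _).natDegree_eq_card_roots.symm
  -- upper bound
  have hle : ∀ x ∈ s, ‖x‖ ≤ Real.sqrt p := by
    intro x hx
    have h1 := powsum_bound (s.map (fun x => x ^ 2)) (6 * ((Dp h0).natDegree : ℝ) + 2) p hp0
      ((Dp h0).natDegree + 4) ?_ (x ^ 2) (Multiset.mem_map_of_mem _ hx)
    · rw [norm_pow] at h1
      exact Real.le_sqrt_of_sq_le h1
    · intro m hm
      have h2 : 1 ≤ m := by omega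
      have h3 : (Dp h0).natDegree + 4 ≤ p ^ m :=
        hm.trans (Nat.lt_pow_self (by omega)).le
      have h4 := am_bound hg.p2 (D := Dp h0) (by rw [RH_deg hg]; exact ⟨g, rfl⟩) (RH_coeff hg) h2 h3
      have h5 := am_eq_roots hg (m := 2 * m) (by omega)
      rw [← hs] at h5
      have h6 : ((s.map (fun x => x ^ 2)).map (fun x => x ^ m)).sum =
          -((am (Dp h0) (2 * m) : ℤ) : ℂ) := by
        rw [h5, neg_neg, Multiset.map_map]
        congr 1
        apply Multiset.map_congr rfl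
        intro y _
        show (y ^ 2) ^ m = y ^ (2 * m)
        rw [pow_mul]
      rw [h6, norm_neg, Complex.norm_intCast]
      exact_mod_cast h4
  -- the product
  have hS0 : Sd (Dp h0) 0 = 1 := by
    have h1 := Lp_coeff (g := g) (Dp h0) (j := 2 * g) le_rfl
    rw [Nat.sub_self] at h1
    rw [← h1]
    have h2 := Lp_monic (g := g) (Dp h0)
    rw [Monic, leadingCoeff, Lp_natDegree] at h2
    exact h2
  have hfe := Sd_fe hg (d := 2 * g) le_rfl
  rw [Nat.sub_self, hS0, mul_one] at hfe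
  have hprod : (s.map (fun x => ‖x‖)).prod ^ 2 = (p : ℝ) ^ (2 * g) := by
    rw [← RH_norm_prod]
    have h1 : ((Lp g (Dp h0)).map (Int.castRingHom ℂ)).coeff 0 = (-1) ^ (2 * g) * s.prod := by
      rw [hs, ← hdeg]
      exact (IsAlgClosed.splits _).coeff_zero_eq_prod_roots_of_monic hmon
    rw [coeff_map, Lp_coeff _ (Nat.zero_le _), Nat.sub_zero, pow_mul, neg_one_sq, one_pow,
      one_mul] at h1
    rw [← h1]
    have h2 : ‖(Int.castRingHom ℂ) (Sd (Dp h0) (2 * g))‖ = |((Sd (Dp h0) (2 * g) : ℤ) : ℝ)| :=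
      Complex.norm_intCast _
    rw [h2, sq_abs, sq]
    exact_mod_cast hfe
  intro x hx
  rw [← hs] at hx
  refine le_antisymm (hle x hx) ?_
  by_contra hlt
  push Not at hlt
  obtain ⟨t, ht⟩ := Multiset.exists_cons_of_mem hx
  have hr : 0 < Real.sqrt p := Real.sqrt_pos.2 hp0
  obtain ⟨h1, h2⟩ := RH_prod_le (Real.sqrt p) hr.le t fun y hy => hle y (by
    rw [ht]
    exact Multiset.mem_cons_of_mem hy)
  have hct : Multiset.card t + 1 = 2 * g := by
    rw [← hcard, ht, Multiset.card_cons]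
  rw [ht, Multiset.map_cons, Multiset.prod_cons] at hprod
  have h3 : ‖x‖ * (t.map (fun x => ‖x‖)).prod < (Real.sqrt p) ^ (2 * g) := by
    rw [← hct, pow_succ']
    calc ‖x‖ * (t.map (fun x => ‖x‖)).prod ≤ ‖x‖ * Real.sqrt p ^ Multiset.card t :=
          mul_le_mul_of_nonneg_left h2 (norm_nonneg _)
      _ < Real.sqrt p * Real.sqrt p ^ Multiset.card t :=
          mul_lt_mul_of_pos_right hlt (pow_pos hr _)
  have h4 : (‖x‖ * (t.map (fun x => ‖x‖)).prod) ^ 2 < ((Real.sqrt p) ^ (2 * g)) ^ 2 :=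
    pow_lt_pow_left₀ h3 (mul_nonneg (norm_nonneg _) h1) (by norm_num)
  rw [hprod, ← pow_mul, mul_comm (2 * g) 2, pow_mul (Real.sqrt p), Real.sq_sqrt hp0.le] at h4
  exact lt_irrefl _ h4

end LIF
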