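import Pool.Agent.helper1.LI.Pts
import Pool.Agent.helper1.LI.ModP
import Pool.Agent.helper1.LI.Gal
import Pool.Agent.helper1.LI.RH
import Pool.Agent.helper1.LI.Ang
import Pool.Agent.helper1.LI.AngB

/-!
[LI-Crit] The criterion (assembly).
-/

set_option autoImplicit false

namespace LIF

open Polynomial

theorem criterion {p : ℕ} [Fact p.Prime] {k : ℕ} (hk : 1 ≤ k) {h0 : (ZMod p)[X]}
    (hg : Good p (2 ^ k) h0)
    (hw0 : (HW p (2 ^ k) (Dp h0)).charpoly.coeff 0 = 0)
    (hw1 : (HW p (2 ^ k) (Dp h0)).charpoly.coeff 1 ≠ 0) :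
    LICurve p (2 ^ k) (Dp h0) := by
  set g := 2 ^ k with hgdef
  have g2 : 2 ≤ g := by
    rw [hgdef]
    calc 2 = 2 ^ 1 := by norm_num
      _ ≤ 2 ^ k := Nat.pow_le_pow_right (by norm_num) hk
  have ge : Even g := by
    rw [hgdef]
    exact (Nat.even_pow' (by omega)).2 even_two
  set f := Lp g (Dp h0) with hf
  have hirr := Lp_irreducible hg
  obtain ⟨θ, hmono, hrange, hfac⟩ := angles (p := p) g2 (f := f) (Lp_monic _)
    (Lp_natDegree _) hirr (rh hg)
  refine ⟨θ, hmono, hrange, ?_, ?_⟩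
  · intro m hm
    have h1 := card_points hg.p2 (Dp h0) hm
    have h2 := am_eq_roots hg hm
    rw [angles_sum θ hfac m] at h2
    have h3 : ((am (Dp h0) m : ℤ) : ℝ) =
        - ∑ i, 2 * (Real.sqrt p) ^ m * Real.cos (m * θ i) := by
      exact_mod_cast h2
    have h4 : ((Nat.card {z : GaloisField p m × GaloisField p m //
        z.2 ^ 2 = aeval z.1 (Dp h0)} : ℤ) : ℝ) = (p : ℝ) ^ m + (am (Dp h0) m : ℤ) := by
      rw [h1]; push_cast; ring
    have h5 : (Nat.card {z : GaloisField p m × GaloisField p m //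
        z.2 ^ 2 = aeval z.1 (Dp h0)} : ℝ) = (p : ℝ) ^ m + (am (Dp h0) m : ℤ) := by
      rw [← h4]; push_cast; rfl
    rw [h5, h3]; ring
  · apply angles_li (p := p) θ
    intro n hn
    have hp := (Fact.out : p.Prime)
    have hmod : ∀ d, (p : ℤ) ∣ Sd (Dp h0) d ↔ eps (HW p g (Dp h0)) d = 0 := by
      intro d
      rw [← Sd_mod hg d, ZMod.intCast_zmod_eq_zero_iff_dvd]
    have hhigh : ∀ d, g < d → d ≤ 2 * g → (p : ℤ) ∣ Sd (Dp h0) d := by
      intro d hd1 hd2
      rw [hmod, eps, if_neg (by omega)]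
    refine gal_core ge (by omega) (f := f) (Lp_monic _) (Lp_natDegree _) hirr ?_ ?_ _ hfac n hn
    · intro j hj
      rw [hf, Lp_coeff _ (by omega)]
      rcases Nat.lt_or_ge j g with h | h
      · exact hhigh _ (by omega) (by omega)
      · have hjg : j = g := by omega
        rw [hmod, eps, if_pos (by omega)]
        have : g - (2 * g - j) = 0 := by omega
        rw [this]
        exact hw0
    · rw [hf, Lp_coeff _ (by omega), hmod, eps, if_pos (by omega)]
      have : g - (2 * g - (g + 1)) = 1 := by omega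
      rw [this]
      exact hw1

end LIF
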