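import Pool.Agent.helper1.LI.Mon
import Pool.Agent.helper1.LI.Sym

/-!
[LI-Van] The sums of the character `chx` over `Low p m` vanish, and `S_d = 0` for `d > 2 g`
(import the stubs `Mon`, `Sym`).

Proof.  `n = 2 g + 1`, `f = fp h0 = (X - 1) h0` monic of degree `n`, `χ = chx h0`.
* `sum_Low_chx`: choose a constant `c` with `quadraticChar (ZMod p) c = -1` (exists as `p ≠ 2`:
  `quadraticChar_exists_neg_one'` or `FiniteField.exists_nonsquare`); `y ↦ C c * y` permutes
  `Low p m` and `χ (C c * y) = - χ y` (`chx_C_mul`), so the sum equals its negative.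
* `Sd_vanish`: for `d ≥ n`: `S_d = ∑_{h ∈ Mon p d} chx h0 h` (`chx_eq_chi`)
  `= ∑_{r ∈ Low p d} χ(X^d + r)` (`sum_Mon_eq`).  Division with remainder by `f` is a bijection
  `Low p d ≃ Low p (d - n) × Low p n`, `r = q f + s`, and
  `χ(X^d + q f + s) = χ((X^d %ₘ f) + s)` (`chx_add_mul`, `modByMonic_add_div`); translation by
  `X^d %ₘ f ∈ Low p n` permutes `Low p n`.  So `S_d = p^(d-n) * ∑_{s ∈ Low p n} χ(s) = 0`.
-/

set_option autoImplicit false

namespace LIF

open Polynomial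

variable {p : ℕ} [Fact p.Prime] {g : ℕ} {h0 : (ZMod p)[X]}

/-- translations permute `Low p m` -/
theorem Van_trans {M : Type*} [AddCommMonoid M] (F : (ZMod p)[X] → M) {m : ℕ} {t : (ZMod p)[X]}
    (ht : t.degree < m) : ∑ r ∈ Low p m, F (r + t) = ∑ r ∈ Low p m, F r := by
  refine Finset.sum_nbij' (fun r => r + t) (fun r => r - t) ?_ ?_ ?_ ?_ ?_
  · intro r hr
    rw [mem_Low] at hr ⊢
    exact (degree_add_le _ _).trans_lt (max_lt hr ht)
  · intro r hr
    rw [mem_Low] at hr ⊢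
    exact (degree_sub_le _ _).trans_lt (max_lt hr ht)
  · intro r _
    simp
  · intro r _
    simp
  · intro r _
    rfl

theorem Van_fp_monic (hg : Good p g h0) : (fp h0).Monic := by
  have h1 : (X - 1 : (ZMod p)[X]).Monic := by
    rw [← C_1]
    exact monic_X_sub_C 1
  exact h1.mul hg.mon

theorem Van_fp_natDegree (hg : Good p g h0) : (fp h0).natDegree = 2 * g + 1 := by
  have h1 : (X - 1 : (ZMod p)[X]).Monic := by
    rw [← C_1]
    exact monic_X_sub_C 1
  have h2 : (X - 1 : (ZMod p)[X]).natDegree = 1 := by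
    rw [← C_1]
    exact natDegree_X_sub_C 1
  unfold fp
  rw [h1.natDegree_mul hg.mon, h2, hg.deg, add_comm]

theorem sum_Low_chx (hg : Good p g h0) (m : ℕ) : ∑ y ∈ Low p m, chx h0 y = 0 := by
  have hch : ringChar (ZMod p) ≠ 2 := by
    rw [ZMod.ringChar_zmod_n]
    exact hg.p2
  obtain ⟨c, hc⟩ := quadraticChar_exists_neg_one hch
  have hc0 : c ≠ 0 := by
    rintro rfl
    rw [quadraticChar_zero] at hc
    norm_num at hc
  have h1 : ∑ y ∈ Low p m, chx h0 (C c * y) = ∑ y ∈ Low p m, chx h0 y := by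
    refine Finset.sum_nbij' (fun y => C c * y) (fun y => C c⁻¹ * y) ?_ ?_ ?_ ?_ ?_
    · intro y hy
      rw [mem_Low] at hy ⊢
      rwa [degree_C_mul hc0]
    · intro y hy
      rw [mem_Low] at hy ⊢
      rwa [degree_C_mul (inv_ne_zero hc0)]
    · intro y _
      show C c⁻¹ * (C c * y) = y
      rw [← mul_assoc, ← C_mul, inv_mul_cancel₀ hc0, C_1, one_mul]
    · intro y _
      show C c * (C c⁻¹ * y) = y
      rw [← mul_assoc, ← C_mul, mul_inv_cancel₀ hc0, C_1, one_mul]
    · intro y _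
      rfl
  have h2 : ∑ y ∈ Low p m, chx h0 (C c * y) = - ∑ y ∈ Low p m, chx h0 y := by
    rw [← Finset.sum_neg_distrib]
    apply Finset.sum_congr rfl
    intro y _
    rw [chx_C_mul hg hc0, hc]
    ring
  rw [h2] at h1
  linarith

theorem Sd_vanish (hg : Good p g h0) {d : ℕ} (hd : 2 * g < d) : Sd (Dp h0) d = 0 := by
  have hf := Van_fp_monic hg
  have hfd := Van_fp_natDegree hg
  have h1 : Sd (Dp h0) d = ∑ r ∈ Low p d, chx h0 (X ^ d + r) := by
    unfold Sd
    rw [← sum_Mon_eq (fun h => chx h0 h)]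
    apply Finset.sum_congr rfl
    intro h hh
    exact (chx_eq_chi hg (mem_Mon.1 hh).1).symm
  have h2 : ∑ s ∈ Low p (2 * g + 1), ∑ r ∈ Low p d, chx h0 (X ^ d + (r + s)) =
      ∑ s ∈ Low p (2 * g + 1), ∑ r ∈ Low p d, chx h0 (X ^ d + r) := by
    apply Finset.sum_congr rfl
    intro s hs
    refine Van_trans (fun r => chx h0 (X ^ d + r)) ?_
    rw [mem_Low] at hs
    exact hs.trans_le (by exact_mod_cast hd)
  have h3 : ∑ s ∈ Low p (2 * g + 1), ∑ r ∈ Low p d, chx h0 (X ^ d + (r + s)) = 0 := by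
    rw [Finset.sum_comm]
    apply Finset.sum_eq_zero
    intro r _
    have ht : ((X ^ d + r) %ₘ fp h0).degree < ((2 * g + 1 : ℕ) : WithBot ℕ) := by
      have h4 := degree_modByMonic_lt (X ^ d + r) hf
      rwa [degree_eq_natDegree hf.ne_zero, hfd] at h4
    rw [← sum_Low_chx hg (2 * g + 1), ← Van_trans (fun s => chx h0 s) ht]
    apply Finset.sum_congr rfl
    intro s _
    have h5 : X ^ d + (r + s) = (s + (X ^ d + r) %ₘ fp h0) + fp h0 * ((X ^ d + r) /ₘ fp h0) := by
      have h6 := modByMonic_add_div (X ^ d + r) (fp h0)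
      linear_combination -h6
    rw [h5, chx_add_mul hg]
  rw [h2, Finset.sum_const, card_Low, ← h1, nsmul_eq_mul] at h3
  have hp : ((p ^ (2 * g + 1) : ℕ) : ℤ) ≠ 0 := by
    have : p ≠ 0 := (Fact.out : p.Prime).ne_zero
    exact_mod_cast pow_ne_zero _ this
  exact (mul_eq_zero.1 h3).resolve_left hp

end LIF
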