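import Pool.Agent.helper1.LI.Gauss1
import Pool.Agent.helper1.LI.Van

/-!
[LI-Gauss2] Functional equation `S_(2g) S_d = p^d S_(2g-d)` (import the stubs `Gauss1`, `Van`,
which import `Mon`, `Sym`).  (statement and plan: helper1; proofs: helper11)

Proof.  `n = 2 g + 1`, `f = fp h0` monic of degree `n`, `χ = chx h0`, `ψ = ZMod.stdAddChar`.
* `Sd_fe`: for `0 ≤ d ≤ n - 1`, by `Gam_eq`:
  `S_d * Gam 1 = ∑_{h ∈ Mon p d} Gam h
     = ∑_{y ∈ Low n} χ(y) ∑_{r ∈ Low d} ψ(((X^d + r) y %ₘ f).coeff (n-1))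
     = ∑_{y ∈ Low n} χ(y) ψ((X^d y %ₘ f).coeff (n-1)) ∑_{r ∈ Low d} ψ((r y %ₘ f).coeff (n-1))`.
  The inner sum over the vector space `Low d` of a character is `p^d` if
  `(r y %ₘ f).coeff (n-1) = 0` for all `r ∈ Low d` and `0` otherwise
  (if some `r0` has `ψ(...) ≠ 1`, translate by `r0`).
  CLAIM: for `y ∈ Low n` this holds iff `y ∈ Low (n-d)`.  If `deg y < n - d` then
  `deg (r y) < n - 1`, no reduction is needed and the coefficient is `0`.  Conversely if
  `y ≠ 0` has degree `e ≥ n - d` take `r = c X^(n-1-e)` (`n-1-e < d`): `r y` has degree `n-1`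
  and coefficient `c * lead(y) ≠ 0`.
  For `y ∈ Low (n-d)`: `deg (X^d y) < n`, so `(X^d y %ₘ f).coeff (n-1) = y.coeff (n-1-d)`.
  So `S_d * Gam 1 = p^d ∑_{y ∈ Low (n-d)} χ(y) ψ(y.coeff (n-1-d))`; by `sum_Low_succ`
  (`n - d = (2g - d) + 1`) the part `y ∈ Low (2g-d)` contributes `∑ χ(y) ψ(0) = 0`
  and `y = c h`, `h ∈ Mon (2g-d)` contributes `∑_c η(c) ψ(c) S_(2g-d)`.
  Let `G = ∑_{c unit} η(c) ψ(c)` (Gauss sum of the quadratic character).  Hence
  `S_d * Gam 1 = p^d G S_(2g-d)` for all `0 ≤ d ≤ 2g`.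
  `G ≠ 0`: `gaussSum_sq` (or `gaussSum_mul_gaussSum_eq_card`/`gaussSum_ne_zero_of_nontrivial`),
  with `ψ` primitive (`ZMod.isPrimitive_stdAddChar`) and `quadraticChar` nontrivial for `p ≠ 2`.
  For `d = 0`: `Gam 1 = G S_(2g)` (`S_0 = 1`: `Mon p 0 = {1}`).  So
  `S_d S_(2g) G = p^d G S_(2g-d)`, cancel `G` and cast back to `ℤ`.
  (`S_d` is defined with `chi (Dp h0)`, equal to `chx h0` on monic polynomials: `chx_eq_chi`.)
-/

set_option autoImplicit false

namespace LIF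

open Polynomial

variable {p : ℕ} [Fact p.Prime] {g : ℕ} {h0 : (ZMod p)[X]}

/-- the Gauss sum of the quadratic character, as a sum over the units -/
noncomputable def Gauss2_G (p : ℕ) [Fact p.Prime] : ℂ :=
  ∑ c : (ZMod p)ˣ, ((quadraticChar (ZMod p) (c : ZMod p) : ℤ) : ℂ) *
    ZMod.stdAddChar (c : ZMod p)

theorem Gauss2_G_ne (hp : p ≠ 2) : Gauss2_G p ≠ 0 := by
  have hch : ringChar (ZMod p) ≠ 2 := by
    rw [ZMod.ringChar_zmod_n]
    exact hp
  let χ : MulChar (ZMod p) ℂ := (quadraticChar (ZMod p)).ringHomComp (Int.castRingHom ℂ)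
  have hχ : χ ≠ 1 := by
    intro h
    obtain ⟨c, hc⟩ := quadraticChar_exists_neg_one hch
    have hc0 : c ≠ 0 := by
      rintro rfl
      rw [quadraticChar_zero] at hc
      norm_num at hc
    have h1 : χ c = 1 := by
      rw [h]
      exact MulChar.one_apply (isUnit_iff_ne_zero.2 hc0)
    have h2 : χ c = ((quadraticChar (ZMod p) c : ℤ) : ℂ) := rfl
    rw [h2, hc] at h1
    norm_num at h1
  have hG : Gauss2_G p = gaussSum χ (ZMod.stdAddChar (N := p)) := by
    unfold Gauss2_G gaussSum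
    refine Fintype.sum_of_injective (fun u : (ZMod p)ˣ => (u : ZMod p)) Units.val_injective _ _
      ?_ ?_
    · intro a ha
      have ha0 : a = 0 := by
        by_contra h
        exact ha ⟨Units.mk0 a h, rfl⟩
      rw [ha0, MulChar.map_zero, zero_mul]
    · intro u
      rfl
  rw [hG]
  refine gaussSum_ne_zero_of_nontrivial ?_ hχ (ZMod.isPrimitive_stdAddChar p)
  rw [ZMod.card]
  exact_mod_cast (Fact.out : p.Prime).ne_zero

/-- the leading residue of a polynomial of degree less than `2 g + 1` -/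
theorem Gauss2_mod (hg : Good p g h0) {h : (ZMod p)[X]} (hh : h.degree < ((2 * g + 1 : ℕ) : WithBot ℕ)) :
    h %ₘ fp h0 = h := by
  rw [modByMonic_eq_self_iff (fp_monic hg), degree_eq_natDegree (fp_monic hg).ne_zero,
    fp_natDegree hg]
  exact hh

/-- the inner sum, trivial case -/
theorem Gauss2_in (hg : Good p g h0) {d : ℕ} (hd : d ≤ 2 * g) {r y : (ZMod p)[X]}
    (hr : r ∈ Low p d) (hy : y ∈ Low p (2 * g + 1 - d)) :
    ((r * y) %ₘ fp h0).coeff (2 * g) = 0 := by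
  rw [mem_Low] at hr hy
  have h1 : (r * y).degree < ((2 * g : ℕ) : WithBot ℕ) := by
    by_cases hr0 : r = 0
    · rw [hr0, zero_mul, degree_zero]
      exact WithBot.bot_lt_coe _
    by_cases hy0 : y = 0
    · rw [hy0, mul_zero, degree_zero]
      exact WithBot.bot_lt_coe _
    rw [degree_mul, degree_eq_natDegree hr0, degree_eq_natDegree hy0]
    rw [degree_eq_natDegree hr0] at hr
    rw [degree_eq_natDegree hy0] at hy
    have hr' : r.natDegree < d := by exact_mod_cast hr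
    have hy' : y.natDegree < 2 * g + 1 - d := by exact_mod_cast hy
    have : r.natDegree + y.natDegree < 2 * g := by omega
    exact_mod_cast this
  rw [Gauss2_mod hg (h1.trans (by exact_mod_cast Nat.lt_succ_self _))]
  exact coeff_eq_zero_of_degree_lt h1

/-- the inner sum, other case -/
theorem Gauss2_out (hg : Good p g h0) {d : ℕ} (hd : d ≤ 2 * g) {y : (ZMod p)[X]}
    (hy : y ∈ Low p (2 * g + 1)) (hy2 : y ∉ Low p (2 * g + 1 - d)) :
    ∑ r ∈ Low p d, (ZMod.stdAddChar (((r * y) %ₘ fp h0).coeff (2 * g)) : ℂ) = 0 := by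
  rw [mem_Low] at hy hy2
  have hy0 : y ≠ 0 := by
    rintro rfl
    rw [degree_zero] at hy2
    exact hy2 (WithBot.bot_lt_coe _)
  rw [degree_eq_natDegree hy0] at hy hy2
  have h1 : y.natDegree < 2 * g + 1 := by exact_mod_cast hy
  have h2 : 2 * g + 1 - d ≤ y.natDegree := by
    by_contra h
    exact hy2 (by exact_mod_cast (by omega : y.natDegree < 2 * g + 1 - d))
  have hl : y.leadingCoeff ≠ 0 := leadingCoeff_ne_zero.2 hy0
  have hr0 : (C (y.leadingCoeff)⁻¹ * X ^ (2 * g - y.natDegree) : (ZMod p)[X]).degree < d := by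
    rw [degree_C_mul_X_pow _ (inv_ne_zero hl)]
    exact_mod_cast (by omega : 2 * g - y.natDegree < d)
  have hT : ((C (y.leadingCoeff)⁻¹ * X ^ (2 * g - y.natDegree) * y) %ₘ fp h0).coeff (2 * g) =
      1 := by
    rw [Gauss2_mod hg]
    · rw [mul_assoc, coeff_C_mul, mul_comm (X ^ _) y,
        show 2 * g = y.natDegree + (2 * g - y.natDegree) by omega, Nat.add_sub_cancel_left,
        coeff_mul_X_pow]
      exact inv_mul_cancel₀ hl
    · rw [degree_mul, degree_C_mul_X_pow _ (inv_ne_zero hl), degree_eq_natDegree hy0]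
      exact_mod_cast (by omega : 2 * g - y.natDegree + y.natDegree < 2 * g + 1)
  have hne : (ZMod.stdAddChar (1 : ZMod p) : ℂ) ≠ 1 := by
    intro h
    have h3 : (ZMod.stdAddChar (1 : ZMod p) : ℂ) = ZMod.stdAddChar (0 : ZMod p) := by
      rw [h, AddChar.map_zero_eq_one]
    exact one_ne_zero (ZMod.injective_stdAddChar h3)
  have h4 := Van_trans (fun r => (ZMod.stdAddChar (((r * y) %ₘ fp h0).coeff (2 * g)) : ℂ)) hr0
  have h5 : ∀ r ∈ Low p d, (ZMod.stdAddChar ((((r + C (y.leadingCoeff)⁻¹ *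
      X ^ (2 * g - y.natDegree)) * y) %ₘ fp h0).coeff (2 * g)) : ℂ) =
      ZMod.stdAddChar (((r * y) %ₘ fp h0).coeff (2 * g)) * ZMod.stdAddChar (1 : ZMod p) := by
    intro r _
    rw [add_mul, add_modByMonic, coeff_add, AddChar.map_add_eq_mul, hT]
  rw [Finset.sum_congr rfl h5, ← Finset.sum_mul] at h4
  have h6 : (∑ r ∈ Low p d, (ZMod.stdAddChar (((r * y) %ₘ fp h0).coeff (2 * g)) : ℂ)) *
      ((ZMod.stdAddChar (1 : ZMod p) : ℂ) - 1) = 0 := by
    rw [mul_sub, mul_one, h4, sub_self]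
  exact (mul_eq_zero.1 h6).resolve_right (sub_ne_zero.2 hne)

theorem Gauss2_shift (hg : Good p g h0) {d : ℕ} (hd : d ≤ 2 * g) {y : (ZMod p)[X]}
    (hy : y ∈ Low p (2 * g + 1 - d)) :
    ((X ^ d * y) %ₘ fp h0).coeff (2 * g) = y.coeff (2 * g - d) := by
  rw [mem_Low] at hy
  rw [Gauss2_mod hg]
  · rw [mul_comm, show 2 * g = (2 * g - d) + d by omega, coeff_mul_X_pow,
      Nat.add_sub_cancel]
  · by_cases hy0 : y = 0
    · rw [hy0, mul_zero, degree_zero]
      exact WithBot.bot_lt_coe _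
    rw [degree_eq_natDegree hy0] at hy
    have h1 : y.natDegree < 2 * g + 1 - d := by exact_mod_cast hy
    rw [degree_mul, degree_X_pow, degree_eq_natDegree hy0]
    exact_mod_cast (by omega : d + y.natDegree < 2 * g + 1)

/-- the main identity -/
theorem Gauss2_main (hg : Good p g h0) {d : ℕ} (hd : d ≤ 2 * g) :
    (Sd (Dp h0) d : ℂ) * Gam g h0 1 =
      (p : ℂ) ^ d * (Gauss2_G p * (Sd (Dp h0) (2 * g - d) : ℂ)) := by
  have e1 : (Sd (Dp h0) d : ℂ) * Gam g h0 1 = ∑ h ∈ Mon p d, Gam g h0 h := by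
    unfold Sd
    rw [Int.cast_sum, Finset.sum_mul]
    apply Finset.sum_congr rfl
    intro h hh
    rw [Gam_eq hg h, chx_eq_chi hg (mem_Mon.1 hh).1]
  have e2 : ∑ h ∈ Mon p d, Gam g h0 h = ∑ y ∈ Low p (2 * g + 1), (chx h0 y : ℂ) *
      (ZMod.stdAddChar (((X ^ d * y) %ₘ fp h0).coeff (2 * g)) *
        ∑ r ∈ Low p d, (ZMod.stdAddChar (((r * y) %ₘ fp h0).coeff (2 * g)) : ℂ)) := by
    rw [sum_Mon_eq]
    unfold Gam
    rw [Finset.sum_comm]
    apply Finset.sum_congr rfl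
    intro y _
    rw [Finset.mul_sum, Finset.mul_sum]
    apply Finset.sum_congr rfl
    intro r _
    rw [add_mul, add_modByMonic, coeff_add, AddChar.map_add_eq_mul]
  have e3 : ∑ y ∈ Low p (2 * g + 1), (chx h0 y : ℂ) *
      (ZMod.stdAddChar (((X ^ d * y) %ₘ fp h0).coeff (2 * g)) *
        ∑ r ∈ Low p d, (ZMod.stdAddChar (((r * y) %ₘ fp h0).coeff (2 * g)) : ℂ)) =
      ∑ y ∈ Low p (2 * g + 1 - d), (chx h0 y : ℂ) *
        (ZMod.stdAddChar (y.coeff (2 * g - d)) * (p : ℂ) ^ d) := by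
    have hsub : Low p (2 * g + 1 - d) ⊆ Low p (2 * g + 1) := by
      intro y hy
      rw [mem_Low] at hy ⊢
      exact hy.trans_le (by exact_mod_cast Nat.sub_le _ _)
    rw [← Finset.sum_subset hsub]
    · apply Finset.sum_congr rfl
      intro y hy
      rw [Gauss2_shift hg hd hy]
      congr 2
      rw [Finset.sum_congr rfl (fun r hr => by rw [Gauss2_in hg hd hr hy, AddChar.map_zero_eq_one]),
        Finset.sum_const, card_Low, nsmul_eq_mul, mul_one, Nat.cast_pow]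
    · intro y hy hy2
      rw [Gauss2_out hg hd hy hy2, mul_zero, mul_zero]
  have e4 : ∑ y ∈ Low p (2 * g + 1 - d), (chx h0 y : ℂ) *
        (ZMod.stdAddChar (y.coeff (2 * g - d)) * (p : ℂ) ^ d) =
      (p : ℂ) ^ d * (Gauss2_G p * (Sd (Dp h0) (2 * g - d) : ℂ)) := by
    rw [show 2 * g + 1 - d = (2 * g - d) + 1 by omega, sum_Low_succ]
    have e5 : ∑ r ∈ Low p (2 * g - d), (chx h0 r : ℂ) *
        ((ZMod.stdAddChar (r.coeff (2 * g - d)) : ℂ) * (p : ℂ) ^ d) = 0 := by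
      have e6 : ∀ r ∈ Low p (2 * g - d), (chx h0 r : ℂ) *
          ((ZMod.stdAddChar (r.coeff (2 * g - d)) : ℂ) * (p : ℂ) ^ d) =
          (chx h0 r : ℂ) * (p : ℂ) ^ d := by
        intro r hr
        rw [mem_Low] at hr
        rw [coeff_eq_zero_of_degree_lt hr, AddChar.map_zero_eq_one, one_mul]
      rw [Finset.sum_congr rfl e6, ← Finset.sum_mul, ← Int.cast_sum, sum_Low_chx hg,
        Int.cast_zero, zero_mul]
    rw [e5, zero_add]
    unfold Gauss2_G Sd
    rw [Finset.sum_mul, Finset.mul_sum]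
    apply Finset.sum_congr rfl
    intro c _
    rw [Int.cast_sum, Finset.mul_sum, Finset.mul_sum]
    apply Finset.sum_congr rfl
    intro h hh
    rw [mem_Mon] at hh
    rw [chx_C_mul hg c.ne_zero, chx_eq_chi hg hh.1, Int.cast_mul, coeff_C_mul]
    have h7 : h.coeff (2 * g - d) = 1 := by
      rw [← hh.2]
      exact hh.1.coeff_natDegree
    rw [h7, mul_one]
    ring
  rw [e1, e2, e3, e4]

theorem Gauss2_S0 (D : (ZMod p)[X]) : Sd D 0 = 1 := by
  have h1 : Mon p 0 = {1} := by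
    ext h
    rw [mem_Mon, Finset.mem_singleton]
    constructor
    · rintro ⟨h1, h2⟩
      exact h1.natDegree_eq_zero.1 h2
    · rintro rfl
      exact ⟨monic_one, natDegree_one⟩
  unfold Sd
  rw [h1, Finset.sum_singleton, chi_one]

theorem Sd_fe (hg : Good p g h0) {d : ℕ} (hd : d ≤ 2 * g) :
    Sd (Dp h0) (2 * g) * Sd (Dp h0) d = (p : ℤ) ^ d * Sd (Dp h0) (2 * g - d) := by
  have h1 := Gauss2_main hg hd
  have h2 := Gauss2_main hg (Nat.zero_le (2 * g))
  rw [Gauss2_S0, Int.cast_one, one_mul, pow_zero, one_mul, Nat.sub_zero] at h2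
  rw [h2] at h1
  have h3 : Gauss2_G p * ((Sd (Dp h0) (2 * g) : ℂ) * (Sd (Dp h0) d : ℂ)) =
      Gauss2_G p * ((p : ℂ) ^ d * (Sd (Dp h0) (2 * g - d) : ℂ)) := by
    linear_combination h1
  have h4 := mul_left_cancel₀ (Gauss2_G_ne hg.p2) h3
  exact_mod_cast h4

end LIF
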