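import Pool.Agent.helper1.LI.Defs

/-!
[LI-Base] Extension of the base field: `LICurve p g D → LICurveOver p a g D` for `a ≥ 1`
(imports only `Defs`).  Proofs by helper93.

Proof.  Let `θ` be the angles for `p`.  For each `i` let `φ_i ∈ [0, π]` be the number with
`cos φ_i = cos (a θ_i)` and `φ_i ≡ ± a θ_i (mod 2π)`: `φ_i = arccos (cos (a θ_i))`; there are
`ε_i = ±1` and `k_i ∈ ℤ` with `φ_i = ε_i a θ_i + 2 π k_i`.  Linear independence of `(π, θ)` gives
that of `(π, φ)` (invertible triangular rational change: `∑ c_i φ_i + c π = 0` means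
`∑ c_i ε_i a θ_i + (c + 2 ∑ c_i k_i) π = 0`, so `c_i ε_i a = 0`, `c_i = 0`, then `c = 0`).
In particular `φ_i ∉ {0, π}` and the `φ_i` are distinct.  Sort them: there is a permutation `τ`
of `Fin g` with `φ ∘ τ` strictly monotone (`Tuple.sort`, or `Finset.orderIsoOfFin`).
`cos (m φ_i) = cos (m a θ_i)` for all `m` (`m φ_i = ± m a θ_i + 2 π m k_i`).
Counting with `a m` in place of `m`:
`N = p^(a m) - ∑ 2 (√p)^(a m) cos (a m θ_i)`, `(√p)^(a m) = (√(p^a))^m`.
Finally linear independence is invariant under the permutation `τ`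
(`Fin.cons π (φ ∘ τ) = (Fin.cons π φ) ∘ (permutation of Fin (g+1))`).
-/

set_option autoImplicit false

namespace LIF

open Polynomial

/-- a rational triangular change keeps the linear independence -/
theorem Base_li {g : ℕ} {θ φ : Fin g → ℝ} {a : ℕ} (ha : 1 ≤ a)
    (hli : LinearIndependent ℚ (Fin.cons Real.pi θ : Fin (g + 1) → ℝ))
    (hφ : ∀ i, ∃ k : ℤ, φ i = 2 * k * Real.pi + a * θ i ∨ φ i = 2 * k * Real.pi - a * θ i) :
    LinearIndependent ℚ (Fin.cons Real.pi φ : Fin (g + 1) → ℝ) := by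
  have h1 : ∀ i, ∃ (k : ℤ) (e : ℚ), e ≠ 0 ∧ φ i = 2 * k * Real.pi + e * θ i := by
    intro i
    have ha' : (a : ℚ) ≠ 0 := by
      have : a ≠ 0 := by omega
      exact_mod_cast this
    obtain ⟨k, hk | hk⟩ := hφ i
    · exact ⟨k, a, ha', by rw [hk]; push_cast; ring⟩
    · exact ⟨k, -a, neg_ne_zero.2 ha', by rw [hk]; push_cast; ring⟩
  choose k e he hke using h1
  rw [Fintype.linearIndependent_iff] at hli ⊢
  intro c hc
  have h2 := hli (Fin.cons (c 0 + ∑ i, 2 * (k i : ℚ) * c i.succ) (fun i => c i.succ * e i)) (by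
    rw [Fin.sum_univ_succ] at hc ⊢
    simp only [Fin.cons_zero, Fin.cons_succ] at hc ⊢
    rw [← hc]
    simp only [Rat.smul_def]
    push_cast
    rw [add_mul, Finset.sum_mul, add_assoc, ← Finset.sum_add_distrib]
    congr 1
    apply Finset.sum_congr rfl
    intro i _
    rw [hke i]
    ring)
  have h3 : ∀ i : Fin g, c i.succ = 0 := by
    intro i
    have h4 := h2 i.succ
    simp only [Fin.cons_succ] at h4
    rcases mul_eq_zero.1 h4 with h5 | h5
    · exact h5
    · exact absurd h5 (he i)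
  intro i
  refine Fin.cases ?_ h3 i
  have h4 := h2 0
  simp only [Fin.cons_zero] at h4
  have h5 : ∑ i, 2 * (k i : ℚ) * c i.succ = 0 :=
    Finset.sum_eq_zero fun i _ => by rw [h3 i, mul_zero]
  rw [h5, add_zero] at h4
  exact h4

theorem licurve_over {p g : ℕ} [Fact p.Prime] {D : (ZMod p)[X]} (h : LICurve p g D) {a : ℕ}
    (ha : 1 ≤ a) : LICurveOver p a g D := by
  obtain ⟨θ, -, -, hcard, hli⟩ := h
  have hcos : ∀ i, Real.cos (a * θ i) = Real.cos (Real.arccos (Real.cos (a * θ i))) := fun i =>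
    (Real.cos_arccos (Real.neg_one_le_cos _) (Real.cos_le_one _)).symm
  obtain ⟨φ, hφd⟩ : ∃ φ : Fin g → ℝ, ∀ i, φ i = Real.arccos (Real.cos (a * θ i)) := ⟨_, fun _ => rfl⟩
  have hφ : ∀ i, ∃ k : ℤ, φ i = 2 * k * Real.pi + a * θ i ∨ φ i = 2 * k * Real.pi - a * θ i := by
    intro i
    rw [hφd i]
    exact Real.cos_eq_cos_iff.1 (hcos i)
  have hli' := Base_li ha hli hφ
  have hinj : Function.Injective φ := by
    intro i j hij
    have h1 : (Fin.cons Real.pi φ : Fin (g + 1) → ℝ) i.succ =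
        (Fin.cons Real.pi φ : Fin (g + 1) → ℝ) j.succ := by
      simpa using hij
    exact Fin.succ_injective _ (hli'.injective h1)
  have hpos : ∀ i, 0 < φ i := by
    intro i
    have h1 : 0 ≤ φ i := by
      rw [hφd i]
      exact Real.arccos_nonneg _
    have h2 : φ i ≠ 0 := by
      have := hli'.ne_zero i.succ
      simpa using this
    exact lt_of_le_of_ne h1 h2.symm
  have hlt : ∀ i, φ i < Real.pi := by
    intro i
    have h1 : φ i ≤ Real.pi := by
      rw [hφd i]
      exact Real.arccos_le_pi _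
    refine lt_of_le_of_ne h1 ?_
    intro hc
    have h2 : (Fin.cons Real.pi φ : Fin (g + 1) → ℝ) i.succ =
        (Fin.cons Real.pi φ : Fin (g + 1) → ℝ) 0 := by
      simpa using hc
    exact (Fin.succ_ne_zero i) (hli'.injective h2)
  have hmcos : ∀ (m : ℕ) (i : Fin g), Real.cos (m * φ i) = Real.cos ((a * m : ℕ) * θ i) := by
    intro m i
    symm
    rw [Real.cos_eq_cos_iff]
    obtain ⟨k, hk | hk⟩ := hφ i
    · refine ⟨m * k, Or.inl ?_⟩
      rw [hk]
      push_cast
      ring
    · refine ⟨m * k, Or.inr ?_⟩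
      rw [hk]
      push_cast
      ring
  refine ⟨φ ∘ Tuple.sort φ, ?_, ?_, ?_, ?_⟩
  · exact (Tuple.monotone_sort φ).strictMono_of_injective
      (hinj.comp (Tuple.sort φ).injective)
  · intro i
    exact ⟨hpos _, hlt _⟩
  · intro m hm
    have h1 := hcard (a * m) (Nat.mul_pos ha hm)
    rw [h1]
    congr 1
    have h2 : ∑ i, 2 * (Real.sqrt ((p : ℝ) ^ a)) ^ m *
        Real.cos (m * (φ ∘ Tuple.sort φ) i) =
        ∑ i, 2 * (Real.sqrt ((p : ℝ) ^ a)) ^ m * Real.cos (m * φ i) :=
      Equiv.sum_comp (Tuple.sort φ)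
        (fun i => 2 * (Real.sqrt ((p : ℝ) ^ a)) ^ m * Real.cos (m * φ i))
    rw [h2]
    apply Finset.sum_congr rfl
    intro i _
    rw [hmcos m i]
    have h3 : Real.sqrt ((p : ℝ) ^ a) = (Real.sqrt p) ^ a := by
      rw [Real.sqrt_eq_iff_mul_self_eq (by positivity) (by positivity), ← mul_pow,
        Real.mul_self_sqrt (by positivity)]
    rw [h3, ← pow_mul]
  · have h1 : (Fin.cons Real.pi (φ ∘ Tuple.sort φ) : Fin (g + 1) → ℝ) =
        (Fin.cons Real.pi φ : Fin (g + 1) → ℝ) ∘
          (Fin.cons 0 (fun i => (Tuple.sort φ i).succ) : Fin (g + 1) → Fin (g + 1)) := by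
      funext i
      refine Fin.cases ?_ (fun j => ?_) i
      · simp
      · simp
    rw [h1]
    refine hli'.comp _ ?_
    intro i j
    refine Fin.cases ?_ (fun i' => ?_) i
    · refine Fin.cases ?_ (fun j' => ?_) j
      · intro _
        rfl
      · intro hc
        simp only [Fin.cons_zero, Fin.cons_succ] at hc
        exact absurd hc.symm (Fin.succ_ne_zero _)
    · refine Fin.cases ?_ (fun j' => ?_) j
      · intro hc
        simp only [Fin.cons_zero, Fin.cons_succ] at hc
        exact absurd hc (Fin.succ_ne_zero _)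
      · intro hc
        simp only [Fin.cons_succ] at hc
        rw [(Tuple.sort φ).injective (Fin.succ_injective _ hc)]

end LIF
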