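import Pool.Agent.helper1.LI.Defs

/-!
Proved by helper59.

[LI-XIrr] `X^(2 g) - X^g - 1`, `g = 2^k`, is irreducible over `F_3` (imports only `Defs`).

Proof.  Monic of degree `2 g`.  Let `γ` be a root in `K = AlgebraicClosure (ZMod 3)`,
`β = γ^g`, `β^2 = β + 1`, so `β^4 = (β+1)^2 = β^2 + 2β + 1 = 3β + 2 = -1`.  So `γ^(4g) = -1 ≠ 1`
and `γ^(8g) = 1`: the order of `γ` divides `2^(k+3)` and does not divide `2^(k+2)`, so it is
`2^(k+3)` (`orderOf_eq_prime_pow`).  Let `d` be the degree of the minimal polynomial of `γ`; then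
`γ^(3^d) = γ` (the field `F_3(γ)` has `3^d` elements), so `2^(k+3) ∣ 3^d - 1`.  If `d` is odd then
`3^d - 1 ≡ 2 (mod 4)` (actually mod 8 it is `2`), impossible (`k+3 ≥ 2`).  If `d` is even,
`v_2(3^d - 1) = v_2(d) + 2` (lifting the exponent, `padicValNat.pow_sub_pow`/
`Int.two_pow_sub_pow`: `v_2(3^d-1) + 1 = v_2(4) + v_2(2) + v_2(d)`), so `v_2(d) ≥ k + 1`,
`d ≥ 2^(k+1) = 2 g`.  (Or by induction on `k`: `3^(2^j u) - 1`, `u` odd.)  So the minimal polynomial
has degree `≥ 2g` and divides `X^(2g) - X^g - 1`: they are equal, `minpoly.irreducible`.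

`good3`: `h0(1) = 1 - 1 - 1 = -1` and `quadraticChar (ZMod 3) (-1) = -1` by `decide`.
-/

set_option autoImplicit false

namespace LIF

open Polynomial

theorem XIrr_mod8_even (e : ℕ) : 3 ^ (2 * e) % 8 = 1 := by
  rw [pow_mul, Nat.pow_mod]
  norm_num

theorem XIrr_mod8_odd (e : ℕ) : 3 ^ (2 * e + 1) % 8 = 3 := by
  rw [pow_succ, Nat.mul_mod, XIrr_mod8_even]

theorem XIrr_val (k : ℕ) : ∀ d : ℕ, 2 ^ (k + 3) ∣ 3 ^ d - 1 → 2 ^ (k + 1) ∣ d := by
  induction k with
  | zero =>
    intro d h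
    rcases Nat.even_or_odd' d with ⟨e, he | he⟩
    · exact ⟨e, by rw [he]; ring⟩
    · exfalso
      have h1 := XIrr_mod8_odd e
      rw [← he] at h1
      norm_num at h
      have h2 := Nat.one_le_pow d 3 (by norm_num)
      omega
  | succ k ih =>
    intro d h
    have h8 : 8 ∣ 3 ^ d - 1 := (Dvd.intro (2 ^ (k + 1)) (by ring)).trans h
    have h1d := Nat.one_le_pow d 3 (by norm_num)
    rcases Nat.even_or_odd' d with ⟨e, he | he⟩
    · have h3e := Nat.one_le_pow e 3 (by norm_num)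
      have hfac : 3 ^ d - 1 = (3 ^ e - 1) * (3 ^ e + 1) := by
        obtain ⟨t, ht⟩ : ∃ t, 3 ^ e = t + 1 := ⟨3 ^ e - 1, by omega⟩
        rw [he, two_mul, pow_add, ht]
        have : (t + 1) * (t + 1) = (t + 1 - 1) * (t + 1 + 1) + 1 := by
          rw [Nat.add_sub_cancel]
          ring
        omega
      rw [hfac] at h
      rcases Nat.even_or_odd' e with ⟨u, hu | hu⟩
      · have h1 := XIrr_mod8_even u
        rw [← hu] at h1
        obtain ⟨t, ht⟩ : ∃ t, 3 ^ e = 8 * t + 1 := ⟨3 ^ e / 8, by omega⟩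
        have h2 : 2 ^ (k + 3) ∣ 3 ^ e - 1 := by
          rw [ht, Nat.add_sub_cancel] at h ⊢
          have h3 : 8 * t * (8 * t + 1 + 1) = (8 * t) * (4 * t + 1) * 2 := by ring
          rw [h3, show k + 1 + 3 = (k + 3) + 1 by ring, pow_succ] at h
          have h4 := Nat.dvd_of_mul_dvd_mul_right (by norm_num) h
          have hco : Nat.Coprime (2 ^ (k + 3)) (4 * t + 1) := by
            apply Nat.Coprime.pow_left
            rw [Nat.coprime_two_left]
            exact ⟨2 * t, by ring⟩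
          exact hco.dvd_of_dvd_mul_right h4
        have h3 := ih e h2
        rw [he, pow_succ, mul_comm]
        exact mul_dvd_mul_left 2 h3
      · exfalso
        have h1 := XIrr_mod8_odd u
        rw [← hu] at h1
        obtain ⟨t, ht⟩ : ∃ t, 3 ^ e = 8 * t + 3 := ⟨3 ^ e / 8, by omega⟩
        rw [ht] at h
        have h16 : 16 ∣ (8 * t + 3 - 1) * (8 * t + 3 + 1) :=
          (Dvd.intro (2 ^ k) (by ring)).trans h
        have h3 : (8 * t + 3 - 1) * (8 * t + 3 + 1) = 16 * (4 * t * t + 3 * t) + 8 := by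
          rw [show 8 * t + 3 - 1 = 8 * t + 2 by omega]
          ring
        rw [h3] at h16
        omega
    · exfalso
      have h1 := XIrr_mod8_odd e
      rw [← he] at h1
      omega

theorem good3 (k : ℕ) : Good 3 (2 ^ k) (X ^ (2 * 2 ^ k) - X ^ (2 ^ k) - 1 : (ZMod 3)[X]) := by
  have hg1 : 1 ≤ 2 ^ k := Nat.one_le_two_pow
  have hrw : (X ^ (2 * 2 ^ k) - X ^ (2 ^ k) - 1 : (ZMod 3)[X]) =
      X ^ (2 * 2 ^ k) + (-(X ^ (2 ^ k)) - 1) := by ring
  have hdegr : (-(X ^ (2 ^ k)) - 1 : (ZMod 3)[X]).degree < ((2 * 2 ^ k : ℕ) : WithBot ℕ) := by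
    refine lt_of_le_of_lt (degree_sub_le _ _) (max_lt ?_ ?_)
    · rw [degree_neg, degree_X_pow]
      exact_mod_cast (by omega : 2 ^ k < 2 * 2 ^ k)
    · rw [degree_one]
      exact_mod_cast (by omega : 0 < 2 * 2 ^ k)
  have hmon : (X ^ (2 * 2 ^ k) - X ^ (2 ^ k) - 1 : (ZMod 3)[X]).Monic := by
    rw [hrw]
    exact monic_X_pow_add hdegr
  have hdeg : (X ^ (2 * 2 ^ k) - X ^ (2 ^ k) - 1 : (ZMod 3)[X]).natDegree = 2 * 2 ^ k := by
    rw [hrw]
    refine natDegree_eq_of_degree_eq_some ?_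
    rw [degree_add_eq_left_of_degree_lt, degree_X_pow]
    rw [degree_X_pow]
    exact hdegr
  have hdeg0 : (X ^ (2 * 2 ^ k) - X ^ (2 ^ k) - 1 : (ZMod 3)[X]).degree ≠ 0 := by
    rw [degree_eq_natDegree hmon.ne_zero, hdeg]
    exact_mod_cast (by omega : 2 * 2 ^ k ≠ 0)
  refine ⟨by norm_num, hg1, hmon, ?_, hdeg, ?_⟩
  · obtain ⟨γ, hγ⟩ := IsAlgClosed.exists_aeval_eq_zero (AlgebraicClosure (ZMod 3)) _ hdeg0
    have hint : IsIntegral (ZMod 3) γ := ⟨_, hmon, hγ⟩
    have hβ : (γ ^ 2 ^ k) ^ 2 = γ ^ 2 ^ k + 1 := by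
      simp only [map_sub, map_pow, aeval_X, map_one] at hγ
      rw [← pow_mul, mul_comm]
      linear_combination hγ
    have h3 : (3 : AlgebraicClosure (ZMod 3)) = 0 := by
      have := CharP.cast_eq_zero (AlgebraicClosure (ZMod 3)) 3
      exact_mod_cast this
    have h4 : (γ ^ 2 ^ k) ^ 4 = -1 := by
      linear_combination ((γ ^ 2 ^ k) ^ 2 + γ ^ 2 ^ k + 2) * hβ + (γ ^ 2 ^ k + 1) * h3
    have h5 : γ ^ 2 ^ (k + 2) = -1 := by
      rw [show 2 ^ (k + 2) = 2 ^ k * 4 by ring, pow_mul]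
      exact h4
    have hne : (-1 : AlgebraicClosure (ZMod 3)) ≠ 1 := by
      intro h6
      have h7 : (1 : AlgebraicClosure (ZMod 3)) = 0 := by linear_combination h3 + h6
      exact one_ne_zero h7
    have hord : orderOf γ = 2 ^ (k + 3) := by
      apply orderOf_eq_prime_pow
      · rw [h5]
        exact hne
      · rw [show 2 ^ (k + 2 + 1) = 2 ^ (k + 2) * 2 by ring, pow_mul, h5]
        norm_num
    have hγ0 : γ ≠ 0 := by
      rintro rfl
      rw [zero_pow (by positivity)] at h5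
      exact neg_ne_zero.2 one_ne_zero h5.symm
    obtain ⟨d, hd⟩ : ∃ d, d = (minpoly (ZMod 3) γ).natDegree := ⟨_, rfl⟩
    have hfd : FiniteDimensional (ZMod 3) (IntermediateField.adjoin (ZMod 3) {γ}) :=
      IntermediateField.adjoin.finiteDimensional hint
    have hfin : Finite (IntermediateField.adjoin (ZMod 3) {γ}) := Module.finite_of_finite (ZMod 3)
    have hft : Fintype (IntermediateField.adjoin (ZMod 3) {γ}) := Fintype.ofFinite _
    have hcard : Fintype.card (IntermediateField.adjoin (ZMod 3) {γ}) = 3 ^ d := by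
      rw [Module.card_eq_pow_finrank (K := ZMod 3), ZMod.card,
        IntermediateField.adjoin.finrank hint, ← hd]
    have hfrob : γ ^ 3 ^ d = γ := by
      have h6 := FiniteField.pow_card (IntermediateField.AdjoinSimple.gen (ZMod 3) γ)
      rw [hcard] at h6
      have h7 := congrArg (algebraMap (IntermediateField.adjoin (ZMod 3) {γ})
        (AlgebraicClosure (ZMod 3))) h6
      rw [map_pow, IntermediateField.AdjoinSimple.algebraMap_gen] at h7
      exact h7
    have hone : γ ^ (3 ^ d - 1) = 1 := by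
      have h1d := Nat.one_le_pow d 3 (by norm_num)
      have h6 : γ ^ (3 ^ d - 1) * γ = 1 * γ := by
        rw [← pow_succ, Nat.sub_add_cancel h1d, one_mul]
        exact hfrob
      exact mul_right_cancel₀ hγ0 h6
    have hdvd := orderOf_dvd_of_pow_eq_one hone
    rw [hord] at hdvd
    have hle : 2 ^ (k + 1) ≤ d := by
      refine Nat.le_of_dvd ?_ (XIrr_val k d hdvd)
      rw [hd]
      exact minpoly.natDegree_pos hint
    have heq : minpoly (ZMod 3) γ = X ^ (2 * 2 ^ k) - X ^ (2 ^ k) - 1 := by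
      refine (eq_of_monic_of_dvd_of_natDegree_le (minpoly.monic hint) hmon
        (minpoly.dvd _ _ hγ) ?_).symm
      rw [hdeg, ← hd]
      calc 2 * 2 ^ k = 2 ^ (k + 1) := by ring
        _ ≤ d := hle
    rw [← heq]
    exact minpoly.irreducible hint
  · have h6 : (X ^ (2 * 2 ^ k) - X ^ (2 ^ k) - 1 : (ZMod 3)[X]).eval 1 = -1 := by
      simp
    rw [h6]
    decide

end LIF
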