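import Pool.Agent.helper1.LI.Defs

/-!
[LI-XKer] Kernel and cokernel of the Hasse-Witt matrix of `y² = (1 - x)(x^(2g) - x^g - 1)` over
`F_3` for `g = 3 n + 2` (imports only `Defs`).

`p = 3`, `(p-1)/2 = 1`, so `A i j = D.coeff (3 (i+1) - (j+1))` (0 if `j + 1 > 3 (i+1)`), with
`D = (1-X)(X^(2g) - X^g - 1) = - X^(2g+1) + X^(2g) + X^(g+1) - X^g + X - 1`:
`D_0 = -1, D_1 = 1, D_g = -1, D_(g+1) = 1, D_(2g) = 1, D_(2g+1) = -1`, all others `0`
(`g ≥ 2`, these six exponents are distinct).  With `g ≡ 2 (mod 3)`: `g ≡ 2g+1 ≡ 2`,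
`1 ≡ 2 g ≡ 1`, `0 ≡ g + 1 ≡ 0 (mod 3)`.

For a vector `v` put `w = (1 - X) v(X) = ∑ w_e X^e`, `v(X) = ∑_{j<g} v_j X^j`,
`w_e = v_e - v_(e-1)` (`v_(-1) = v_g = 0`), `0 ≤ e ≤ g`.  `(A v)_i` is the coefficient of
`X^(3i+2)` in `D(X) v(X) = w (X^(2g) - X^g - 1)`.
The exponents `≡ 2 (mod 3)`: from `- w`: `- w_e`, `e ≡ 2`, `2 ≤ e ≤ g`; from `- X^g w`:
`- w_e` at `g + e`, `e ≡ 0`, `0 ≤ e ≤ g`; from `X^(2g) w`: `w_e` at `2g + e`, `e ≡ 1`.
The exponents are distinct except `g = g + 0`: coefficient `- w_g - w_0`.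
* `ker3_mul`: for `v = 1` (all ones): `w_0 = 1`, `w_g = -1`, all others `0`: `A v = 0`.
* `ker3_eq`: if `A v = 0` then `w_e = 0` for `e ≡ 1`, for `e ≡ 0, e ≠ 0`, for `e ≡ 2, e ≠ g`, so
  `w_e = 0` for `0 < e < g`, i.e. `v` is constant.
* `ker3_left`: with `wt_i = 1` for `i < 2n + 1` and `-1` otherwise (`i < g = 3n + 2`):
  `∑_i wt_i A i j = 0` for each `j`.  Write `a = i + 1`, `b = j + 1 ∈ [1, g]`; column `b` has
  nonzero entries where `3a - b ∈ {0, 1, g, g+1, 2g, 2g+1}`: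
  - `b ≡ 0`: `a = b/3 ∈ [1, n]` (entry `D_0 = -1`, weight `1`) and `a = b/3 + n + 1 ≤ 2n+1`
    (entry `D_(g+1) = 1`, weight `1`): sum `0`;
  - `b ≡ 2`: `a = (b+1)/3 ∈ [1, n+1]` (entry `D_1 = 1`, weight `1`) and
    `a = (b+1)/3 + 2n + 1 ≥ 2n + 2` (entry `D_(2g) = 1`, weight `-1`): sum `0`;
  - `b = 3t + 1`, `0 ≤ t ≤ n`: `a = n + 1 + t ≤ 2n + 1` (entry `D_g = -1`, weight `1`) and
    `a = 2n + 2 + t` (entry `D_(2g+1) = -1`, weight `-1`): sum `0`.
* `ker3_pair`: `∑ wt_i = (2n+1) - (g - (2n+1)) = (2n + 1) - (n + 1) = n`, nonzero mod 3 iff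
  `3 ∤ n`.
-/

set_option autoImplicit false

namespace LIF

open Polynomial

/-- the matrix -/
noncomputable def A3 (g : ℕ) : Matrix (Fin g) (Fin g) (ZMod 3) :=
  HW 3 g (Dp (X ^ (2 * g) - X ^ g - 1 : (ZMod 3)[X]))

/-- the left kernel vector -/
def wt3 (n g : ℕ) : Fin g → ZMod 3 := fun i => if (i : ℕ) < 2 * n + 1 then 1 else -1

/-- indicator of an equality of integers in `ZMod 3` -/
def XKer_d (a b : ℤ) : ZMod 3 := if a = b then 1 else 0

theorem XKer_coeff (g k : ℕ) : (Dp (X ^ (2 * g) - X ^ g - 1 : (ZMod 3)[X])).coeff k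
    = XKer_d k (2 * g) - XKer_d k g - XKer_d k 0 - XKer_d k (2 * g + 1) + XKer_d k (g + 1)
      + XKer_d k 1 := by
  have e : (Dp (X ^ (2 * g) - X ^ g - 1 : (ZMod 3)[X])) =
      X ^ (2 * g) - X ^ g - 1 - X ^ (2 * g + 1) + X ^ (g + 1) + X := by
    unfold Dp; ring
  rw [e]
  simp only [coeff_add, coeff_sub, coeff_X_pow, coeff_one, coeff_X, XKer_d]
  congr 1
  · congr 1
    · congr 1
      · congr 1
        · congr 1
          · split_ifs <;> first | rfl | omega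
          · split_ifs <;> first | rfl | omega
        · split_ifs <;> first | rfl | omega
      · split_ifs <;> first | rfl | omega
    · split_ifs <;> first | rfl | omega
  · split_ifs <;> first | rfl | omega

theorem XKer_entry (g : ℕ) (i j : Fin g) : A3 g i j
    = XKer_d (3 * ((i : ℕ) + 1)) (((j : ℕ) + 1) + 2 * g)
      - XKer_d (3 * ((i : ℕ) + 1)) (((j : ℕ) + 1) + g)
      - XKer_d (3 * ((i : ℕ) + 1)) (((j : ℕ) + 1))
      - XKer_d (3 * ((i : ℕ) + 1)) (((j : ℕ) + 1) + (2 * g + 1))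
      + XKer_d (3 * ((i : ℕ) + 1)) (((j : ℕ) + 1) + (g + 1))
      + XKer_d (3 * ((i : ℕ) + 1)) (((j : ℕ) + 1) + 1) := by
  unfold A3 HW HWr
  have h2 : (3 - 1) / 2 = 1 := rfl
  rw [h2, pow_one]
  split_ifs with h
  · rw [XKer_coeff]
    simp only [XKer_d]
    have hc : ((3 * ((i : ℕ) + 1) - ((j : ℕ) + 1) : ℕ) : ℤ) =
        3 * (((i : ℕ) : ℤ) + 1) - (((j : ℕ) : ℤ) + 1) := by
      push_cast [Nat.cast_sub h]; ring
    rw [hc]
    congr 1
    · congr 1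
      · congr 1
        · congr 1
          · congr 1
            · split_ifs <;> first | rfl | omega
            · split_ifs <;> first | rfl | omega
          · split_ifs <;> first | rfl | omega
        · split_ifs <;> first | rfl | omega
      · split_ifs <;> first | rfl | omega
    · split_ifs <;> first | rfl | omega
  · simp only [XKer_d]
    rw [if_neg (by omega), if_neg (by omega), if_neg (by omega), if_neg (by omega),
      if_neg (by omega), if_neg (by omega)]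
    ring

/-- the vector `v` as a function on the integers, `V (j + 1) = v j` -/
def XKer_V {g : ℕ} (v : Fin g → ZMod 3) (k : ℤ) : ZMod 3 :=
  ∑ j : Fin g, XKer_d k (((j : ℕ) : ℤ) + 1) * v j

theorem XKer_V_in {g : ℕ} (v : Fin g → ZMod 3) (j : Fin g) :
    XKer_V v (((j : ℕ) : ℤ) + 1) = v j := by
  unfold XKer_V
  rw [Finset.sum_eq_single j]
  · simp [XKer_d]
  · intro b _ hb
    have : ((j : ℕ) : ℤ) + 1 ≠ ((b : ℕ) : ℤ) + 1 := by
      intro h
      apply hb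
      apply Fin.ext
      omega
    simp [XKer_d, this]
  · intro h; exact absurd (Finset.mem_univ j) h

theorem XKer_V_out {g : ℕ} (v : Fin g → ZMod 3) (k : ℤ) (hk : k ≤ 0 ∨ (g : ℤ) < k) :
    XKer_V v k = 0 := by
  unfold XKer_V
  apply Finset.sum_eq_zero
  intro b _
  have hb := b.isLt
  have : k ≠ ((b : ℕ) : ℤ) + 1 := by omega
  simp [XKer_d, this]

theorem XKer_shift (a b s : ℤ) : XKer_d a (b + s) = XKer_d (a - s) b := by
  unfold XKer_d
  split_ifs <;> first | rfl | omega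

theorem XKer_row {g : ℕ} (v : Fin g → ZMod 3) (i : Fin g) : (A3 g).mulVec v i
    = XKer_V v (3 * ((i : ℕ) + 1) - 2 * g) - XKer_V v (3 * ((i : ℕ) + 1) - g)
      - XKer_V v (3 * ((i : ℕ) + 1)) - XKer_V v (3 * ((i : ℕ) + 1) - (2 * g + 1))
      + XKer_V v (3 * ((i : ℕ) + 1) - (g + 1)) + XKer_V v (3 * ((i : ℕ) + 1) - 1) := by
  unfold XKer_V
  rw [← Finset.sum_sub_distrib, ← Finset.sum_sub_distrib, ← Finset.sum_sub_distrib,
    ← Finset.sum_add_distrib, ← Finset.sum_add_distrib]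
  unfold Matrix.mulVec dotProduct
  apply Finset.sum_congr rfl
  intro j _
  show A3 g i j * v j = _
  rw [XKer_entry, XKer_shift _ (((j : ℕ) : ℤ) + 1) (2 * (g : ℤ)),
    XKer_shift _ (((j : ℕ) : ℤ) + 1) (g : ℤ), XKer_shift _ (((j : ℕ) : ℤ) + 1) (2 * (g : ℤ) + 1),
    XKer_shift _ (((j : ℕ) : ℤ) + 1) ((g : ℤ) + 1), XKer_shift _ (((j : ℕ) : ℤ) + 1) 1]
  ring

theorem XKer_one {g : ℕ} (k : ℤ) : XKer_V (fun _ : Fin g => (1 : ZMod 3)) k
    = if 1 ≤ k ∧ k ≤ g then 1 else 0 := by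
  split_ifs with h
  · have hlt : (k - 1).toNat < g := by omega
    have := XKer_V_in (fun _ : Fin g => (1 : ZMod 3)) ⟨(k - 1).toNat, hlt⟩
    have e : (((⟨(k - 1).toNat, hlt⟩ : Fin g) : ℕ) : ℤ) + 1 = k := by
      show (((k - 1).toNat : ℕ) : ℤ) + 1 = k
      omega
    rw [e] at this
    exact this
  · exact XKer_V_out _ _ (by omega)

theorem ker3_mul {n g : ℕ} (hg : g = 3 * n + 2) : (A3 g).mulVec (fun _ => 1) = 0 := by
  funext i
  have hi := i.isLt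
  rw [XKer_row]
  simp only [XKer_one, Pi.zero_apply]
  split_ifs <;> first | omega | ring

theorem ker3_eq {n g : ℕ} (hg : g = 3 * n + 2) (v : Fin g → ZMod 3)
    (hv : (A3 g).mulVec v = 0) : ∃ c : ZMod 3, v = fun _ => c := by
  have row : ∀ a : ℕ, 1 ≤ a → a ≤ g → XKer_V v (3 * (a : ℤ) - 2 * g) - XKer_V v (3 * (a : ℤ) - g)
      - XKer_V v (3 * (a : ℤ)) - XKer_V v (3 * (a : ℤ) - (2 * g + 1))
      + XKer_V v (3 * (a : ℤ) - (g + 1)) + XKer_V v (3 * (a : ℤ) - 1) = 0 := by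
    intro a h1 h2
    have h := XKer_row v ⟨a - 1, by omega⟩
    rw [hv] at h
    have e : ((((⟨a - 1, by omega⟩ : Fin g) : ℕ) : ℤ) + 1) = (a : ℤ) := by
      show ((a - 1 : ℕ) : ℤ) + 1 = a
      omega
    rw [e] at h
    simpa using h.symm
  have step : ∀ e : ℕ, 1 ≤ e → e + 1 ≤ g → XKer_V v ((e : ℤ) + 1) = XKer_V v (e : ℤ) := by
    intro e h1 h2
    have h3 : e % 3 = 0 ∨ e % 3 = 1 ∨ e % 3 = 2 := by omega
    rcases h3 with h3 | h3 | h3
    · have h := row (n + 1 + e / 3) (by omega) (by omega)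
      rw [XKer_V_out v (3 * ((n + 1 + e / 3 : ℕ) : ℤ) - 2 * g) (by omega),
        XKer_V_out v (3 * ((n + 1 + e / 3 : ℕ) : ℤ)) (by omega),
        XKer_V_out v (3 * ((n + 1 + e / 3 : ℕ) : ℤ) - (2 * g + 1)) (by omega),
        XKer_V_out v (3 * ((n + 1 + e / 3 : ℕ) : ℤ) - 1) (by omega)] at h
      have e1 : 3 * ((n + 1 + e / 3 : ℕ) : ℤ) - g = (e : ℤ) + 1 := by omega
      have e2 : 3 * ((n + 1 + e / 3 : ℕ) : ℤ) - (g + 1) = (e : ℤ) := by omega
      rw [e1, e2] at h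
      linear_combination -h
    · have h := row (2 * n + 2 + e / 3) (by omega) (by omega)
      rw [XKer_V_out v (3 * ((2 * n + 2 + e / 3 : ℕ) : ℤ) - g) (by omega),
        XKer_V_out v (3 * ((2 * n + 2 + e / 3 : ℕ) : ℤ)) (by omega),
        XKer_V_out v (3 * ((2 * n + 2 + e / 3 : ℕ) : ℤ) - (g + 1)) (by omega),
        XKer_V_out v (3 * ((2 * n + 2 + e / 3 : ℕ) : ℤ) - 1) (by omega)] at h
      have e1 : 3 * ((2 * n + 2 + e / 3 : ℕ) : ℤ) - 2 * g = (e : ℤ) + 1 := by omega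
      have e2 : 3 * ((2 * n + 2 + e / 3 : ℕ) : ℤ) - (2 * g + 1) = (e : ℤ) := by omega
      rw [e1, e2] at h
      linear_combination h
    · have h := row (e / 3 + 1) (by omega) (by omega)
      rw [XKer_V_out v (3 * ((e / 3 + 1 : ℕ) : ℤ) - 2 * g) (by omega),
        XKer_V_out v (3 * ((e / 3 + 1 : ℕ) : ℤ) - g) (by omega),
        XKer_V_out v (3 * ((e / 3 + 1 : ℕ) : ℤ) - (2 * g + 1)) (by omega),
        XKer_V_out v (3 * ((e / 3 + 1 : ℕ) : ℤ) - (g + 1)) (by omega)] at h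
      have e1 : 3 * ((e / 3 + 1 : ℕ) : ℤ) = (e : ℤ) + 1 := by omega
      have e2 : 3 * ((e / 3 + 1 : ℕ) : ℤ) - 1 = (e : ℤ) := by omega
      rw [e2, e1] at h
      linear_combination -h
  have all : ∀ e : ℕ, e + 1 ≤ g → XKer_V v ((e : ℤ) + 1) = XKer_V v 1 := by
    intro e
    induction e with
    | zero => intro _; norm_num
    | succ e ih =>
      intro h
      have h1 := step (e + 1) (by omega) h
      rw [h1]
      have := ih (by omega)
      push_cast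
      exact this
  refine ⟨XKer_V v 1, ?_⟩
  funext j
  rw [← XKer_V_in v j]
  exact all j (by have := j.isLt; omega)

/-- the left vector as a function on the integers, `U (3 (i + 1)) = wt i` -/
def XKer_U {g : ℕ} (v : Fin g → ZMod 3) (k : ℤ) : ZMod 3 :=
  ∑ i : Fin g, v i * XKer_d (3 * (((i : ℕ) : ℤ) + 1)) k

theorem XKer_U_wt (n g : ℕ) (k : ℤ) : XKer_U (wt3 n g) k =
    if 3 ∣ k ∧ 3 ≤ k ∧ k ≤ 3 * g then (if k ≤ 3 * (2 * n + 1) then 1 else -1) else 0 := by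
  unfold XKer_U
  split_ifs with h h2
  · have hlt : (k / 3 - 1).toNat < g := by omega
    rw [Finset.sum_eq_single ⟨(k / 3 - 1).toNat, hlt⟩]
    · have e : 3 * ((((⟨(k / 3 - 1).toNat, hlt⟩ : Fin g) : ℕ) : ℤ) + 1) = k := by
        show 3 * ((((k / 3 - 1).toNat : ℕ) : ℤ) + 1) = k
        omega
      rw [e]
      have e2 : (k / 3 - 1).toNat < 2 * n + 1 := by omega
      have e3 : wt3 n g ⟨(k / 3 - 1).toNat, hlt⟩ = 1 := if_pos e2
      have e4 : XKer_d k k = 1 := if_pos rfl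
      rw [e3, e4, one_mul]
    · intro b _ hb
      have : 3 * (((b : ℕ) : ℤ) + 1) ≠ k := by
        intro h'
        apply hb
        apply Fin.ext
        show (b : ℕ) = (k / 3 - 1).toNat
        omega
      simp [XKer_d, this]
    · intro h'; exact absurd (Finset.mem_univ _) h'
  · have hlt : (k / 3 - 1).toNat < g := by omega
    rw [Finset.sum_eq_single ⟨(k / 3 - 1).toNat, hlt⟩]
    · have e : 3 * ((((⟨(k / 3 - 1).toNat, hlt⟩ : Fin g) : ℕ) : ℤ) + 1) = k := by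
        show 3 * ((((k / 3 - 1).toNat : ℕ) : ℤ) + 1) = k
        omega
      rw [e]
      have e2 : ¬ (k / 3 - 1).toNat < 2 * n + 1 := by omega
      have e3 : wt3 n g ⟨(k / 3 - 1).toNat, hlt⟩ = -1 := if_neg e2
      have e4 : XKer_d k k = 1 := if_pos rfl
      rw [e3, e4, mul_one]
    · intro b _ hb
      have : 3 * (((b : ℕ) : ℤ) + 1) ≠ k := by
        intro h'
        apply hb
        apply Fin.ext
        show (b : ℕ) = (k / 3 - 1).toNat
        omega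
      simp [XKer_d, this]
    · intro h'; exact absurd (Finset.mem_univ _) h'
  · apply Finset.sum_eq_zero
    intro b _
    have hb := b.isLt
    have : 3 * (((b : ℕ) : ℤ) + 1) ≠ k := by
      intro h'
      apply h
      omega
    simp [XKer_d, this]

theorem ker3_left {n g : ℕ} (hg : g = 3 * n + 2) : Matrix.vecMul (wt3 n g) (A3 g) = 0 := by
  funext j
  have hj := j.isLt
  have key : Matrix.vecMul (wt3 n g) (A3 g) j
      = XKer_U (wt3 n g) (((j : ℕ) + 1) + 2 * g) - XKer_U (wt3 n g) (((j : ℕ) + 1) + g)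
      - XKer_U (wt3 n g) (((j : ℕ) + 1)) - XKer_U (wt3 n g) (((j : ℕ) + 1) + (2 * g + 1))
      + XKer_U (wt3 n g) (((j : ℕ) + 1) + (g + 1)) + XKer_U (wt3 n g) (((j : ℕ) + 1) + 1) := by
    unfold XKer_U
    rw [← Finset.sum_sub_distrib, ← Finset.sum_sub_distrib, ← Finset.sum_sub_distrib,
      ← Finset.sum_add_distrib, ← Finset.sum_add_distrib]
    unfold Matrix.vecMul dotProduct
    apply Finset.sum_congr rfl
    intro i _
    show wt3 n g i * A3 g i j = _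
    rw [XKer_entry]
    ring
  have z0 : ∀ k : ℤ, ¬ (3 ∣ k ∧ 3 ≤ k ∧ k ≤ 3 * g) → XKer_U (wt3 n g) k = 0 := by
    intro k h
    rw [XKer_U_wt, if_neg h]
  have z1 : ∀ k : ℤ, (3 ∣ k ∧ 3 ≤ k ∧ k ≤ 3 * g) → k ≤ 3 * (2 * n + 1) →
      XKer_U (wt3 n g) k = 1 := by
    intro k h h2
    rw [XKer_U_wt, if_pos h, if_pos h2]
  have z2 : ∀ k : ℤ, (3 ∣ k ∧ 3 ≤ k ∧ k ≤ 3 * g) → ¬ k ≤ 3 * (2 * n + 1) →
      XKer_U (wt3 n g) k = -1 := by
    intro k h h2
    rw [XKer_U_wt, if_pos h, if_neg h2]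
  rw [key]
  have h3 : (j : ℕ) % 3 = 0 ∨ (j : ℕ) % 3 = 1 ∨ (j : ℕ) % 3 = 2 := by omega
  rcases h3 with h3 | h3 | h3
  · rw [z0 (((j : ℕ) : ℤ) + 1 + 2 * g) (by omega),
      z1 (((j : ℕ) : ℤ) + 1 + g) (by omega) (by omega),
      z0 (((j : ℕ) : ℤ) + 1) (by omega),
      z2 (((j : ℕ) : ℤ) + 1 + (2 * g + 1)) (by omega) (by omega),
      z0 (((j : ℕ) : ℤ) + 1 + (g + 1)) (by omega),
      z0 (((j : ℕ) : ℤ) + 1 + 1) (by omega)]
    show (0 : ZMod 3) - 1 - 0 - -1 + 0 + 0 = 0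
    ring
  · rw [z2 (((j : ℕ) : ℤ) + 1 + 2 * g) (by omega) (by omega),
      z0 (((j : ℕ) : ℤ) + 1 + g) (by omega),
      z0 (((j : ℕ) : ℤ) + 1) (by omega),
      z0 (((j : ℕ) : ℤ) + 1 + (2 * g + 1)) (by omega),
      z0 (((j : ℕ) : ℤ) + 1 + (g + 1)) (by omega),
      z1 (((j : ℕ) : ℤ) + 1 + 1) (by omega) (by omega)]
    show (-1 : ZMod 3) - 0 - 0 - 0 + 0 + 1 = 0
    ring
  · rw [z0 (((j : ℕ) : ℤ) + 1 + 2 * g) (by omega),
      z0 (((j : ℕ) : ℤ) + 1 + g) (by omega),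
      z1 (((j : ℕ) : ℤ) + 1) (by omega) (by omega),
      z0 (((j : ℕ) : ℤ) + 1 + (2 * g + 1)) (by omega),
      z1 (((j : ℕ) : ℤ) + 1 + (g + 1)) (by omega) (by omega),
      z0 (((j : ℕ) : ℤ) + 1 + 1) (by omega)]
    show (0 : ZMod 3) - 0 - 1 - 0 + 1 + 0 = 0
    ring

theorem ker3_pair {n g : ℕ} (hg : g = 3 * n + 2) (hn : ¬ 3 ∣ n) :
    dotProduct (wt3 n g) (fun _ => (1 : ZMod 3)) ≠ 0 := by
  have e : dotProduct (wt3 n g) (fun _ => (1 : ZMod 3)) = (n : ZMod 3) := by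
    unfold dotProduct wt3
    simp only [mul_one]
    rw [Fin.sum_univ_eq_sum_range (fun i => if i < 2 * n + 1 then (1 : ZMod 3) else -1) g]
    have hg' : g = (2 * n + 1) + (n + 1) := by omega
    rw [hg', Finset.sum_range_add]
    have h1 : ∑ x ∈ Finset.range (2 * n + 1), (if x < 2 * n + 1 then (1 : ZMod 3) else -1)
        = ((2 * n + 1 : ℕ) : ZMod 3) := by
      rw [Finset.sum_congr rfl (fun x hx => if_pos (Finset.mem_range.mp hx))]
      simp
    have h2 : ∑ x ∈ Finset.range (n + 1), (if 2 * n + 1 + x < 2 * n + 1 then (1 : ZMod 3) else -1)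
        = - ((n + 1 : ℕ) : ZMod 3) := by
      rw [Finset.sum_congr rfl (fun x _ => if_neg (by omega))]
      simp
    rw [h1, h2]
    push_cast
    ring
  rw [e]
  intro h
  exact hn ((ZMod.natCast_eq_zero_iff n 3).mp h)

end LIF
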