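import Mathlib

/-!
[LI-XLin] A simple zero of the characteristic polynomial (imports Mathlib only).

`A v = 0`, `ker A` is spanned by `v ≠ 0`, `w A = 0`, `w · v ≠ 0` ⇒ `X` divides the characteristic
polynomial of `A` exactly once.

Proof.  `charpoly.coeff 0 = ± det A = 0` since `A v = 0`, `v ≠ 0`
(`Matrix.exists_mulVec_eq_zero_iff`).  Let `φ = Matrix.toLin' A` (`Matrix.mulVecLin`),
`φ.charpoly = A.charpoly`.  If `φ (φ u) = 0` then `φ u = c v`, `0 = w · (A u) = c (w · v)`, so
`c = 0`, `φ u = 0`.  So `ker φ^n = ker φ` for `n ≥ 1`, the maximal generalized eigenspace of `0`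
is `ker φ`, of dimension `1`, and by `LinearMap.finrank_maxGenEigenspace_zero_eq`
(`Mathlib/LinearAlgebra/Eigenspace/Zero.lean`) the `natTrailingDegree` of the characteristic
polynomial is `1`; its trailing coefficient is nonzero.
-/

set_option autoImplicit false

namespace LIF

theorem simple_zero {K : Type*} [Field K] {g : ℕ} (A : Matrix (Fin g) (Fin g) K)
    (v w : Fin g → K) (hv : A.mulVec v = 0) (hv0 : v ≠ 0)
    (hker : ∀ u, A.mulVec u = 0 → ∃ c : K, u = c • v) (hw : Matrix.vecMul w A = 0)
    (hwv : dotProduct w v ≠ 0) :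
    A.charpoly.coeff 0 = 0 ∧ A.charpoly.coeff 1 ≠ 0 := by
  set φ : Module.End K (Fin g → K) := Matrix.toLin' A with hφ
  have hφa : ∀ u, φ u = A.mulVec u := fun u => Matrix.toLin'_apply A u
  have hchar : φ.charpoly = A.charpoly := by
    rw [← LinearMap.charpoly_toMatrix φ (Pi.basisFun K (Fin g)), LinearMap.toMatrix_eq_toMatrix',
      hφ, LinearMap.toMatrix'_toLin']
  have hsq : ∀ u, φ (φ u) = 0 → φ u = 0 := by
    intro u hu
    rw [hφa (φ u)] at hu
    obtain ⟨c, hc⟩ := hker _ hu
    have h1 : dotProduct w (φ u) = 0 := by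
      rw [hφa, Matrix.dotProduct_mulVec, hw, zero_dotProduct]
    rw [hc, dotProduct_smul, smul_eq_mul] at h1
    rcases mul_eq_zero.mp h1 with h2 | h2
    · rw [hc, h2, zero_smul]
    · exact absurd h2 hwv
  have hpow : ∀ (k : ℕ) (u : Fin g → K), (φ ^ k) u = 0 → φ u = 0 := by
    intro k
    induction k with
    | zero =>
      intro u hu
      rw [pow_zero, Module.End.one_apply] at hu
      rw [hu, map_zero]
    | succ k ih =>
      intro u hu
      rw [pow_succ, Module.End.mul_apply] at hu
      exact hsq u (ih _ hu)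
  have hmax : φ.maxGenEigenspace 0 = Submodule.span K {v} := by
    ext u
    rw [Module.End.mem_maxGenEigenspace, Submodule.mem_span_singleton, zero_smul, sub_zero]
    constructor
    · rintro ⟨k, hk⟩
      have h1 := hpow k u hk
      rw [hφa] at h1
      obtain ⟨c, hc⟩ := hker u h1
      exact ⟨c, hc.symm⟩
    · rintro ⟨c, rfl⟩
      refine ⟨1, ?_⟩
      rw [pow_one, map_smul, hφa, hv, smul_zero]
  have htr : A.charpoly.natTrailingDegree = 1 := by
    rw [← hchar, ← LinearMap.finrank_maxGenEigenspace_zero_eq, hmax, finrank_span_singleton hv0]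
  have hne : A.charpoly ≠ 0 := A.charpoly_monic.ne_zero
  refine ⟨Polynomial.coeff_eq_zero_of_lt_natTrailingDegree (by rw [htr]; exact Nat.zero_lt_one), ?_⟩
  have h1 := Polynomial.trailingCoeff_nonzero_iff_nonzero.mpr hne
  rwa [Polynomial.trailingCoeff, htr] at h1

end LIF
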