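import Pool.Agent.helper1.LI.Crit
import Pool.Agent.helper1.LI.XIrr
import Pool.Agent.helper1.LI.XKer
import Pool.Agent.helper1.LI.XLin
import Pool.Agent.helper1.LI.Base

/-!
[LI-Top] The explicit family (assembly).
-/

set_option autoImplicit false

namespace LIF

open Polynomial

theorem pow2_mod9 {k : ℕ} (hk : k % 6 = 3 ∨ k % 6 = 5) : 2 ^ k % 9 = 8 ∨ 2 ^ k % 9 = 5 := by
  have h64 : ∀ t : ℕ, 64 ^ t % 9 = 1 := by
    intro t
    rw [Nat.pow_mod]; norm_num
  rcases hk with h | h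
  · left
    have : k = 6 * (k / 6) + 3 := by omega
    rw [this, pow_add, pow_mul, show (2 : ℕ) ^ 6 = 64 by norm_num, Nat.mul_mod, h64]
    norm_num
  · right
    have : k = 6 * (k / 6) + 5 := by omega
    rw [this, pow_add, pow_mul, show (2 : ℕ) ^ 6 = 64 by norm_num, Nat.mul_mod, h64]
    norm_num

theorem explicit {k : ℕ} (hk : k % 6 = 3 ∨ k % 6 = 5) {a : ℕ} (ha : 1 ≤ a) :
    LICurveOver 3 a (2 ^ k) (Dp (X ^ (2 * 2 ^ k) - X ^ (2 ^ k) - 1 : (ZMod 3)[X])) := by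
  have h9 := pow2_mod9 hk
  obtain ⟨n, hn⟩ : ∃ n, 2 ^ k = 3 * n + 2 := ⟨2 ^ k / 3, by omega⟩
  have h3 : ¬ 3 ∣ n := by omega
  have hs := simple_zero (A3 (2 ^ k)) (fun _ => 1) (wt3 n (2 ^ k)) (ker3_mul hn)
    (by
      intro h
      have : (0 : ℕ) < 2 ^ k := by positivity
      have := congrFun h ⟨0, this⟩
      simp at this)
    (by
      intro u hu
      obtain ⟨c, hc⟩ := ker3_eq hn u hu
      exact ⟨c, by rw [hc]; funext i; simp⟩)
    (ker3_left hn) (ker3_pair hn h3)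
  exact licurve_over (criterion (by omega) (good3 k) hs.1 hs.2) ha

end LIF
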