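import Pool.Agent.helper1.LI.Defs

/-!
[LI-Junc] Junction lemma (imports only `Defs`).

`r = (p-1)/2 ≤ N`, `p ∤ N`, `E` of degree `≤ p - 1` with all coefficients `E_0, ..., E_(p-1)`
nonzero, `ω` of degree `< N + r`, and the coefficients of `E(X^N) ω` at all exponents
`p (i+1) - 1`, `i < N`, vanish.  Then `ω_e = 0` for `r ≤ e < N` and, for `m < r`, `1 ≤ c < p`,
`p ∣ m + 1 + N c`: `E_c ω_m + E_(c-1) ω_(N+m) = 0`.

Proof.  The coefficient of `E(X^N) ω` at `n` is `∑_{c'} E_(c') ω_(n - N c')` over the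
`c' ∈ [0, p-1]` with `N c' ≤ n` (`Polynomial.coeff_expand`; e.g. write
`expand N E = ∑_{c' < p} C (E_(c')) X^(N c')`, and `coeff_C_mul`, `coeff_X_pow_mul'`).

(a) `r ≤ e < N`.  As `p ∤ N` there is `c < p` with `p ∣ e + 1 + N c`.  Put `n = e + N c`; then
`n + 1 = p (i+1)`, and `i < N` because `p (i+1) = e + 1 + N c ≤ N + N (p-1) = N p`.  In the sum
`c' = c` gives `E_c ω_e`; `c' ≥ c + 1`: `n - N c' = e - N (c'-c) < 0`: excluded; `c' ≤ c - 1`:
`n - N c' ≥ e + N ≥ N + r`: `ω` vanishes there.  So `E_c ω_e = 0`.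

(b) `m < r`, `n = m + N c`, `n + 1 = p (i+1)`, `i < N` as before (`m + 1 ≤ N`).  In the sum:
`c' = c`: `E_c ω_m`; `c' = c - 1`: `E_(c-1) ω_(N+m)`; `c' ≤ c - 2`: index `≥ 2 N + m ≥ N + r`:
zero (`r ≤ N`); `c' > c`: excluded (`m < N`).
-/

set_option autoImplicit false

namespace LIF

open Polynomial

theorem Junc_coeff {p N : ℕ} [Fact p.Prime] (E ω : (ZMod p)[X]) (hE : E.natDegree ≤ p - 1)
    (n : ℕ) :
    (expand (ZMod p) N E * ω).coeff n =
      ∑ c ∈ Finset.range p, if N * c ≤ n then E.coeff c * ω.coeff (n - N * c) else 0 := by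
  have hp : 0 < p := (Fact.out : p.Prime).pos
  have h1 : E = ∑ c ∈ Finset.range p, C (E.coeff c) * X ^ c := by
    have h := E.as_sum_range' p (by omega)
    conv_lhs => rw [h]
    refine Finset.sum_congr rfl fun c _ => ?_
    rw [C_mul_X_pow_eq_monomial]
  have h2 : expand (ZMod p) N E = ∑ c ∈ Finset.range p, C (E.coeff c) * X ^ (N * c) := by
    conv_lhs => rw [h1]
    rw [map_sum]
    refine Finset.sum_congr rfl fun c _ => ?_
    rw [map_mul, map_pow, expand_C, expand_X, ← pow_mul]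
  rw [h2, Finset.sum_mul, finset_sum_coeff]
  refine Finset.sum_congr rfl fun c _ => ?_
  rw [mul_assoc, coeff_C_mul, coeff_X_pow_mul']
  split_ifs
  · rfl
  · rw [mul_zero]

theorem Junc_index {p N n : ℕ} [Fact p.Prime] (hd : p ∣ n + 1) (hn : n + 1 ≤ N * p) :
    ∃ i < N, n = p * (i + 1) - 1 := by
  have hp : 0 < p := (Fact.out : p.Prime).pos
  obtain ⟨j, hj⟩ := hd
  have hj1 : 1 ≤ j := by
    rcases Nat.eq_zero_or_pos j with h | h
    · rw [h, mul_zero] at hj
      omega
    · exact h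
  have hjN : j ≤ N := by
    have h1 : p * j ≤ p * N := by
      rw [← hj, mul_comm p N]
      exact hn
    exact Nat.le_of_mul_le_mul_left h1 hp
  refine ⟨j - 1, by omega, ?_⟩
  have h2 : j - 1 + 1 = j := by omega
  rw [h2, ← hj]
  omega

theorem junction {p N : ℕ} [Fact p.Prime] (hp2 : p ≠ 2) (hN : (p - 1) / 2 ≤ N)
    (hpN : ¬ p ∣ N) (E ω : (ZMod p)[X]) (hE : E.natDegree ≤ p - 1)
    (hE0 : ∀ c < p, E.coeff c ≠ 0) (hω : ω.natDegree < N + (p - 1) / 2)
    (h : ∀ i < N, (expand (ZMod p) N E * ω).coeff (p * (i + 1) - 1) = 0) :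
    (∀ e, (p - 1) / 2 ≤ e → e < N → ω.coeff e = 0) ∧
      (∀ m < (p - 1) / 2, ∀ c, 1 ≤ c → c < p → p ∣ m + 1 + N * c →
        E.coeff c * ω.coeff m + E.coeff (c - 1) * ω.coeff (N + m) = 0) := by
  have hp : 0 < p := (Fact.out : p.Prime).pos
  have hbig : ∀ k, N + (p - 1) / 2 ≤ k → ω.coeff k = 0 := fun k hk =>
    coeff_eq_zero_of_natDegree_lt (by omega)
  have hle : ∀ e c, e < N → c < p → e + N * c + 1 ≤ N * p := by
    intro e c he hc
    have h1 : N * (c + 1) ≤ N * p := Nat.mul_le_mul_left N hc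
    rw [mul_add, mul_one] at h1
    omega
  constructor
  · intro e he heN
    have hN0 : (N : ZMod p) ≠ 0 := by
      intro hc
      exact hpN ((ZMod.natCast_eq_zero_iff N p).1 hc)
    obtain ⟨c, hc, hdc⟩ : ∃ c < p, p ∣ e + N * c + 1 := by
      refine ⟨(-(((e : ZMod p) + 1) * (N : ZMod p)⁻¹)).val, ZMod.val_lt _, ?_⟩
      rw [← ZMod.natCast_eq_zero_iff]
      push_cast
      rw [ZMod.natCast_val, ZMod.cast_id]
      field_simp
      ring
    obtain ⟨i, hi, hni⟩ := Junc_index hdc (hle e c heN hc)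
    have h1 := h i hi
    rw [← hni, Junc_coeff E ω hE, Finset.sum_eq_single c] at h1
    · rw [if_pos (by omega)] at h1
      have h2 : e + N * c - N * c = e := by omega
      rw [h2] at h1
      rcases mul_eq_zero.1 h1 with h3 | h3
      · exact absurd h3 (hE0 c hc)
      · exact h3
    · intro c' _ hne
      rcases lt_or_gt_of_ne hne with hlt | hgt
      · have h3 : N * (c' + 1) ≤ N * c := Nat.mul_le_mul_left N hlt
        rw [mul_add, mul_one] at h3
        rw [hbig _ (by omega), mul_zero]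
        split_ifs <;> rfl
      · have h3 : N * (c + 1) ≤ N * c' := Nat.mul_le_mul_left N hgt
        rw [mul_add, mul_one] at h3
        rw [if_neg (by omega)]
    · intro hnot
      exact absurd (Finset.mem_range.2 hc) hnot
  · intro m hm c hc1 hc hd
    have hmN : m < N := by omega
    have hd' : p ∣ m + N * c + 1 := by
      have h0 : m + N * c + 1 = m + 1 + N * c := by omega
      rw [h0]
      exact hd
    obtain ⟨i, hi, hni⟩ := Junc_index hd' (hle m c hmN hc)
    have h1 := h i hi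
    have hNc : N * c = N * (c - 1) + N := by
      obtain ⟨c0, rfl⟩ : ∃ c0, c = c0 + 1 := ⟨c - 1, by omega⟩
      rw [Nat.add_sub_cancel, mul_add, mul_one]
    rw [← hni, Junc_coeff E ω hE, Finset.sum_eq_add c (c - 1) (by omega)] at h1
    · rw [if_pos (by omega), if_pos (by omega)] at h1
      have h2 : m + N * c - N * c = m := by omega
      have h3 : m + N * c - N * (c - 1) = N + m := by omega
      rw [h2, h3] at h1
      exact h1
    · rintro c' _ ⟨hne, hne'⟩
      rcases lt_or_gt_of_ne hne with hlt | hgt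
      · have h4 : c' + 1 ≤ c - 1 := by omega
        have h3 : N * (c' + 1) ≤ N * (c - 1) := Nat.mul_le_mul_left N h4
        rw [mul_add, mul_one] at h3
        rw [hbig _ (by omega), mul_zero]
        split_ifs <;> rfl
      · have h3 : N * (c + 1) ≤ N * c' := Nat.mul_le_mul_left N hgt
        rw [mul_add, mul_one] at h3
        rw [if_neg (by omega)]
    · intro hnot
      exact absurd (Finset.mem_range.2 hc) hnot
    · intro hnot
      exact absurd (Finset.mem_range.2 (by omega)) hnot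

end LIF
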