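import Pool.Agent.helper1.LI.Defs

/-!
[LI-MV] The Hasse-Witt matrix times a vector as coefficients of a product (imports only `Defs`).

Proof.  `F * ∑_j v_j X^j = ∑_j v_j (F X^j)` and `(F X^j).coeff n = if j ≤ n then F.coeff (n - j)
else 0` (`Polynomial.coeff_mul_X_pow'`).  Here `n = p (i+1) - 1`, and `j ≤ n ↔ j + 1 ≤ p (i+1)`
(because `p (i+1) ≥ 1`), `n - j = p (i+1) - (j+1)`.
-/

set_option autoImplicit false

namespace LIF

open Polynomial

theorem hwr_mulVec {R : Type*} [CommRing R] {p g : ℕ} (hp : 1 ≤ p) (F : R[X]) (v : Fin g → R)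
    (i : Fin g) :
    (HWr p g F).mulVec v i =
      (F * ∑ j : Fin g, C (v j) * X ^ (j : ℕ)).coeff (p * ((i : ℕ) + 1) - 1) := by
  rw [Finset.mul_sum, finsetSum_coeff]
  have hpos : 1 ≤ p * ((i : ℕ) + 1) := Nat.mul_pos hp (Nat.succ_pos _)
  change ∑ j, HWr p g F i j * v j = _
  refine Finset.sum_congr rfl fun j _ => ?_
  have h1 : F * (C (v j) * X ^ (j : ℕ)) = C (v j) * (F * X ^ (j : ℕ)) := by ring
  rw [h1, coeff_C_mul, coeff_mul_X_pow']
  unfold HWr
  generalize p * ((i : ℕ) + 1) = N at hpos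
  by_cases h : (j : ℕ) + 1 ≤ N
  · have h2 : N - 1 - (j : ℕ) = N - ((j : ℕ) + 1) := by omega
    rw [if_pos h, if_pos (by omega), mul_comm, h2]
  · rw [if_neg h, if_neg (by omega), zero_mul, mul_zero]

end LIF
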