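import Pool.Agent.helper1.LI.X7Def
import Pool.Agent.helper1.LI.MV
import Pool.Agent.helper1.LI.Junc

/-!
[LI-X7Ker] the kernel of the Hasse-Witt matrix for `p = 7`: general form of the kernel vectors.
-/

set_option autoImplicit false

namespace LIF

open Polynomial

/-- the polynomial of a vector -/
noncomputable def vp {N : ℕ} (v : Fin N → ZMod 7) : (ZMod 7)[X] :=
  ∑ j : Fin N, C (v j) * X ^ (j : ℕ)

theorem h7z' : (7 : ZMod 7) = 0 := by decide

theorem vp_coeff {N : ℕ} (v : Fin N → ZMod 7) (e : ℕ) :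
    (vp v).coeff e = if h : e < N then v ⟨e, h⟩ else 0 := by
  unfold vp
  rw [finsetSum_coeff]
  split_ifs with h
  · rw [Finset.sum_eq_single (⟨e, h⟩ : Fin N)]
    · simp
    · intro b _ hb
      rw [coeff_C_mul, coeff_X_pow, if_neg, mul_zero]
      intro h'
      apply hb
      exact Fin.ext h'.symm
    · intro h'
      exact absurd (Finset.mem_univ _) h'
  · apply Finset.sum_eq_zero
    intro b _
    rw [coeff_C_mul, coeff_X_pow, if_neg, mul_zero]
    intro h'
    apply h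
    rw [h']
    exact b.2

theorem om_coeff (V : (ZMod 7)[X]) (e : ℕ) : ((1 - X) ^ ((7 - 1) / 2) * V).coeff e =
    V.coeff e - 3 * (if 1 ≤ e then V.coeff (e - 1) else 0)
      + 3 * (if 2 ≤ e then V.coeff (e - 2) else 0) - (if 3 ≤ e then V.coeff (e - 3) else 0) := by
  have h : ((1 - X) ^ ((7 - 1) / 2) * V : (ZMod 7)[X]) =
      V - C 3 * (X ^ 1 * V) + C 3 * (X ^ 2 * V) - X ^ 3 * V := by
    have h3 : (C (3 : ZMod 7) : (ZMod 7)[X]) = 3 := C_ofNat 3
    rw [h3, show (7 - 1) / 2 = 3 from rfl]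
    ring
  rw [h]
  simp only [coeff_add, coeff_sub, coeff_C_mul, coeff_X_pow_mul']

theorem om_natDegree {N : ℕ} (hN : 3 ≤ N) (v : Fin N → ZMod 7) :
    ((1 - X) ^ ((7 - 1) / 2) * vp v).natDegree < N + (7 - 1) / 2 := by
  rw [show (7 - 1) / 2 = 3 from rfl, Nat.lt_iff_add_one_le, Nat.lt_iff_add_one_le.symm,
    Nat.lt_iff_le_pred (by omega), natDegree_le_iff_coeff_eq_zero]
  intro e he
  have := om_coeff (vp v) e
  rw [show (7 - 1) / 2 = 3 from rfl] at this
  rw [this]
  simp only [vp_coeff]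
  have h1 : ¬ e < N := by omega
  have h2 : ¬ e - 1 < N := by omega
  have h3 : ¬ e - 2 < N := by omega
  have h4 : ¬ e - 3 < N := by omega
  simp [h1, h2, h3, h4]

theorem ker7 {N : ℕ} (hN : 3 ≤ N) (h7 : ¬ 7 ∣ N) (v : Fin N → ZMod 7)
    (hv : (A7 N).mulVec v = 0) :
    ∃ q : ZMod 7 → ZMod 7, (∃ a b c : ZMod 7, ∀ x, q x = a + b * x + c * x ^ 2) ∧
      (∀ j : Fin N, v j = q ((j : ℕ) : ZMod 7)) ∧
      (∀ d, 1 ≤ d → d < 7 → 7 ∣ 0 + 1 + N * d →
        E7.coeff d * q 0 + E7.coeff (d - 1) * (- q (N : ZMod 7)) = 0) ∧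
      (∀ d, 1 ≤ d → d < 7 → 7 ∣ 1 + 1 + N * d →
        E7.coeff d * (q 1 - 3 * q 0) +
          E7.coeff (d - 1) * (3 * q ((N : ZMod 7) - 1) - q ((N : ZMod 7) - 2)) = 0) ∧
      (∀ d, 1 ≤ d → d < 7 → 7 ∣ 2 + 1 + N * d →
        E7.coeff d * (q 2 - 3 * q 1 + 3 * q 0) +
          E7.coeff (d - 1) * (- q ((N : ZMod 7) - 1)) = 0) := by
  have : Fact (Nat.Prime 7) := ⟨by norm_num⟩
  set ω : (ZMod 7)[X] := (1 - X) ^ ((7 - 1) / 2) * vp v with hω
  have hJ := junction (p := 7) (N := N) (by norm_num) (by omega) h7 E7 ω E7_natDegree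
    (fun c hc => E7_ne c hc) (om_natDegree hN v)
    (by
      intro i hi
      have h1 := hwr_mulVec (p := 7) (by norm_num)
        ((1 - X) ^ ((7 - 1) / 2) * expand (ZMod 7) N E7) v ⟨i, hi⟩
      rw [← A7_eq, hv] at h1
      simp only [Pi.zero_apply] at h1
      rw [hω, show expand (ZMod 7) N E7 * ((1 - X) ^ ((7 - 1) / 2) * vp v) =
        (1 - X) ^ ((7 - 1) / 2) * expand (ZMod 7) N E7 * vp v by ring]
      exact h1.symm)
  obtain ⟨hJ1, hJ2⟩ := hJ
  have hco : ∀ e, ω.coeff e = (vp v).coeff e - 3 * (if 1 ≤ e then (vp v).coeff (e - 1) else 0)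
      + 3 * (if 2 ≤ e then (vp v).coeff (e - 2) else 0)
      - (if 3 ≤ e then (vp v).coeff (e - 3) else 0) := fun e => om_coeff (vp v) e
  set V : ℕ → ZMod 7 := fun e => (vp v).coeff e with hV
  have hVv : ∀ j : Fin N, V j = v j := by
    intro j
    simp only [hV, vp_coeff, j.2, dif_pos]
  have hVz : ∀ e, N ≤ e → V e = 0 := by
    intro e he
    simp only [hV, vp_coeff]
    rw [dif_neg (by omega)]
  -- the quadratic polynomial
  set a : ZMod 7 := V 0 with ha
  set c : ZMod 7 := 4 * (V 2 - 2 * V 1 + V 0) with hc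
  set b : ZMod 7 := V 1 - V 0 - c with hb
  have h7z := h7z'
  have hq : ∀ e, e < N → V e = a + b * (e : ZMod 7) + c * (e : ZMod 7) ^ 2 := by
    intro e
    induction e using Nat.strong_induction_on with
    | _ e ih =>
      intro he
      rcases e with _ | _ | _ | e
      · simp [ha]
      · simp only [hb, ha]; push_cast; ring
      · simp only [hb, hc, ha]; push_cast
        linear_combination (-V 2 + 2 * V 1 - V 0) * h7z
      · have h0 := hJ1 (e + 3) (by omega) he
        rw [hco, if_pos (by omega), if_pos (by omega), if_pos (by omega)] at h0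
        have e1 := ih (e + 2) (by omega) (by omega)
        have e2 := ih (e + 1) (by omega) (by omega)
        have e3 := ih e (by omega) (by omega)
        have h0' : V (e + 3) - 3 * V (e + 2) + 3 * V (e + 1) - V e = 0 := h0
        push_cast at e1 e2 e3 ⊢
        linear_combination h0' + 3 * e1 - 3 * e2 + e3
  refine ⟨fun x => a + b * x + c * x ^ 2, ⟨a, b, c, fun x => rfl⟩, ?_, ?_, ?_, ?_⟩
  · intro j
    rw [← hVv j]
    exact hq j j.2
  · intro d hd1 hd2 hd3
    have h := hJ2 0 (by norm_num) d hd1 hd2 hd3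
    rw [hco 0, hco (N + 0), if_neg (by omega), if_neg (by omega), if_neg (by omega),
      if_pos (by omega), if_pos (by omega), if_pos (by omega)] at h
    have h' : E7.coeff d * (V 0 - 3 * 0 + 3 * 0 - 0) + E7.coeff (d - 1) *
      (V (N + 0) - 3 * V (N + 0 - 1) + 3 * V (N + 0 - 2) - V (N + 0 - 3)) = 0 := h
    rw [hVz (N + 0) (by omega), hq (N + 0 - 1) (by omega), hq (N + 0 - 2) (by omega),
      hq (N + 0 - 3) (by omega)] at h'
    obtain ⟨M, rfl⟩ : ∃ M, N = M + 3 := ⟨N - 3, by omega⟩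
    simp only [show M + 3 + 0 - 1 = M + 2 by omega, show M + 3 + 0 - 2 = M + 1 by omega,
      show M + 3 + 0 - 3 = M by omega] at h'
    push_cast at h' ⊢
    linear_combination h'
  · intro d hd1 hd2 hd3
    have h := hJ2 1 (by norm_num) d hd1 hd2 hd3
    rw [hco 1, hco (N + 1), if_pos (by omega), if_neg (by omega), if_neg (by omega),
      if_pos (by omega), if_pos (by omega), if_pos (by omega)] at h
    have h' : E7.coeff d * (V 1 - 3 * V (1 - 1) + 3 * 0 - 0) + E7.coeff (d - 1) *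
      (V (N + 1) - 3 * V (N + 1 - 1) + 3 * V (N + 1 - 2) - V (N + 1 - 3)) = 0 := h
    rw [hVz (N + 1) (by omega), hVz (N + 1 - 1) (by omega), hq (N + 1 - 2) (by omega),
      hq (N + 1 - 3) (by omega), hq 1 (by omega), hq (1 - 1) (by omega)] at h'
    obtain ⟨M, rfl⟩ : ∃ M, N = M + 3 := ⟨N - 3, by omega⟩
    simp only [show M + 3 + 1 - 2 = M + 2 by omega, show M + 3 + 1 - 3 = M + 1 by omega] at h'
    push_cast at h' ⊢
    linear_combination h'
  · intro d hd1 hd2 hd3
    have h := hJ2 2 (by norm_num) d hd1 hd2 hd3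
    rw [hco 2, hco (N + 2), if_pos (by omega), if_pos (by omega), if_neg (by omega),
      if_pos (by omega), if_pos (by omega), if_pos (by omega)] at h
    have h' : E7.coeff d * (V 2 - 3 * V (2 - 1) + 3 * V (2 - 2) - 0) + E7.coeff (d - 1) *
      (V (N + 2) - 3 * V (N + 2 - 1) + 3 * V (N + 2 - 2) - V (N + 2 - 3)) = 0 := h
    rw [hVz (N + 2) (by omega), hVz (N + 2 - 1) (by omega), hVz (N + 2 - 2) (by omega),
      hq (N + 2 - 3) (by omega), hq 2 (by omega), hq (2 - 1) (by omega),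
      hq (2 - 2) (by omega)] at h'
    obtain ⟨M, rfl⟩ : ∃ M, N = M + 3 := ⟨N - 3, by omega⟩
    simp only [show M + 3 + 2 - 3 = M + 2 by omega] at h'
    push_cast at h' ⊢
    linear_combination h'

/-- `N = 7 n + 2` -/
theorem ker7a {N n : ℕ} (hn : 1 ≤ n) (hN : N = 7 * n + 2) (v : Fin N → ZMod 7)
    (hv : (A7 N).mulVec v = 0) :
    ∃ t : ZMod 7, v = fun j : Fin N => t * (((j : ℕ) : ZMod 7) * (((j : ℕ) : ZMod 7) - 2)) := by
  have h7z : (7 : ZMod 7) = 0 := by decide
  obtain ⟨q, ⟨a, b, c, hq⟩, hvq, r0, r1, r2⟩ := ker7 (by omega) (by omega) v hv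
  have hN7 : (N : ZMod 7) = 2 := by
    rw [hN]; push_cast; linear_combination (n : ZMod 7) * h7z
  have s0 := r0 3 (by norm_num) (by norm_num) (by omega)
  have s1 := r1 6 (by norm_num) (by norm_num) (by omega)
  have s2 := r2 2 (by norm_num) (by norm_num) (by omega)
  rw [hN7] at s0 s1 s2
  simp only [E7_coeff, hq] at s0 s1 s2
  norm_num at s0 s1 s2
  have ha : a = 0 ∧ b = -2 * c := by
    revert s0 s1 s2
    clear * -
    revert a b c
    decide
  refine ⟨c, ?_⟩
  funext j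
  rw [hvq j, hq, ha.1, ha.2]
  ring

/-- `N = 7 n + 4` -/
theorem ker7b {N n : ℕ} (hN : N = 7 * n + 4) (v : Fin N → ZMod 7)
    (hv : (A7 N).mulVec v = 0) :
    ∃ t : ZMod 7, v = fun j : Fin N => t * (((j : ℕ) : ZMod 7) ^ 2 + 1) := by
  have h7z : (7 : ZMod 7) = 0 := by decide
  obtain ⟨q, ⟨a, b, c, hq⟩, hvq, r0, r1, r2⟩ := ker7 (by omega) (by omega) v hv
  have hN7 : (N : ZMod 7) = 4 := by
    rw [hN]; push_cast; linear_combination (n : ZMod 7) * h7z
  have s0 := r0 5 (by norm_num) (by norm_num) (by omega)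
  have s1 := r1 3 (by norm_num) (by norm_num) (by omega)
  have s2 := r2 1 (by norm_num) (by norm_num) (by omega)
  rw [hN7] at s0 s1 s2
  simp only [E7_coeff, hq] at s0 s1 s2
  norm_num at s0 s1 s2
  have ha : a = c ∧ b = 0 := by
    revert s0 s1 s2
    clear * -
    revert a b c
    decide
  refine ⟨c, ?_⟩
  funext j
  rw [hvq j, hq, ha.1, ha.2]
  ring

end LIF
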