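import Pool.Agent.helper1.LI.Defs

/-!
[LI-LKer] A left kernel vector (imports only `Defs`).  Proved by helper11.

`r = (p-1)/2 ≤ N`, `p ∤ N`, `F = (1 - X)^r E(X^N)`, `E` of degree `≤ p - 1`, `B` a polynomial of
degree `< r`, `β : ℕ → F_p` with `E_c β_c = B(-1 - N c)` for `c < p` and `E_c β_(c+1) = B(N + m)`
whenever `m < r`, `c < p` and `p ∣ m + 1 + N + N c`.  Then the vector
`w_i = β_(⌊(p (i+1) - 1) / N⌋)`, `i < N`, is in the left kernel of the matrix `HWr p N F`.

Proof.  `F = ∑_{c < p} ∑_{l ≤ r} E_c (-1)^l C(r, l) X^(N c + l)`.  Fix a column `j < N`, put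
`b = j + 1`.  `∑_i w_i F_(p (i+1) - b)` is the sum over all triples `(i, c, l)` with
`p (i+1) = b + N c + l` of `w_i E_c (-1)^l C(r, l)`.  For each `l ≤ r` there is exactly one `c < p`
with `p ∣ b + N c + l` (as `p ∤ N`), call it `c_l`, and then `i` is determined, `b + N c + l ≥ 1`
so `i + 1 ≥ 1`.  Claim: `i < N` and `w_i E_c = B(j + l)` (`j + l` as an element of `F_p`).
* `j + l < N`: `p (i+1) = j + l + 1 + N c ≤ N + N (p-1) = N p`, so `i < N`;
  `(p (i+1) - 1) / N = (j + l + N c)/N = c`, `w_i E_c = β_c E_c = B(-1 - N c) = B(j + l)` because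
  `j + 1 + N c + l = 0` in `F_p`.
* `j + l ≥ N`, `m = j + l - N ≤ r - 1` (`j ≤ N - 1`, `l ≤ r`): `p ∣ m + 1 + N + N c`.  If `c = p-1`
  then `p ∣ m + 1`, impossible as `1 ≤ m + 1 ≤ r < p`.  So `c ≤ p - 2` and
  `p (i+1) ≤ N + r + N (p-2) ≤ N p`, so `i < N`; `(j + l + N c)/N = (m + N (c+1))/N = c + 1`
  (`m < r ≤ N`), `w_i E_c = β_(c+1) E_c = B(N + m) = B(j + l)`.
So the sum is `∑_{l ≤ r} (-1)^l C(r, l) B(j + l) = 0`, since `deg B < r` (r-th difference:
`fwdDiff_iter_eq_sum_shift`, `Polynomial.fwdDiff_iter_eq_zero_of_degree_lt` or similar;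
`Mathlib/Algebra/Group/ForwardDiff.lean`).
-/

set_option autoImplicit false

namespace LIF

open Polynomial

/-- the `r`-th difference of a polynomial of degree `< r` -/
theorem LKer_diff {p : ℕ} [Fact p.Prime] (B : (ZMod p)[X]) (r : ℕ) (hB : B.natDegree < r)
    (y : ZMod p) :
    ∑ l ∈ Finset.range (r + 1), ((-1 : ZMod p) ^ l * (r.choose l : ZMod p)) *
      B.eval (y + (l : ZMod p)) = 0 := by
  have h0 : (fwdDiff (1 : ZMod p))^[r] (fun x => B.eval x) y = 0 := by
    have h := Polynomial.fwdDiff_iter_eq_zero_of_degree_lt (P := B) (n := r) hB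
    exact congrFun h y
  rw [fwdDiff_iter_eq_sum_shift] at h0
  have h1 : ∑ l ∈ Finset.range (r + 1), ((-1 : ZMod p) ^ l * (r.choose l : ZMod p)) *
      B.eval (y + (l : ZMod p)) = (-1) ^ r * ∑ k ∈ Finset.range (r + 1),
        ((-1 : ℤ) ^ (r - k) * r.choose k) • B.eval (y + k • (1 : ZMod p)) := by
    rw [Finset.mul_sum]
    refine Finset.sum_congr rfl (fun l hl => ?_)
    have hl' : l ≤ r := Nat.lt_succ_iff.mp (Finset.mem_range.mp hl)
    have h2 : (-1 : ZMod p) ^ r * (-1) ^ (r - l) = (-1) ^ l := by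
      have h3 : (-1 : ZMod p) ^ r = (-1) ^ l * (-1) ^ (r - l) := by
        rw [← pow_add]; congr 1; omega
      rw [h3, mul_assoc, ← pow_add, ← two_mul, pow_mul]
      simp
    rw [zsmul_eq_mul]
    push_cast
    simp only [nsmul_eq_mul, mul_one]
    rw [← h2]
    ring
  rw [h1, h0, mul_zero]

theorem LKer_ex {p N : ℕ} [Fact p.Prime] (hpN : ¬ p ∣ N) (t : ℕ) : ∃ c < p, p ∣ t + N * c := by
  have hN : (N : ZMod p) ≠ 0 := by
    rwa [Ne, ZMod.natCast_eq_zero_iff]
  refine ⟨(-(t : ZMod p) / N).val, ZMod.val_lt _, ?_⟩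
  rw [← ZMod.natCast_eq_zero_iff]
  push_cast
  rw [ZMod.natCast_val, ZMod.cast_id]
  field_simp
  ring

theorem LKer_uniq {p N : ℕ} [Fact p.Prime] (hpN : ¬ p ∣ N) (t c c' : ℕ) (hc : c < p)
    (hc' : c' < p) (h : p ∣ t + N * c) (h' : p ∣ t + N * c') : c = c' := by
  have hN : (N : ZMod p) ≠ 0 := by
    rwa [Ne, ZMod.natCast_eq_zero_iff]
  rw [← ZMod.natCast_eq_zero_iff] at h h'
  push_cast at h h'
  have h3 : (N : ZMod p) * (c : ZMod p) = (N : ZMod p) * (c' : ZMod p) := by
    linear_combination h - h'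
  have h4 : (c : ZMod p) = (c' : ZMod p) := mul_left_cancel₀ hN h3
  rw [ZMod.natCast_eq_natCast_iff] at h4
  exact Nat.ModEq.eq_of_lt_of_lt h4 hc hc'

/-- the contribution of the term with index `l` -/
theorem LKer_term {p N : ℕ} [Fact p.Prime] (hp2 : p ≠ 2) (hN : (p - 1) / 2 ≤ N)
    (hpN : ¬ p ∣ N) (E B : (ZMod p)[X]) (β : ℕ → ZMod p) (hE : E.natDegree ≤ p - 1)
    (h1 : ∀ c < p, E.coeff c * β c = B.eval (-1 - (N : ZMod p) * (c : ZMod p)))
    (h2 : ∀ m < (p - 1) / 2, ∀ c < p, p ∣ m + 1 + N + N * c →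
      E.coeff c * β (c + 1) = B.eval ((N : ZMod p) + (m : ZMod p)))
    (j : ℕ) (hj : j < N) (l : ℕ) (hl : l ≤ (p - 1) / 2) :
    ∑ i : Fin N, β ((p * ((i : ℕ) + 1) - 1) / N) *
      (if j + 1 ≤ p * ((i : ℕ) + 1) then
        (X ^ l * expand (ZMod p) N E).coeff (p * ((i : ℕ) + 1) - (j + 1)) else 0) =
      B.eval ((j : ZMod p) + (l : ZMod p)) := by
  have hp : p.Prime := Fact.out
  have hp1 : 2 ≤ p := hp.two_le
  have hN0 : 0 < N := by omega
  obtain ⟨c, hc, hd⟩ := LKer_ex hpN (j + 1 + l)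
  have hd' := hd
  obtain ⟨q, hq⟩ := hd
  have hq1 : 1 ≤ q := by
    rcases Nat.eq_zero_or_pos q with h | h
    · subst h
      rw [Nat.mul_zero] at hq
      omega
    · exact h
  -- the two cases
  have key : q ≤ N ∧ E.coeff c * β ((p * q - 1) / N) = B.eval ((j : ZMod p) + (l : ZMod p)) := by
    by_cases hjl : j + l < N
    · constructor
      · have hcc : N * c ≤ N * (p - 1) := Nat.mul_le_mul_left N (by omega)
        have h3 : N * (p - 1) + N = N * p := by
          obtain ⟨s, rfl⟩ : ∃ s, p = s + 1 := ⟨p - 1, by omega⟩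
          simp only [Nat.add_sub_cancel]
          ring
        have h4 : p * q ≤ p * N := by
          rw [← hq]
          have h5 : p * N = N * p := Nat.mul_comm _ _
          rw [h5]
          omega
        exact Nat.le_of_mul_le_mul_left h4 (by omega)
      · have h3 : (p * q - 1) / N = c := by
          have h4 : p * q - 1 = (j + l) + N * c := by omega
          rw [h4, Nat.add_mul_div_left _ _ hN0, Nat.div_eq_of_lt hjl]
          omega
        rw [h3, h1 c hc]
        congr 1
        rw [← ZMod.natCast_eq_zero_iff] at hd'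
        push_cast at hd'
        linear_combination -hd'
    · obtain ⟨m, hm⟩ : ∃ m, j + l = N + m := ⟨j + l - N, by omega⟩
      have hmr : m < (p - 1) / 2 := by omega
      have hdm : p ∣ m + 1 + N + N * c := by
        have h3 : m + 1 + N + N * c = j + 1 + l + N * c := by omega
        rw [h3]
        exact hd'
      have hcp : c + 2 ≤ p := by
        by_contra hcon
        have h3 : c + 1 = p := by omega
        have h4 : m + 1 + N + N * c = (m + 1) + N * p := by
          rw [← h3]; ring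
        rw [h4] at hdm
        have h5 : p ∣ m + 1 := (Nat.dvd_add_left (Dvd.intro_left N rfl)).mp hdm
        have h6 := Nat.le_of_dvd (by omega) h5
        omega
      constructor
      · have hcc : N * c ≤ N * (p - 2) := Nat.mul_le_mul_left N (by omega)
        have h3 : N * (p - 2) + 2 * N = N * p := by
          obtain ⟨s, rfl⟩ : ∃ s, p = s + 2 := ⟨p - 2, by omega⟩
          simp only [Nat.add_sub_cancel]
          ring
        have h4 : p * q ≤ p * N := by
          rw [← hq]
          have h5 : p * N = N * p := Nat.mul_comm _ _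
          rw [h5]
          omega
        exact Nat.le_of_mul_le_mul_left h4 (by omega)
      · have h3 : (p * q - 1) / N = c + 1 := by
          have h4 : p * q - 1 = m + N * (c + 1) := by
            have h5 : N * (c + 1) = N * c + N := by ring
            rw [h5]
            omega
          have h6 : m < N := by omega
          rw [h4, Nat.add_mul_div_left _ _ hN0, Nat.div_eq_of_lt h6]
          omega
        rw [h3, h2 m hmr c hc hdm]
        congr 1
        have h4 : ((j + l : ℕ) : ZMod p) = ((N + m : ℕ) : ZMod p) := by rw [hm]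
        push_cast at h4
        exact h4.symm
  obtain ⟨hqN, hval⟩ := key
  have hi0 : q - 1 < N := by omega
  rw [Finset.sum_eq_single (⟨q - 1, hi0⟩ : Fin N)]
  · have h3 : q - 1 + 1 = q := by omega
    simp only [h3]
    rw [if_pos (by omega), coeff_X_pow_mul', if_pos (by omega), coeff_expand hN0]
    have h4 : p * q - (j + 1) - l = N * c := by omega
    rw [h4, if_pos (Dvd.intro _ rfl), Nat.mul_div_cancel_left _ hN0, mul_comm]
    exact hval
  · intro i _ hi
    by_cases hle : j + 1 ≤ p * ((i : ℕ) + 1)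
    · rw [if_pos hle, coeff_X_pow_mul']
      by_cases hl2 : l ≤ p * ((i : ℕ) + 1) - (j + 1)
      · rw [if_pos hl2, coeff_expand hN0]
        by_cases hdv : N ∣ p * ((i : ℕ) + 1) - (j + 1) - l
        · rw [if_pos hdv]
          obtain ⟨c', hc'⟩ := hdv
          rw [hc', Nat.mul_div_cancel_left _ hN0]
          by_cases hcp : c' < p
          · exfalso
            have h5 : j + 1 + l + N * c' = p * ((i : ℕ) + 1) := by omega
            have h6 : c = c' := LKer_uniq hpN (j + 1 + l) c c' hc hcp hd' ⟨_, h5⟩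
            rw [← h6] at h5
            have h7 : p * q = p * ((i : ℕ) + 1) := by rw [← hq, ← h5]
            have h8 : q = (i : ℕ) + 1 := Nat.eq_of_mul_eq_mul_left (by omega) h7
            apply hi
            apply Fin.ext
            show (i : ℕ) = q - 1
            omega
          · rw [coeff_eq_zero_of_natDegree_lt (by omega), mul_zero]
        · rw [if_neg hdv, mul_zero]
      · rw [if_neg hl2, mul_zero]
    · rw [if_neg hle, mul_zero]
  · intro h
    exact absurd (Finset.mem_univ _) h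

theorem LKer_expand {p : ℕ} [Fact p.Prime] (r : ℕ) (G : (ZMod p)[X]) :
    (1 - X) ^ r * G = ∑ l ∈ Finset.range (r + 1),
      C ((-1 : ZMod p) ^ l * (r.choose l : ZMod p)) * (X ^ l * G) := by
  have h : (1 - X : (ZMod p)[X]) ^ r = ∑ l ∈ Finset.range (r + 1),
      C ((-1 : ZMod p) ^ l * (r.choose l : ZMod p)) * X ^ l := by
    have h1 : (1 - X : (ZMod p)[X]) = (-X) + 1 := by ring
    rw [h1, add_pow]
    refine Finset.sum_congr rfl (fun l _ => ?_)
    simp only [map_mul, map_pow, map_neg, map_one, map_natCast, one_pow, mul_one]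
    rw [neg_pow]
    ring
  rw [h, Finset.sum_mul]
  refine Finset.sum_congr rfl (fun l _ => ?_)
  ring

theorem left_kernel {p N : ℕ} [Fact p.Prime] (hp2 : p ≠ 2) (hN : (p - 1) / 2 ≤ N)
    (hpN : ¬ p ∣ N) (E B : (ZMod p)[X]) (β : ℕ → ZMod p) (hE : E.natDegree ≤ p - 1)
    (hB : B.natDegree < (p - 1) / 2)
    (h1 : ∀ c < p, E.coeff c * β c = B.eval (-1 - (N : ZMod p) * (c : ZMod p)))
    (h2 : ∀ m < (p - 1) / 2, ∀ c < p, p ∣ m + 1 + N + N * c →
      E.coeff c * β (c + 1) = B.eval ((N : ZMod p) + (m : ZMod p))) :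
    Matrix.vecMul (fun i : Fin N => β ((p * ((i : ℕ) + 1) - 1) / N))
      (HWr p N ((1 - X) ^ ((p - 1) / 2) * expand (ZMod p) N E)) = 0 := by
  have hrr := LKer_expand ((p - 1) / 2) (expand (ZMod p) N E)
  funext j
  show ∑ i : Fin N, β ((p * ((i : ℕ) + 1) - 1) / N) *
    (HWr p N ((1 - X) ^ ((p - 1) / 2) * expand (ZMod p) N E)) i j = 0
  have hj : (j : ℕ) < N := j.2
  have hterm : ∀ i : Fin N, (HWr p N ((1 - X) ^ ((p - 1) / 2) * expand (ZMod p) N E)) i j =
      ∑ l ∈ Finset.range ((p - 1) / 2 + 1),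
        ((-1 : ZMod p) ^ l * (((p - 1) / 2).choose l : ZMod p)) *
        (if (j : ℕ) + 1 ≤ p * ((i : ℕ) + 1) then
          (X ^ l * expand (ZMod p) N E).coeff (p * ((i : ℕ) + 1) - ((j : ℕ) + 1)) else 0) := by
    intro i
    unfold HWr
    by_cases h : (j : ℕ) + 1 ≤ p * ((i : ℕ) + 1)
    · simp only [if_pos h]
      rw [hrr, finsetSum_coeff]
      refine Finset.sum_congr rfl (fun l _ => ?_)
      rw [coeff_C_mul]
    · simp only [if_neg h, mul_zero, Finset.sum_const_zero]
  simp only [hterm, Finset.mul_sum]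
  rw [Finset.sum_comm]
  refine Eq.trans ?_ (LKer_diff B ((p - 1) / 2) hB ((j : ℕ) : ZMod p))
  refine Finset.sum_congr rfl (fun l hl => ?_)
  have hl' : l ≤ (p - 1) / 2 := Nat.lt_succ_iff.mp (Finset.mem_range.mp hl)
  rw [← LKer_term hp2 hN hpN E B β hE h1 h2 j hj l hl', Finset.mul_sum]
  refine Finset.sum_congr rfl (fun i _ => ?_)
  ring

end LIF
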