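import Pool.Agent.helper1.LI.X7Def
import Pool.Agent.helper1.LI.LKer

/-!
[LI-X7Left] the left kernels of the Hasse-Witt matrices for `p = 7` and the pairings.
-/

set_option autoImplicit false

namespace LIF

open Polynomial

theorem h7z'' : (7 : ZMod 7) = 0 := by decide

/-- the coefficients of `E7` -/
def e7 (c : ℕ) : ZMod 7 :=
  if c = 0 then 6 else if c = 1 then 2 else if c = 2 then 4 else if c = 3 then 2
    else if c = 4 then 3 else if c = 5 then 2 else if c = 6 then 1 else 0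

theorem E7_coeff' (c : ℕ) : E7.coeff c = e7 c := E7_coeff c

/-- block values for `N = 7 n + 2` -/
def ba (c : ℕ) : ZMod 7 := if c = 0 then 6 else if c < 5 then 5 else 0

/-- block values for `N = 7 n + 4` -/
def bb (c : ℕ) : ZMod 7 := if c < 2 then 2 else if c < 4 then 0 else if c < 6 then 6 else 3

/-- left kernel vector, `N = 7 n + 2` -/
def wa (N : ℕ) : Fin N → ZMod 7 := fun i => ba ((7 * ((i : ℕ) + 1) - 1) / N)

/-- left kernel vector, `N = 7 n + 4` -/
def wb (N : ℕ) : Fin N → ZMod 7 := fun i => bb ((7 * ((i : ℕ) + 1) - 1) / N)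

theorem ba1 : ∀ c < 7, e7 c * ba c = 3 + 3 * (-1 - 2 * (c : ZMod 7)) +
    (-1 - 2 * (c : ZMod 7)) ^ 2 := by
  decide

theorem bb1 : ∀ c < 7, e7 c * bb c = 5 + 1 * (-1 - 4 * (c : ZMod 7)) +
    (-1 - 4 * (c : ZMod 7)) ^ 2 := by
  decide

theorem ba2 : ∀ m : ℕ, m < 3 → ∀ c < 7, (m + 1 + 2 + 2 * c) % 7 = 0 →
    e7 c * ba (c + 1) = 3 + 3 * (2 + (m : ZMod 7)) + (2 + (m : ZMod 7)) ^ 2 := by
  decide

theorem bb2 : ∀ m : ℕ, m < 3 → ∀ c < 7, (m + 1 + 4 + 4 * c) % 7 = 0 →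
    e7 c * bb (c + 1) = 5 + 1 * (4 + (m : ZMod 7)) + (4 + (m : ZMod 7)) ^ 2 := by
  decide

theorem left7a {N n : ℕ} (hn : 1 ≤ n) (hN : N = 7 * n + 2) :
    Matrix.vecMul (wa N) (A7 N) = 0 := by
  have : Fact (Nat.Prime 7) := ⟨by norm_num⟩
  have hN7 : (N : ZMod 7) = 2 := by
    rw [hN]; push_cast; linear_combination (n : ZMod 7) * h7z''
  rw [A7_eq]
  have hB : (C 3 + C 3 * X + X ^ 2 : (ZMod 7)[X]).natDegree < (7 - 1) / 2 := by
    have : (C 3 + C 3 * X + X ^ 2 : (ZMod 7)[X]).natDegree ≤ 2 := by compute_degree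
    omega
  refine left_kernel (p := 7) (N := N) (by norm_num) (by omega) (by omega) E7
    (C 3 + C 3 * X + X ^ 2) ba E7_natDegree hB ?_ ?_
  · intro c hc
    rw [hN7]
    simp only [eval_add, eval_mul, eval_C, eval_X, eval_pow, E7_coeff']
    exact ba1 c hc
  · intro m hm c hc h
    rw [hN7]
    simp only [eval_add, eval_mul, eval_C, eval_X, eval_pow, E7_coeff']
    refine ba2 m hm c hc ?_
    have e : m + 1 + N + N * c = (m + 1 + 2 + 2 * c) + 7 * (n + n * c) := by rw [hN]; ring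
    rw [e] at h
    omega

theorem left7b {N n : ℕ} (hN : N = 7 * n + 4) :
    Matrix.vecMul (wb N) (A7 N) = 0 := by
  have : Fact (Nat.Prime 7) := ⟨by norm_num⟩
  have hN7 : (N : ZMod 7) = 4 := by
    rw [hN]; push_cast; linear_combination (n : ZMod 7) * h7z''
  rw [A7_eq]
  have hB : (C 5 + C 1 * X + X ^ 2 : (ZMod 7)[X]).natDegree < (7 - 1) / 2 := by
    have : (C 5 + C 1 * X + X ^ 2 : (ZMod 7)[X]).natDegree ≤ 2 := by compute_degree
    omega
  refine left_kernel (p := 7) (N := N) (by norm_num) (by omega) (by omega) E7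
    (C 5 + C 1 * X + X ^ 2) bb E7_natDegree hB ?_ ?_
  · intro c hc
    rw [hN7]
    simp only [eval_add, eval_mul, eval_C, eval_X, eval_pow, E7_coeff']
    exact bb1 c hc
  · intro m hm c hc h
    rw [hN7]
    simp only [eval_add, eval_mul, eval_C, eval_X, eval_pow, E7_coeff']
    refine bb2 m hm c hc ?_
    have e : m + 1 + N + N * c = (m + 1 + 4 + 4 * c) + 7 * (n + n * c) := by rw [hN]; ring
    rw [e] at h
    omega

/-- prefix sums -/
theorem prefa (x : ℕ) : ∑ i ∈ Finset.range x, ((i : ZMod 7) * ((i : ZMod 7) - 2)) =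
    5 * (x : ZMod 7) ^ 2 * ((x : ZMod 7) - 1) := by
  induction x with
  | zero => simp
  | succ x ih =>
    rw [Finset.sum_range_succ, ih]
    push_cast
    linear_combination (-2 * (x : ZMod 7) ^ 2 - (x : ZMod 7)) * h7z''

theorem prefb (x : ℕ) : ∑ i ∈ Finset.range x, ((i : ZMod 7) ^ 2 + 1) =
    (x : ZMod 7) ^ 2 * (3 - 2 * (x : ZMod 7)) := by
  induction x with
  | zero => simp
  | succ x ih =>
    rw [Finset.sum_range_succ, ih]
    push_cast
    linear_combination ((x : ZMod 7) ^ 2) * h7z''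

theorem sum_Ico_const (w f : ℕ → ZMod 7) (A : ZMod 7) {x y : ℕ} (hxy : x ≤ y)
    (h : ∀ i, x ≤ i → i < y → w i = A) :
    ∑ i ∈ Finset.Ico x y, w i * f i =
      A * (∑ i ∈ Finset.range y, f i - ∑ i ∈ Finset.range x, f i) := by
  rw [← Finset.sum_Ico_eq_sub _ hxy, Finset.mul_sum]
  refine Finset.sum_congr rfl fun i hi => ?_
  rw [Finset.mem_Ico] at hi
  rw [h i hi.1 hi.2]

theorem pair7a {N n : ℕ} (hn : 1 ≤ n) (hN : N = 7 * n + 2) (h7 : ¬ 7 ∣ n) :
    dotProduct (wa N) (fun j : Fin N => (((j : ℕ) : ZMod 7) * (((j : ℕ) : ZMod 7) - 2))) ≠ 0 := by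
  have hsum : dotProduct (wa N)
      (fun j : Fin N => (((j : ℕ) : ZMod 7) * (((j : ℕ) : ZMod 7) - 2))) =
      ∑ i ∈ Finset.range N, ba ((7 * (i + 1) - 1) / N) * ((i : ZMod 7) * ((i : ZMod 7) - 2)) := by
    rw [Finset.sum_range]
    rfl
  rw [hsum, Finset.range_eq_Ico, ← Finset.sum_Ico_consecutive _ (Nat.zero_le n) (by omega),
    ← Finset.sum_Ico_consecutive _ (show n ≤ 5 * n + 1 by omega) (by omega),
    sum_Ico_const _ _ 6 (Nat.zero_le n), sum_Ico_const _ _ 5 (show n ≤ 5 * n + 1 by omega),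
    sum_Ico_const _ _ 0 (show 5 * n + 1 ≤ N by omega)]
  · simp only [prefa]
    have key : ∀ m : ZMod 7, m ≠ 0 → m ^ 3 - m ^ 2 - m ≠ 0 := by decide
    have hn0 : (n : ZMod 7) ≠ 0 := by
      rw [Ne, ZMod.natCast_eq_zero_iff]; exact h7
    have := key _ hn0
    intro h
    apply this
    push_cast at h
    rw [← h]
    linear_combination (-447 * (n : ZMod 7) ^ 3 - 178 * (n : ZMod 7) ^ 2 - 18 * n) * h7z''
  · intro i hi1 hi2
    have : 5 ≤ (7 * (i + 1) - 1) / N := by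
      rw [Nat.le_div_iff_mul_le (by omega)]; omega
    unfold ba
    rw [if_neg (by omega), if_neg (by omega)]
  · intro i hi1 hi2
    have h1 : 1 ≤ (7 * (i + 1) - 1) / N := by
      rw [Nat.le_div_iff_mul_le (by omega)]; omega
    have h2 : (7 * (i + 1) - 1) / N < 5 := by
      rw [Nat.div_lt_iff_lt_mul (by omega)]; omega
    unfold ba
    rw [if_neg (by omega), if_pos h2]
  · intro i hi1 hi2
    have h2 : (7 * (i + 1) - 1) / N < 1 := by
      rw [Nat.div_lt_iff_lt_mul (by omega)]; omega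
    unfold ba
    rw [if_pos (Nat.lt_one_iff.mp h2)]

theorem pair7b {N n : ℕ} (hN : N = 7 * n + 4) (h1 : n % 7 ≠ 1) (h5 : n % 7 ≠ 5) :
    dotProduct (wb N) (fun j : Fin N => (((j : ℕ) : ZMod 7) ^ 2 + 1)) ≠ 0 := by
  have hsum : dotProduct (wb N)
      (fun j : Fin N => (((j : ℕ) : ZMod 7) ^ 2 + 1)) =
      ∑ i ∈ Finset.range N, bb ((7 * (i + 1) - 1) / N) * ((i : ZMod 7) ^ 2 + 1) := by
    rw [Finset.sum_range]
    rfl
  rw [hsum, Finset.range_eq_Ico,
    ← Finset.sum_Ico_consecutive _ (Nat.zero_le (2 * n + 1)) (by omega),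
    ← Finset.sum_Ico_consecutive _ (show 2 * n + 1 ≤ 4 * n + 2 by omega) (by omega),
    ← Finset.sum_Ico_consecutive _ (show 4 * n + 2 ≤ 6 * n + 3 by omega) (by omega),
    sum_Ico_const _ _ 2 (Nat.zero_le (2 * n + 1)),
    sum_Ico_const _ _ 0 (show 2 * n + 1 ≤ 4 * n + 2 by omega),
    sum_Ico_const _ _ 6 (show 4 * n + 2 ≤ 6 * n + 3 by omega),
    sum_Ico_const _ _ 3 (show 6 * n + 3 ≤ N by omega)]
  · simp only [prefb]
    have key : ∀ m : ZMod 7, m ≠ 1 → m ≠ 5 → 4 * (m ^ 2 + m + 5) ≠ 0 := by decide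
    have hn1 : (n : ZMod 7) ≠ 1 := by
      intro h
      have h' : ((n : ℕ) : ZMod 7) = ((1 : ℕ) : ZMod 7) := by simpa using h
      rw [ZMod.natCast_eq_natCast_iff'] at h'
      omega
    have hn5 : (n : ZMod 7) ≠ 5 := by
      intro h
      have h' : ((n : ℕ) : ZMod 7) = ((5 : ℕ) : ZMod 7) := by simpa using h
      rw [ZMod.natCast_eq_natCast_iff'] at h'
      omega
    have := key _ hn1 hn5
    intro h
    apply this
    have hN7 : (N : ZMod 7) = 4 := by
      rw [hN]; push_cast; linear_combination (n : ZMod 7) * h7z''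
    rw [hN7] at h
    push_cast at h
    rw [← h]
    linear_combination (45 + 52 * (n : ZMod 7) + 112 * (n : ZMod 7) ^ 2 + 80 * (n : ZMod 7) ^ 3) * h7z''
  · intro i hi1 hi2
    have : 6 ≤ (7 * (i + 1) - 1) / N := by
      rw [Nat.le_div_iff_mul_le (by omega)]; omega
    unfold bb
    rw [if_neg (by omega), if_neg (by omega), if_neg (by omega)]
  · intro i hi1 hi2
    have h1 : 4 ≤ (7 * (i + 1) - 1) / N := by
      rw [Nat.le_div_iff_mul_le (by omega)]; omega
    have h2 : (7 * (i + 1) - 1) / N < 6 := by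
      rw [Nat.div_lt_iff_lt_mul (by omega)]; omega
    unfold bb
    rw [if_neg (by omega), if_neg (by omega), if_pos h2]
  · intro i hi1 hi2
    have h1 : 2 ≤ (7 * (i + 1) - 1) / N := by
      rw [Nat.le_div_iff_mul_le (by omega)]; omega
    have h2 : (7 * (i + 1) - 1) / N < 4 := by
      rw [Nat.div_lt_iff_lt_mul (by omega)]; omega
    unfold bb
    rw [if_neg (by omega), if_pos h2]
  · intro i hi1 hi2
    have h2 : (7 * (i + 1) - 1) / N < 2 := by
      rw [Nat.div_lt_iff_lt_mul (by omega)]; omega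
    unfold bb
    rw [if_pos h2]

end LIF
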