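import Pool.Agent.helper1.LI.Crit
import Pool.Agent.helper1.LI.X7Irr
import Pool.Agent.helper1.LI.X7Ker
import Pool.Agent.helper1.LI.X7Left
import Pool.Agent.helper1.LI.XLin
import Pool.Agent.helper1.LI.Base

/-!
[LI-Top7] The explicit family over `F_7` (assembly).
-/

set_option autoImplicit false

namespace LIF

open Polynomial

theorem pow2_mod49 (k : ℕ) : 2 ^ k % 49 = 2 ^ (k % 21) % 49 := by
  have h : ∀ t : ℕ, (2 ^ 21) ^ t % 49 = 1 := by
    intro t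
    rw [Nat.pow_mod]; norm_num
  conv_lhs => rw [← Nat.div_add_mod k 21, pow_add, pow_mul, Nat.mul_mod, h]
  norm_num

/-- determinant argument: if a nonzero vector is in the left kernel then there is a nonzero vector
in the kernel -/
theorem exists_ker_of_left {K : Type*} [Field K] {g : ℕ} (A : Matrix (Fin g) (Fin g) K)
    (w : Fin g → K) (hw : Matrix.vecMul w A = 0) (hw0 : w ≠ 0) :
    ∃ v : Fin g → K, v ≠ 0 ∧ A.mulVec v = 0 := by
  apply Matrix.exists_mulVec_eq_zero_iff.mpr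
  exact Matrix.exists_vecMul_eq_zero_iff.mp ⟨w, hw0, hw⟩

theorem simple_zero' {K : Type*} [Field K] {g : ℕ} (A : Matrix (Fin g) (Fin g) K)
    (v w : Fin g → K)
    (hker : ∀ u, A.mulVec u = 0 → ∃ c : K, u = c • v) (hw : Matrix.vecMul w A = 0)
    (hwv : dotProduct w v ≠ 0) :
    A.charpoly.coeff 0 = 0 ∧ A.charpoly.coeff 1 ≠ 0 := by
  have hw0 : w ≠ 0 := by
    rintro rfl
    simp at hwv
  have hv0 : v ≠ 0 := by
    rintro rfl
    simp at hwv
  obtain ⟨u, hu0, hu⟩ := exists_ker_of_left A w hw hw0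
  obtain ⟨c, hc⟩ := hker u hu
  have hc0 : c ≠ 0 := by
    rintro rfl
    apply hu0
    rw [hc, zero_smul]
  have hv : A.mulVec v = 0 := by
    rw [hc, Matrix.mulVec_smul] at hu
    exact (smul_eq_zero.mp hu).resolve_left hc0
  exact simple_zero A v w hv hv0 hker hw hwv

theorem explicit7 {k : ℕ} [Fact (Nat.Prime 7)]
    (hk : k % 21 ∈ ({2, 4, 5, 7, 10, 13, 14, 16, 17, 19, 20} : Finset ℕ)) {a : ℕ} (ha : 1 ≤ a) :
    LICurveOver 7 a (2 ^ k) (Dp (X ^ (2 * 2 ^ k) + 3 * X ^ (2 ^ k) - 1 : (ZMod 7)[X])) := by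
  have h49 := pow2_mod49 k
  have hk1 : 1 ≤ k := by
    rcases Nat.eq_zero_or_pos k with h | h
    · subst h
      simp at hk
    · exact h
  have hsz : (A7 (2 ^ k)).charpoly.coeff 0 = 0 ∧ (A7 (2 ^ k)).charpoly.coeff 1 ≠ 0 := by
    have hcases : (2 ^ k % 7 = 2 ∧ 2 ^ k % 49 ≠ 2) ∨
        (2 ^ k % 7 = 4 ∧ 2 ^ k % 49 ≠ 11 ∧ 2 ^ k % 49 ≠ 39) := by
      simp only [Finset.mem_insert, Finset.mem_singleton] at hk
      rcases hk with h | h | h | h | h | h | h | h | h | h | h <;>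
        (rw [h] at h49; norm_num at h49; omega)
    rcases hcases with ⟨h2, h3⟩ | ⟨h4, h5, h6⟩
    · obtain ⟨n, hn⟩ : ∃ n, 2 ^ k = 7 * n + 2 := ⟨2 ^ k / 7, by omega⟩
      have hn7 : ¬ 7 ∣ n := by omega
      have hn1 : 1 ≤ n := by
        rcases Nat.eq_zero_or_pos n with h | h
        · exact absurd (h ▸ dvd_zero 7) hn7
        · exact h
      refine simple_zero' (A7 (2 ^ k))
        (fun j : Fin (2 ^ k) => (((j : ℕ) : ZMod 7) * (((j : ℕ) : ZMod 7) - 2))) (wa (2 ^ k))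
        ?_ (left7a hn1 hn) (pair7a hn1 hn hn7)
      intro u hu
      obtain ⟨t, ht⟩ := ker7a hn1 hn u hu
      exact ⟨t, by rw [ht]; rfl⟩
    · obtain ⟨n, hn⟩ : ∃ n, 2 ^ k = 7 * n + 4 := ⟨2 ^ k / 7, by omega⟩
      refine simple_zero' (A7 (2 ^ k))
        (fun j : Fin (2 ^ k) => (((j : ℕ) : ZMod 7) ^ 2 + 1)) (wb (2 ^ k))
        ?_ (left7b hn) (pair7b hn (by omega) (by omega))
      intro u hu
      obtain ⟨t, ht⟩ := ker7b hn u hu
      exact ⟨t, by rw [ht]; rfl⟩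
  exact licurve_over (criterion hk1 (good7 k) hsz.1 hsz.2) ha

end LIF
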