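import Pool.Agent.helper1.LI.Mon
import Pool.Agent.helper1.LI.Sym

/-!
[LI-Par] Parity of the coefficients `S_d` (import the stubs `Mon`, `Sym`).

`Sd_zero`: `Mon p 0 = {1}`.
For monic `h`: `chi (Dp h0) h = ch1 h * chh h0 h` is odd iff `h(1) ≠ 0` and `¬ h0 ∣ h` (values
`0, ±1`), so `S_d ≡ #{h ∈ Mon p d : h(1) ≠ 0, ¬ h0 ∣ h} (mod 2)`.
* `1 ≤ d < 2 g`: `h0 ∤ h` by degree (`h ≠ 0`), the number is `p^d - p^(d-1) = p^(d-1)(p-1)`
  (`sum_Mon_root` with `φ = 1`, `card_Mon`), even since `p` is odd.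
* `d = 2 g`: the only monic multiple of `h0` of degree `2 g` is `h0`, and `h0(1) ≠ 0` (since
  `quadraticChar (h0(1)) = -1`), so the number is `p^(2g) - p^(2g-1) - 1`, odd.
-/

set_option autoImplicit false

namespace LIF

open Polynomial

variable {p : ℕ} [Fact p.Prime] {g : ℕ} {h0 : (ZMod p)[X]}

theorem Par_card {d : ℕ} (hd : 1 ≤ d) :
    ((Mon p d).filter (fun h => h.eval 1 ≠ 0)).card + p ^ (d - 1) = p ^ d := by
  obtain ⟨e, rfl⟩ : ∃ e, d = e + 1 := ⟨d - 1, by omega⟩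
  have h1 := sum_Mon_root (p := p) (fun _ => (1 : ℕ)) e
  rw [Finset.sum_const, Finset.sum_const, smul_eq_mul, smul_eq_mul, mul_one, mul_one,
    card_Mon] at h1
  have h2 := Finset.card_filter_add_card_filter_not (s := Mon p (e + 1))
    (fun h : (ZMod p)[X] => h.eval 1 = 0)
  rw [h1, card_Mon] at h2
  rw [Nat.add_sub_cancel, add_comm]
  exact h2

theorem Par_odd (hp : p ≠ 2) : Odd p :=
  (Fact.out : p.Prime).odd_of_ne_two hp

theorem Par_card_even (hp : p ≠ 2) {d : ℕ} (hd : 1 ≤ d) :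
    Even ((Mon p d).filter (fun h => h.eval 1 ≠ 0)).card := by
  have h1 := Par_card (p := p) hd
  have h2 : Odd (p ^ (d - 1)) := (Par_odd hp).pow
  have h3 : Odd (p ^ d) := (Par_odd hp).pow
  rw [← h1] at h3
  exact (Nat.odd_add'.1 h3).1 h2

open Classical in
theorem Par_sum (hg : Good p g h0) (d : ℕ) :
    Even (Sd (Dp h0) d -
      (((Mon p d).filter (fun h => h.eval 1 ≠ 0 ∧ ¬ h0 ∣ h)).card : ℤ)) := by
  have h1 : (((Mon p d).filter (fun h => h.eval 1 ≠ 0 ∧ ¬ h0 ∣ h)).card : ℤ) =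
      ∑ h ∈ Mon p d, if h.eval 1 ≠ 0 ∧ ¬ h0 ∣ h then (1 : ℤ) else 0 := by
    rw [Finset.sum_boole]
  rw [h1]
  unfold Sd
  rw [← Finset.sum_sub_distrib]
  refine Finset.sum_induction _ (fun x : ℤ => Even x) (fun a b ha hb => ha.add hb)
    Even.zero ?_
  intro h hh
  rw [chi_eq hg (mem_Mon.1 hh).1]
  by_cases h2 : h.eval 1 = 0
  · have h3 : ch1 h = 0 := by
      by_contra h4
      exact (ch1_ne_zero_iff h).1 h4 h2
    rw [h3, if_neg (fun h4 => h4.1 h2)]
    simp
  · by_cases h3 : h0 ∣ h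
    · have h4 : chh h0 h = 0 := by
        by_contra h5
        exact (chh_ne_zero_iff hg h).1 h5 h3
      rw [h4, if_neg (fun h5 => h5.2 h3)]
      simp
    · rw [if_pos ⟨h2, h3⟩]
      have h4 : ch1 h ≠ 0 := (ch1_ne_zero_iff h).2 h2
      have h5 : chh h0 h ≠ 0 := (chh_ne_zero_iff hg h).2 h3
      rcases ch1_cases h with h6 | h6 | h6
      · exact absurd h6 h4
      · rcases chh_cases (h0 := h0) h with h7 | h7 | h7
        · exact absurd h7 h5
        · rw [h6, h7]; decide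
        · rw [h6, h7]; decide
      · rcases chh_cases (h0 := h0) h with h7 | h7 | h7
        · exact absurd h7 h5
        · rw [h6, h7]; decide
        · rw [h6, h7]; decide

theorem Sd_zero (D : (ZMod p)[X]) : Sd D 0 = 1 := by
  have h1 : Mon p 0 = {1} := by
    ext h
    rw [mem_Mon, Finset.mem_singleton]
    constructor
    · rintro ⟨h2, h3⟩
      exact eq_one_of_monic_natDegree_zero h2 h3
    · rintro rfl
      exact ⟨monic_one, natDegree_one⟩
  unfold Sd
  rw [h1, Finset.sum_singleton, chi_one]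

theorem Sd_even (hg : Good p g h0) {d : ℕ} (h1 : 1 ≤ d) (h2 : d < 2 * g) :
    Even (Sd (Dp h0) d) := by
  classical
  have h3 := Par_sum hg d
  have h4 : (Mon p d).filter (fun h => h.eval 1 ≠ 0 ∧ ¬ h0 ∣ h) =
      (Mon p d).filter (fun h => h.eval 1 ≠ 0) := by
    refine Finset.filter_congr ?_
    intro h hh
    obtain ⟨h5, h6⟩ := mem_Mon.1 hh
    refine and_iff_left ?_
    refine not_dvd_of_natDegree_lt h5.ne_zero ?_
    rw [h6, hg.deg]
    exact h2
  rw [h4, Int.even_sub] at h3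
  exact h3.2 ((Int.even_coe_nat _).2 (Par_card_even hg.p2 h1))

theorem Sd_odd (hg : Good p g h0) : Odd (Sd (Dp h0) (2 * g)) := by
  classical
  have h3 := Par_sum hg (2 * g)
  have h1 : 1 ≤ 2 * g := by
    have := hg.g1
    omega
  have h0m : h0 ∈ (Mon p (2 * g)).filter (fun h => h.eval 1 ≠ 0) := by
    rw [Finset.mem_filter, mem_Mon]
    refine ⟨⟨hg.mon, hg.deg⟩, ?_⟩
    intro h5
    have h6 := hg.nsq
    rw [h5, quadraticChar_zero] at h6
    norm_num at h6
  have h4 : (Mon p (2 * g)).filter (fun h => h.eval 1 ≠ 0 ∧ ¬ h0 ∣ h) =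
      ((Mon p (2 * g)).filter (fun h => h.eval 1 ≠ 0)).erase h0 := by
    ext h
    rw [Finset.mem_erase, Finset.mem_filter, Finset.mem_filter]
    constructor
    · rintro ⟨h5, h6, h7⟩
      refine ⟨?_, h5, h6⟩
      rintro rfl
      exact h7 dvd_rfl
    · rintro ⟨h5, h6, h7⟩
      refine ⟨h6, h7, ?_⟩
      intro h8
      obtain ⟨h9, h10⟩ := mem_Mon.1 h6
      exact h5 (eq_of_monic_of_dvd_of_natDegree_le hg.mon h9 h8 (by rw [h10, hg.deg]))
  have h5 := Par_card_even (p := p) hg.p2 h1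
  have h6 := Finset.card_erase_add_one h0m
  rw [← h6, Nat.even_add_one, ← h4] at h5
  rw [Int.even_sub] at h3
  rw [← Int.not_even_iff_odd]
  intro h7
  exact h5 ((Int.even_coe_nat _).1 (h3.1 h7))

end LIF
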