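import Pool.Agent.helper1.LI.Km

/-!
[LI-Cnt] The von Mangoldt identity `∑_{Q^j ∣ h} deg Q = deg h` in the form: for monic `h` of degree
`d` the number of pairs `(m, x)`, `1 ≤ m ≤ d`, `x ∈ Km p m`, with `Mp m x ∣ h` is `d`
(import the stub `Km`).

Proof.  Strong induction on `d`.  `d = 0`: empty sum.  Let `d ≥ 1`, take a monic irreducible
factor `Q` of `h` (`Polynomial.exists_monic_irreducible_factor`), `e = natDegree Q`, `h = Q h'`.
For `x ∈ K` with minimal polynomial `Q'` of degree `e'` and `m = j e'` (these are exactly the `m`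
with `x ∈ Km p m`, `mem_Km_iff_dvd`) one has `Mp m x = Q'^j`.
* if `Q' ≠ Q`: `Q'^j ∣ Q h'` iff `Q'^j ∣ h'` (coprime irreducible monic polynomials);
* if `Q' = Q`: `Q^j ∣ Q h'` iff `Q^(j-1) ∣ h'` (`j ≥ 1`).
So the number of `(m, x)` for `h` minus the one for `h'` is the number of `x` with
`minpoly x = Q`, times `(v + 1) - v = 1`, where `v` = multiplicity of `Q` in `h'`; and the number
of `x ∈ K` with `minpoly x = Q` is `e` (`Q` is separable and splits in `K`; or `minpoly_map`: fix
one root `x0` (exists), the roots `x0^(p^i)`, `i < e`, are distinct and all have minimal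
polynomial `Q`).  The range `Icc 1 d` may be replaced by `Icc 1 d'` for `h'` because
`Mp m x ∣ h'` forces `m = natDegree (Mp m x) ≤ d'`.

A possible bookkeeping: map a pair `(m, x)` for `h` with `minpoly x = Q` and `m > e` to
`(m - e, x)`, pairs with `minpoly x ≠ Q` to themselves: a bijection from
{pairs for `h`} minus {`(e, x)` : `minpoly x = Q`} onto {pairs for `h'`}.
-/

set_option autoImplicit false

namespace LIF

open Polynomial

section Aux

variable {p : ℕ} [Fact p.Prime]

theorem Cnt_rm_self (x : AlgebraicClosure (ZMod p)) :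
    rootMultiplicity x ((minpoly (ZMod p) x).map
      (algebraMap (ZMod p) (AlgebraicClosure (ZMod p)))) = 1 := by
  have hx : IsIntegral (ZMod p) x := Algebra.IsIntegral.isIntegral x
  have hsep : (minpoly (ZMod p) x).Separable :=
    PerfectField.separable_of_irreducible (minpoly.irreducible hx)
  have hne : (minpoly (ZMod p) x).map (algebraMap (ZMod p) (AlgebraicClosure (ZMod p))) ≠ 0 :=
    Polynomial.map_ne_zero (minpoly.ne_zero hx)
  have hle : rootMultiplicity x ((minpoly (ZMod p) x).map
      (algebraMap (ZMod p) (AlgebraicClosure (ZMod p)))) ≤ 1 :=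
    rootMultiplicity_le_one_of_separable hsep.map x
  have hpos : 0 < rootMultiplicity x ((minpoly (ZMod p) x).map
      (algebraMap (ZMod p) (AlgebraicClosure (ZMod p)))) := by
    rw [rootMultiplicity_pos hne, IsRoot.def, eval_map_algebraMap, minpoly.aeval]
  omega

theorem Cnt_pow_dvd_iff {h : (ZMod p)[X]} (hh : h ≠ 0) (x : AlgebraicClosure (ZMod p)) (j : ℕ) :
    minpoly (ZMod p) x ^ j ∣ h ↔
      j ≤ rootMultiplicity x (h.map (algebraMap (ZMod p) (AlgebraicClosure (ZMod p)))) := by
  have hx : IsIntegral (ZMod p) x := Algebra.IsIntegral.isIntegral x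
  have hirr : Irreducible (minpoly (ZMod p) x) := minpoly.irreducible hx
  have hfin : FiniteMultiplicity (minpoly (ZMod p) x) h :=
    FiniteMultiplicity.of_not_isUnit hirr.not_isUnit hh
  obtain ⟨c, hc, hnd⟩ := hfin.exists_eq_pow_mul_and_not_dvd
  rw [hfin.pow_dvd_iff_le_multiplicity]
  have hc0 : c ≠ 0 := by
    rintro rfl
    exact hnd (dvd_zero _)
  have hcm : c.map (algebraMap (ZMod p) (AlgebraicClosure (ZMod p))) ≠ 0 :=
    Polynomial.map_ne_zero hc0
  have hqm : (minpoly (ZMod p) x).map (algebraMap (ZMod p) (AlgebraicClosure (ZMod p))) ≠ 0 :=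
    Polynomial.map_ne_zero (minpoly.ne_zero hx)
  have hc1 : rootMultiplicity x (c.map (algebraMap (ZMod p) (AlgebraicClosure (ZMod p)))) = 0 := by
    apply rootMultiplicity_eq_zero
    intro hr
    apply hnd
    apply minpoly.dvd
    rw [IsRoot.def, eval_map_algebraMap] at hr
    exact hr
  have key : rootMultiplicity x (h.map (algebraMap (ZMod p) (AlgebraicClosure (ZMod p)))) =
      multiplicity (minpoly (ZMod p) x) h := by
    classical
    conv_lhs => rw [hc]
    rw [Polynomial.map_mul, Polynomial.map_pow,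
      rootMultiplicity_mul (mul_ne_zero (pow_ne_zero _ hqm) hcm), hc1, add_zero]
    rw [← count_roots, roots_pow, Multiset.count_nsmul, count_roots, Cnt_rm_self, mul_one]
  rw [key]

theorem Cnt_card {d : ℕ} {h : (ZMod p)[X]} (hh : h.Monic) (hd : h.natDegree = d)
    (x : AlgebraicClosure (ZMod p)) [DecidablePred fun m => x ∈ Km p m ∧ Mp m x ∣ h] :
    ((Finset.Icc 1 d).filter (fun m => x ∈ Km p m ∧ Mp m x ∣ h)).card =
      rootMultiplicity x (h.map (algebraMap (ZMod p) (AlgebraicClosure (ZMod p)))) := by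
  classical
  have hx : IsIntegral (ZMod p) x := Algebra.IsIntegral.isIntegral x
  have he : 0 < (minpoly (ZMod p) x).natDegree := minpoly.natDegree_pos hx
  have hset : (Finset.Icc 1 d).filter (fun m => x ∈ Km p m ∧ Mp m x ∣ h) =
      (Finset.Icc 1 (rootMultiplicity x
        (h.map (algebraMap (ZMod p) (AlgebraicClosure (ZMod p)))))).image
        (fun j => j * (minpoly (ZMod p) x).natDegree) := by
    ext m
    simp only [Finset.mem_filter, Finset.mem_Icc, Finset.mem_image]
    constructor
    · rintro ⟨⟨h1, _⟩, hk, hm⟩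
      rw [mem_Km_iff_dvd h1] at hk
      obtain ⟨j, rfl⟩ := hk
      unfold Mp at hm
      rw [Nat.mul_div_cancel_left _ he, Cnt_pow_dvd_iff hh.ne_zero] at hm
      refine ⟨j, ⟨?_, hm⟩, mul_comm _ _⟩
      rcases Nat.eq_zero_or_pos j with rfl | hj
      · simp at h1
      · exact hj
    · rintro ⟨j, ⟨h1, h2⟩, rfl⟩
      have h3 : 1 ≤ j * (minpoly (ZMod p) x).natDegree := Nat.mul_pos h1 he
      have h4 : minpoly (ZMod p) x ^ j ∣ h := (Cnt_pow_dvd_iff hh.ne_zero x j).2 h2
      have h5 := natDegree_le_of_dvd h4 hh.ne_zero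
      rw [natDegree_pow] at h5
      refine ⟨⟨h3, by omega⟩, ?_, ?_⟩
      · rw [mem_Km_iff_dvd h3]
        exact Dvd.intro_left j rfl
      · unfold Mp
        rw [Nat.mul_div_cancel _ he]
        exact h4
  rw [hset, Finset.card_image_of_injective, Nat.card_Icc, Nat.add_sub_cancel]
  intro a b hab
  exact Nat.eq_of_mul_eq_mul_right he hab

end Aux

open scoped Classical in
theorem count_Mp {p : ℕ} [Fact p.Prime] {d : ℕ} {h : (ZMod p)[X]} (hh : h.Monic)
    (hd : h.natDegree = d) :
    ∑ m ∈ Finset.Icc 1 d, ((Km p m).filter (fun x => Mp m x ∣ h)).card = d := by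
  have hne : h.map (algebraMap (ZMod p) (AlgebraicClosure (ZMod p))) ≠ 0 :=
    Polynomial.map_ne_zero hh.ne_zero
  have hS : ∀ m ∈ Finset.Icc 1 d, ((Km p m).filter (fun x => Mp m x ∣ h)).card =
      ∑ x ∈ (h.map (algebraMap (ZMod p) (AlgebraicClosure (ZMod p)))).roots.toFinset,
        if x ∈ Km p m ∧ Mp m x ∣ h then 1 else 0 := by
    intro m hm
    rw [Finset.mem_Icc] at hm
    rw [← Finset.card_filter]
    congr 1
    ext x
    simp only [Finset.mem_filter, Multiset.mem_toFinset]
    constructor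
    · rintro ⟨h1, h2⟩
      refine ⟨?_, h1, h2⟩
      rw [mem_roots hne, IsRoot.def, eval_map_algebraMap]
      have hx : IsIntegral (ZMod p) x := Algebra.IsIntegral.isIntegral x
      have he : 0 < (minpoly (ZMod p) x).natDegree := minpoly.natDegree_pos hx
      rw [mem_Km_iff_dvd hm.1] at h1
      have h3 : m / (minpoly (ZMod p) x).natDegree ≠ 0 := by
        have := Nat.le_of_dvd hm.1 h1
        exact (Nat.div_pos this he).ne'
      have h4 : minpoly (ZMod p) x ∣ h := (dvd_pow_self _ h3).trans h2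
      exact (minpoly.dvd_iff).1 h4
    · rintro ⟨_, h1, h2⟩
      exact ⟨h1, h2⟩
  rw [Finset.sum_congr rfl hS, Finset.sum_comm]
  have hT : ∀ x ∈ (h.map (algebraMap (ZMod p) (AlgebraicClosure (ZMod p)))).roots.toFinset,
      (∑ m ∈ Finset.Icc 1 d, if x ∈ Km p m ∧ Mp m x ∣ h then 1 else 0) =
        (h.map (algebraMap (ZMod p) (AlgebraicClosure (ZMod p)))).roots.count x := by
    intro x _
    rw [← Finset.card_filter, Cnt_card hh hd x, count_roots]
  rw [Finset.sum_congr rfl hT, Multiset.toFinset_sum_count_eq]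
  have hsp : (h.map (algebraMap (ZMod p) (AlgebraicClosure (ZMod p)))).Splits :=
    IsAlgClosed.splits _
  rw [← hsp.natDegree_eq_card_roots, natDegree_map, hd]

end LIF
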