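import Pool.Agent.helper1.LI.Mon
import Pool.Agent.helper1.LI.Cnt

/-!
[LI-Newt] Newton type identity for a completely multiplicative function `c` on monic polynomials:
`d ∑_{h ∈ Mon d} c(h) = ∑_{m=1}^d (∑_{x ∈ Km m} c(Mp m x)) ∑_{h ∈ Mon (d-m)} c(h)`
(import the stubs `Mon`, `Km`, `Cnt`).

Proof.  By `count_Mp`, `d = ∑_{m=1}^d #{x ∈ Km p m : Mp m x ∣ h}` for every `h ∈ Mon p d`, so
`d ∑_h c(h) = ∑_h ∑_m ∑_{x ∈ Km p m, Mp m x ∣ h} c(h) = ∑_m ∑_{x ∈ Km p m} ∑_{h ∈ Mon p d, Mp m x ∣ h} c(h)`.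
For fixed `m ≤ d`, `x ∈ Km p m` the map `h' ↦ Mp m x * h'` is a bijection from `Mon p (d - m)`
onto `{h ∈ Mon p d : Mp m x ∣ h}` (`Mp m x` is monic of degree `m`), and
`c(Mp m x * h') = c(Mp m x) c(h')`.

proofs: helper51
-/

set_option autoImplicit false

namespace LIF

open Polynomial

open scoped Classical in
theorem Newt_sum {p : ℕ} [Fact p.Prime] {R : Type*} [CommRing R] (c : (ZMod p)[X] → R)
    (cm : ∀ a b : (ZMod p)[X], a.Monic → b.Monic → c (a * b) = c a * c b) {a : (ZMod p)[X]}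
    (ha : a.Monic) {d m : ℕ} (hm : a.natDegree = m) (hmd : m ≤ d) :
    ∑ h ∈ (Mon p d).filter (fun h => a ∣ h), c h = c a * ∑ h ∈ Mon p (d - m), c h := by
  rw [Finset.mul_sum]
  symm
  refine Finset.sum_bij (fun h _ => a * h) (fun h hh => ?_) (fun h1 _ h2 _ he => ?_)
    (fun h hh => ?_) (fun h hh => ?_)
  · obtain ⟨h1, h2⟩ := mem_Mon.1 hh
    refine Finset.mem_filter.2 ⟨mem_Mon.2 ⟨ha.mul h1, ?_⟩, dvd_mul_right _ _⟩
    rw [ha.natDegree_mul h1, hm, h2]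
    omega
  · exact mul_left_cancel₀ ha.ne_zero he
  · obtain ⟨h1, ⟨k, hk⟩⟩ := Finset.mem_filter.1 hh
    obtain ⟨h2, h3⟩ := mem_Mon.1 h1
    have hkm : k.Monic := by
      rw [hk] at h2
      exact ha.of_mul_monic_left h2
    refine ⟨k, mem_Mon.2 ⟨hkm, ?_⟩, hk.symm⟩
    rw [hk, ha.natDegree_mul hkm, hm] at h3
    omega
  · exact (cm a h ha (mem_Mon.1 hh).1).symm

theorem newton_mult {p : ℕ} [Fact p.Prime] {R : Type*} [CommRing R] (c : (ZMod p)[X] → R)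
    (cm : ∀ a b : (ZMod p)[X], a.Monic → b.Monic → c (a * b) = c a * c b) (d : ℕ) :
    (d : R) * ∑ h ∈ Mon p d, c h =
      ∑ m ∈ Finset.Icc 1 d, (∑ x ∈ Km p m, c (Mp m x)) * ∑ h ∈ Mon p (d - m), c h := by
  classical
  have h1 : ∀ h ∈ Mon p d, (d : R) * c h =
      ∑ m ∈ Finset.Icc 1 d, ∑ x ∈ Km p m, if Mp m x ∣ h then c h else 0 := by
    intro h hh
    have h2 := count_Mp (mem_Mon.1 hh).1 (mem_Mon.1 hh).2
    have h3 : (d : R) = ∑ m ∈ Finset.Icc 1 d,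
        (((Km p m).filter (fun x => Mp m x ∣ h)).card : R) := by
      rw [← Nat.cast_sum]
      congr 1
      exact h2.symm
    rw [h3, Finset.sum_mul]
    refine Finset.sum_congr rfl fun m _ => ?_
    rw [← Finset.sum_filter, Finset.sum_const, nsmul_eq_mul]
  rw [Finset.mul_sum, Finset.sum_congr rfl h1, Finset.sum_comm]
  refine Finset.sum_congr rfl fun m hm => ?_
  obtain ⟨hm1, hmd⟩ := Finset.mem_Icc.1 hm
  rw [Finset.sum_comm, Finset.sum_mul]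
  refine Finset.sum_congr rfl fun x hx => ?_
  rw [← Finset.sum_filter]
  exact Newt_sum c cm (Mp_monic m x) (Mp_natDegree hm1 hx) hmd

end LIF
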