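import Mathlib

/-!
helper1: project LI (MP_0ec205_nt).  Linear independence of the zeros of the zeta function of the
hyperelliptic curve `y² = (1 - x) h(x)` over `F_p`.

Definitions used by all modules.  `h0` is a monic irreducible polynomial of degree `2 g` over
`ZMod p` (`p` an odd prime) such that `h0(1)` is not a square.  `Dp h0 = (1 - X) * h0`.
-/

set_option autoImplicit false

namespace LIF

open Polynomial

/-- the standing hypotheses on the polynomial `h0` -/
structure Good (p : ℕ) [Fact p.Prime] (g : ℕ) (h0 : (ZMod p)[X]) : Prop where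
  p2 : p ≠ 2
  g1 : 1 ≤ g
  mon : h0.Monic
  irr : Irreducible h0
  deg : h0.natDegree = 2 * g
  nsq : quadraticChar (ZMod p) (h0.eval 1) = -1

/-- the polynomial `D = (1 - X) h0` -/
noncomputable def Dp {p : ℕ} (h0 : (ZMod p)[X]) : (ZMod p)[X] := (1 - X) * h0

/-- the matrix with entry `(i, j)` (`1 ≤ i, j ≤ g`) equal to the coefficient of `x ^ (p i - j)`
in `F` (zero if `p i < j`) -/
def HWr {R : Type*} [CommRing R] (p g : ℕ) (F : R[X]) : Matrix (Fin g) (Fin g) R :=
  fun i j => if (j : ℕ) + 1 ≤ p * ((i : ℕ) + 1) then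
    F.coeff (p * ((i : ℕ) + 1) - ((j : ℕ) + 1)) else 0

/-- the coefficients of `det (1 - u A) = ∑ eps A d u ^ d` -/
noncomputable def eps {R : Type*} [CommRing R] {g : ℕ} (A : Matrix (Fin g) (Fin g) R) (d : ℕ) :
    R :=
  if d ≤ g then A.charpoly.coeff (g - d) else 0

/-- the Hasse-Witt matrix of `y² = D(x)` (genus `g`): entry `(i, j)` (with `1 ≤ i, j ≤ g`) is the
coefficient of `x ^ (p i - j)` in `D ^ ((p - 1) / 2)` -/
noncomputable def HW (p g : ℕ) (D : (ZMod p)[X]) : Matrix (Fin g) (Fin g) (ZMod p) :=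
  HWr p g (D ^ ((p - 1) / 2))

/-- the curve `y² = D(x)` over `F_p` with one point at infinity: its numbers of points over all
`F_(p^m)` are given by `g` real angles `θ` in `(0, π)` (Riemann hypothesis, simple zeros), and `π`
and the angles are linearly independent over `ℚ` -/
def LICurve (p g : ℕ) [Fact p.Prime] (D : (ZMod p)[X]) : Prop :=
  ∃ θ : Fin g → ℝ, StrictMono θ ∧ (∀ i, 0 < θ i ∧ θ i < Real.pi) ∧
    (∀ m : ℕ, 1 ≤ m →
      (Nat.card {z : GaloisField p m × GaloisField p m // z.2 ^ 2 = aeval z.1 D} : ℝ) =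
        (p : ℝ) ^ m - ∑ i, 2 * (Real.sqrt p) ^ m * Real.cos (m * θ i)) ∧
    LinearIndependent ℚ (Fin.cons Real.pi θ : Fin (g + 1) → ℝ)

/-- the same for the curve `y² = D(x)` regarded over the field `F_(p^a)`: the numbers of points over
its extensions `F_(p^(a m))` are given by `g` real angles in `(0, π)`, and `π` and the angles are
linearly independent over `ℚ` -/
def LICurveOver (p a g : ℕ) [Fact p.Prime] (D : (ZMod p)[X]) : Prop :=
  ∃ θ : Fin g → ℝ, StrictMono θ ∧ (∀ i, 0 < θ i ∧ θ i < Real.pi) ∧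
    (∀ m : ℕ, 1 ≤ m →
      (Nat.card {z : GaloisField p (a * m) × GaloisField p (a * m) //
        z.2 ^ 2 = aeval z.1 D} : ℝ) =
        (p : ℝ) ^ (a * m) - ∑ i, 2 * (Real.sqrt ((p : ℝ) ^ a)) ^ m * Real.cos (m * θ i)) ∧
    LinearIndependent ℚ (Fin.cons Real.pi θ : Fin (g + 1) → ℝ)

/-! ### monic polynomials and the quadratic symbol -/

/-- the monic polynomials of degree `d` over `ZMod p` -/
noncomputable def Mon (p : ℕ) [Fact p.Prime] (d : ℕ) : Finset (ZMod p)[X] := by
  classical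
  exact Finset.univ.image
    (fun c : Fin d → ZMod p => X ^ d + ∑ i : Fin d, C (c i) * X ^ (i : ℕ))

/-- the polynomials of degree `< d` over `ZMod p` -/
noncomputable def Low (p : ℕ) [Fact p.Prime] (d : ℕ) : Finset (ZMod p)[X] := by
  classical
  exact Finset.univ.image (fun c : Fin d → ZMod p => ∑ i : Fin d, C (c i) * X ^ (i : ℕ))

/-- the symbol `(h / D) = η (Res (h, D))`, `η` the quadratic character of `ZMod p` -/
noncomputable def chi {p : ℕ} [Fact p.Prime] (D h : (ZMod p)[X]) : ℤ :=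
  quadraticChar (ZMod p) (resultant h D)

/-- the character sums `S_d`, the coefficients of the L-function -/
noncomputable def Sd {p : ℕ} [Fact p.Prime] (D : (ZMod p)[X]) (d : ℕ) : ℤ :=
  ∑ h ∈ Mon p d, chi D h

/-- the character modulo `h0`: `η (Res (h0, h))` -/
noncomputable def chh {p : ℕ} [Fact p.Prime] (h0 h : (ZMod p)[X]) : ℤ :=
  quadraticChar (ZMod p) (resultant h0 h)

/-- the character modulo `X - 1`: `η (h 1)` -/
noncomputable def ch1 {p : ℕ} [Fact p.Prime] (h : (ZMod p)[X]) : ℤ :=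
  quadraticChar (ZMod p) (h.eval 1)

/-- the monic polynomial `f = (X - 1) h0` of degree `2 g + 1` -/
noncomputable def fp {p : ℕ} (h0 : (ZMod p)[X]) : (ZMod p)[X] := (X - 1) * h0

/-- the character modulo `f = (X - 1) h0`, defined on all polynomials -/
noncomputable def chx {p : ℕ} [Fact p.Prime] (h0 h : (ZMod p)[X]) : ℤ := ch1 h * chh h0 h

/-- the Gauss sums `∑_{y mod f} χ(y) ψ (residue of h y)` -/
noncomputable def Gam {p : ℕ} [Fact p.Prime] (g : ℕ) (h0 h : (ZMod p)[X]) : ℂ :=
  ∑ y ∈ Low p (2 * g + 1), (chx h0 y : ℂ) *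
    ZMod.stdAddChar (((h * y) %ₘ fp h0).coeff (2 * g))

/-! ### the algebraic closure -/

/-- the elements of the algebraic closure of `ZMod p` fixed by the `m`-th power of Frobenius -/
noncomputable def Km (p : ℕ) [Fact p.Prime] (m : ℕ) : Finset (AlgebraicClosure (ZMod p)) := by
  classical
  exact ((X ^ (p ^ m) - X : (AlgebraicClosure (ZMod p))[X]).roots).toFinset

/-- for `x ∈ Km p m` this is `∏_{i < m} (X - x ^ (p ^ i))` as a polynomial over `ZMod p` -/
noncomputable def Mp {p : ℕ} [Fact p.Prime] (m : ℕ) (x : AlgebraicClosure (ZMod p)) :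
    (ZMod p)[X] :=
  minpoly (ZMod p) x ^ (m / (minpoly (ZMod p) x).natDegree)

/-- the power sums `a_m = ∑_{x ∈ Km} χ (Mp m x)` -/
noncomputable def am {p : ℕ} [Fact p.Prime] (D : (ZMod p)[X]) (m : ℕ) : ℤ :=
  ∑ x ∈ Km p m, chi D (Mp m x)

/-- the reversed L-polynomial `X ^ (2 g) + S_1 X ^ (2 g - 1) + ... + S_(2 g)` -/
noncomputable def Lp {p : ℕ} [Fact p.Prime] (g : ℕ) (D : (ZMod p)[X]) : ℤ[X] :=
  ∑ d ∈ Finset.range (2 * g + 1), C (Sd D d) * X ^ (2 * g - d)

end LIF
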