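import Pool.Agent.helper1.LI.Mon
import Pool.Agent.helper1.LI.Sym

/-!
[LI-Lone] `L(1) = S_0 + ... + S_(2g) ≡ 2 (mod 4)` (import the stubs `Mon`, `Sym`).

Proof.  Write `χ1 = ch1`, `χ = chh h0`.  For monic `h`, `chi (Dp h0) h = χ1(h) χ(h)`.
Let `U` be the set of monic `h` of degree `≤ 2 g` with `h(1) ≠ 0` and `¬ h0 ∣ h`, i.e. both
characters are `±1`.  For `h ∈ U`: `(1 - χ1(h)) (1 - χ(h)) ∈ {0, 4}`, so
`χ1(h) χ(h) ≡ -1 + χ1(h) + χ(h) (mod 4)`; for `h ∉ U` the product is `0`.  Therefore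
`L(1) ≡ -|U| + ∑_U χ1 + ∑_U χ (mod 4)`.
(a) `|U| = 1 + ∑_{d=1}^{2g} (p^d - p^(d-1)) - 1 = p^(2g) - 1`, divisible by `8`, so by `4`
   (number of `h ∈ Mon p d` with `h(1) = 0` is `p^(d-1)` by `sum_Mon_root`; the only monic
   `h` of degree `≤ 2g` divisible by `h0` is `h0` itself, and `h0(1) ≠ 0`).
(b) `∑_U χ1 = ∑_{d ≤ 2g} ∑_{h ∈ Mon p d} χ1(h) - χ1(h0) = 1 - (-1) = 2`: the inner sums vanish
   for `d ≥ 1` (`sum_Mon_ch` with `φ = quadraticChar`, `quadraticChar_sum_zero`), the term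
   `d = 0` is `χ1(1) = 1`, and `χ1(h0) = -1` by `hg.nsq`.
(c) `∑_U χ = Z(2g) - χ(X-1) Z(2g-1)` where `Z(m) = ∑_{d ≤ m} ∑_{h ∈ Mon p d} χ(h)` (remove the
   `h` with `h(1) = 0`, `h = (X-1) h'`, `sum_Mon_root`; for `d = 0` nothing is removed).
   `Z(2g-1) = 0`: iterating `sum_Low_succ` and `χ(c h) = χ(h)` for constants `c ≠ 0` gives
   `∑_{r ∈ Low p (2g)} χ(r) = (p-1) Z(2g-1)` (and `χ(0) = 0`), while multiplication by `X - 1`
   followed by `%ₘ h0` permutes `Low p (2g)` and `χ(X-1) = -1`, so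
   `∑_{r ∈ Low p (2g)} χ(r) = - ∑_{r ∈ Low p (2g)} χ(r) = 0`.
   (`χ((X-1) r %ₘ h0) = χ((X-1) r)` by `chh_add_mul` and `modByMonic_add_div`.)
   `∑_{h ∈ Mon p (2g)} χ(h) = ∑_{r ∈ Low p (2g)} χ(h0 + r) = ∑_r χ(r) = 0`
   (`r ↦ h0 + r` is a bijection `Low p (2g) → Mon p (2g)`), so `Z(2g) = 0` too.
Together `L(1) ≡ 0 + 2 + 0`.
-/

set_option autoImplicit false

namespace LIF

open Polynomial

variable {p : ℕ} [Fact p.Prime] {g : ℕ} {h0 : (ZMod p)[X]}

/-! ### auxiliary statements -/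

theorem Lone_h0_mem (hg : Good p g h0) {d : ℕ} : h0 ∈ Mon p d ↔ d = 2 * g := by
  rw [mem_Mon, hg.deg]
  exact ⟨fun h => h.2.symm, fun h => ⟨hg.mon, h.symm⟩⟩

theorem Lone_dvd (hg : Good p g h0) {d : ℕ} (hd : d ≤ 2 * g) {h : (ZMod p)[X]}
    (hh : h ∈ Mon p d) : h0 ∣ h ↔ h = h0 := by
  obtain ⟨h1, h2⟩ := mem_Mon.1 hh
  constructor
  · intro h3
    exact eq_of_monic_of_dvd_of_natDegree_le hg.mon h1 h3 (by rw [h2, hg.deg]; exact hd)
  · intro h3
    rw [h3]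

theorem Lone_bsq (hg : Good p g h0) {d : ℕ} (hd : d ≤ 2 * g) {h : (ZMod p)[X]}
    (hh : h ∈ Mon p d) [Decidable (h = h0)] :
    chh h0 h ^ 2 = 1 - (if h = h0 then 1 else 0) := by
  by_cases h1 : h = h0
  · rw [if_pos h1]
    have h2 : chh h0 h = 0 := by
      by_contra h3
      exact (chh_ne_zero_iff hg h).1 h3 ((Lone_dvd hg hd hh).2 h1)
    rw [h2]
    norm_num
  · rw [if_neg h1]
    have h2 : chh h0 h ≠ 0 := (chh_ne_zero_iff hg h).2 fun h3 => h1 ((Lone_dvd hg hd hh).1 h3)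
    rcases chh_cases (h0 := h0) h with h3 | h3 | h3
    · exact absurd h3 h2
    · rw [h3]
      norm_num
    · rw [h3]
      norm_num

theorem Lone_asq (h : (ZMod p)[X]) [Decidable (h.eval 1 = 0)] :
    ch1 h ^ 2 = 1 - (if h.eval 1 = 0 then 1 else 0) := by
  by_cases h1 : h.eval 1 = 0
  · rw [if_pos h1]
    have h2 : ch1 h = 0 := by
      by_contra h3
      exact (ch1_ne_zero_iff h).1 h3 h1
    rw [h2]
    norm_num
  · rw [if_neg h1]
    have h2 : ch1 h ≠ 0 := (ch1_ne_zero_iff h).2 h1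
    rcases ch1_cases h with h3 | h3 | h3
    · exact absurd h3 h2
    · rw [h3]
      norm_num
    · rw [h3]
      norm_num

theorem Lone_sum_b (hg : Good p g h0) (F : (ZMod p)[X] → ℤ) :
    ∑ d ∈ Finset.range (2 * g + 1), ∑ h ∈ Mon p d, F h * chh h0 h ^ 2 =
      ∑ d ∈ Finset.range (2 * g + 1), ∑ h ∈ Mon p d, F h - F h0 := by
  classical
  have h1 : ∀ d ∈ Finset.range (2 * g + 1), ∑ h ∈ Mon p d, F h * chh h0 h ^ 2 =
      ∑ h ∈ Mon p d, F h - (if d = 2 * g then F h0 else 0) := by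
    intro d hd
    have hd' : d ≤ 2 * g := by
      have := Finset.mem_range.1 hd
      omega
    have h2 : ∑ h ∈ Mon p d, F h * chh h0 h ^ 2 =
        ∑ h ∈ Mon p d, (F h - (if h = h0 then F h0 else 0)) := by
      refine Finset.sum_congr rfl fun h hh => ?_
      rw [Lone_bsq hg hd' hh]
      by_cases h3 : h = h0
      · rw [if_pos h3, if_pos h3, h3]
        ring
      · rw [if_neg h3, if_neg h3]
        ring
    rw [h2, Finset.sum_sub_distrib, Finset.sum_ite_eq']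
    congr 1
    by_cases h3 : d = 2 * g
    · rw [if_pos h3, if_pos ((Lone_h0_mem hg).2 h3)]
    · rw [if_neg h3, if_neg fun h4 => h3 ((Lone_h0_mem hg).1 h4)]
  rw [Finset.sum_congr rfl h1, Finset.sum_sub_distrib, Finset.sum_ite_eq',
    if_pos (Finset.mem_range.2 (Nat.lt_succ_self _))]

theorem Lone_Mon_zero : Mon p 0 = {1} := by
  ext h
  rw [mem_Mon, Finset.mem_singleton]
  constructor
  · rintro ⟨h1, h2⟩
    exact (Monic.natDegree_eq_zero h1).1 h2
  · intro h1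
    rw [h1]
    exact ⟨monic_one, natDegree_one⟩

theorem Lone_sum_a (F : (ZMod p)[X] → ℤ) (n : ℕ) :
    ∑ d ∈ Finset.range (n + 1), ∑ h ∈ Mon p d, F h * ch1 h ^ 2 =
      ∑ d ∈ Finset.range (n + 1), ∑ h ∈ Mon p d, F h -
        ∑ d ∈ Finset.range n, ∑ h ∈ Mon p d, F ((X - 1) * h) := by
  classical
  have h1 : ∀ d, ∑ h ∈ Mon p d, F h * ch1 h ^ 2 =
      ∑ h ∈ Mon p d, F h - ∑ h ∈ (Mon p d).filter (fun h => h.eval 1 = 0), F h := by
    intro d
    rw [Finset.sum_filter, ← Finset.sum_sub_distrib]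
    refine Finset.sum_congr rfl fun h _ => ?_
    rw [Lone_asq h]
    by_cases h3 : h.eval 1 = 0
    · rw [if_pos h3, if_pos h3]
      ring
    · rw [if_neg h3, if_neg h3]
      ring
  have h2 : ∑ d ∈ Finset.range (n + 1), ∑ h ∈ (Mon p d).filter (fun h => h.eval 1 = 0), F h =
      ∑ d ∈ Finset.range n, ∑ h ∈ Mon p d, F ((X - 1) * h) := by
    rw [Finset.sum_range_succ']
    have h3 : ∑ h ∈ (Mon p 0).filter (fun h => h.eval 1 = 0), F h = 0 := by
      rw [Lone_Mon_zero, Finset.filter_singleton, if_neg]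
      · exact Finset.sum_empty
      · rw [eval_one]
        exact one_ne_zero
    rw [h3, add_zero]
    exact Finset.sum_congr rfl fun d _ => sum_Mon_root F d
  rw [Finset.sum_congr rfl fun d _ => h1 d, Finset.sum_sub_distrib, h2]

theorem Lone_sum_ch1 (hg : Good p g h0) (n : ℕ) :
    ∑ d ∈ Finset.range (n + 1), ∑ h ∈ Mon p d, ch1 h = 1 := by
  rw [Finset.sum_range_succ', Lone_Mon_zero, Finset.sum_singleton]
  have h1 : ch1 (1 : (ZMod p)[X]) = 1 := by
    unfold ch1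
    rw [eval_one, map_one]
  have h2 : ∑ c : ZMod p, quadraticChar (ZMod p) c = 0 := by
    apply quadraticChar_sum_zero
    rw [ZMod.ringChar_zmod_n]
    exact hg.p2
  rw [h1, Finset.sum_eq_zero, zero_add]
  intro d _
  exact sum_Mon_ch (φ := fun c => quadraticChar (ZMod p) c) h2 (Nat.succ_pos d)

theorem Lone_Low (hg : Good p g h0) (n : ℕ) :
    ∑ r ∈ Low p n, chh h0 r = ((p : ℤ) - 1) * ∑ d ∈ Finset.range n, ∑ h ∈ Mon p d, chh h0 h := by
  induction n with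
  | zero =>
    have h1 : Low p 0 = {0} := by
      ext h
      rw [mem_Low, Finset.mem_singleton]
      constructor
      · intro h2
        rw [← degree_eq_bot]
        rcases h3 : h.degree with _ | m
        · rfl
        · rw [h3] at h2
          exact absurd h2 (by
            intro h4
            have h5 : (m : WithBot ℕ) < ((0 : ℕ) : WithBot ℕ) := h4
            rw [Nat.cast_lt] at h5
            omega)
      · intro h2
        rw [h2, degree_zero]
        exact WithBot.bot_lt_coe _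
    have h2 : chh h0 (0 : (ZMod p)[X]) = 0 := by
      by_contra h3
      exact (chh_ne_zero_iff hg 0).1 h3 (dvd_zero _)
    rw [h1, Finset.sum_singleton, h2, Finset.range_zero, Finset.sum_empty, mul_zero]
  | succ n ih =>
    rw [sum_Low_succ, ih, Finset.sum_range_succ, mul_add]
    congr 1
    have h1 : ∀ c ∈ (Finset.univ : Finset (ZMod p)ˣ),
        ∑ h ∈ Mon p n, chh h0 (C (c : ZMod p) * h) = ∑ h ∈ Mon p n, chh h0 h := by
      intro c _
      refine Finset.sum_congr rfl fun h _ => ?_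
      rw [chh_mul hg, chh_C hg c.ne_zero, one_mul]
    rw [Finset.sum_congr rfl h1, Finset.sum_const, Finset.card_univ, ZMod.card_units, nsmul_eq_mul]
    congr 1
    rw [Nat.cast_sub (Fact.out : p.Prime).one_le, Nat.cast_one]

theorem Lone_Low_zero (hg : Good p g h0) : ∑ r ∈ Low p (2 * g), chh h0 r = 0 := by
  classical
  have hnd : ¬ h0 ∣ X - 1 := by
    intro h1
    have h2 := natDegree_le_of_dvd h1 (X_sub_C_ne_zero (1 : ZMod p))
    have h3 : (X - 1 : (ZMod p)[X]).natDegree = 1 := natDegree_X_sub_C 1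
    rw [h3, hg.deg] at h2
    have := hg.g1
    omega
  have hdeg : h0.degree = ((2 * g : ℕ) : WithBot ℕ) := by
    rw [degree_eq_natDegree hg.mon.ne_zero, hg.deg]
  have hmaps : ∀ r ∈ Low p (2 * g), ((X - 1) * r) %ₘ h0 ∈ Low p (2 * g) := by
    intro r _
    rw [mem_Low, ← hdeg]
    exact degree_modByMonic_lt _ hg.mon
  have hinj : Set.InjOn (fun r => ((X - 1) * r) %ₘ h0) (Low p (2 * g) : Set (ZMod p)[X]) := by
    intro r hr s hs hrs
    have hr' := mem_Low.1 (Finset.mem_coe.1 hr)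
    have hs' := mem_Low.1 (Finset.mem_coe.1 hs)
    have h1 : ((X - 1) * r) %ₘ h0 = ((X - 1) * s) %ₘ h0 := hrs
    have h2 : h0 ∣ (X - 1) * (r - s) := by
      rw [← modByMonic_eq_zero_iff_dvd hg.mon, mul_sub, sub_modByMonic, h1, sub_self]
    rcases (hg.irr.prime).2.2 _ _ h2 with h3 | h3
    · exact absurd h3 hnd
    · have h4 : (r - s).degree < h0.degree := by
        rw [hdeg]
        exact (degree_sub_le _ _).trans_lt (max_lt hr' hs')
      exact sub_eq_zero.1 (eq_zero_of_dvd_of_degree_lt h3 h4)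
  have himg : (Low p (2 * g)).image (fun r => ((X - 1) * r) %ₘ h0) = Low p (2 * g) := by
    apply Finset.eq_of_subset_of_card_le
    · intro r hr
      obtain ⟨s, hs, rfl⟩ := Finset.mem_image.1 hr
      exact hmaps s hs
    · rw [Finset.card_image_of_injOn hinj]
  have h1 : ∑ r ∈ Low p (2 * g), chh h0 r = ∑ r ∈ Low p (2 * g), (- chh h0 r) := by
    conv_lhs => rw [← himg]
    rw [Finset.sum_image hinj]
    refine Finset.sum_congr rfl fun r _ => ?_
    have h2 := chh_add_mul hg (((X - 1) * r) %ₘ h0) (((X - 1) * r) /ₘ h0)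
    rw [modByMonic_add_div] at h2
    rw [← h2, chh_mul hg, chh_X_sub_one hg, neg_one_mul]
  rw [Finset.sum_neg_distrib] at h1
  omega

theorem Lone_Z (hg : Good p g h0) :
    ∑ d ∈ Finset.range (2 * g), ∑ h ∈ Mon p d, chh h0 h = 0 := by
  have h1 := Lone_Low hg (2 * g)
  rw [Lone_Low_zero hg] at h1
  have h2 : (2 : ℤ) ≤ p := by exact_mod_cast (Fact.out : p.Prime).two_le
  rcases mul_eq_zero.1 h1.symm with h3 | h3
  · omega
  · exact h3

theorem Lone_top (hg : Good p g h0) : ∑ h ∈ Mon p (2 * g), chh h0 h = 0 := by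
  rw [← Lone_Low_zero hg]
  have hdeg : h0.degree = ((2 * g : ℕ) : WithBot ℕ) := by
    rw [degree_eq_natDegree hg.mon.ne_zero, hg.deg]
  refine Finset.sum_nbij' (fun h => h - h0) (fun r => h0 + r) ?_ ?_ ?_ ?_ ?_
  · intro h hh
    obtain ⟨h1, h2⟩ := mem_Mon.1 hh
    rw [mem_Low, ← h2, ← degree_eq_natDegree h1.ne_zero]
    apply degree_sub_lt_left
    · rw [hdeg, degree_eq_natDegree h1.ne_zero, h2]
    · exact h1.ne_zero
    · rw [h1.leadingCoeff, hg.mon.leadingCoeff]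
  · intro r hr
    have h1 := mem_Low.1 hr
    rw [← hdeg] at h1
    rw [mem_Mon, natDegree_add_eq_left_of_degree_lt h1, hg.deg]
    exact ⟨hg.mon.add_of_left h1, rfl⟩
  · intro h _
    exact add_sub_cancel _ _
  · intro r _
    exact add_sub_cancel_left _ _
  · intro h _
    have h1 := chh_add_mul hg (h - h0) 1
    rw [mul_one, sub_add_cancel] at h1
    exact h1

theorem Lone_mod (a b : ℤ) (ha : a = 0 ∨ a = 1 ∨ a = -1) (hb : b = 0 ∨ b = 1 ∨ b = -1) :
    (4 : ℤ) ∣ a * b - (- (a ^ 2 * b ^ 2) + a * b ^ 2 + b * a ^ 2) := by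
  rcases ha with rfl | rfl | rfl <;> rcases hb with rfl | rfl | rfl <;> norm_num

theorem Lone_pow (hg : Good p g h0) : (4 : ℤ) ∣ (p : ℤ) ^ (2 * g) - 1 := by
  have h1 : Odd p := (Fact.out : p.Prime).odd_of_ne_two hg.p2
  obtain ⟨k, hk⟩ := h1
  have h2 : (4 : ℤ) ∣ (p : ℤ) ^ 2 - 1 := ⟨k ^ 2 + k, by rw [hk]; push_cast; ring⟩
  rw [pow_mul]
  have h3 := sub_dvd_pow_sub_pow ((p : ℤ) ^ 2) 1 g
  rw [one_pow] at h3
  exact h2.trans h3

theorem sum_Sd (hg : Good p g h0) :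
    (∑ d ∈ Finset.range (2 * g + 1), Sd (Dp h0) d) % 4 = 2 := by
  classical
  have hL : ∑ d ∈ Finset.range (2 * g + 1), Sd (Dp h0) d =
      ∑ d ∈ Finset.range (2 * g + 1), ∑ h ∈ Mon p d, ch1 h * chh h0 h := by
    refine Finset.sum_congr rfl fun d _ => ?_
    unfold Sd
    exact Finset.sum_congr rfl fun h hh => chi_eq hg (mem_Mon.1 hh).1
  have hdvd : (4 : ℤ) ∣ ∑ d ∈ Finset.range (2 * g + 1), ∑ h ∈ Mon p d,
      (ch1 h * chh h0 h - (- (ch1 h ^ 2 * chh h0 h ^ 2) + ch1 h * chh h0 h ^ 2 +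
        chh h0 h * ch1 h ^ 2)) :=
    Finset.dvd_sum fun d _ => Finset.dvd_sum fun h _ =>
      Lone_mod _ _ (ch1_cases h) (chh_cases h)
  have hexp : ∑ d ∈ Finset.range (2 * g + 1), ∑ h ∈ Mon p d,
      (ch1 h * chh h0 h - (- (ch1 h ^ 2 * chh h0 h ^ 2) + ch1 h * chh h0 h ^ 2 +
        chh h0 h * ch1 h ^ 2)) =
      ∑ d ∈ Finset.range (2 * g + 1), Sd (Dp h0) d
      + ∑ d ∈ Finset.range (2 * g + 1), ∑ h ∈ Mon p d, ch1 h ^ 2 * chh h0 h ^ 2
      - ∑ d ∈ Finset.range (2 * g + 1), ∑ h ∈ Mon p d, ch1 h * chh h0 h ^ 2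
      - ∑ d ∈ Finset.range (2 * g + 1), ∑ h ∈ Mon p d, chh h0 h * ch1 h ^ 2 := by
    rw [hL, ← Finset.sum_add_distrib, ← Finset.sum_sub_distrib, ← Finset.sum_sub_distrib]
    refine Finset.sum_congr rfl fun d _ => ?_
    rw [← Finset.sum_add_distrib, ← Finset.sum_sub_distrib, ← Finset.sum_sub_distrib]
    refine Finset.sum_congr rfl fun h _ => ?_
    ring
  have hch0 : ch1 h0 = -1 := hg.nsq
  have hT1 : ∑ d ∈ Finset.range (2 * g + 1), ∑ h ∈ Mon p d, ch1 h ^ 2 * chh h0 h ^ 2 =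
      (p : ℤ) ^ (2 * g) - 1 := by
    rw [Lone_sum_b hg (fun h => ch1 h ^ 2), hch0]
    have h1 := Lone_sum_a (p := p) (fun _ => 1) (2 * g)
    simp only [one_mul] at h1
    rw [h1]
    have h2 : ∀ d, ∑ _h ∈ Mon p d, (1 : ℤ) = (p : ℤ) ^ d := by
      intro d
      rw [Finset.sum_const, card_Mon, nsmul_eq_mul, mul_one, Nat.cast_pow]
    simp only [h2]
    rw [Finset.sum_range_succ]
    ring
  have hT2 : ∑ d ∈ Finset.range (2 * g + 1), ∑ h ∈ Mon p d, ch1 h * chh h0 h ^ 2 = 2 := by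
    rw [Lone_sum_b hg (fun h => ch1 h), hch0, Lone_sum_ch1 hg]
    norm_num
  have hT3 : ∑ d ∈ Finset.range (2 * g + 1), ∑ h ∈ Mon p d, chh h0 h * ch1 h ^ 2 = 0 := by
    rw [Lone_sum_a (fun h => chh h0 h) (2 * g), Finset.sum_range_succ, Lone_Z hg, Lone_top hg]
    have h1 : ∑ d ∈ Finset.range (2 * g), ∑ h ∈ Mon p d, chh h0 ((X - 1) * h) =
        - ∑ d ∈ Finset.range (2 * g), ∑ h ∈ Mon p d, chh h0 h := by
      rw [← Finset.sum_neg_distrib]
      refine Finset.sum_congr rfl fun d _ => ?_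
      rw [← Finset.sum_neg_distrib]
      refine Finset.sum_congr rfl fun h _ => ?_
      rw [chh_mul hg, chh_X_sub_one hg, neg_one_mul]
    rw [h1, Lone_Z hg]
    norm_num
  rw [hexp, hT1, hT2, hT3] at hdvd
  have h4 := Lone_pow hg
  omega

end LIF
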