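import Pool.Agent.helper1.LI.Par
import Pool.Agent.helper1.LI.Lone
import Pool.Agent.helper1.LI.Gauss2

/-!
[LI-Eis] The reversed L-polynomial is monic of degree `2 g`, and irreducible over `ℚ` if `g` is a
power of `2` (import the stubs `Par`, `Lone`, `Gauss2`).  (proofs: helper46)

Proof.  `Lp g D = ∑_{d ≤ 2g} C (S_d) X^(2g-d)`: coefficients `Lp_coeff`, monic as `S_0 = 1`.
Let `N = 2 g = 2^k`, `k ≥ 1`, `f = Lp g D`.  Modulo `2`: `f ≡ X^N + 1` (`Sd_even`, `Sd_odd`), so
`f(X + 1) ≡ (X + 1)^N + 1 ≡ X^N (mod 2)` (`add_pow_char_pow` / `N` a power of 2), i.e. all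
coefficients of `f(X+1)` except the leading one are even; its constant coefficient is
`f(1) = ∑ S_d ≡ 2 (mod 4)` (`sum_Sd`).  `f(X+1) = f.comp (X + 1)` is monic of degree `N`.
Eisenstein at the prime ideal `(2)` of `ℤ`: `Polynomial.irreducible_of_eisenstein_criterion` or
`Polynomial.IsEisensteinAt.irreducible`; then `f` is irreducible over `ℤ`
(`f ↦ f.comp (X + 1)` is an automorphism; e.g. `Polynomial.irreducible_of_..comp`,
`Polynomial.algEquivAevalXAddC`/`taylorEquiv`), and over `ℚ` by Gauss's lemma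
(`Polynomial.Monic.irreducible_iff_irreducible_map_fraction_map`).
-/

set_option autoImplicit false

namespace LIF

open Polynomial

variable {p : ℕ} [Fact p.Prime] {g : ℕ} {h0 : (ZMod p)[X]}

theorem Lp_coeff (D : (ZMod p)[X]) {j : ℕ} (hj : j ≤ 2 * g) :
    (Lp g D).coeff j = Sd D (2 * g - j) := by
  rw [Lp, finsetSum_coeff, Finset.sum_eq_single (2 * g - j)]
  · rw [coeff_C_mul_X_pow, if_pos (by omega)]
  · intro d hd hne
    rw [Finset.mem_range] at hd
    rw [coeff_C_mul_X_pow, if_neg (by omega)]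
  · intro h
    exact absurd (Finset.mem_range.2 (by omega)) h

theorem Eis_natDegree_le (D : (ZMod p)[X]) : (Lp g D).natDegree ≤ 2 * g := by
  rw [Lp]
  refine natDegree_sum_le_of_forall_le _ _ ?_
  intro d _
  exact (natDegree_C_mul_X_pow_le _ _).trans (by omega)

theorem Lp_monic (D : (ZMod p)[X]) : (Lp g D).Monic := by
  refine monic_of_natDegree_le_of_coeff_eq_one (2 * g) (Eis_natDegree_le D) ?_
  rw [Lp_coeff D le_rfl, Nat.sub_self, Sd_zero]

theorem Lp_natDegree (D : (ZMod p)[X]) : (Lp g D).natDegree = 2 * g := by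
  refine natDegree_eq_of_le_of_coeff_ne_zero (Eis_natDegree_le D) ?_
  rw [Lp_coeff D le_rfl, Nat.sub_self, Sd_zero]
  exact one_ne_zero

/-- modulo `2` the reversed L-polynomial is `X ^ (2 g) + 1` -/
theorem Eis_map (hg : Good p g h0) :
    (Lp g (Dp h0)).map (Int.castRingHom (ZMod 2)) = X ^ (2 * g) + 1 := by
  have g1 := hg.g1
  ext j
  rw [coeff_map, coeff_add, coeff_X_pow, coeff_one]
  rcases lt_trichotomy j (2 * g) with hj | hj | hj
  · rw [Lp_coeff _ hj.le, if_neg hj.ne, zero_add]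
    by_cases h0 : j = 0
    · subst h0
      rw [if_pos rfl, Nat.sub_zero, eq_intCast]
      exact ZMod.intCast_eq_one_iff_odd.2 (Sd_odd hg)
    · rw [if_neg h0, eq_intCast]
      exact ZMod.intCast_eq_zero_iff_even.2 (Sd_even hg (by omega) (by omega))
  · subst hj
    rw [Lp_coeff _ le_rfl, Nat.sub_self, Sd_zero, if_pos rfl, if_neg (by omega), map_one, add_zero]
  · rw [coeff_eq_zero_of_natDegree_lt ((Eis_natDegree_le _).trans_lt hj), if_neg hj.ne',
      if_neg (by omega), map_zero, add_zero]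

theorem Eis_comp_map {k : ℕ} (hg : Good p (2 ^ k) h0) :
    ((Lp (2 ^ k) (Dp h0)).comp (X + C 1)).map (Int.castRingHom (ZMod 2)) =
      X ^ (2 * 2 ^ k) := by
  rw [Polynomial.map_comp, Eis_map hg]
  have h1 : (2 * 2 ^ k : ℕ) = 2 ^ (k + 1) := by ring
  have h2 : (X + 1 : (ZMod 2)[X]) ^ (2 ^ (k + 1)) = X ^ (2 ^ (k + 1)) + 1 := by
    rw [add_pow_char_pow, one_pow]
  have h3 : (1 : (ZMod 2)[X]) + 1 = 0 := by
    have := CharP.cast_eq_zero (ZMod 2)[X] 2
    rw [← this]
    push_cast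
    norm_num
  rw [h1, Polynomial.map_add, map_X, Polynomial.map_C, map_one, C_1, add_comp, pow_comp, X_comp,
    one_comp, h2, add_assoc, h3, add_zero]

theorem Eis_at {k : ℕ} (hg : Good p (2 ^ k) h0) :
    ((Lp (2 ^ k) (Dp h0)).comp (X + C 1)).IsEisensteinAt (Ideal.span {(2 : ℤ)}) := by
  have hmon : ((Lp (2 ^ k) (Dp h0)).comp (X + C 1)).Monic := (Lp_monic _).comp_X_add_C 1
  have hdeg : ((Lp (2 ^ k) (Dp h0)).comp (X + C 1)).natDegree = 2 * 2 ^ k := by
    rw [natDegree_comp, Lp_natDegree, natDegree_X_add_C, mul_one]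
  refine ⟨?_, ?_, ?_⟩
  · rw [hmon.leadingCoeff, Ideal.mem_span_singleton]
    norm_num
  · intro n hn
    rw [hdeg] at hn
    have h1 := congrArg (fun q => coeff q n) (Eis_comp_map hg)
    simp only [coeff_map, coeff_X_pow, if_neg hn.ne, eq_intCast] at h1
    rw [Ideal.mem_span_singleton]
    exact (ZMod.intCast_zmod_eq_zero_iff_dvd _ 2).1 h1
  · have h1 : ((Lp (2 ^ k) (Dp h0)).comp (X + C 1)).coeff 0 =
        ∑ d ∈ Finset.range (2 * 2 ^ k + 1), Sd (Dp h0) d := by
      rw [coeff_zero_eq_eval_zero, eval_comp, eval_add, eval_X, eval_C, zero_add, Lp,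
        eval_finsetSum]
      refine Finset.sum_congr rfl ?_
      intro d _
      rw [eval_mul, eval_C, eval_pow, eval_X, one_pow, mul_one]
    rw [h1, Ideal.span_singleton_pow, Ideal.mem_span_singleton]
    have h2 := sum_Sd hg
    intro h3
    have h4 : (4 : ℤ) ∣ ∑ d ∈ Finset.range (2 * 2 ^ k + 1), Sd (Dp h0) d := by
      norm_num at h3
      exact h3
    omega

theorem Lp_irreducible {k : ℕ} (hg : Good p (2 ^ k) h0) :
    Irreducible ((Lp (2 ^ k) (Dp h0)).map (Int.castRingHom ℚ)) := by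
  have hmon : ((Lp (2 ^ k) (Dp h0)).comp (X + C 1)).Monic := (Lp_monic _).comp_X_add_C 1
  have hdeg : ((Lp (2 ^ k) (Dp h0)).comp (X + C 1)).natDegree = 2 * 2 ^ k := by
    rw [natDegree_comp, Lp_natDegree, natDegree_X_add_C, mul_one]
  have h1 : Irreducible ((Lp (2 ^ k) (Dp h0)).comp (X + C 1)) := by
    refine (Eis_at hg).irreducible ?_ hmon.isPrimitive ?_
    · rw [Ideal.span_singleton_prime two_ne_zero]
      exact Int.prime_two
    · rw [hdeg]
      positivity
  have h2 : Irreducible (Lp (2 ^ k) (Dp h0)) := by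
    have h3 : (Lp (2 ^ k) (Dp h0)).comp (X + C 1) =
        algEquivAevalXAddC (1 : ℤ) (Lp (2 ^ k) (Dp h0)) := by
      rw [algEquivAevalXAddC_apply]
      rfl
    rw [h3] at h1
    exact (MulEquiv.irreducible_iff (algEquivAevalXAddC (1 : ℤ))).1 h1
  exact ((Lp_monic _).irreducible_iff_irreducible_map_fraction_map (K := ℚ)).1 h2

end LIF
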