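import Pool.Agent.helper1.LI.Mon
import Pool.Agent.helper1.LI.Sym

/-!
[LI-Gauss1] The Gauss sums of the character `chx` modulo `f = fp h0 = (X - 1) h0`:
`Gam g h0 h = chx h0 h * Gam g h0 1` for EVERY polynomial `h` (import the stubs `Mon`, `Sym`).
(proofs: helper41)

Proof.  `f` is monic of degree `n = 2 g + 1`; `Low p n` is a set of representatives modulo `f`.
`Gam h = ∑_{y ∈ Low n} χ(y) ψ(((h y) %ₘ f).coeff (n - 1))`, `χ = chx h0` (depends only on the
class modulo `f`: `chx_add_mul`), and `(h y) %ₘ f` depends only on `h`, `y` modulo `f`.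
(1) If `h` is coprime to `f`: let `h'` be an inverse modulo `f`.  The map
`y ↦ (h y) %ₘ f` is a bijection of `Low p n` (inverse `y ↦ (h' y) %ₘ f`), and
`χ((h y) %ₘ f) = χ(h) χ(y)`; since `χ(h)^2 = 1` we get
`Gam h = ∑_y χ(h) χ(h y) ψ((h y %ₘ f).coeff (n-1)) = χ(h) Gam 1`.
(2) If `h` is not coprime to `f` then `χ(h) = 0` and we show `Gam h = 0`.  There is
`Q ∈ {X - 1, h0}` with `Q ∣ h` (both are irreducible, their product is `f`); let `Q'` be the
other one.  `Q` and `Q'` are coprime (`h0(1) ≠ 0`).  There is `u` with `u ≡ 1 mod Q'` and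
`χ(u) = -1`: if `Q = X - 1`: by the Chinese remainder theorem choose `u ≡ 1 mod h0`,
`u(1) = c` with `quadraticChar c = -1` (a nonsquare exists as `p ≠ 2`,
`FiniteField.exists_nonsquare` / `quadraticChar_exists_neg_one`); explicitly
`u = 1 + h0 * C ((c - 1) / h0(1))`.  If `Q = h0`: choose `u ≡ X - 1 mod h0` and `u(1) = 1`:
explicitly `u = (X - 1) + h0 * C (1 / h0(1))`; then `chh u = chh (X - 1) = -1`, `ch1 u = 1`.
`u` is coprime to `f` (`χ(u) ≠ 0`), `h u ≡ h mod f` (as `Q ∣ h`, `Q' ∣ u - 1`), so with the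
substitution `y ↦ u y`: `Gam h = ∑_y χ(u y) ψ(h u y) = χ(u) ∑_y χ(y) ψ(h y) = - Gam h`.
-/

set_option autoImplicit false

namespace LIF

open Polynomial

variable {p : ℕ} [Fact p.Prime] {g : ℕ} {h0 : (ZMod p)[X]}

theorem fp_monic (hg : Good p g h0) : (fp h0).Monic := by
  have h1 : (X - 1 : (ZMod p)[X]) = X - C 1 := by rw [C_1]
  rw [fp, h1]
  exact (monic_X_sub_C 1).mul hg.mon

theorem fp_natDegree (hg : Good p g h0) : (fp h0).natDegree = 2 * g + 1 := by
  have h1 : (X - 1 : (ZMod p)[X]) = X - C 1 := by rw [C_1]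
  rw [fp, h1, (monic_X_sub_C (1 : ZMod p)).natDegree_mul hg.mon, natDegree_X_sub_C, hg.deg]
  omega

theorem Gauss1_degree (hg : Good p g h0) : (fp h0).degree = ((2 * g + 1 : ℕ) : WithBot ℕ) := by
  rw [degree_eq_natDegree (fp_monic hg).ne_zero, fp_natDegree hg]

theorem Gauss1_mod (hg : Good p g h0) (a b : (ZMod p)[X]) :
    (a + fp h0 * b) %ₘ fp h0 = a %ₘ fp h0 := by
  refine (div_modByMonic_unique (a /ₘ fp h0 + b) _ (fp_monic hg)
    ⟨?_, degree_modByMonic_lt _ (fp_monic hg)⟩).2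
  rw [mul_add, ← add_assoc, modByMonic_add_div]

theorem Gauss1_mod_low (hg : Good p g h0) {y : (ZMod p)[X]} (hy : y ∈ Low p (2 * g + 1))
    (b : (ZMod p)[X]) : (y + fp h0 * b) %ₘ fp h0 = y := by
  rw [Gauss1_mod hg, (modByMonic_eq_self_iff (fp_monic hg)).2]
  rw [Gauss1_degree hg]
  exact mem_Low.1 hy

theorem Gauss1_low (hg : Good p g h0) (a : (ZMod p)[X]) : a %ₘ fp h0 ∈ Low p (2 * g + 1) := by
  rw [mem_Low, ← Gauss1_degree hg]
  exact degree_modByMonic_lt _ (fp_monic hg)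

/-- the substitution `y ↦ u y` -/
theorem Gauss1_subst (hg : Good p g h0) {u : (ZMod p)[X]} (hu : IsCoprime u (fp h0))
    (F : (ZMod p)[X] → ℂ) (hF : ∀ a b, F (a + fp h0 * b) = F a) :
    ∑ y ∈ Low p (2 * g + 1), F (u * y) = ∑ y ∈ Low p (2 * g + 1), F y := by
  obtain ⟨a, b, hab⟩ := hu
  refine Finset.sum_nbij' (fun y => (u * y) %ₘ fp h0) (fun y => (a * y) %ₘ fp h0)
    (fun y _ => Gauss1_low hg _) (fun y _ => Gauss1_low hg _) ?_ ?_ ?_
  · intro y hy
    have h1 := modByMonic_add_div (u * y) (fp h0)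
    have h2 : a * ((u * y) %ₘ fp h0) = y + fp h0 * (-(b * y + a * ((u * y) /ₘ fp h0))) := by
      have h3 : (u * y) %ₘ fp h0 = u * y - fp h0 * ((u * y) /ₘ fp h0) := eq_sub_of_add_eq h1
      rw [h3]
      linear_combination y * hab
    show (a * ((u * y) %ₘ fp h0)) %ₘ fp h0 = y
    rw [h2, Gauss1_mod_low hg hy]
  · intro y hy
    have h1 := modByMonic_add_div (a * y) (fp h0)
    have h2 : u * ((a * y) %ₘ fp h0) = y + fp h0 * (-(b * y + u * ((a * y) /ₘ fp h0))) := by
      have h3 : (a * y) %ₘ fp h0 = a * y - fp h0 * ((a * y) /ₘ fp h0) := eq_sub_of_add_eq h1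
      rw [h3]
      linear_combination y * hab
    show (u * ((a * y) %ₘ fp h0)) %ₘ fp h0 = y
    rw [h2, Gauss1_mod_low hg hy]
  · intro y _
    show F (u * y) = F ((u * y) %ₘ fp h0)
    conv_lhs => rw [← modByMonic_add_div (u * y) (fp h0)]
    exact hF _ _

theorem Gauss1_coprime (hg : Good p g h0) {u : (ZMod p)[X]} (hu : chx h0 u ≠ 0) :
    IsCoprime u (fp h0) := by
  rw [chx] at hu
  have h1 : ch1 u ≠ 0 := left_ne_zero_of_mul hu
  have h2 : chh h0 u ≠ 0 := right_ne_zero_of_mul hu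
  rw [ch1_ne_zero_iff] at h1
  rw [chh_ne_zero_iff hg] at h2
  rw [fp]
  refine IsCoprime.mul_right ?_ (hg.irr.coprime_iff_not_dvd.2 h2).symm
  have h3 : (X - 1 : (ZMod p)[X]) = X - C 1 := by rw [C_1]
  rw [h3]
  refine ((irreducible_X_sub_C (1 : ZMod p)).coprime_iff_not_dvd.2 ?_).symm
  rw [dvd_iff_isRoot]
  exact h1

theorem Gauss1_inv (hg : Good p g h0) (h a b : (ZMod p)[X]) :
    (chx h0 (a + fp h0 * b) : ℂ) *
      ZMod.stdAddChar (((h * (a + fp h0 * b)) %ₘ fp h0).coeff (2 * g)) =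
    (chx h0 a : ℂ) * ZMod.stdAddChar (((h * a) %ₘ fp h0).coeff (2 * g)) := by
  rw [chx_add_mul hg, show h * (a + fp h0 * b) = h * a + fp h0 * (h * b) by ring,
    Gauss1_mod hg]

/-- the vanishing of the Gauss sum -/
theorem Gauss1_zero (hg : Good p g h0) {h u v : (ZMod p)[X]} (hu : chx h0 u = -1)
    (hv : h * u = h + fp h0 * v) : Gam g h0 h = 0 := by
  have hcop : IsCoprime u (fp h0) := Gauss1_coprime hg (by rw [hu]; norm_num)
  have h1 := Gauss1_subst hg hcop (fun y => (chx h0 y : ℂ) *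
    ZMod.stdAddChar (((h * y) %ₘ fp h0).coeff (2 * g))) (fun a b => Gauss1_inv hg h a b)
  have h2 : ∑ y ∈ Low p (2 * g + 1), (chx h0 (u * y) : ℂ) *
      ZMod.stdAddChar (((h * (u * y)) %ₘ fp h0).coeff (2 * g)) = - Gam g h0 h := by
    rw [Gam, ← Finset.sum_neg_distrib]
    refine Finset.sum_congr rfl fun y _ => ?_
    rw [chx_mul hg, hu, ← mul_assoc h u y, hv,
      show (h + fp h0 * v) * y = h * y + fp h0 * (v * y) by ring, Gauss1_mod hg]
    push_cast
    ring
  have h3 : - Gam g h0 h = Gam g h0 h := h2.symm.trans h1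
  have h4 : (2 : ℂ) * Gam g h0 h = 0 := by linear_combination - h3
  exact (mul_eq_zero.1 h4).resolve_left two_ne_zero

theorem Gauss1_one (hg : Good p g h0) : h0.eval 1 ≠ 0 := by
  intro h1
  have h2 := hg.nsq
  rw [h1, MulChar.map_zero] at h2
  exact absurd h2 (by norm_num)

theorem Gam_eq (hg : Good p g h0) (h : (ZMod p)[X]) :
    Gam g h0 h = (chx h0 h : ℂ) * Gam g h0 1 := by
  have hc := Gauss1_one hg
  by_cases hz : chx h0 h = 0
  · rw [hz, Int.cast_zero, zero_mul]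
    rw [chx] at hz
    rcases mul_eq_zero.1 hz with h1 | h1
    · -- `X - 1` divides `h`
      have h2 : h.eval 1 = 0 := by
        by_contra h3
        exact (ch1_ne_zero_iff h).2 h3 h1
      obtain ⟨k, hk⟩ := dvd_iff_isRoot.2 h2
      rw [C_1] at hk
      have hu1 : ch1 (1 + h0 * C ((h0.eval 1 - 1) / h0.eval 1)) = -1 := by
        rw [ch1, eval_add, eval_one, eval_mul, eval_C, mul_div_cancel₀ _ hc, add_sub_cancel]
        exact hg.nsq
      have hu2 : chh h0 (1 + h0 * C ((h0.eval 1 - 1) / h0.eval 1)) = 1 := by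
        rw [chh_add_mul hg, ← C_1, chh_C hg one_ne_zero]
      refine Gauss1_zero hg (u := 1 + h0 * C ((h0.eval 1 - 1) / h0.eval 1))
        (v := k * C ((h0.eval 1 - 1) / h0.eval 1)) (by rw [chx, hu1, hu2, mul_one]) ?_
      rw [fp]
      conv_lhs => rw [mul_add, mul_one]
      conv_lhs =>
        rhs
        rw [hk]
      ring
    · -- `h0` divides `h`
      have h2 : h0 ∣ h := by
        by_contra h3
        exact (chh_ne_zero_iff hg h).2 h3 h1
      obtain ⟨k, hk⟩ := h2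
      have hu1 : ((X - 1) + h0 * C (1 / h0.eval 1)).eval 1 = 1 := by
        rw [eval_add, eval_sub, eval_X, eval_one, sub_self, zero_add, eval_mul, eval_C,
          mul_div_cancel₀ _ hc]
      have hu2 : ch1 ((X - 1) + h0 * C (1 / h0.eval 1)) = 1 := by
        rw [ch1, hu1, map_one]
      have hu3 : chh h0 ((X - 1) + h0 * C (1 / h0.eval 1)) = -1 := by
        rw [chh_add_mul hg, chh_X_sub_one hg]
      have hu4 : ((X - 1) + h0 * C (1 / h0.eval 1) - 1).IsRoot 1 := by
        rw [IsRoot, eval_sub, hu1, eval_one, sub_self]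
      obtain ⟨v, hv⟩ := dvd_iff_isRoot.2 hu4
      rw [C_1] at hv
      refine Gauss1_zero hg (u := (X - 1) + h0 * C (1 / h0.eval 1)) (v := k * v)
        (by rw [chx, hu2, hu3, one_mul]) ?_
      have h5 : (X - 1) + h0 * C (1 / h0.eval 1) = 1 + (X - 1) * v := by
        rw [← hv]
        ring
      rw [h5, fp, mul_add, mul_one]
      conv_lhs =>
        rhs
        rw [hk]
      ring
  · have hcop := Gauss1_coprime hg hz
    have hsq : (chx h0 h : ℂ) * (chx h0 h : ℂ) = 1 := by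
      have h1 : chx h0 h = 1 ∨ chx h0 h = -1 := by
        rw [chx] at hz ⊢
        rcases ch1_cases h with a | a | a <;> rcases chh_cases (h0 := h0) h with b | b | b <;>
          rw [a, b] at hz ⊢ <;> revert hz <;> decide
      rcases h1 with h1 | h1 <;> rw [h1] <;> norm_num
    have h1 := Gauss1_subst hg hcop (fun y => (chx h0 y : ℂ) *
      ZMod.stdAddChar (((1 * y) %ₘ fp h0).coeff (2 * g))) (fun a b => Gauss1_inv hg 1 a b)
    have h2 : ∑ y ∈ Low p (2 * g + 1), (chx h0 (h * y) : ℂ) *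
        ZMod.stdAddChar (((1 * (h * y)) %ₘ fp h0).coeff (2 * g)) =
        (chx h0 h : ℂ) * Gam g h0 h := by
      rw [Gam, Finset.mul_sum]
      refine Finset.sum_congr rfl fun y _ => ?_
      rw [chx_mul hg, one_mul]
      push_cast
      ring
    have h3 : (chx h0 h : ℂ) * Gam g h0 h = Gam g h0 1 := h2.symm.trans h1
    rw [← h3, ← mul_assoc, hsq, one_mul]

end LIF
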