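import Pool.Agent.helper1.LI.ChiMp

/-!
[LI-Pts] Number of points: `#{(x, y) ∈ F_(p^m)^2 : y^2 = D(x)} = p^m + a_m`
(import the stubs `Km`, `ChiMp`).

Proof.  (1) Transfer from `GaloisField p m` to `K = AlgebraicClosure (ZMod p)`: there is a
`ZMod p`-algebra embedding `φ : GaloisField p m →ₐ[ZMod p] K` (`IsAlgClosed.lift`), its image is
`Km p m` (both have `p^m` elements, `GaloisField.card`, and every element of the image satisfies
`x^(p^m) = x`, `FiniteField.pow_card`).  `φ` commutes with `aeval`.  So the number of points is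
`#{(x, y) ∈ Km × Km : y^2 = D(x)}`.
(2) For `x ∈ Km p m` the element `c = D(x)` satisfies `c^(p^m) = c` (coefficients in `ZMod p`).
Let `q = p^m` (odd).  Number of `y ∈ Km` with `y^2 = c`: every `y ∈ K` with `y^2 = c ≠ 0` satisfies
`y^(q-1) = c^((q-1)/2)`, so `y ∈ Km` iff `c^((q-1)/2) = 1`; there are two `y ∈ K` with `y^2 = c`
if `c ≠ 0` (char `≠ 2`) and one if `c = 0`.  Hence the number is `1 + χ` with `χ = 1, -1, 0`
according to `c^((q-1)/2) = 1`, `= -1`, `c = 0` (and `c^(q-1) = 1` for `c ≠ 0`, so
`c^((q-1)/2) = ±1`).  By `chi_Mp`, and because `chi ∈ {0, 1, -1}` is determined by its image in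
`K` (`0, 1, -1` are distinct as `p ≠ 2`), `χ = chi D (Mp m x)`.
(3) Sum over `x ∈ Km p m`: `p^m + am D m` (`card_Km`).
-/

set_option autoImplicit false

namespace LIF

open Polynomial

private theorem Pts_cast {p : ℕ} [Fact p.Prime] (p2 : p ≠ 2) {a b : ℤ}
    (ha : a = 0 ∨ a = 1 ∨ a = -1) (hb : b = 0 ∨ b = 1 ∨ b = -1)
    (h : (a : AlgebraicClosure (ZMod p)) = (b : AlgebraicClosure (ZMod p))) : a = b := by
  have hp := (Fact.out : p.Prime).two_le
  have h1 : ((a - b : ℤ) : AlgebraicClosure (ZMod p)) = 0 := by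
    rw [Int.cast_sub, h, sub_self]
  rw [CharP.intCast_eq_zero_iff (AlgebraicClosure (ZMod p)) p] at h1
  obtain ⟨k, hk⟩ := h1
  have hp3 : (3 : ℤ) ≤ p := by
    have : 3 ≤ p := by omega
    exact_mod_cast this
  have hk0 : k = 0 := by
    have h2 : a - b ≤ 2 := by omega
    have h3 : -2 ≤ a - b := by omega
    rw [hk] at h2 h3
    by_contra hk0
    rcases lt_or_gt_of_ne hk0 with h4 | h4
    · nlinarith
    · nlinarith
  rw [hk0, mul_zero] at hk
  omega

theorem card_points {p : ℕ} [Fact p.Prime] (p2 : p ≠ 2) (D : (ZMod p)[X]) {m : ℕ} (hm : 1 ≤ m) :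
    (Nat.card {z : GaloisField p m × GaloisField p m // z.2 ^ 2 = aeval z.1 D} : ℤ) =
      (p : ℤ) ^ m + am D m := by
  classical
  have hm0 : m ≠ 0 := by omega
  let F := GaloisField p m
  let _ : Fintype F := Fintype.ofFinite F
  have hcard : Fintype.card F = p ^ m := by
    rw [← Nat.card_eq_fintype_card]
    exact GaloisField.card p m hm0
  have hchar : ringChar F ≠ 2 := by
    have h1 : ringChar F = p := ringChar.eq F p
    rw [h1]
    exact p2
  let φ : F →ₐ[ZMod p] AlgebraicClosure (ZMod p) := IsAlgClosed.lift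
  have hφ : Function.Injective φ := φ.toRingHom.injective
  have hodd : p ^ m / 2 = (p ^ m - 1) / 2 := by
    have h1 : Odd (p ^ m) := ((Fact.out : p.Prime).odd_of_ne_two p2).pow
    obtain ⟨k, hk⟩ := h1
    omega
  have hmem : ∀ x : F, φ x ∈ Km p m := by
    intro x
    rw [mem_Km hm, ← map_pow, ← hcard, FiniteField.pow_card]
  have himage : Finset.univ.image φ = Km p m := by
    apply Finset.eq_of_subset_of_card_le
    · intro y hy
      obtain ⟨x, _, rfl⟩ := Finset.mem_image.1 hy
      exact hmem x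
    · rw [card_Km hm, Finset.card_image_of_injective _ hφ, Finset.card_univ, hcard]
  have hchi : ∀ x : F, quadraticChar F (aeval x D) = chi D (Mp m (φ x)) := by
    intro x
    apply Pts_cast p2
    · exact quadraticChar_isQuadratic F _
    · exact quadraticChar_isQuadratic (ZMod p) _
    · rw [chi_Mp p2 D hm (hmem x), ← hodd, ← hcard, aeval_algHom_apply, ← map_pow,
        ← quadraticChar_eq_pow_of_char_ne_two' hchar, map_intCast]
  have hsum : am D m = ∑ x : F, quadraticChar F (aeval x D) := by
    rw [am, ← himage, Finset.sum_image fun a _ b _ h => hφ h]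
    exact Finset.sum_congr rfl fun x _ => (hchi x).symm
  have hpts : Nat.card {z : F × F // z.2 ^ 2 = aeval z.1 D} =
      ∑ x : F, (Finset.univ.filter fun y : F => y ^ 2 = aeval x D).card := by
    rw [Nat.card_eq_fintype_card, Fintype.card_subtype, Finset.card_filter, Fintype.sum_prod_type]
    refine Finset.sum_congr rfl fun x _ => ?_
    rw [Finset.card_filter]
  have hfib : ∀ x : F, ((Finset.univ.filter fun y : F => y ^ 2 = aeval x D).card : ℤ) =
      quadraticChar F (aeval x D) + 1 := by
    intro x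
    rw [← quadraticChar_card_sqrts hchar (aeval x D)]
    congr 2
    ext y
    simp
  have hres : (Nat.card {z : F × F // z.2 ^ 2 = aeval z.1 D} : ℤ) = (p : ℤ) ^ m + am D m := by
    rw [hpts, Nat.cast_sum, Finset.sum_congr rfl fun x _ => hfib x, Finset.sum_add_distrib, ← hsum,
      Finset.sum_const, Finset.card_univ, hcard]
    simp only [nsmul_eq_mul, mul_one]
    push_cast
    ring
  exact hres

end LIF
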