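import Pool.Agent.helper1.LI.Newt
import Pool.Agent.helper1.LI.MulNewt
import Pool.Agent.helper1.LI.Sym
import Pool.Agent.helper1.LI.Van
import Pool.Agent.helper1.LI.Eis

/-!
[LI-Roots] `a_m = - ∑ α^m` over the complex roots of the reversed L-polynomial (import the stubs
`Newt`, `MulNewt`, `Sym`, `Van`, `Eis`).

Proof.  `f = Lp g D`, `D = Dp h0`, monic of degree `2 g`, `s` = multiset of complex roots,
`card s = 2 g`, `f = ∏_{x ∈ s} (X - x)` (`IsAlgClosed.splits`), so `mc s d = (S_d : ℂ)` for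
`d ≤ 2g` (`Lp_coeff`) and `mc s d = 0 = S_d` for `d > 2 g` (`Sd_vanish`).
`newton_mult` with `c = chi D` (`chi_mul`), `R = ℤ`: `d S_d = ∑_{m=1}^d a_m S_{d-m}` for all `d`;
`mul_newton`: `d S_d = - ∑_{m=1}^d p_m S_{d-m}`, `p_m = ∑ x^m`.  By strong induction on `m ≥ 1`
(compare both identities at `d = m`, the term `m = d` has the coefficient `S_0 = 1`) `a_m = - p_m`.
-/

set_option autoImplicit false

namespace LIF

open Polynomial

theorem Roots_S0 {p : ℕ} [Fact p.Prime] (g : ℕ) (D : (ZMod p)[X]) : Sd D 0 = 1 := by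
  have h1 := Lp_coeff (g := g) D (le_refl (2 * g))
  rw [Nat.sub_self] at h1
  rw [← h1]
  have h2 := (Lp_monic (g := g) D).coeff_natDegree
  rwa [Lp_natDegree] at h2

theorem Roots_mc {p : ℕ} [Fact p.Prime] {g : ℕ} {h0 : (ZMod p)[X]} (hg : Good p g h0) (d : ℕ) :
    mc ((Lp g (Dp h0)).map (Int.castRingHom ℂ)).roots d = ((Sd (Dp h0) d : ℤ) : ℂ) := by
  have hsp := IsAlgClosed.splits ((Lp g (Dp h0)).map (Int.castRingHom ℂ))
  have hmon : ((Lp g (Dp h0)).map (Int.castRingHom ℂ)).Monic := (Lp_monic (Dp h0)).map _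
  have hcard : ((Lp g (Dp h0)).map (Int.castRingHom ℂ)).roots.card = 2 * g := by
    rw [splits_iff_card_roots.1 hsp, (Lp_monic (Dp h0)).natDegree_map, Lp_natDegree]
  have hprod : (((Lp g (Dp h0)).map (Int.castRingHom ℂ)).roots.map (fun x => X - C x)).prod =
      (Lp g (Dp h0)).map (Int.castRingHom ℂ) := by
    apply prod_multiset_X_sub_C_of_monic_of_roots_card_eq hmon
    exact splits_iff_card_roots.1 hsp
  unfold mc
  rw [hcard, hprod]
  by_cases hd : d ≤ 2 * g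
  · rw [if_pos hd, coeff_map, Lp_coeff (Dp h0) (Nat.sub_le _ _), Nat.sub_sub_self hd]
    rfl
  · rw [if_neg hd, Sd_vanish hg (by omega)]
    simp

theorem am_eq_roots {p : ℕ} [Fact p.Prime] {g : ℕ} {h0 : (ZMod p)[X]} (hg : Good p g h0)
    {m : ℕ} (hm : 1 ≤ m) :
    ((am (Dp h0) m : ℤ) : ℂ) =
      - ((((Lp g (Dp h0)).map (Int.castRingHom ℂ)).roots.map (fun x => x ^ m)).sum) := by
  induction m using Nat.strong_induction_on with
  | _ m ih =>
    obtain ⟨n, rfl⟩ : ∃ n, m = n + 1 := ⟨m - 1, by omega⟩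
    have h1 : (((n + 1 : ℕ) : ℤ) : ℤ) * Sd (Dp h0) (n + 1) =
        ∑ j ∈ Finset.Icc 1 (n + 1), am (Dp h0) j * Sd (Dp h0) (n + 1 - j) :=
      newton_mult (R := ℤ) (fun h => chi (Dp h0) h)
        (fun a b ha hb => chi_mul (Dp h0) ha hb) (n + 1)
    have h2 := mul_newton (((Lp g (Dp h0)).map (Int.castRingHom ℂ)).roots) hm
    have h3 : (((n + 1 : ℕ) : ℂ)) * ((Sd (Dp h0) (n + 1) : ℤ) : ℂ) =
        ∑ j ∈ Finset.Icc 1 (n + 1), ((am (Dp h0) j : ℤ) : ℂ) *
          ((Sd (Dp h0) (n + 1 - j) : ℤ) : ℂ) := by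
      have h4 := congrArg (fun z : ℤ => (z : ℂ)) h1
      push_cast at h4
      push_cast
      exact h4
    simp only [Roots_mc hg] at h2
    rw [h3] at h2
    rw [Finset.sum_Icc_succ_top (by omega), Finset.sum_Icc_succ_top (by omega), Nat.sub_self,
      Roots_S0 g, Int.cast_one, mul_one, mul_one] at h2
    have h5 : ∑ j ∈ Finset.Icc 1 n, ((am (Dp h0) j : ℤ) : ℂ) *
          ((Sd (Dp h0) (n + 1 - j) : ℤ) : ℂ) =
        - ∑ j ∈ Finset.Icc 1 n,
          ((((Lp g (Dp h0)).map (Int.castRingHom ℂ)).roots.map (fun x => x ^ j)).sum) *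
            ((Sd (Dp h0) (n + 1 - j) : ℤ) : ℂ) := by
      rw [← Finset.sum_neg_distrib]
      apply Finset.sum_congr rfl
      intro j hj
      rw [Finset.mem_Icc] at hj
      rw [ih j (by omega) hj.1]
      ring
    rw [h5] at h2
    linear_combination h2

end LIF
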