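import Mathlib

/-!
[LI-StA] Stepanov's method, non-vanishing of the auxiliary polynomial (imports Mathlib only).

`q` odd, `D` of odd degree `n ≤ q`, `c0 = D(0) ≠ 0`, `D^q ≡ c0 (mod X^q)`, `e = (q-1)/2`,
`r_j, s_j` of degree `< B = (q-n)/2`.  If `∑_j (r_j + s_j D^e) X^(q j) = 0` then all
`r_j = s_j = 0`.

Proof.  Otherwise let `j0` be the smallest index with `(r_j, s_j) ≠ (0, 0)`.  Dividing by
`X^(q j0)`: `X^q ∣ r + s D^e`, `r = r_{j0}`, `s = s_{j0}`.  Then `r ≡ - s D^e`, so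
`r^2 ≡ s^2 D^(q-1)` and `r^2 D ≡ s^2 D^q ≡ c0 s^2 (mod X^q)`.  Degrees:
`deg(r^2 D) ≤ 2(B-1) + n < q` and `deg(c0 s^2) ≤ 2(B-1) < q` (use `degree`, if `B = 0` then
`r = s = 0` at once), so `r^2 D = c0 s^2`.  If `r ≠ 0` the left side has odd degree
`2 deg r + n` while the right side is `0` or has even degree: contradiction.  So `r = 0`, then
`c0 s^2 = 0`, `s = 0`: contradiction.
-/

set_option autoImplicit false

namespace LIF

open Polynomial

theorem StA_key {K : Type*} [Field K] {q n : ℕ} {D : K[X]} (hn : D.natDegree = n)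
    (hodd : Odd n) (hq : Odd q) (hnq : n ≤ q) (h0 : D.coeff 0 ≠ 0)
    (hDq : X ^ q ∣ D ^ q - C (D.coeff 0)) {r s : K[X]}
    (hr : r.degree < (((q - n) / 2 : ℕ) : WithBot ℕ))
    (hs : s.degree < (((q - n) / 2 : ℕ) : WithBot ℕ))
    (h : X ^ q ∣ r + s * D ^ ((q - 1) / 2)) : r = 0 ∧ s = 0 := by
  have hD : D ≠ 0 := by
    rintro rfl
    simp at h0
  obtain ⟨e, he⟩ := hq
  have he2 : (q - 1) / 2 = e := by omega
  rw [he2] at h
  have h1 : X ^ q ∣ r ^ 2 * D - C (D.coeff 0) * s ^ 2 := by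
    have h2 : r ^ 2 * D - C (D.coeff 0) * s ^ 2 =
        (r + s * D ^ e) * ((r - s * D ^ e) * D) + s ^ 2 * (D ^ q - C (D.coeff 0)) := by
      rw [he]
      ring
    rw [h2]
    exact dvd_add (Dvd.dvd.mul_right h _) (Dvd.dvd.mul_left hDq _)
  have hdr : (r ^ 2 * D).degree < (q : WithBot ℕ) := by
    by_cases hr0 : r = 0
    · rw [hr0, zero_pow two_ne_zero, zero_mul, degree_zero]
      exact WithBot.bot_lt_coe _
    · rw [degree_eq_natDegree (mul_ne_zero (pow_ne_zero _ hr0) hD),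
        natDegree_mul (pow_ne_zero _ hr0) hD, natDegree_pow, hn]
      rw [degree_eq_natDegree hr0] at hr
      have h3 : r.natDegree < (q - n) / 2 := by exact_mod_cast hr
      have h4 : 2 * r.natDegree + n < q := by omega
      exact_mod_cast h4
  have hC : C (D.coeff 0) ≠ 0 := C_ne_zero.2 h0
  have hds : (C (D.coeff 0) * s ^ 2).degree < (q : WithBot ℕ) := by
    by_cases hs0 : s = 0
    · rw [hs0, zero_pow two_ne_zero, mul_zero, degree_zero]
      exact WithBot.bot_lt_coe _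
    · rw [degree_eq_natDegree (mul_ne_zero hC (pow_ne_zero _ hs0)),
        natDegree_C_mul h0, natDegree_pow]
      rw [degree_eq_natDegree hs0] at hs
      have h3 : s.natDegree < (q - n) / 2 := by exact_mod_cast hs
      have h4 : 2 * s.natDegree < q := by omega
      exact_mod_cast h4
  have hz : r ^ 2 * D - C (D.coeff 0) * s ^ 2 = 0 := by
    refine eq_zero_of_dvd_of_degree_lt h1 ?_
    rw [degree_X_pow]
    exact lt_of_le_of_lt (degree_sub_le _ _) (max_lt hdr hds)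
  have heq := sub_eq_zero.1 hz
  have hr0 : r = 0 := by
    by_contra hr0
    have hL : r ^ 2 * D ≠ 0 := mul_ne_zero (pow_ne_zero _ hr0) hD
    have h5 := congrArg natDegree heq
    rw [natDegree_mul (pow_ne_zero _ hr0) hD, natDegree_pow, hn, natDegree_C_mul h0,
      natDegree_pow] at h5
    obtain ⟨m, hm⟩ := hodd
    omega
  refine ⟨hr0, ?_⟩
  rw [hr0, zero_pow two_ne_zero, zero_mul] at heq
  rcases mul_eq_zero.1 heq.symm with h7 | h7
  · exact absurd h7 hC
  · exact pow_eq_zero_iff (two_ne_zero) |>.1 h7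

theorem st_nonzero {K : Type*} [Field K] {q n J : ℕ} {D : K[X]} (hn : D.natDegree = n)
    (hodd : Odd n) (hq : Odd q) (hnq : n ≤ q) (h0 : D.coeff 0 ≠ 0)
    (hDq : X ^ q ∣ D ^ q - C (D.coeff 0)) (r s : Fin J → K[X])
    (hr : ∀ j, (r j).degree < (((q - n) / 2 : ℕ) : WithBot ℕ))
    (hs : ∀ j, (s j).degree < (((q - n) / 2 : ℕ) : WithBot ℕ))
    (h : ∑ j, (r j + s j * D ^ ((q - 1) / 2)) * X ^ (q * (j : ℕ)) = 0) :
    ∀ j, r j = 0 ∧ s j = 0 := by
  intro j
  obtain ⟨m, hm⟩ : ∃ m, m = (j : ℕ) := ⟨_, rfl⟩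
  induction m using Nat.strong_induction_on generalizing j with
  | _ m ih =>
    have hlt : ∀ i : Fin J, i < j → r i = 0 ∧ s i = 0 := fun i hi =>
      ih i (by rw [hm]; exact hi) i rfl
    apply StA_key hn hodd hq hnq h0 hDq (hr j) (hs j)
    have h1 : X ^ (q * (j : ℕ) + q) ∣
        (r j + s j * D ^ ((q - 1) / 2)) * X ^ (q * (j : ℕ)) := by
      have h2 : (r j + s j * D ^ ((q - 1) / 2)) * X ^ (q * (j : ℕ)) =
          - ∑ i ∈ Finset.univ.erase j,
            (r i + s i * D ^ ((q - 1) / 2)) * X ^ (q * (i : ℕ)) := by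
        rw [← Finset.add_sum_erase _ _ (Finset.mem_univ j)] at h
        exact eq_neg_of_add_eq_zero_left h
      rw [h2, dvd_neg]
      refine Finset.dvd_sum fun i hi => ?_
      rcases lt_or_gt_of_ne (Finset.ne_of_mem_erase hi) with h3 | h3
      · obtain ⟨h4, h5⟩ := hlt i h3
        rw [h4, h5]
        simp
      · refine Dvd.dvd.mul_left (pow_dvd_pow _ ?_) _
        have h4 : (j : ℕ) + 1 ≤ i := h3
        calc q * (j : ℕ) + q = q * ((j : ℕ) + 1) := by ring
          _ ≤ q * i := Nat.mul_le_mul_left _ h4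
    rw [pow_add, mul_comm (X ^ (q * (j : ℕ))) (X ^ q)] at h1
    exact (mul_dvd_mul_iff_right (pow_ne_zero _ X_ne_zero)).1 h1

end LIF
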