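import Mathlib

/-!
proofs: helper68

[LI-StB] Stepanov's method, Hasse derivatives of `D^N w` (imports Mathlib only).

* `hasse_pow_dvd`: `D^(N-k) ∣ hasseDeriv k (D^N)` for `k ≤ N`.  Induction on `N` (for all `k ≤ N`)
  with Leibniz (`Polynomial.hasseDeriv_mul`):
  `hasseDeriv k (D^N * D) = ∑_{i+j=k} hasseDeriv i (D^N) * hasseDeriv j D`; the term `j = 0` is
  `hasseDeriv k (D^N) * D`, divisible by `D^(N-k) * D` if `k ≤ N` (if `k = N + 1` nothing is
  claimed, exponent `0`); the terms `j ≥ 1` contain `hasseDeriv i (D^N)`, `i ≤ k - 1`, divisible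
  by `D^(N-i)` and `N - i ≥ N + 1 - k`.
  (Or via `Polynomial.taylor`: `taylor x (D^N) = (D + T (...))^N`.)
* `st_deriv`: by Leibniz `hasseDeriv k (D^N w) = ∑_{i+j=k} hasseDeriv i (D^N) hasseDeriv j w` is
  divisible by `D^(N-k)`; as `K[X]` is a domain and `D ≠ 0` the quotient
  `Θ w = hasseDeriv k (D^N w) / D^(N-k)` is `K`-linear in `w` (cancel `D^(N-k)`).
  Degree: `natDegree (hasseDeriv k P) ≤ natDegree P - k` (`Polynomial.natDegree_hasseDeriv_le`),
  so, if `Θ w ≠ 0`: `natDegree (Θ w) + n (N - k) ≤ n N + natDegree w - k`, i.e.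
  `natDegree (Θ w) ≤ natDegree w + n k - k`.
* `hasse_X_pow`: in characteristic `p`, `q = p^M`: `hasseDeriv i (X^(q j)) = 0` for `0 < i < q`
  (`(q j).choose i = 0` in `K`: e.g. `taylor a (X^(q j)) = ((X + C a)^q)^j = (X^q + C a^q)^j` has
  no coefficient at `0 < i < q`; or `Polynomial.hasseDeriv_monomial` and Lucas' theorem /
  `Nat.Prime.dvd_choose_pow`-type lemma), and `hasse_mul_X_pow`: therefore for `k < q`
  `hasseDeriv k (w * X^(q j)) = hasseDeriv k w * X^(q j)` (Leibniz).
-/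

set_option autoImplicit false

namespace LIF

open Polynomial

variable {K : Type*} [Field K]

theorem StB_pow_dvd (D : K[X]) (N : ℕ) : ∀ k : ℕ, D ^ (N - k) ∣ hasseDeriv k (D ^ N) := by
  induction N with
  | zero =>
    intro k
    rw [Nat.zero_sub, pow_zero]
    exact one_dvd _
  | succ N ih =>
    intro k
    rw [pow_succ D N, hasseDeriv_mul]
    refine Finset.dvd_sum (fun ij hij => ?_)
    have hs := Finset.HasAntidiagonal.mem_antidiagonal.1 hij
    rcases Nat.eq_zero_or_pos ij.2 with h0 | h0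
    · rw [h0, hasseDeriv_zero', show ij.1 = k by omega]
      refine (pow_dvd_pow D (show N + 1 - k ≤ (N - k) + 1 by omega)).trans ?_
      rw [pow_succ]
      exact mul_dvd_mul (ih k) dvd_rfl
    · refine Dvd.dvd.mul_right ?_ _
      exact (pow_dvd_pow D (show N + 1 - k ≤ N - ij.1 by omega)).trans (ih ij.1)

theorem hasse_pow_dvd (D : K[X]) {N k : ℕ} (hk : k ≤ N) :
    D ^ (N - k) ∣ hasseDeriv k (D ^ N) :=
  StB_pow_dvd D N k

theorem StB_mul_dvd (D : K[X]) {N k : ℕ} (w : K[X]) :
    D ^ (N - k) ∣ hasseDeriv k (D ^ N * w) := by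
  rw [hasseDeriv_mul]
  refine Finset.dvd_sum (fun ij hij => ?_)
  have hs := Finset.HasAntidiagonal.mem_antidiagonal.1 hij
  refine Dvd.dvd.mul_right ?_ _
  exact (pow_dvd_pow D (show N - k ≤ N - ij.1 by omega)).trans (StB_pow_dvd D N ij.1)

theorem st_deriv {D : K[X]} (hD : D ≠ 0) {N k : ℕ} (hk : k ≤ N) :
    ∃ Θ : K[X] →ₗ[K] K[X], (∀ w, hasseDeriv k (D ^ N * w) = D ^ (N - k) * Θ w) ∧
      ∀ w, (Θ w).natDegree ≤ w.natDegree + k * (D.natDegree - 1) := by
  have hex : ∀ w : K[X], ∃ u, hasseDeriv k (D ^ N * w) = D ^ (N - k) * u :=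
    fun w => StB_mul_dvd D w
  choose Θ hΘ using hex
  have hD' : D ^ (N - k) ≠ 0 := pow_ne_zero _ hD
  refine ⟨{ toFun := Θ, map_add' := fun a b => ?_, map_smul' := fun c a => ?_ }, hΘ, fun w => ?_⟩
  · apply mul_left_cancel₀ hD'
    rw [← hΘ, mul_add, mul_add, map_add, hΘ, hΘ]
  · apply mul_left_cancel₀ hD'
    rw [← hΘ, RingHom.id_apply, mul_smul_comm, mul_smul_comm, map_smul, hΘ]
  · show (Θ w).natDegree ≤ w.natDegree + k * (D.natDegree - 1)
    by_cases h0 : Θ w = 0
    · rw [h0, natDegree_zero]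
      exact Nat.zero_le _
    · have hw : w ≠ 0 := by
        rintro rfl
        apply h0
        apply mul_left_cancel₀ hD'
        rw [← hΘ, mul_zero, mul_zero, map_zero]
      have h1 : (D ^ (N - k) * Θ w).natDegree = (N - k) * D.natDegree + (Θ w).natDegree := by
        rw [natDegree_mul hD' h0, natDegree_pow]
      have h2 : (hasseDeriv k (D ^ N * w)).natDegree ≤ (D ^ N * w).natDegree - k :=
        natDegree_hasseDeriv_le _ _
      rw [hΘ, h1, natDegree_mul (pow_ne_zero _ hD) hw, natDegree_pow] at h2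
      rcases Nat.eq_zero_or_pos D.natDegree with hn | hn
      · rw [hn] at h2 ⊢
        simp only [mul_zero, zero_add] at h2
        omega
      · obtain ⟨m, hm⟩ : ∃ m, D.natDegree = m + 1 := ⟨D.natDegree - 1, by omega⟩
        obtain ⟨d, rfl⟩ := Nat.exists_eq_add_of_le hk
        rw [hm] at h2 ⊢
        rw [Nat.add_sub_cancel_left] at h2
        rw [Nat.add_sub_cancel]
        have e1 : (k + d) * (m + 1) = k * m + k + d * (m + 1) := by ring
        rw [e1] at h2
        omega

/-- binomial coefficients of multiples of `p ^ M` -/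
theorem StB_choose {p : ℕ} (hp : p.Prime) (M : ℕ) (j : ℕ) :
    ∀ i, 0 < i → i < p ^ M → p ∣ (p ^ M * j).choose i := by
  induction j with
  | zero =>
    intro i h1 h2
    rw [mul_zero, Nat.choose_eq_zero_of_lt h1]
    exact dvd_zero p
  | succ j ih =>
    intro i h1 h2
    rw [Nat.mul_succ, Nat.add_choose_eq]
    refine Finset.dvd_sum (fun ij hij => ?_)
    have hs := Finset.HasAntidiagonal.mem_antidiagonal.1 hij
    rcases Nat.eq_zero_or_pos ij.1 with h0 | h0
    · refine Dvd.dvd.mul_left ?_ _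
      exact hp.dvd_choose_pow (by omega) (by omega)
    · exact Dvd.dvd.mul_right (ih ij.1 h0 (by omega)) _

theorem hasse_mul_X_pow {p : ℕ} [Fact p.Prime] [CharP K p] {M : ℕ} (j : ℕ) {k : ℕ}
    (hk : k < p ^ M) (w : K[X]) :
    hasseDeriv k (w * X ^ (p ^ M * j)) = hasseDeriv k w * X ^ (p ^ M * j) := by
  rw [hasseDeriv_mul]
  rw [Finset.sum_eq_single (k, 0)]
  · rw [hasseDeriv_zero']
  · rintro ⟨i, i'⟩ hij hne
    have hs := Finset.HasAntidiagonal.mem_antidiagonal.1 hij
    dsimp only at hs ⊢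
    have h0 : 0 < i' := by
      rcases Nat.eq_zero_or_pos i' with h1 | h1
      · exfalso
        apply hne
        rw [h1, show i = k by omega]
      · exact h1
    have h1 := StB_choose (p := p) (Fact.out) M j i' h0 (by omega)
    rw [X_pow_eq_monomial, hasseDeriv_monomial, (CharP.cast_eq_zero_iff K p _).2 h1, zero_mul,
      monomial_zero_right, mul_zero]
  · intro hne
    exact absurd (Finset.HasAntidiagonal.mem_antidiagonal.2 (by simp)) hne

end LIF
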