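import Pool.Agent.helper1.LI.StB

/-!
[LI-StC] Stepanov's method, existence of the auxiliary polynomial by linear algebra
(import the stub `StB`).

`K` a field of characteristic `p`, `q = p^M`, `D` of degree `n ≥ 1`, `e = (q-1)/2`, `l ≤ q`.
If `∑_{k < l} (B + k (n-1) + J) < 2 J B` there are `r_j, s_j` (`j < J`) of degree `< B`, not all
zero, such that for all `x` with `x^q = x` and `D(x)^e = c`, and all `k < l`, the `k`-th Hasse
derivative of `R = D^l ∑_j (r_j + s_j D^e) X^(q j)` vanishes at `x`.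

Proof.  For `k < l` let `Θ_k`, `Θ'_k` be the linear maps of `st_deriv` for `N = l` and `N = l + e`.
`hasseDeriv k R = ∑_j (hasseDeriv k (D^l r_j) + hasseDeriv k (D^(l+e) s_j)) X^(q j)`
(`hasse_mul_X_pow`, `k < l ≤ q`) `= D^(l-k) ∑_j (Θ_k r_j + D^e Θ'_k s_j) X^(q j)`
(`l + e - k = (l - k) + e`).  For `x` as above the value is
`D(x)^(l-k) * (Ψ_k(r, s))(x)`, `Ψ_k(r, s) = ∑_j X^j (Θ_k r_j + c Θ'_k s_j)`.
`Ψ_k` is linear from `V = (Fin J → degreeLT K B) × (Fin J → degreeLT K B)` to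
`degreeLT K (B + k (n-1) + J)`: for `B ≥ 1` the degree of `X^j Θ w` is at most
`(J-1) + (B-1) + k(n-1)`; for `B = 0` everything is `0`, but then the hypothesis
`... < 2 J B = 0` is impossible.  `finrank V = 2 J B` (`Polynomial.degreeLTEquiv`,
`Module.finrank_fin_fun`), and the target of `(Ψ_k)_{k<l}` has dimension
`∑_{k<l} (B + k(n-1) + J)`, so the kernel is nonzero (`LinearMap.exists_ne_zero_of_..`,
`LinearMap.ker_ne_bot_of_finrank_lt`).  A nonzero element of the kernel gives `r, s`.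
-/

set_option autoImplicit false

namespace LIF

open Polynomial

theorem st_exists {K : Type*} [Field K] {p : ℕ} [Fact p.Prime] [CharP K p] {M : ℕ} {D : K[X]}
    (hn : 1 ≤ D.natDegree) (c : K) {l B J : ℕ} (hl : l ≤ p ^ M)
    (hdim : ∑ k ∈ Finset.range l, (B + k * (D.natDegree - 1) + J) < 2 * J * B) :
    ∃ r s : Fin J → K[X], (∃ j, r j ≠ 0 ∨ s j ≠ 0) ∧
      (∀ j, (r j).degree < (B : WithBot ℕ)) ∧ (∀ j, (s j).degree < (B : WithBot ℕ)) ∧
      ∀ x : K, x ^ (p ^ M) = x → (D.eval x) ^ ((p ^ M - 1) / 2) = c → ∀ k < l,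
        (hasseDeriv k (D ^ l * ∑ j, (r j + s j * D ^ ((p ^ M - 1) / 2)) *
          X ^ (p ^ M * (j : ℕ)))).eval x = 0 := by
  classical
  generalize he : (p ^ M - 1) / 2 = e
  have hD : D ≠ 0 := by
    rintro rfl
    simp at hn
  have hB : 1 ≤ B := by
    rcases Nat.eq_zero_or_pos B with h | h
    · subst h; simp at hdim
    · exact h
  have hΘ : ∀ k : Fin l, ∃ Θ : K[X] →ₗ[K] K[X],
      (∀ w, hasseDeriv k (D ^ l * w) = D ^ (l - k) * Θ w) ∧
        ∀ w, (Θ w).natDegree ≤ w.natDegree + k * (D.natDegree - 1) :=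
    fun k => st_deriv hD (le_of_lt k.2)
  choose Θ hΘ1 hΘ2 using hΘ
  have hΘ' : ∀ k : Fin l, ∃ Θ : K[X] →ₗ[K] K[X],
      (∀ w, hasseDeriv k (D ^ (l + e) * w) = D ^ (l + e - k) * Θ w) ∧
        ∀ w, (Θ w).natDegree ≤ w.natDegree + k * (D.natDegree - 1) :=
    fun k => st_deriv hD (by have := k.2; omega)
  choose Θ' hΘ'1 hΘ'2 using hΘ'
  let Pm : (Fin B → K) →ₗ[K] K[X] :=
    (degreeLT K B).subtype ∘ₗ (degreeLTEquiv K B).symm.toLinearMap
  have hPinj : Function.Injective Pm := by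
    intro a b hab
    have h1 : (degreeLTEquiv K B).symm a = (degreeLTEquiv K B).symm b := by
      apply Subtype.ext
      exact hab
    exact (degreeLTEquiv K B).symm.injective h1
  have hPdeg : ∀ v, (Pm v).degree < (B : WithBot ℕ) := fun v =>
    mem_degreeLT.mp ((degreeLTEquiv K B).symm v).2
  have hPnat : ∀ v, (Pm v).natDegree ≤ B - 1 := by
    intro v
    by_cases h0 : Pm v = 0
    · rw [h0]; simp
    · have := (natDegree_lt_iff_degree_lt h0).mpr (hPdeg v)
      omega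
  let Ψ : (k : Fin l) → ((Fin J → Fin B → K) × (Fin J → Fin B → K)) →ₗ[K] K[X] := fun k =>
    ∑ j : Fin J, (LinearMap.mulLeft K ((X : K[X]) ^ (j : ℕ))) ∘ₗ
      (Θ k ∘ₗ Pm ∘ₗ LinearMap.proj j ∘ₗ LinearMap.fst K _ _ +
        c • (Θ' k ∘ₗ Pm ∘ₗ LinearMap.proj j ∘ₗ LinearMap.snd K _ _))
  have hΨ : ∀ k v, Ψ k v = ∑ j : Fin J, X ^ (j : ℕ) *
      (Θ k (Pm (v.1 j)) + c • Θ' k (Pm (v.2 j))) := by
    intro k v
    simp [Ψ]
  have hΨdeg : ∀ k v, (Ψ k v).natDegree < B + k * (D.natDegree - 1) + J ∨ J = 0 := by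
    intro k v
    rcases Nat.eq_zero_or_pos J with hJ | hJ
    · exact Or.inr hJ
    left
    rw [hΨ]
    refine lt_of_le_of_lt (natDegree_sum_le_of_forall_le (n := (J - 1) + ((B - 1) +
      k * (D.natDegree - 1))) _ _ ?_) (by omega)
    intro j _
    refine le_trans natDegree_mul_le ?_
    have h1 : ((X : K[X]) ^ (j : ℕ)).natDegree ≤ J - 1 := by
      rw [natDegree_X_pow]
      have := j.2
      omega
    have h2 : (Θ k (Pm (v.1 j)) + c • Θ' k (Pm (v.2 j))).natDegree ≤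
        (B - 1) + k * (D.natDegree - 1) := by
      refine le_trans (natDegree_add_le _ _) ?_
      refine max_le ?_ ?_
      · exact le_trans (hΘ2 k _) (Nat.add_le_add_right (hPnat _) _)
      · refine le_trans (natDegree_smul_le _ _) ?_
        exact le_trans (hΘ'2 k _) (Nat.add_le_add_right (hPnat _) _)
    omega
  let F : ((Fin J → Fin B → K) × (Fin J → Fin B → K)) →ₗ[K]
      ((Σ k : Fin l, Fin (B + k * (D.natDegree - 1) + J)) → K) :=
    LinearMap.pi fun ki => (lcoeff K (ki.2 : ℕ)) ∘ₗ Ψ ki.1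
  have hfr1 : Module.finrank K ((Fin J → Fin B → K) × (Fin J → Fin B → K)) = 2 * J * B := by
    rw [Module.finrank_prod, Module.finrank_pi_fintype]
    simp
    ring
  have hfr2 : Module.finrank K ((Σ k : Fin l, Fin (B + k * (D.natDegree - 1) + J)) → K) =
      ∑ k ∈ Finset.range l, (B + k * (D.natDegree - 1) + J) := by
    rw [Module.finrank_fintype_fun_eq_card, Fintype.card_sigma, Finset.sum_range]
    simp
  have hker : LinearMap.ker F ≠ ⊥ :=
    LinearMap.ker_ne_bot_of_finrank_lt (by rw [hfr1, hfr2]; exact hdim)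
  obtain ⟨v, hv, hv0⟩ := Submodule.exists_mem_ne_zero_of_ne_bot hker
  have hJ : J ≠ 0 := by
    rintro rfl
    simp at hdim
  have hΨ0 : ∀ k, Ψ k v = 0 := by
    intro k
    ext i
    rw [coeff_zero]
    by_cases hi : i < B + k * (D.natDegree - 1) + J
    · have h1 : F v = 0 := hv
      have h2 := congrFun h1 ⟨k, ⟨i, hi⟩⟩
      exact h2
    · apply coeff_eq_zero_of_natDegree_lt
      rcases hΨdeg k v with h | h
      · omega
      · exact absurd h hJ
  refine ⟨fun j => Pm (v.1 j), fun j => Pm (v.2 j), ?_, fun j => hPdeg _, fun j => hPdeg _, ?_⟩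
  · by_contra hcon
    push Not at hcon
    apply hv0
    apply Prod.ext
    · funext j
      apply hPinj
      rw [(hcon j).1]
      simp
    · funext j
      apply hPinj
      rw [(hcon j).2]
      simp
  · intro x hx hDx k hk
    have key : hasseDeriv k (D ^ l * ∑ j : Fin J, (Pm (v.1 j) + Pm (v.2 j) * D ^ e) *
        X ^ (p ^ M * (j : ℕ))) = D ^ (l - k) * ∑ j : Fin J,
          (Θ ⟨k, hk⟩ (Pm (v.1 j)) + D ^ e * Θ' ⟨k, hk⟩ (Pm (v.2 j))) * X ^ (p ^ M * (j : ℕ)) := by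
      rw [Finset.mul_sum, map_sum, Finset.mul_sum]
      refine Finset.sum_congr rfl fun j _ => ?_
      have e1 : D ^ l * ((Pm (v.1 j) + Pm (v.2 j) * D ^ e) * X ^ (p ^ M * (j : ℕ))) =
          (D ^ l * Pm (v.1 j) + D ^ (l + e) * Pm (v.2 j)) * X ^ (p ^ M * (j : ℕ)) := by
        rw [pow_add]; ring
      rw [e1, hasse_mul_X_pow (p := p) (M := M) (j : ℕ) (lt_of_lt_of_le hk hl), map_add]
      have a1 := hΘ1 ⟨k, hk⟩ (Pm (v.1 j))
      have a2 := hΘ'1 ⟨k, hk⟩ (Pm (v.2 j))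
      simp only at a1 a2
      rw [a1, a2]
      have e2 : l + e - k = (l - k) + e := by omega
      rw [e2, pow_add]
      ring
    rw [key, eval_mul]
    have e3 : (∑ j : Fin J, (Θ ⟨k, hk⟩ (Pm (v.1 j)) + D ^ e * Θ' ⟨k, hk⟩ (Pm (v.2 j))) *
        X ^ (p ^ M * (j : ℕ))).eval x = (Ψ ⟨k, hk⟩ v).eval x := by
      rw [hΨ, eval_finsetSum, eval_finsetSum]
      refine Finset.sum_congr rfl fun j _ => ?_
      simp only [eval_mul, eval_add, eval_pow, eval_X, eval_smul, smul_eq_mul]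
      rw [pow_mul, hx, hDx]
      ring
    rw [e3, hΨ0]
    simp

end LIF
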