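import Pool.Agent.helper1.LI.Km
import Pool.Agent.helper1.LI.StA
import Pool.Agent.helper1.LI.StC

/-!
[LI-StD] Stepanov's bound: `#{x ∈ F_q : D(x)^((q-1)/2) = c} ≤ q/2 + O(√q)`, `q = p^(2m)`
(import the stubs `Km`, `StA`, `StC`).

`K = AlgebraicClosure (ZMod p)`, `D' = D.map (algebraMap _ K)`, `n = natDegree D` odd,
`D(0) ≠ 0`, `r = p^m ≥ n + 4`, `q = r^2 = p^(2m)`, `e = (q-1)/2`, `l = r`, `B = (q-n)/2`,
`J = (r + 2 n + 3)/2` (`r` odd; `2 B = q - n`, `2 J = r + 2 n + 3`).
(1) dimension: `∑_{k<l} (B + k(n-1) + J) = l (B + J) + (n-1) l (l-1)/2 < 2 J B`.  Multiply by 2: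
    `r (q - n) + r (r + 2n + 3) + (n-1) r (r-1) < (r + 2n + 3)(q - n)`; the difference
    right - left is `(n+3) q - (n+4) r - (2n+3) n > 0` because `r ≥ n + 4`.
(2) `D'^q ≡ D'(0) (mod X^q)`: `D'^q = expand q D'` (coefficients in `ZMod p`), so
    `D'^q - C (D'.coeff 0)` is divisible by `X^q`.
(3) `st_exists` (with `M = 2m`) gives `r_j, s_j`, not all zero; by `st_nonzero` the sum is nonzero,
    so `R = D'^l * (sum) ≠ 0`.
(4) Every `x` in the set `Z = {x ∈ Km p (2m) : D(x)^e = c}` is a root of `R` of multiplicity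
    `≥ l`: all Hasse derivatives of order `< l` vanish at `x`, so `X^l ∣ taylor x R`
    (`Polynomial.taylor_coeff`, `X_pow_dvd_iff`), so `(X - C x)^l ∣ R`.
    Hence `l * #Z ≤ natDegree R` (`Polynomial.card_roots'`, `count_roots`, `le_rootMultiplicity_iff`).
(5) `natDegree R ≤ l n + (B - 1) + n e + q (J - 1)`, so
    `2 r #Z ≤ 2 r n + (q - n) + n (q - 1) + q (r + 2n + 1) = 2 r n - 2 n + q (r + 3 n + 2)`
    and dividing by `r` (`q = r^2`): `2 #Z ≤ 2 n + q + (3 n + 2) r`.
-/

set_option autoImplicit false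

namespace LIF

open Polynomial
theorem StD_pow_expand {p : ℕ} [Fact p.Prime] (D : (ZMod p)[X]) (k : ℕ) :
    D ^ (p ^ k) = expand (ZMod p) (p ^ k) D := by
  induction k with
  | zero => simp
  | succ k ih =>
    rw [pow_succ, pow_mul, ih, ← ZMod.expand_card, expand_expand, mul_comm]

theorem StD_dvd {p : ℕ} [Fact p.Prime] (D : (ZMod p)[X]) (k : ℕ) :
    X ^ (p ^ k) ∣ D ^ (p ^ k) - C (D.coeff 0) := by
  have hpk : 0 < p ^ k := pow_pos (Fact.out (p := p.Prime)).pos k
  rw [StD_pow_expand D, X_pow_dvd_iff]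
  intro d hd
  rw [coeff_sub, coeff_expand hpk, coeff_C]
  by_cases h0 : d = 0
  · subst h0; simp
  · have : ¬ p ^ k ∣ d := fun h => by
      have := Nat.le_of_dvd (Nat.pos_of_ne_zero h0) h
      omega
    simp [h0, this]

theorem StD_root {K : Type*} [Field K] {R : K[X]} {x : K} {l : ℕ}
    (h : ∀ k < l, (hasseDeriv k R).eval x = 0) : (X - C x) ^ l ∣ R := by
  rw [X_sub_C_pow_dvd_iff, X_pow_dvd_iff]
  intro d hd
  have := taylor_coeff x R d
  rw [taylor_apply] at this
  rw [this]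
  exact h d hd

theorem StD_card {K : Type*} [Field K] {R : K[X]} (hR : R ≠ 0) {l : ℕ} (Z : Finset K)
    (h : ∀ x ∈ Z, ∀ k < l, (hasseDeriv k R).eval x = 0) : l * Z.card ≤ R.natDegree := by
  have h1 : ∏ x ∈ Z, (X - C x) ^ l ∣ R := by
    apply Finset.prod_dvd_of_coprime
    · intro a _ b _ hab
      exact IsCoprime.pow (pairwise_coprime_X_sub_C (s := fun x : K => x)
        Function.injective_id hab)
    · intro x hx
      exact StD_root (h x hx)
  have h2 := natDegree_le_of_dvd h1 hR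
  have h3 : (∏ x ∈ Z, (X - C x) ^ l).natDegree = l * Z.card := by
    rw [natDegree_prod_of_monic _ _ (fun x _ => (monic_X_sub_C x).pow l)]
    simp [natDegree_pow, mul_comm]
  omega

theorem StD_sum (l B n J : ℕ) :
    2 * ∑ k ∈ Finset.range l, (B + k * (n - 1) + J) =
      l * (2 * B) + l * (2 * J) + (n - 1) * (l * (l - 1)) := by
  rw [← Finset.sum_range_id_mul_two, Finset.sum_add_distrib, Finset.sum_add_distrib,
    ← Finset.sum_mul]
  simp
  ring

open scoped Classical in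
theorem st_bound {p : ℕ} [Fact p.Prime] (p2 : p ≠ 2) {D : (ZMod p)[X]}
    (hodd : Odd D.natDegree) (h0 : D.coeff 0 ≠ 0) {m : ℕ} (hm1 : 1 ≤ m)
    (hm : D.natDegree + 4 ≤ p ^ m) (c : AlgebraicClosure (ZMod p)) :
    2 * ((Km p (2 * m)).filter
      (fun x => (aeval x D) ^ ((p ^ (2 * m) - 1) / 2) = c)).card ≤
      p ^ (2 * m) + (3 * D.natDegree + 2) * p ^ m + 2 * D.natDegree := by
  classical
  have hpp : p.Prime := Fact.out
  have hpo : Odd p := hpp.odd_of_ne_two p2
  have : CharP (AlgebraicClosure (ZMod p)) p :=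
    charP_of_injective_algebraMap (algebraMap (ZMod p) (AlgebraicClosure (ZMod p))).injective p
  set n := D.natDegree with hn
  set Z := (Km p (2 * m)).filter (fun x => (aeval x D) ^ ((p ^ (2 * m) - 1) / 2) = c) with hZ
  set D' : (AlgebraicClosure (ZMod p))[X] := D.map (algebraMap (ZMod p) (AlgebraicClosure (ZMod p))) with hD'
  have hnD' : D'.natDegree = n := natDegree_map _
  obtain ⟨r, hr⟩ : ∃ r, r = p ^ m := ⟨_, rfl⟩
  have hqr : p ^ (2 * m) = r * r := by rw [two_mul, pow_add, hr]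
  have hro : Odd r := by rw [hr]; exact hpo.pow
  rw [← hr] at hm ⊢
  have hqo : Odd (p ^ (2 * m)) := hpo.pow
  have hn1 : 1 ≤ n := hodd.pos
  have hr0 : 0 < r := by omega
  have hrr : r ≤ r * r := Nat.le_mul_of_pos_left r (by omega)
  have hnq : n ≤ p ^ (2 * m) := by rw [hqr]; omega
  obtain ⟨B, hB⟩ : ∃ B, B = (p ^ (2 * m) - n) / 2 := ⟨_, rfl⟩
  obtain ⟨J, hJ⟩ : ∃ J, J = (r + 2 * n + 3) / 2 := ⟨_, rfl⟩
  have h2B : 2 * B + n = r * r := by
    obtain ⟨a, ha⟩ := hqo
    obtain ⟨b, hb⟩ := hodd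
    omega
  have h2J : 2 * J = r + 2 * n + 3 := by
    obtain ⟨a, ha⟩ := hro
    omega
  have hdim : ∑ k ∈ Finset.range r, (B + k * (D'.natDegree - 1) + J) < 2 * J * B := by
    rw [hnD']
    have h1 := StD_sum r B n J
    have h2 : r * (2 * B) + r * (2 * J) + (n - 1) * (r * (r - 1)) < (2 * J) * (2 * B) := by
      obtain ⟨n', hn'⟩ : ∃ n', n = n' + 1 := ⟨n - 1, by omega⟩
      obtain ⟨t, ht⟩ : ∃ t, r = n + 4 + t := ⟨r - (n + 4), by omega⟩
      have hb : (2 * B : ℕ) = r * r - n := by omega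
      have hb' : ((2 * B : ℕ) : ℤ) = r * r - n := by
        have : (2 * B : ℤ) + n = r * r := by exact_mod_cast h2B
        push_cast; linarith
      have hj' : ((2 * J : ℕ) : ℤ) = r + 2 * n + 3 := by exact_mod_cast h2J
      have hn1' : ((n - 1 : ℕ) : ℤ) = n - 1 := by push_cast [hn1]; ring
      have hr1 : 1 ≤ r := by omega
      have hr1' : ((r - 1 : ℕ) : ℤ) = r - 1 := by push_cast [hr1]; ring
      zify
      have g1 : ((2 : ℤ) * B) = r * r - n := by
        have := hb'; push_cast at this; exact this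
      have g2 : ((2 : ℤ) * J) = r + 2 * n + 3 := by
        have := hj'; push_cast at this; exact this
      rw [hn1', hr1', g1, g2]
      have hrt : (r : ℤ) = n + 4 + t := by exact_mod_cast ht
      have hn0 : (1 : ℤ) ≤ n := by exact_mod_cast hn1
      have ht0 : (0 : ℤ) ≤ t := by positivity
      rw [hrt]
      nlinarith [mul_nonneg ht0 ht0, mul_nonneg (mul_nonneg ht0 ht0) (by linarith : (0 : ℤ) ≤ n),
        mul_nonneg ht0 (by linarith : (0 : ℤ) ≤ n), mul_nonneg (by linarith : (0 : ℤ) ≤ n)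
        (by linarith : (0 : ℤ) ≤ n), mul_nonneg (mul_nonneg ht0 (by linarith : (0 : ℤ) ≤ n))
        (by linarith : (0 : ℤ) ≤ n), mul_nonneg (mul_nonneg (by linarith : (0 : ℤ) ≤ n)
        (by linarith : (0 : ℤ) ≤ n)) (by linarith : (0 : ℤ) ≤ n)]
    have h3 : 2 * (2 * J * B) = (2 * J) * (2 * B) := by ring
    omega
  obtain ⟨rr, ss, hne, hrd, hsd, hx⟩ := st_exists (K := AlgebraicClosure (ZMod p)) (p := p) (M := 2 * m) (D := D')
    (by rw [hnD']; exact hn1) c (l := r) (B := B) (J := J) (by rw [hqr]; exact hrr) hdim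
  have hDq : X ^ (p ^ (2 * m)) ∣ D' ^ (p ^ (2 * m)) - C (D'.coeff 0) := by
    have h1 := StD_dvd D (2 * m)
    have h2 := Polynomial.map_dvd (algebraMap (ZMod p) (AlgebraicClosure (ZMod p))) h1
    rw [Polynomial.map_sub, Polynomial.map_pow, Polynomial.map_pow, map_X, map_C] at h2
    rw [hD', coeff_map]
    exact h2
  set Sm : (AlgebraicClosure (ZMod p))[X] := ∑ j : Fin J, (rr j + ss j * D' ^ ((p ^ (2 * m) - 1) / 2)) *
    X ^ (p ^ (2 * m) * (j : ℕ)) with hSm
  have hSm0 : Sm ≠ 0 := by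
    intro h
    have h1 := st_nonzero (K := AlgebraicClosure (ZMod p)) (q := p ^ (2 * m)) (n := n) (J := J) (D := D') hnD' hodd hqo
      hnq (by
        rw [hD', coeff_map]
        intro h2
        exact h0 ((map_eq_zero _).mp h2)) hDq rr ss (by rw [← hB]; exact hrd)
      (by rw [← hB]; exact hsd) h
    obtain ⟨j, hj⟩ := hne
    rcases hj with hj | hj
    · exact hj (h1 j).1
    · exact hj (h1 j).2
  have hD'0 : D' ≠ 0 := by
    intro h
    rw [h, natDegree_zero] at hnD'
    omega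
  have hR : D' ^ r * Sm ≠ 0 := mul_ne_zero (pow_ne_zero _ hD'0) hSm0
  have hcard : r * Z.card ≤ (D' ^ r * Sm).natDegree := by
    apply StD_card hR
    intro x hxZ k hk
    rw [hZ, Finset.mem_filter] at hxZ
    have h1 : x ^ (p ^ (2 * m)) = x := (mem_Km (by omega)).mp hxZ.1
    have h2 : (D'.eval x) ^ ((p ^ (2 * m) - 1) / 2) = c := by
      rw [hD', eval_map_algebraMap]
      exact hxZ.2
    exact hx x h1 h2 k hk
  have hdeg : (D' ^ r * Sm).natDegree ≤ r * n + ((B - 1) + ((p ^ (2 * m) - 1) / 2) * n +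
      p ^ (2 * m) * (J - 1)) := by
    refine le_trans natDegree_mul_le ?_
    have h1 : (D' ^ r).natDegree ≤ r * n := by
      refine le_trans natDegree_pow_le ?_
      rw [hnD']
    have h2 : Sm.natDegree ≤ (B - 1) + ((p ^ (2 * m) - 1) / 2) * n + p ^ (2 * m) * (J - 1) := by
      rw [hSm]
      refine natDegree_sum_le_of_forall_le _ _ ?_
      intro j _
      refine le_trans natDegree_mul_le ?_
      have a1 : (X ^ (p ^ (2 * m) * (j : ℕ)) : (AlgebraicClosure (ZMod p))[X]).natDegree ≤ p ^ (2 * m) * (J - 1) := by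
        rw [natDegree_X_pow]
        exact Nat.mul_le_mul_left _ (by have := j.2; omega)
      have nd : ∀ w : (AlgebraicClosure (ZMod p))[X], w.degree < (B : WithBot ℕ) → w.natDegree ≤ B - 1 := by
        intro w hw
        by_cases hw0 : w = 0
        · rw [hw0]; simp
        · have := (natDegree_lt_iff_degree_lt hw0).mpr hw
          omega
      have a2 : (rr j + ss j * D' ^ ((p ^ (2 * m) - 1) / 2)).natDegree ≤
          (B - 1) + ((p ^ (2 * m) - 1) / 2) * n := by
        refine le_trans (natDegree_add_le _ _) (max_le ?_ ?_)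
        · exact le_trans (nd _ (hrd j)) (Nat.le_add_right _ _)
        · refine le_trans natDegree_mul_le ?_
          have a3 : (D' ^ ((p ^ (2 * m) - 1) / 2)).natDegree ≤ ((p ^ (2 * m) - 1) / 2) * n := by
            refine le_trans natDegree_pow_le ?_
            rw [hnD']
          have a4 := nd _ (hsd j)
          omega
      omega
    omega
  -- final arithmetic
  have h2e : 2 * ((p ^ (2 * m) - 1) / 2) + 1 = r * r := by
    obtain ⟨a, ha⟩ := hqo
    omega
  obtain ⟨e, he⟩ : ∃ e, e = (p ^ (2 * m) - 1) / 2 := ⟨_, rfl⟩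
  rw [← he] at hdeg h2e
  clear hx
  rw [hqr] at hdeg
  suffices hsuf : 2 * Z.card ≤ r * r + (3 * n + 2) * r + 2 * n by
    rw [← hqr] at hsuf
    exact hsuf
  have hB1 : 1 ≤ B := by
    have : r * r ≥ n + 4 := by omega
    omega
  have hJ1 : 1 ≤ J := by omega
  obtain ⟨b, rfl⟩ : ∃ b, B = b + 1 := ⟨B - 1, by omega⟩
  obtain ⟨j, rfl⟩ : ∃ j, J = j + 1 := ⟨J - 1, by omega⟩
  simp only [Nat.add_sub_cancel] at hdeg
  have hfin : r * (2 * Z.card) ≤ r * (r * r + (3 * n + 2) * r + 2 * n) := by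
    have h1 : r * Z.card ≤ r * n + (b + e * n + r * r * j) := le_trans hcard hdeg
    have hj2 : 2 * j = r + 2 * n + 1 := by omega
    have h2 : r * (2 * Z.card) ≤ 2 * (r * n) + (2 * b + (2 * e) * n + r * r * (2 * j)) := by
      have : 2 * (r * Z.card) ≤ 2 * (r * n + (b + e * n + r * r * j)) := by omega
      calc r * (2 * Z.card) = 2 * (r * Z.card) := by ring
        _ ≤ 2 * (r * n + (b + e * n + r * r * j)) := this
        _ = _ := by ring
    rw [hj2] at h2
    have h3 : 2 * b + (2 * e) * n ≤ r * r + r * r * n := by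
      have h4 : 2 * e ≤ r * r := by omega
      have h5 : (2 * e) * n ≤ r * r * n := Nat.mul_le_mul_right _ h4
      omega
    calc r * (2 * Z.card) ≤ 2 * (r * n) + (2 * b + (2 * e) * n + r * r * (r + 2 * n + 1)) := h2
      _ ≤ 2 * (r * n) + (r * r + r * r * n + r * r * (r + 2 * n + 1)) := by omega
      _ = r * (r * r + (3 * n + 2) * r + 2 * n) := by ring
  exact Nat.le_of_mul_le_mul_left hfin hr0

end LIF
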