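import Pool.Agent.helper1.LI.Km

/-!
[LI-Tei] Power sums of Teichmüller representatives (import the stub `Km`).

`K = AlgebraicClosure (ZMod p)`, `W = WittVector p K` (a domain of characteristic `0`),
`τ = WittVector.teichmuller p : K →* W` (multiplicative, `τ 0 = 0`: `WittVector.teichmuller_zero`,
injective: its `0`-th coefficient is the identity, `WittVector.teichmuller_coeff_zero`).

Proof.  `m ≥ 1`, `q = p^m`.  `k = 0`: `q` terms equal to `1` (`card_Km`).
`k ≥ 1`: the term `x = 0` vanishes.  `Km p m ∖ {0}` is the set of `(q-1)`-th roots of unity of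
`K`, a cyclic group of order `q - 1` (`rootsOfUnity` cyclic; `card_Km`), let `ζ` be a generator.
If `(q - 1) ∣ k` every term is `τ(x^k) = τ 1 = 1`: the sum is `q - 1`.
Otherwise let `S = ∑_{x ∈ Km ∖ 0} τ(x)^k`; multiplication by `ζ` permutes the set, so
`S = τ(ζ)^k S`, and `τ(ζ)^k = τ(ζ^k) ≠ 1` since `ζ^k ≠ 1` and `τ` is injective; `W` is a domain,
so `S = 0`.  (No generator needed: if `(q-1) ∤ k` there is `y ∈ Km ∖ 0` with `y^k ≠ 1`, because
`X^gcd(k, q-1) - 1` has fewer than `q - 1` roots.)
-/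

set_option autoImplicit false

namespace LIF

open Polynomial

theorem Tei_pow_sub_one {p : ℕ} [Fact p.Prime] {m : ℕ} (hm : 1 ≤ m)
    {x : AlgebraicClosure (ZMod p)} (hx : x ∈ Km p m) (h0 : x ≠ 0) : x ^ (p ^ m - 1) = 1 := by
  have h1 : x ^ (p ^ m) = x := (mem_Km hm).1 hx
  have h2 : 0 < p ^ m := pow_pos (Fact.out : p.Prime).pos m
  have h3 : x ^ (p ^ m - 1) * x = 1 * x := by
    rw [← pow_succ, Nat.sub_add_cancel h2, h1, one_mul]
  exact mul_right_cancel₀ h0 h3

theorem Tei_zero_mem {p : ℕ} [Fact p.Prime] {m : ℕ} (hm : 1 ≤ m) :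
    (0 : AlgebraicClosure (ZMod p)) ∈ Km p m := by
  rw [mem_Km hm]
  exact zero_pow (pow_pos (Fact.out : p.Prime).pos m).ne'

theorem Tei_exists {p : ℕ} [Fact p.Prime] {m : ℕ} (hm : 1 ≤ m) {k : ℕ}
    (hk : ¬ (p ^ m - 1) ∣ k) : ∃ y ∈ Km p m, y ≠ 0 ∧ y ^ k ≠ 1 := by
  classical
  by_contra hcon
  push Not at hcon
  have hp : 1 < p := (Fact.out : p.Prime).one_lt
  have hq : 1 < p ^ m := Nat.one_lt_pow (by omega) hp
  have hr0 : 0 < k % (p ^ m - 1) := Nat.pos_of_ne_zero (fun h => hk (Nat.dvd_of_mod_eq_zero h))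
  have hr1 : k % (p ^ m - 1) < p ^ m - 1 := Nat.mod_lt _ (by omega)
  have h1 : (Km p m).erase 0 ⊆
      (nthRoots (k % (p ^ m - 1)) (1 : AlgebraicClosure (ZMod p))).toFinset := by
    intro y hy
    obtain ⟨hy0, hy1⟩ := Finset.mem_erase.1 hy
    rw [Multiset.mem_toFinset, mem_nthRoots hr0]
    have h2 := hcon y hy1 hy0
    rw [← Nat.div_add_mod k (p ^ m - 1), pow_add, pow_mul, Tei_pow_sub_one hm hy1 hy0, one_pow,
      one_mul] at h2
    exact h2
  have h2 := Finset.card_le_card h1
  have h3 := Multiset.toFinset_card_le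
    (nthRoots (k % (p ^ m - 1)) (1 : AlgebraicClosure (ZMod p)))
  have h4 := card_nthRoots (k % (p ^ m - 1)) (1 : AlgebraicClosure (ZMod p))
  rw [Finset.card_erase_of_mem (Tei_zero_mem hm), card_Km hm] at h2
  omega

theorem Tei_inj {p : ℕ} [Fact p.Prime] {a b : AlgebraicClosure (ZMod p)}
    (h : WittVector.teichmuller p a = WittVector.teichmuller p b) : a = b := by
  have h1 := congrArg (fun w : WittVector p (AlgebraicClosure (ZMod p)) => w.coeff 0) h
  simpa only [WittVector.teichmuller_coeff_zero] using h1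

theorem sum_teichmuller {p : ℕ} [Fact p.Prime] {m : ℕ} (hm : 1 ≤ m) (k : ℕ) :
    ∑ x ∈ Km p m, (WittVector.teichmuller p x) ^ k =
      if k = 0 then ((p : WittVector p (AlgebraicClosure (ZMod p))) ^ m)
      else if (p ^ m - 1) ∣ k then
        ((p : WittVector p (AlgebraicClosure (ZMod p))) ^ m - 1) else 0 := by
  classical
  by_cases hk0 : k = 0
  · rw [if_pos hk0, hk0]
    simp only [pow_zero]
    rw [Finset.sum_const, card_Km hm, nsmul_one, Nat.cast_pow]
  · rw [if_neg hk0]
    by_cases hd : (p ^ m - 1) ∣ k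
    · rw [if_pos hd]
      have h1 : ∀ x ∈ Km p m, (WittVector.teichmuller p x) ^ k =
          1 - if x = 0 then (1 : WittVector p (AlgebraicClosure (ZMod p))) else 0 := by
        intro x hx
        by_cases hx0 : x = 0
        · rw [if_pos hx0, hx0, WittVector.teichmuller_zero, zero_pow hk0, sub_self]
        · rw [if_neg hx0, sub_zero, ← map_pow]
          obtain ⟨c, hc⟩ := hd
          rw [hc, pow_mul, Tei_pow_sub_one hm hx hx0, one_pow, map_one]
      rw [Finset.sum_congr rfl h1, Finset.sum_sub_distrib, Finset.sum_ite_eq',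
        if_pos (Tei_zero_mem hm), Finset.sum_const, card_Km hm, nsmul_one, Nat.cast_pow]
    · rw [if_neg hd]
      obtain ⟨y, hy, hy0, hyk⟩ := Tei_exists hm hd
      have hmul : ∀ a ∈ Km p m, ∀ b ∈ Km p m, a * b ∈ Km p m := by
        intro a ha b hb
        rw [mem_Km hm] at *
        rw [mul_pow, ha, hb]
      have hinv : y⁻¹ ∈ Km p m := by
        rw [mem_Km hm] at *
        rw [inv_pow, hy]
      have h1 : ∑ x ∈ Km p m, (WittVector.teichmuller p (y * x)) ^ k =
          ∑ x ∈ Km p m, (WittVector.teichmuller p x) ^ k := by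
        refine Finset.sum_nbij' (fun x => y * x) (fun x => y⁻¹ * x) ?_ ?_ ?_ ?_ ?_
        · intro x hx
          exact hmul y hy x hx
        · intro x hx
          exact hmul _ hinv x hx
        · intro x _
          exact inv_mul_cancel_left₀ hy0 x
        · intro x _
          exact mul_inv_cancel_left₀ hy0 x
        · intro x _
          rfl
      have h2 : ∑ x ∈ Km p m, (WittVector.teichmuller p (y * x)) ^ k =
          (WittVector.teichmuller p y) ^ k *
            ∑ x ∈ Km p m, (WittVector.teichmuller p x) ^ k := by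
        rw [Finset.mul_sum]
        refine Finset.sum_congr rfl ?_
        intro x _
        rw [map_mul, mul_pow]
      have h3 : ((WittVector.teichmuller p y) ^ k - 1) *
          ∑ x ∈ Km p m, (WittVector.teichmuller p x) ^ k = 0 := by
        rw [sub_mul, one_mul, ← h2, h1, sub_self]
      rcases mul_eq_zero.1 h3 with h4 | h4
      · exfalso
        apply hyk
        apply Tei_inj
        rw [map_pow, map_one]
        exact sub_eq_zero.1 h4
      · exact h4

end LIF
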