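import Pool.Agent.helper1.LI.Val

/-!
[LI-Units] Newton polygon, first step: exactly `g - 1` roots are units (import the stub `Val`).
(proofs: helper46)

`f ∈ ℤ[X]` monic of degree `2 g` with roots the multiset `s` in the field `E`
(`f = ∏_{x ∈ s} (X - x)` in `E[X]`, `card s = 2 g`), `p ∣ f_j` for `j ≤ g`, `p ∤ f_(g+1)`;
`v` a valuation with `v p < 1`.  Then exactly `g - 1` elements of `s` have `v x = 1`, all have
`v x ≤ 1` (integral).

Proof.  Let `κ` be the residue field of the valuation ring `A`, `x ↦ x̄`.  All `x ∈ s` lie in `A`,
so `f̄ = ∏ (X - x̄)` in `κ[X]` (map the identity in `A[X]`; `A → E` is injective on polynomials).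
The coefficients of `f̄` with index `≤ g` vanish and the coefficient with index `g + 1` does not
(`val_int_unit`), so the multiplicity of the root `0` of `f̄` is exactly `g + 1`
(`Polynomial.natTrailingDegree`, `rootMultiplicity_zero`..), i.e. exactly `g + 1` elements of `s`
have `x̄ = 0`, i.e. `v x < 1`; the other `2 g - (g + 1) = g - 1` have `v x = 1`.

Alternative without residue field: write `s = U + N` (`v = 1`, `v < 1`), `u = card U`,
`G = ∏_{x∈N} (X - x)`: all coefficients of `G` except the leading one have `v < 1`;
`H = ∏_{x ∈ U}(X - x)`: coefficients `v ≤ 1`, constant term `v = 1`.  The coefficient of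
`X^(card N)` in `f = G H` is `H_0 * 1 + (terms with v < 1)`, so has `v = 1`, and the coefficients
with index `< card N` have `v < 1`.  Hence `card N = g + 1`, since `v(f_j) < 1` for `j ≤ g` and
`v(f_(g+1)) = 1` (`val_int_dvd`, `val_int_unit`).
-/

set_option autoImplicit false

namespace LIF

open Polynomial

theorem Units_mem_iff {E : Type*} [Field E] (A : ValuationSubring E) (x : A) :
    A.valuation (x : E) = 1 ↔ IsLocalRing.residue A x ≠ 0 := by
  rw [IsLocalRing.residue_ne_zero_iff_isUnit, ValuationSubring.valuation_eq_one_iff]

theorem Units_int_zero {E : Type*} [Field E] (A : ValuationSubring E) {p : ℕ}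
    (hp : A.valuation (p : E) < 1) {c : ℤ} (h : (p : ℤ) ∣ c) :
    ((c : ℤ) : IsLocalRing.ResidueField A) = 0 := by
  have h1 : A.valuation ((c : A) : E) < 1 := by
    have h2 : ((c : A) : E) = (c : E) := by norm_cast
    rw [h2]
    exact (val_int_dvd A h).trans_lt hp
  have h3 : IsLocalRing.residue A (c : A) = 0 := by
    by_contra h4
    exact h1.ne ((Units_mem_iff A _).2 h4)
  rw [← h3, map_intCast]

theorem Units_int_ne_zero {E : Type*} [Field E] (A : ValuationSubring E) {p : ℕ} [Fact p.Prime]
    (hp : A.valuation (p : E) < 1) {c : ℤ} (h : ¬ (p : ℤ) ∣ c) :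
    ((c : ℤ) : IsLocalRing.ResidueField A) ≠ 0 := by
  have h1 : A.valuation ((c : A) : E) = 1 := by
    have h2 : ((c : A) : E) = (c : E) := by norm_cast
    rw [h2]
    exact val_int_unit A hp h
  have h3 := (Units_mem_iff A _).1 h1
  rw [map_intCast] at h3
  exact h3

open scoped Classical in
theorem units_card {E : Type*} [Field E] (A : ValuationSubring E) {p : ℕ} [Fact p.Prime]
    (hp : A.valuation (p : E) < 1) {g : ℕ} (g1 : 1 ≤ g) {f : ℤ[X]} (s : Multiset E)
    (hs : f.map (Int.castRingHom E) = (s.map (fun x => X - C x)).prod)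
    (hcard : s.card = 2 * g)
    (hlow : ∀ j ≤ g, (p : ℤ) ∣ f.coeff j) (hmid : ¬ (p : ℤ) ∣ f.coeff (g + 1))
    (hle : ∀ x ∈ s, A.valuation x ≤ 1) :
    (s.filter (fun x => A.valuation x = 1)).card = g - 1 := by
  obtain ⟨t, rfl⟩ : ∃ t : Multiset A, t.map (fun x : A => (x : E)) = s := by
    refine ⟨s.attach.map (fun x => ⟨x.1, (A.valuation_le_one_iff _).1 (hle _ x.2)⟩), ?_⟩
    rw [Multiset.map_map]
    exact s.attach_map_val
  rw [Multiset.card_map] at hcard
  -- the identity in `A[X]`
  have h1 : f.map (Int.castRingHom A) = (t.map (fun x => X - C x)).prod := by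
    apply Polynomial.map_injective (A.subtype) (A.subtype_injective)
    rw [Polynomial.map_map, Polynomial.map_multiset_prod, Multiset.map_map]
    rw [Multiset.map_map] at hs
    have h2 : (A.subtype).comp (Int.castRingHom A) = Int.castRingHom E := RingHom.ext_int _ _
    rw [h2, hs]
    congr 1
    refine Multiset.map_congr rfl ?_
    intro x _
    simp
  -- the identity over the residue field
  have h3 : f.map (Int.castRingHom (IsLocalRing.ResidueField A)) =
      ((t.map (IsLocalRing.residue A)).map (fun x => X - C x)).prod := by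
    have h2 : (IsLocalRing.residue A).comp (Int.castRingHom A) =
      Int.castRingHom (IsLocalRing.ResidueField A) := RingHom.ext_int _ _
    rw [← h2, ← Polynomial.map_map, h1, Polynomial.map_multiset_prod, Multiset.map_map,
      Multiset.map_map]
    congr 1
    refine Multiset.map_congr rfl ?_
    intro x _
    simp
  have hc : ∀ j, (f.map (Int.castRingHom (IsLocalRing.ResidueField A))).coeff j =
      ((f.coeff j : ℤ) : IsLocalRing.ResidueField A) := by
    intro j
    rw [coeff_map, eq_intCast]
  have hne : (f.map (Int.castRingHom (IsLocalRing.ResidueField A))).coeff (g + 1) ≠ 0 := by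
    rw [hc]
    exact Units_int_ne_zero A hp hmid
  have htr : (f.map (Int.castRingHom (IsLocalRing.ResidueField A))).natTrailingDegree = g + 1 := by
    refine le_antisymm (natTrailingDegree_le_of_ne_zero hne) ?_
    refine le_natTrailingDegree ?_ ?_
    · intro h0
      rw [h0, coeff_zero] at hne
      exact hne rfl
    · intro j hj
      rw [hc]
      exact Units_int_zero A hp (hlow j (by omega))
  have h4 : (t.map (IsLocalRing.residue A)).count 0 = g + 1 := by
    rw [← htr, ← rootMultiplicity_eq_natTrailingDegree', ← count_roots, h3,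
      roots_multiset_prod_X_sub_C]
  have h5 : (t.filter (fun x => IsLocalRing.residue A x = 0)).card = g + 1 := by
    rw [← h4, Multiset.count_map]
    congr 1
    refine Multiset.filter_congr ?_
    intro x _
    exact eq_comm
  have h6 : ((t.map (fun x : A => (x : E))).filter (fun x => A.valuation x = 1)).card =
      (t.filter (fun x => ¬ IsLocalRing.residue A x = 0)).card := by
    rw [Multiset.filter_map, Multiset.card_map]
    congr 1
    refine Multiset.filter_congr ?_
    intro x _
    exact Units_mem_iff A x
  have h7 := congrArg Multiset.card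
    (Multiset.filter_add_not (fun x => IsLocalRing.residue A x = 0) t)
  rw [Multiset.card_add, h5, hcard] at h7
  rw [h6]
  omega

end LIF
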