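import Pool.Agent.helper1.LI.Defs

/-!
[LI-X7Def] definitions and the expansion of `D^3` for `p = 7`,
`D = (1 - X)(X^(2N) + 3 X^N - 1)`.
-/

set_option autoImplicit false

namespace LIF

open Polynomial

/-- the matrix for `p = 7` -/
noncomputable def A7 (N : ℕ) : Matrix (Fin N) (Fin N) (ZMod 7) :=
  HW 7 N (Dp (X ^ (2 * N) + 3 * X ^ N - 1 : (ZMod 7)[X]))

/-- `(x^2 + 3 x - 1)^3` -/
noncomputable def E7 : (ZMod 7)[X] := (X ^ 2 + 3 * X - 1) ^ 3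

theorem seven_zero : (7 : (ZMod 7)[X]) = 0 := by
  have h : (C (7 : ZMod 7) : (ZMod 7)[X]) = 7 := by
    rw [show (7 : ZMod 7) = ((7 : ℕ) : ZMod 7) by norm_num, C_eq_natCast]; norm_num
  rw [← h, show (7 : ZMod 7) = 0 from by decide, C_0]

theorem E7_eq : E7 = C 6 + C 2 * X + C 4 * X ^ 2 + C 2 * X ^ 3 + C 3 * X ^ 4 + C 2 * X ^ 5
    + X ^ 6 := by
  have h6 : (C (6 : ZMod 7) : (ZMod 7)[X]) = 6 := C_ofNat 6
  have h2 : (C (2 : ZMod 7) : (ZMod 7)[X]) = 2 := C_ofNat 2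
  have h4 : (C (4 : ZMod 7) : (ZMod 7)[X]) = 4 := C_ofNat 4
  have h3 : (C (3 : ZMod 7) : (ZMod 7)[X]) = 3 := C_ofNat 3
  rw [h6, h2, h4, h3]
  unfold E7
  linear_combination (-1 + X - 4 * X ^ 2 + X ^ 3 + 3 * X ^ 4 + X ^ 5) * seven_zero

theorem E7_coeff (c : ℕ) : E7.coeff c =
    if c = 0 then 6 else if c = 1 then 2 else if c = 2 then 4 else if c = 3 then 2
    else if c = 4 then 3 else if c = 5 then 2 else if c = 6 then 1 else 0 := by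
  rw [E7_eq]
  simp only [coeff_add, coeff_C, coeff_C_mul, coeff_X, coeff_X_pow]
  rcases c with _ | _ | _ | _ | _ | _ | _ | c
  all_goals simp
  all_goals omega

theorem E7_natDegree : E7.natDegree ≤ 7 - 1 := by
  rw [natDegree_le_iff_coeff_eq_zero]
  intro c hc
  rw [E7_coeff]
  have : c ≠ 0 ∧ c ≠ 1 ∧ c ≠ 2 ∧ c ≠ 3 ∧ c ≠ 4 ∧ c ≠ 5 ∧ c ≠ 6 := by omega
  simp [this.1, this.2.1, this.2.2.1, this.2.2.2.1, this.2.2.2.2.1, this.2.2.2.2.2.1,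
    this.2.2.2.2.2.2]

theorem E7_ne (c : ℕ) (hc : c < 7) : E7.coeff c ≠ 0 := by
  rw [E7_coeff]
  interval_cases c <;> simp <;> decide

theorem D7_pow (N : ℕ) : (Dp (X ^ (2 * N) + 3 * X ^ N - 1 : (ZMod 7)[X])) ^ ((7 - 1) / 2) =
    (1 - X) ^ ((7 - 1) / 2) * expand (ZMod 7) N E7 := by
  have : expand (ZMod 7) N E7 = (X ^ (2 * N) + 3 * X ^ N - 1 : (ZMod 7)[X]) ^ ((7 - 1) / 2) := by
    unfold E7
    have h3 : expand (ZMod 7) N (3 : (ZMod 7)[X]) = 3 := map_ofNat _ 3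
    simp only [map_pow, map_sub, map_add, map_mul, expand_X, map_one, h3]
    rw [← pow_mul, mul_comm N 2]
  rw [this]
  unfold Dp
  rw [mul_pow]

theorem A7_eq (N : ℕ) : A7 N = HWr 7 N ((1 - X) ^ ((7 - 1) / 2) * expand (ZMod 7) N E7) := by
  unfold A7 HW
  rw [D7_pow]

end LIF
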